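import Pool.Agent.NSV.Stmts

open MeasureTheory Set Filter Topology
open scoped RealInnerProductSpace ContDiff ENNReal

noncomputable section

namespace Pool.Agent.NSV

namespace CellsX

/-- Sum of `N` rescaled copies of `p`. -/
def ph (N : ℕ) (w : ℕ → ℝ) (p : ℝ → ℝ) (t : ℝ) : ℝ := ∑ l ∈ Finset.range N, w l * p (N * t - l)

/-- `p` vanishes outside `(0,1)`. -/
def Van (p : ℝ → ℝ) : Prop := ∀ s, (s ≤ 0 ∨ 1 ≤ s) → p s = 0

theorem ph_eq {N : ℕ} {w : ℕ → ℝ} {p : ℝ → ℝ} (hp : Van p) {t : ℝ} {l : ℕ} (hl : l < N)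
    (h1 : (l : ℝ) ≤ N * t) (h2 : N * t ≤ (l : ℝ) + 1) : ph N w p t = w l * p (N * t - l) := by
  rw [ph, Finset.sum_eq_single l]
  · intro k _ hk
    rcases lt_or_gt_of_ne hk with h | h
    · have h3 : (k : ℝ) + 1 ≤ l := by exact_mod_cast h
      rw [hp _ (Or.inr (by linarith)), mul_zero]
    · have h3 : (l : ℝ) + 1 ≤ k := by exact_mod_cast h
      rw [hp _ (Or.inl (by linarith)), mul_zero]
  · intro h
    exact absurd (Finset.mem_range.mpr hl) h

theorem ph_cases (N : ℕ) (hN : 0 < N) (t : ℝ) :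
    (∀ (w : ℕ → ℝ) (p : ℝ → ℝ), Van p → ph N w p t = 0) ∨ ∃ l : ℕ, l < N ∧ (l : ℝ) ≤ N * t ∧ N * t ≤ (l : ℝ) + 1 := by
  have hN' : (0 : ℝ) < N := by exact_mod_cast hN
  by_cases h0 : N * t ≤ 0
  · left
    intro w p hp
    apply Finset.sum_eq_zero
    intro l _
    have : (0 : ℝ) ≤ l := Nat.cast_nonneg l
    rw [hp _ (Or.inl (by linarith)), mul_zero]
  · push Not at h0
    by_cases h1 : (N : ℝ) ≤ N * t
    · left
      intro w p hp
      apply Finset.sum_eq_zero
      intro l hl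
      have : (l : ℝ) + 1 ≤ N := by exact_mod_cast Finset.mem_range.mp hl
      rw [hp _ (Or.inr (by linarith)), mul_zero]
    · push Not at h1
      right
      refine ⟨⌊N * t⌋₊, ?_, Nat.floor_le h0.le, (Nat.lt_floor_add_one _).le⟩
      exact (Nat.floor_lt h0.le).mpr h1

theorem van_of_supp {p : ℝ → ℝ} (h : tsupport p ⊆ Ioo 0 1) : Van p := by
  intro s hs
  by_contra hne
  have h1 : s ∈ Ioo (0 : ℝ) 1 := h (subset_tsupport _ hne)
  rcases hs with hs | hs
  · exact absurd h1.1 (not_lt.mpr hs)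
  · exact absurd h1.2 (not_lt.mpr hs)

theorem van_deriv {p : ℝ → ℝ} (h : tsupport p ⊆ Ioo 0 1) : Van (deriv p) :=
  van_of_supp ((tsupport_deriv_subset (f := p) (𝕜 := ℝ)).trans h)

theorem ph_contDiff {N : ℕ} {w : ℕ → ℝ} {p : ℝ → ℝ} (hp : ContDiff ℝ ∞ p) : ContDiff ℝ ∞ (ph N w p) := by
  unfold ph
  fun_prop

theorem ph_deriv {N : ℕ} {w : ℕ → ℝ} {p : ℝ → ℝ} (hp : ContDiff ℝ ∞ p) (t : ℝ) :
    deriv (ph N w p) t = ph N (fun l => N * w l) (deriv p) t := by
  have hd : Differentiable ℝ p := hp.differentiable (by simp)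
  have h1 : HasDerivAt (ph N w p) (∑ l ∈ Finset.range N, w l * (deriv p (N * t - l) * N)) t := by
    unfold ph
    apply HasDerivAt.fun_sum
    intro l _
    apply HasDerivAt.const_mul
    have h2 : HasDerivAt (fun t : ℝ => N * t - (l : ℝ)) (N : ℝ) t := by
      simpa using ((hasDerivAt_id t).const_mul (N : ℝ)).sub_const (l : ℝ)
    exact (hd (N * t - l)).hasDerivAt.comp t h2
  rw [h1.deriv, ph]
  apply Finset.sum_congr rfl
  intro l _
  ring

theorem ph_supp {N : ℕ} (hN : 0 < N) {w : ℕ → ℝ} {p : ℝ → ℝ} (h : tsupport p ⊆ Ioo 0 1) :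
    tsupport (ph N w p) ⊆ Ioo 0 1 := by
  have hN' : (0 : ℝ) < N := by exact_mod_cast hN
  have h1 : tsupport (ph N w p) ⊆ ⋃ l ∈ Finset.range N, (fun t : ℝ => N * t - (l : ℝ)) ⁻¹' tsupport p := by
    apply closure_minimal
    · intro t ht
      by_contra hne
      apply ht
      apply Finset.sum_eq_zero
      intro l hl
      have h2 : N * t - (l : ℝ) ∉ tsupport p := by
        intro h3
        exact hne (mem_iUnion₂.mpr ⟨l, hl, h3⟩)
      rw [image_eq_zero_of_notMem_tsupport h2, mul_zero]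
    · apply Set.Finite.isClosed_biUnion (Finset.finite_toSet _)
      intro l _
      exact (isClosed_tsupport p).preimage (by fun_prop)
  intro t ht
  obtain ⟨l, hl, h2⟩ := mem_iUnion₂.mp (h1 ht)
  have h3 := h h2
  have h4 : (0 : ℝ) ≤ l := Nat.cast_nonneg l
  have h5 : (l : ℝ) + 1 ≤ N := by exact_mod_cast Finset.mem_range.mp hl
  have h6 : (0 : ℝ) < N * t - l := h3.1
  have h7 : (N : ℝ) * t - l < 1 := h3.2
  constructor
  · by_contra hc
    push Not at hc
    nlinarith
  · by_contra hc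
    push Not at hc
    nlinarith

theorem vol_pre (N : ℕ) (hN : 0 < N) (S : Set ℝ) (l : ℕ) :
    volume ((fun t : ℝ => N * t - (l : ℝ)) ⁻¹' S) = ENNReal.ofReal ((N : ℝ)⁻¹) * volume S := by
  have hN' : (0 : ℝ) < N := by exact_mod_cast hN
  have h1 : (fun t : ℝ => N * t - (l : ℝ)) ⁻¹' S = ((N : ℝ) * ·) ⁻¹' ((fun s => s + (-(l : ℝ))) ⁻¹' S) := by
    ext t
    simp [sub_eq_add_neg]
  rw [h1, Real.volume_preimage_mul_left hN'.ne', measure_preimage_add_right, abs_of_pos (by positivity)]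

theorem vol_union (N : ℕ) (hN : 0 < N) (S T : Set ℝ)
    (h : ∀ t ∈ T, ∃ l : ℕ, l < N ∧ N * t - (l : ℝ) ∈ S) : volume T ≤ volume S := by
  have hN' : (0 : ℝ) < N := by exact_mod_cast hN
  have h1 : T ⊆ ⋃ l ∈ Finset.range N, (fun t : ℝ => N * t - (l : ℝ)) ⁻¹' S := by
    intro t ht
    obtain ⟨l, hl, h2⟩ := h t ht
    exact mem_iUnion₂.mpr ⟨l, Finset.mem_range.mpr hl, h2⟩
  calc volume T ≤ ∑ l ∈ Finset.range N, volume ((fun t : ℝ => N * t - (l : ℝ)) ⁻¹' S) :=
        (measure_mono h1).trans (measure_biUnion_finset_le _ _)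
    _ = ∑ l ∈ Finset.range N, ENNReal.ofReal ((N : ℝ)⁻¹) * volume S := by
        apply Finset.sum_congr rfl
        intro l _
        exact vol_pre N hN S l
    _ = volume S := by
        rw [Finset.sum_const, Finset.card_range, nsmul_eq_mul, ← mul_assoc, ENNReal.ofReal_inv_of_pos hN',
          ENNReal.ofReal_natCast, ENNReal.mul_inv_cancel (by exact_mod_cast hN.ne') (by simp), one_mul]

theorem exists_bd {p : ℝ → ℝ} (hp : Continuous p) (h : tsupport p ⊆ Ioo 0 1) : ∃ B : ℝ, 0 ≤ B ∧ ∀ s, |p s| ≤ B := by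
  have hc : HasCompactSupport p :=
    HasCompactSupport.of_support_subset_isCompact (isCompact_Icc (a := (0 : ℝ)) (b := 1))
      ((subset_tsupport p).trans (h.trans Ioo_subset_Icc_self))
  obtain ⟨B, hB⟩ := hp.bounded_above_of_compact_support hc
  refine ⟨max B 0, le_max_right _ _, fun s => ?_⟩
  exact (hB s).trans (le_max_left _ _)

theorem cell_cov (N : ℕ) (hN : 0 < N) (l : ℕ) (f : ℝ → ℝ) :
    ∫ s in ((l : ℝ) / N)..(((l : ℝ) + 1) / N), f (N * s - l) = (N : ℝ)⁻¹ * ∫ s in (0 : ℝ)..1, f s := by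
  have hN' : (N : ℝ) ≠ 0 := by exact_mod_cast hN.ne'
  rw [intervalIntegral.integral_comp_mul_sub f hN' (l : ℝ)]
  have h1 : (N : ℝ) * ((l : ℝ) / N) - l = 0 := by field_simp; ring
  have h2 : (N : ℝ) * (((l : ℝ) + 1) / N) - l = 1 := by field_simp; ring
  rw [h1, h2, smul_eq_mul]

theorem cell_mem (N : ℕ) (hN : 0 < N) (l : ℕ) {s : ℝ}
    (hs : s ∈ uIcc ((l : ℝ) / N) (((l : ℝ) + 1) / N)) : (l : ℝ) ≤ N * s ∧ N * s ≤ (l : ℝ) + 1 := by
  have hN' : (0 : ℝ) < N := by exact_mod_cast hN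
  have hle : (l : ℝ) / N ≤ ((l : ℝ) + 1) / N := by gcongr; linarith
  rw [uIcc_of_le hle] at hs
  constructor
  · have := hs.1
    rw [div_le_iff₀ hN'] at this
    linarith
  · have := hs.2
    rw [le_div_iff₀ hN'] at this
    linarith

end CellsX

open CellsX in
theorem cells_proof : Stmt_Cells := by
  intro n P c L hP hc hc0 hcL
  have hB : ∀ j, ∃ B : ℝ, 0 ≤ B ∧ ∀ s, |P j s| ≤ B ∧ |deriv (P j) s| ≤ B := by
    intro j
    obtain ⟨B₁, h1, h2⟩ := exists_bd (hP.smooth j).continuous (hP.supp j)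
    obtain ⟨B₂, h3, h4⟩ := exists_bd ((hP.smooth j).continuous_deriv (by simp))
      ((tsupport_deriv_subset (f := P j) (𝕜 := ℝ)).trans (hP.supp j))
    refine ⟨B₁ + B₂, by linarith, fun s => ⟨by linarith [h2 s], by linarith [h4 s]⟩⟩
  choose B hB0 hB1 using hB
  have hBs : ∀ j, B j ≤ ∑ i, B i := fun j => Finset.single_le_sum (fun i _ => hB0 i) (Finset.mem_univ j)
  have hBs0 : 0 ≤ ∑ i, B i := Finset.sum_nonneg (fun i _ => hB0 i)
  refine ⟨√L * ∑ i, B i, by positivity, ?_⟩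
  intro N hN
  have hN' : (0 : ℝ) < N := by exact_mod_cast hN
  set mc : Fin n → ℕ → ℝ := fun j l => N * ∫ s in ((l : ℝ) / N)..(((l : ℝ) + 1) / N), c j s with hmc
  have hle : ∀ l : ℕ, (l : ℝ) / N ≤ ((l : ℝ) + 1) / N := fun l => by gcongr; linarith
  have hsub : ∀ l : ℕ, l < N → uIcc ((l : ℝ) / N) (((l : ℝ) + 1) / N) ⊆ Icc 0 1 := by
    intro l hl
    rw [uIcc_of_le (hle l)]
    apply Icc_subset_Icc
    · positivity
    · rw [div_le_one hN']
      exact_mod_cast hl
  have hint : ∀ j l, l < N → IntervalIntegrable (c j) volume ((l : ℝ) / N) (((l : ℝ) + 1) / N) := by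
    intro j l hl
    exact ((hc j).mono (hsub l hl)).intervalIntegrable
  have hm0 : ∀ j l, 0 ≤ mc j l := by
    intro j l
    apply mul_nonneg hN'.le
    exact intervalIntegral.integral_nonneg (hle l) (fun s _ => hc0 j s)
  have hmL : ∀ j l, l < N → mc j l ≤ L := by
    intro j l hl
    have h1 : ∫ s in ((l : ℝ) / N)..(((l : ℝ) + 1) / N), c j s
        ≤ ∫ s in ((l : ℝ) / N)..(((l : ℝ) + 1) / N), L :=
      intervalIntegral.integral_mono_on (hle l) (hint j l hl) (by simp) (fun s _ => hcL j s)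
    rw [intervalIntegral.integral_const, smul_eq_mul] at h1
    have h2 : (((l : ℝ) + 1) / N - (l : ℝ) / N) * L = L / N := by field_simp; ring
    rw [h2] at h1
    calc mc j l ≤ N * (L / N) := mul_le_mul_of_nonneg_left h1 hN'.le
      _ = L := by field_simp
  have hsq : ∀ j l, l < N → √(mc j l) ≤ √L := fun j l hl => Real.sqrt_le_sqrt (hmL j l hl)
  have hVan : ∀ j, Van (P j) := fun j => van_of_supp (hP.supp j)
  have hVan' : ∀ j, Van (deriv (P j)) := fun j => van_deriv (hP.supp j)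
  set φ : Fin n → ℝ → ℝ := fun j => ph N (fun l => √(mc j l)) (P j) with hφ
  have hφe : ∀ (j : Fin n) (t : ℝ) (l : ℕ), l < N → (l : ℝ) ≤ N * t → N * t ≤ (l : ℝ) + 1 →
      φ j t = √(mc j l) * P j (N * t - l) := fun j t l hl h1 h2 => ph_eq (hVan j) hl h1 h2
  refine ⟨φ, ⟨?_, ?_, ?_, ?_⟩, ?_, ?_, ?_, ?_, ?_⟩
  · exact fun j => ph_contDiff (hP.smooth j)
  · exact fun j => ph_supp hN (hP.supp j)
  · -- meas
    intro m hm lam hlam
    apply vol_union N hN
    intro t ht
    rcases ph_cases N hN t with h | ⟨l, hl, h1, h2⟩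
    · exfalso
      have h3 : ∑ j, m j * |φ j t| = 0 := by
        apply Finset.sum_eq_zero
        intro j _
        rw [show φ j t = 0 from h _ _ (hVan j), abs_zero, mul_zero]
      have h4 : lam < ∑ j, m j * |φ j t| := ht
      rw [h3] at h4
      exact absurd h4 (not_lt.mpr hlam)
    · refine ⟨l, hl, ?_⟩
      have h4 : lam < ∑ j, m j * |φ j t| := ht
      refine lt_of_lt_of_le h4 ?_
      rw [Finset.mul_sum]
      apply Finset.sum_le_sum
      intro j _
      rw [hφe j t l hl h1 h2, abs_mul, abs_of_nonneg (Real.sqrt_nonneg _)]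
      calc m j * (√(mc j l) * |P j (N * t - l)|) = √(mc j l) * (m j * |P j (N * t - l)|) := by ring
        _ ≤ √L * (m j * |P j (N * t - l)|) :=
          mul_le_mul_of_nonneg_right (hsq j l hl) (mul_nonneg (hm j) (abs_nonneg _))
  · -- vol
    apply vol_union N hN
    rintro t ⟨j, hj⟩
    rcases ph_cases N hN t with h | ⟨l, hl, h1, h2⟩
    · exact absurd (h _ _ (hVan j)) hj
    · refine ⟨l, hl, j, ?_⟩
      rw [hφe j t l hl h1 h2] at hj
      exact right_ne_zero_of_mul hj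
  · -- disj
    intro i j hij s
    rcases ph_cases N hN s with h | ⟨l, hl, h1, h2⟩
    · rw [show φ i s = 0 from h _ _ (hVan i), zero_mul]
    · rw [hφe i s l hl h1 h2, hφe j s l hl h1 h2]
      have := hP.disj i j hij (N * s - l)
      calc √(mc i l) * P i (N * s - l) * (√(mc j l) * P j (N * s - l))
          = √(mc i l) * √(mc j l) * (P i (N * s - l) * P j (N * s - l)) := by ring
        _ = 0 := by rw [this, mul_zero]
  · -- bd
    intro j t
    rcases ph_cases N hN t with h | ⟨l, hl, h1, h2⟩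
    · rw [show φ j t = 0 from h _ _ (hVan j), abs_zero]
      positivity
    · rw [hφe j t l hl h1 h2, abs_mul, abs_of_nonneg (Real.sqrt_nonneg _)]
      exact mul_le_mul (hsq j l hl) ((hB1 j _).1.trans (hBs j)) (abs_nonneg _) (Real.sqrt_nonneg _)
  · -- bd1
    intro j t
    rw [show deriv (φ j) t = ph N (fun l => N * √(mc j l)) (deriv (P j)) t from ph_deriv (hP.smooth j) t]
    rcases ph_cases N hN t with h | ⟨l, hl, h1, h2⟩
    · rw [h _ _ (hVan' j), abs_zero]
      positivity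
    · rw [ph_eq (hVan' j) hl h1 h2, abs_mul, abs_mul, abs_of_nonneg (Real.sqrt_nonneg _), abs_of_nonneg hN'.le]
      calc N * √(mc j l) * |deriv (P j) (N * t - l)| = (√(mc j l) * |deriv (P j) (N * t - l)|) * N := by ring
        _ ≤ (√L * ∑ i, B i) * N := by
          apply mul_le_mul_of_nonneg_right _ hN'.le
          exact mul_le_mul (hsq j l hl) ((hB1 j _).2.trans (hBs j)) (abs_nonneg _) (Real.sqrt_nonneg _)
  · -- mean
    intro j l hl
    have h1 : ∫ s in ((l : ℝ) / N)..(((l : ℝ) + 1) / N), φ j s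
        = ∫ s in ((l : ℝ) / N)..(((l : ℝ) + 1) / N), √(mc j l) * P j (N * s - l) := by
      apply intervalIntegral.integral_congr
      intro s hs
      obtain ⟨h1, h2⟩ := cell_mem N hN l hs
      exact hφe j s l hl h1 h2
    rw [h1, intervalIntegral.integral_const_mul, cell_cov N hN l (P j), hP.mean j]
    ring
  · -- sq
    intro j l hl
    have h1 : ∫ s in ((l : ℝ) / N)..(((l : ℝ) + 1) / N), φ j s ^ 2
        = ∫ s in ((l : ℝ) / N)..(((l : ℝ) + 1) / N), mc j l * (fun r => P j r ^ 2) (N * s - l) := by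
      apply intervalIntegral.integral_congr
      intro s hs
      obtain ⟨h1, h2⟩ := cell_mem N hN l hs
      show φ j s ^ 2 = mc j l * P j (N * s - l) ^ 2
      rw [hφe j s l hl h1 h2, mul_pow, Real.sq_sqrt (hm0 j l)]
    have hci : IntervalIntegrable (fun s => φ j s ^ 2) volume ((l : ℝ) / N) (((l : ℝ) + 1) / N) := by
      apply Continuous.intervalIntegrable
      exact (ph_contDiff (hP.smooth j)).continuous.pow 2
    rw [intervalIntegral.integral_sub hci (hint j l hl), h1, intervalIntegral.integral_const_mul,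
      cell_cov N hN l (fun r => P j r ^ 2), hP.sq j, hmc]
    field_simp
    ring

end Pool.Agent.NSV
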