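import Pool.Agent.NSV.Basic
import Pool.Agent.NSD.Glue

/-!
# MP_fd8964_an, Theorem V: module CONCAT (concatenation of the steps)
-/

open MeasureTheory Set Filter Topology
open scoped RealInnerProductSpace ContDiff ENNReal

noncomputable section

namespace Pool.Agent.NSV

open Pool.Agent.NSD Pool.Agent.NSK

namespace ConcatX

theorem glue' {X : Type*} [NormedAddCommGroup X] [NormedSpace ℝ X] [CompleteSpace X] {x : ℝ → X}
    {W : ℕ → ℝ → X} (hW1 : ∀ n : ℕ, MemLp (W n) 2 (volume.restrict (Ioc (n : ℝ) (n + 1))))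
    (hW2 : ∀ n : ℕ, ∀ t ∈ Icc (n : ℝ) (n + 1), x t = x n + ∫ s in (n : ℝ)..t, W n s) :
    IsH1loc x (fun s => W (⌈s⌉₊ - 1) s) ∧
      ∀ n : ℕ, ∀ s ∈ Ioc (n : ℝ) (n + 1), W (⌈s⌉₊ - 1) s = W n s := by
  set w : ℝ → X := fun s => W (⌈s⌉₊ - 1) s with hwdef
  have hw : ∀ n : ℕ, ∀ s ∈ Ioc (n : ℝ) (n + 1), w s = W n s := by
    intro n s hs
    have h1 : ⌈s⌉₊ = n + 1 := by
      rw [Nat.ceil_eq_iff (by omega)]
      push_cast
      simpa using hs
    show W (⌈s⌉₊ - 1) s = W n s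
    rw [h1, Nat.add_sub_cancel]
  refine ⟨?_, hw⟩
  have hmem1 : ∀ n : ℕ, MemLp w 2 (volume.restrict (Ioc (n : ℝ) (n + 1))) := by
    intro n
    refine (hW1 n).ae_eq ?_
    filter_upwards [ae_restrict_mem measurableSet_Ioc] with s hs
    exact (hw n s hs).symm
  have hmem2 : ∀ n : ℕ, MemLp w 2 (volume.restrict (Ioc (0 : ℝ) n)) := by
    intro n
    induction n with
    | zero => simp
    | succ n ih =>
      have : Ioc (0 : ℝ) ((n + 1 : ℕ) : ℝ) = Ioc (0 : ℝ) n ∪ Ioc (n : ℝ) (n + 1) := by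
        rw [Ioc_union_Ioc_eq_Ioc (by positivity) (by linarith)]
        push_cast; rfl
      rw [this]
      exact memLp_two_union ih (hmem1 n)
  have hmem : ∀ T : ℝ, MemLp w 2 (volume.restrict (Ioc 0 T)) := by
    intro T
    obtain ⟨n, hn⟩ := exists_nat_ge T
    exact (hmem2 n).mono_measure (Measure.restrict_mono (Ioc_subset_Ioc_right hn) le_rfl)
  have hint : ∀ a b : ℝ, 0 ≤ a → a ≤ b → IntervalIntegrable w volume a b := by
    intro a b ha hab
    rw [intervalIntegrable_iff_integrableOn_Ioc_of_le hab]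
    have h1 : IntegrableOn w (Ioc 0 b) := (hmem b).integrable one_le_two
    exact h1.mono_set (Ioc_subset_Ioc_left ha)
  have hstep : ∀ n : ℕ, ∀ t ∈ Icc (n : ℝ) (n + 1), x t = x n + ∫ s in (n : ℝ)..t, w s := by
    intro n t ht
    rw [hW2 n t ht]
    congr 1
    rw [intervalIntegral.integral_of_le ht.1, intervalIntegral.integral_of_le ht.1]
    apply setIntegral_congr_fun measurableSet_Ioc
    intro s hs
    exact (hw n s ⟨hs.1, hs.2.trans ht.2⟩).symm
  have hnat : ∀ n : ℕ, x n = x 0 + ∫ s in (0 : ℝ)..n, w s := by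
    intro n
    induction n with
    | zero => simp
    | succ n ih =>
      have h1 := hstep n (n + 1) ⟨by linarith, le_rfl⟩
      push_cast
      rw [h1, ih, add_assoc, intervalIntegral.integral_add_adjacent_intervals
        (hint 0 n le_rfl (by positivity)) (hint n (n + 1) (by positivity) (by linarith))]
  refine ⟨hmem, ?_⟩
  intro t ht
  have h1 := hstep ⌊t⌋₊ t ⟨Nat.floor_le ht, (Nat.lt_floor_add_one t).le⟩
  rw [h1, hnat, add_assoc, intervalIntegral.integral_add_adjacent_intervals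
    (hint 0 _ le_rfl (by positivity)) (hint _ t (by positivity) (Nat.floor_le ht))]

theorem mp_shift (l : ℝ) : MeasurePreserving (fun t : ℝ => t - l) (volume.restrict (Ioc l (l + 1)))
    (volume.restrict (Ioc 0 1)) := by
  have h3 := (measurePreserving_sub_right (volume : Measure ℝ) l).restrict_preimage
    (measurableSet_Ioc (a := 0) (b := 1))
  have h4 : (fun t : ℝ => t - l) ⁻¹' Ioc 0 1 = Ioc l (l + 1) := by
    ext t
    simp only [mem_preimage, mem_Ioc]
    constructor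
    · rintro ⟨a, b⟩; exact ⟨by linarith, by linarith⟩
    · rintro ⟨a, b⟩; exact ⟨by linarith, by linarith⟩
  rwa [h4] at h3

theorem ae_shift (l : ℝ) {P : ℝ → Prop} (h : ∀ᵐ s ∂(volume.restrict (Ioc (0 : ℝ) 1)), P s) :
    ∀ᵐ t ∂(volume.restrict (Ioc l (l + 1))), P (t - l) :=
  (mp_shift l).quasiMeasurePreserving.ae h

end ConcatX

open ConcatX

theorem concat_proof (hStep : Stmt_Step) : Stmt_Concat := by
  intro V K _ _ _ _ _ _ D A wt η f f₁ u₀ h₀ w q τ ε hA hwt hη hf hcpt hw hq hε hτ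
  set ε' : ℕ → ℝ := fun l => min (ε l) (ε (l + 1)) / 2 with hε'
  have hε'0 : ∀ l, 0 < ε' l := fun l => by
    have := lt_min (hε l) (hε (l + 1))
    simp only [hε']; linarith
  have hε'1 : ∀ l, ε' l ≤ ε l / 2 := fun l => by
    simp only [hε']
    have := min_le_left (ε l) (ε (l + 1))
    linarith
  have hε'2 : ∀ l, ε' l ≤ ε (l + 1) / 2 := fun l => by
    simp only [hε']
    have := min_le_right (ε l) (ε (l + 1))
    linarith
  set τ' : ℝ := min τ 1 with hτ'
  have hτ'0 : 0 < τ' := lt_min hτ one_pos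
  have hτ'1 : τ' ≤ 1 := min_le_right _ _
  let State : ℕ → Type := fun l => {p : V × K // Cpt D η (f (l : ℝ)) p.1 p.2 ∧
    (0 < l → ‖D.ι (p.1 - w (l : ℝ))‖ ≤ ε l / 2)}
  have hstep : ∀ (l : ℕ) (s : State l), ∃ (n : ℕ) (a : Fin n → V) (φ : Fin n → ℝ → ℝ) (u u₁ : ℝ → V)
      (h₁ : K), IsStep D A wt η (fun t => f (t + l)) s.1.1 (fun t => w (t + l)) q (ε' l) τ' n a φ u u₁ h₁ := by
    intro l s
    refine hStep V K D A wt η (fun t => f (t + l)) (fun t => f₁ (t + l)) s.1.1 s.1.2 (fun t => w (t + l)) q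
      (ε' l) τ' hA hwt hη (isH1loc_shift hf (Nat.cast_nonneg l)) ?_ ?_ hq (hε'0 l) hτ'0
    · simpa using s.2.1
    · exact hw.comp (contDiff_id.add contDiff_const)
  choose n a φ u u₁ h₁ H using hstep
  have hφ0 : ∀ l s j, φ l s j 0 = 0 := by
    intro l s j
    by_contra hne
    exact lt_irrefl _ ((H l s).supp j (subset_tsupport _ hne)).1
  have hφ1 : ∀ l s j, φ l s j 1 = 0 := by
    intro l s j
    by_contra hne
    exact lt_irrefl _ ((H l s).supp j (subset_tsupport _ hne)).2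
  have hnext : ∀ (l : ℕ) (s : State l), Cpt D η (f ((l + 1 : ℕ) : ℝ)) (u l s 1) (h₁ l s) ∧
      (0 < l + 1 → ‖D.ι (u l s 1 - w ((l + 1 : ℕ) : ℝ))‖ ≤ ε (l + 1) / 2) := by
    intro l s
    have e : ((l + 1 : ℕ) : ℝ) = 1 + (l : ℝ) := by push_cast; ring
    refine ⟨?_, fun _ => ?_⟩
    · rw [e]; exact (H l s).cpt
    · have h2 := (H l s).close' 1 ⟨hτ'1, le_rfl⟩
      simp only [hφ1, zero_smul, Finset.sum_const_zero, sub_zero] at h2
      rw [e]
      exact h2.trans (hε'2 l)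
  let next : ∀ l : ℕ, State l → State (l + 1) := fun l s => ⟨(u l s 1, h₁ l s), hnext l s⟩
  let s₀ : State 0 := ⟨(u₀, h₀), by simpa using hcpt, fun h => absurd h (lt_irrefl 0)⟩
  let S : ∀ l : ℕ, State l := fun l => Nat.rec s₀ next l
  have hS0 : S 0 = s₀ := rfl
  have hS1 : ∀ l, S (l + 1) = next l (S l) := fun l => rfl
  set U : ℕ → ℝ → V := fun l => u l (S l) with hU
  set U₁ : ℕ → ℝ → V := fun l => u₁ l (S l) with hU₁
  have hU0 : ∀ l, U l 0 = (S l).1.1 := fun l => (H l (S l)).init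
  have hUs : ∀ l, U (l + 1) 0 = U l 1 := fun l => by rw [hU0]
  set ug : ℝ → V := fun t => U ⌊t⌋₊ (t - ⌊t⌋₊) with hug
  have hug1 : ∀ l : ℕ, ∀ t ∈ Icc (l : ℝ) (l + 1), ug t = U l (t - l) := by
    intro l t ht
    rcases eq_or_lt_of_le ht.2 with h1 | h1
    · have h2 : ⌊t⌋₊ = l + 1 := by
        rw [h1]
        exact_mod_cast Nat.floor_natCast (R := ℝ) (l + 1)
      show U ⌊t⌋₊ (t - ⌊t⌋₊) = U l (t - l)
      rw [h2, h1]
      push_cast
      rw [sub_self, add_sub_cancel_left]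
      exact hUs l
    · have h2 : ⌊t⌋₊ = l := by
        rw [Nat.floor_eq_iff ((Nat.cast_nonneg l).trans ht.1)]
        exact ⟨ht.1, h1⟩
      simp only [hug, h2]
  set W : ℕ → ℝ → V := fun l s => U₁ l (s - l) with hW
  have hW1 : ∀ l : ℕ, MemLp (W l) 2 (volume.restrict (Ioc (l : ℝ) (l + 1))) := fun l =>
    ((H l (S l)).sol.h1.memLp 1).comp_measurePreserving (mp_shift l)
  have hW2 : ∀ l : ℕ, ∀ t ∈ Icc (l : ℝ) (l + 1), ug t = ug l + ∫ s in (l : ℝ)..t, W l s := by
    intro l t ht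
    rw [hug1 l t ht, hug1 l l ⟨le_rfl, by linarith⟩, sub_self]
    have h1 := (H l (S l)).sol.h1.eq (t - l) (by linarith [ht.1])
    simp only [hW]
    rw [intervalIntegral.integral_comp_sub_right (fun s => U₁ l s) (l : ℝ), sub_self]
    exact h1
  obtain ⟨hH1, hWeq⟩ := glue' hW1 hW2
  refine ⟨fun l => n l (S l), fun l => a l (S l), fun l => φ l (S l), ug, fun s => W (⌈s⌉₊ - 1) s,
    fun l j => (H l (S l)).A j, fun l j => (H l (S l)).smooth j, fun l j => (H l (S l)).supp j,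
    fun l => ((H l (S l)).lf).trans (ENNReal.ofReal_le_ofReal ?_),
    fun l => ((H l (S l)).vol).trans (ENNReal.ofReal_le_ofReal ?_), hH1, ?_, ?_, ?_, ?_⟩
  · have := hε'1 l; have := hε l; linarith
  · have := hε'1 l; have := hε l; linarith
  · have := hug1 0 0 ⟨by simp, by simp⟩
    rw [this]
    simp only [Nat.cast_zero, sub_zero]
    rw [hU0]
    rfl
  · intro T
    have hEB : ∀ l : ℕ, ∃ C : ℝ, ∀ᵐ t ∂(volume.restrict (Ioc (l : ℝ) (l + 1))), ‖D.ι (W l t)‖ ≤ C := by
      intro l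
      obtain ⟨C, hC⟩ := (H l (S l)).eb 1
      exact ⟨C, ae_shift l hC⟩
    choose C hC using hEB
    obtain ⟨N, hN⟩ := exists_nat_ge T
    refine ⟨∑ l ∈ Finset.range N, |C l|, ?_⟩
    have h1 : ∀ᵐ t ∂(volume : Measure ℝ), ∀ l : ℕ, t ∈ Ioc (l : ℝ) (l + 1) → ‖D.ι (W l t)‖ ≤ C l := by
      rw [ae_all_iff]
      intro l
      exact (ae_restrict_iff' measurableSet_Ioc).1 (hC l)
    rw [ae_restrict_iff' measurableSet_Ioc]
    filter_upwards [h1] with t ht htm
    have hc1 : 1 ≤ ⌈t⌉₊ := Nat.one_le_iff_ne_zero.2 (by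
      have := Nat.ceil_pos.2 htm.1
      omega)
    have hc2 : ⌈t⌉₊ ≤ N := Nat.ceil_le.2 (htm.2.trans hN)
    have hmem : t ∈ Ioc ((⌈t⌉₊ - 1 : ℕ) : ℝ) ((⌈t⌉₊ - 1 : ℕ) + 1) := by
      have e : ((⌈t⌉₊ - 1 : ℕ) : ℝ) = (⌈t⌉₊ : ℝ) - 1 := by
        rw [Nat.cast_sub hc1]; simp
      rw [e]
      have h2 := Nat.le_ceil t
      have h3 := Nat.ceil_lt_add_one htm.1.le
      exact ⟨by linarith, by linarith⟩
    refine (ht _ hmem).trans ((le_abs_self _).trans ?_)
    exact Finset.single_le_sum (f := fun l => |C l|) (fun l _ => abs_nonneg _)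
      (Finset.mem_range.2 (by omega))
  · intro l
    have h1 := ae_shift (l : ℝ) (H l (S l)).sol.eq
    filter_upwards [h1, ae_restrict_mem measurableSet_Ioc] with t ht htm y
    rw [hWeq l t htm, hug1 l t ⟨htm.1.le, htm.2⟩]
    have h2 := ht y
    simp only [sub_add_cancel] at h2
    simp only [hW]
    refine h2.trans ?_
    simp [add_apply, sum_apply, smul_apply, J_apply]
  · intro l t ht hlt
    rw [hug1 l t ht]
    have hs : t - l ∈ Icc (0 : ℝ) 1 := ⟨by linarith [ht.1], by linarith [ht.2]⟩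
    rcases hlt with h0 | h0
    · have h1 := (H l (S l)).close (t - l) hs
      simp only [sub_add_cancel, zero_add] at h1
      have h2 := (S l).2.2 h0
      refine h1.trans ?_
      have := hε'1 l
      linarith
    · rcases Nat.eq_zero_or_pos l with hl | hl
      · subst hl
        have h3 : τ' ≤ t - ((0 : ℕ) : ℝ) := by
          simp only [Nat.cast_zero, sub_zero]
          exact (min_le_left _ _).trans h0
        have h1 := (H 0 (S 0)).close' (t - ((0 : ℕ) : ℝ)) ⟨h3, hs.2⟩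
        simp only [sub_add_cancel] at h1
        refine h1.trans ?_
        have := hε'1 0
        have := hε 0
        linarith
      · have h1 := (H l (S l)).close (t - l) hs
        simp only [sub_add_cancel, zero_add] at h1
        have h2 := (S l).2.2 hl
        refine h1.trans ?_
        have := hε'1 l
        linarith

end Pool.Agent.NSV
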