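import Pool.Agent.NSV.Stmts
import Pool.Agent.NSK.MainK

/-!
# MP_fd8964_an, Theorem V: module CONE (the cone generated by the `B(a,a)` is dense in `V'`)
-/

open MeasureTheory Set Filter Topology
open scoped RealInnerProductSpace ContDiff

noncomputable section

namespace Pool.Agent.NSV

open Pool.Agent.NSD Pool.Agent.NSK

namespace ConeX

open Pool.Agent.NSK.Layer66

variable {n : ℕ} {a : Fin n → E → ℝ} {k ξ : Fin n → E} {G : E → E} {Ω : Set E} {q : E → ℝ}

/-- The remainder of the self-interaction of the wave. -/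
def Rem (a : Fin n → E → ℝ) (k ξ : Fin n → E) (q : E → ℝ) (G : E → E) (N : ℝ) (x : E) : E :=
  adv (fA a k ξ N) (fA a k ξ N) x - ((2 * N ^ 2) • G x + (N ^ 2 / 2) • gradS q x)

theorem bdRem (h4 : Stmt_R4) (hK : Kick Ω 1 n a k ξ q G) : BN 1 (Rem a k ξ q G) := by
  have h0 : IsTest Ω (0 : E → E) := isTest_zero Ω
  have h1 := bdR4 h4 hK h0
  have b1 : BN 1 (fun _ : ℝ => lap G) :=
    (BN_const (Layer66.contDiff_lap hK.test.smooth).continuous
      (hasCompactSupport_lap hK.test.compact)).mono (by norm_num)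
  refine (h1.add b1).congr fun N x => ?_
  have e1 : adv (0 : E → E) G x = 0 := by simp [adv]
  have e2 : adv G (0 : E → E) x = 0 := by simp [adv]
  rw [e1, e2, Rem]
  module

/-- Norm bound from a bound on all values. -/
theorem approx (h4 : Stmt_R4) (hA : Stmt_Adv) (hG : Stmt_Grad) (hΩ : IsOpen Ω)
    (hb : Bornology.IsBounded Ω) (D : Data (V Ω) (L2 Ω)) (hD : IsNSData Ω D)
    {G : E → E} {p : V Ω} (hK : IsKick Ω 1 G) (hp : Represents Ω G p) {δ : ℝ} (hδ : 0 < δ) :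
    ∃ x : V Ω, InTest' x ∧ ∀ v, |D.b x x v - 2 * ⟪fld p, fld v⟫| ≤ δ * ‖v‖ := by
  obtain ⟨n, a, k, ξ, q, hK⟩ := hK
  obtain ⟨C, hC, hR⟩ := bdRem h4 hK
  obtain ⟨K, hK0, hKb⟩ := norm_cls (Ω := Ω) E hb
  obtain ⟨N, hN1, hN⟩ : ∃ N : ℝ, 1 ≤ N ∧ K * C / N ≤ δ := by
    refine ⟨max 1 (K * C / δ), le_max_left _ _, ?_⟩
    have h0 : 0 < max 1 (K * C / δ) := lt_of_lt_of_le one_pos (le_max_left _ _)
    rw [div_le_iff₀ h0]
    have h1 := le_max_right 1 (K * C / δ)
    have h2 : K * C = δ * (K * C / δ) := by field_simp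
    rw [h2]
    exact mul_le_mul_of_nonneg_left (by rw [← h2]; exact h1) hδ.le
  have hN0 : 0 < N := by linarith
  have hT : IsTest Ω (fA a k ξ N) := isTest_fA hK N
  obtain ⟨pA, hpA⟩ := Rep_proof Ω _ hT
  refine ⟨N⁻¹ • pA, ⟨N⁻¹ • fA a k ξ N, hT.smul _, rep_smul _ hT hpA⟩, fun v => ?_⟩
  have hcR : Continuous (Rem a k ξ q G N) := by
    have c1 : Continuous (adv (fA a k ξ N) (fA a k ξ N)) :=
      (Layer66.contDiff_adv hT.smooth hT.smooth).continuous
    have c2 : Continuous G := hK.test.smooth.continuous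
    have c3 : Continuous (gradS q) := (contDiff_gradS hK.pres.1).continuous
    unfold Rem
    fun_prop
  have hsR : HasCompactSupport (Rem a k ξ q G N) := by
    have c1 : HasCompactSupport (adv (fA a k ξ N) (fA a k ξ N)) := hasCompactSupport_adv hT.compact
    have c2 : HasCompactSupport G := hK.test.compact
    have c3 : HasCompactSupport (gradS q) := hasCompactSupport_gradS hK.pres.2.1
    have c4 : HasCompactSupport (fun x => (2 * N ^ 2) • G x) :=
      c2.comp_left (g := fun y : E => (2 * N ^ 2) • y) (smul_zero _)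
    have c5 : HasCompactSupport (fun x => (N ^ 2 / 2) • gradS q x) :=
      c3.comp_left (g := fun y : E => (N ^ 2 / 2) • y) (smul_zero _)
    have c6 : HasCompactSupport (fun x => (2 * N ^ 2) • G x + (N ^ 2 / 2) • gradS q x) := c4.add c5
    have c7 : HasCompactSupport (fun x => - ((2 * N ^ 2) • G x + (N ^ 2 / 2) • gradS q x)) :=
      c6.comp_left (g := fun y : E => - y) neg_zero
    have c8 : HasCompactSupport (fun x => adv (fA a k ξ N) (fA a k ξ N) x
        + - ((2 * N ^ 2) • G x + (N ^ 2 / 2) • gradS q x)) := c1.add c7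
    have e0 : Rem a k ξ q G N = fun x => adv (fA a k ξ N) (fA a k ξ N) x
        + - ((2 * N ^ 2) • G x + (N ^ 2 / 2) • gradS q x) := by
      funext x
      rw [Rem, sub_eq_add_neg]
    rw [e0]
    exact c8
  have hcl := cls_spec Ω hcR hsR
  have hcG : Cls Ω (gradS q) (cls Ω (gradS q)) :=
    cls_spec Ω (contDiff_gradS hK.pres.1).continuous (hasCompactSupport_gradS hK.pres.2.1)
  have hcp : Cls Ω G (fld p) := hp.1
  have e1 : D.b pA pA v = ⟪cls Ω (Rem a k ξ q G N), fld v⟫ + 2 * N ^ 2 * ⟪fld p, fld v⟫ := by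
    rw [hD.2.2, hA Ω hΩ hb _ _ pA pA hT hT hpA hpA v]
    have e2 : ⟪cls Ω (gradS q), fld v⟫ = 0 := by
      rw [inner_cls hcG]; exact hG Ω hΩ hb q hK.pres v
    have e3 : Cls Ω (adv (fA a k ξ N) (fA a k ξ N))
        (cls Ω (Rem a k ξ q G N) + ((2 * N ^ 2) • fld p + (N ^ 2 / 2) • cls Ω (gradS q))) := by
      refine (hcl.add ((hcp.smul (2 * N ^ 2)).add (hcG.smul (N ^ 2 / 2)))).trans ?_
      refine Filter.Eventually.of_forall fun x => ?_
      simp only [Rem]
      abel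
    rw [← inner_cls e3, inner_add_left, inner_add_left, real_inner_smul_left,
      real_inner_smul_left, e2]
    ring
  have e4 : D.b (N⁻¹ • pA) (N⁻¹ • pA) v = N⁻¹ * (N⁻¹ * D.b pA pA v) := by
    simp only [map_smul, smul_apply, smul_eq_mul]
  have e5 : D.b (N⁻¹ • pA) (N⁻¹ • pA) v - 2 * ⟪fld p, fld v⟫
      = ⟪cls Ω (Rem a k ξ q G N), fld v⟫ / N ^ 2 := by
    rw [e4, e1]
    field_simp
    ring
  have h5 : ‖cls Ω (Rem a k ξ q G N)‖ ≤ K * (C * N) := by
    refine hKb _ _ _ hcl (by positivity) fun x => ?_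
    have := hR N hN1 x
    rwa [pow_one] at this
  rw [e5, abs_div, abs_of_pos (by positivity : 0 < N ^ 2), div_le_iff₀ (by positivity)]
  calc |⟪cls Ω (Rem a k ξ q G N), fld v⟫| ≤ ‖cls Ω (Rem a k ξ q G N)‖ * ‖fld v‖ :=
        abs_real_inner_le_norm _ _
    _ ≤ (K * (C * N)) * ‖v‖ := mul_le_mul h5 (norm_fld_le v) (norm_nonneg _) (by positivity)
    _ = (K * C / N) * ‖v‖ * N ^ 2 := by field_simp
    _ ≤ δ * ‖v‖ * N ^ 2 := by gcongr

theorem dense_of (hKD : Stmt_KDense) (h4 : Stmt_R4) (hA : Stmt_Adv) (hG : Stmt_Grad) :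
    Stmt_ConeDense := by
  intro Ω hΩ hb D hD l ε hε
  obtain ⟨n, G, p, h1, h2, h3⟩ := hKD Ω hΩ hb 1 one_pos ((1 / 2 : ℝ) • l) (ε / 4) (by positivity)
  have hδ : 0 < ε / (2 * (n + 1)) := by positivity
  choose x hx1 hx2 using fun i => approx h4 hA hG hΩ hb D hD (h1 i) (h2 i) hδ
  refine ⟨n, x, hx1, ?_⟩
  refine ContinuousLinearMap.opNorm_le_bound _ hε.le fun v => ?_
  have e1 : (∑ j, D.b (x j) (x j) - l) v
      = ∑ j, (D.b (x j) (x j) v - 2 * ⟪fld (p j), fld v⟫)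
        + 2 * (∑ j, ⟪fld (p j), fld v⟫ - ((1 / 2 : ℝ) • l) v) := by
    rw [sub_apply, sum_apply, Finset.sum_sub_distrib, ← Finset.mul_sum,
      smul_apply, smul_eq_mul]
    ring
  rw [e1, Real.norm_eq_abs]
  refine (abs_add_le _ _).trans ?_
  have h5 : |∑ j, (D.b (x j) (x j) v - 2 * ⟪fld (p j), fld v⟫)| ≤ ε / 2 * ‖v‖ := by
    calc |∑ j, (D.b (x j) (x j) v - 2 * ⟪fld (p j), fld v⟫)|
        ≤ ∑ j, |D.b (x j) (x j) v - 2 * ⟪fld (p j), fld v⟫| := Finset.abs_sum_le_sum_abs _ _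
      _ ≤ ∑ _j : Fin n, ε / (2 * (n + 1)) * ‖v‖ := Finset.sum_le_sum fun j _ => hx2 j v
      _ = n / (n + 1) * (ε / 2 * ‖v‖) := by
          rw [Finset.sum_const, Finset.card_univ, Fintype.card_fin, nsmul_eq_mul]
          field_simp
      _ ≤ 1 * (ε / 2 * ‖v‖) := by
          refine mul_le_mul_of_nonneg_right ?_ (by positivity)
          rw [div_le_one (by positivity)]
          linarith
      _ = ε / 2 * ‖v‖ := one_mul _
  have h6 : |2 * (∑ j, ⟪fld (p j), fld v⟫ - ((1 / 2 : ℝ) • l) v)| ≤ ε / 2 * ‖v‖ := by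
    rw [abs_mul, abs_of_pos (by norm_num : (0 : ℝ) < 2)]
    have := h3 v
    linarith
  linarith

end ConeX

theorem cone_proof : Stmt_ConeDense :=
  ConeX.dense_of kDense_all r4_proof adv_proof grad_proof

end Pool.Agent.NSV
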