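import Pool.Agent.NSV.Stmts

/-!
# MP_fd8964_an, Theorem V: module CORR (the corrector)
-/

open MeasureTheory Set Filter Topology
open scoped RealInnerProductSpace

noncomputable section

namespace Pool.Agent.NSV

open Pool.Agent.NSD Pool.Agent.NSK

namespace CorrX

/-- Images of `H¹_loc` functions under continuous linear maps. -/
theorem isH1loc_clm {X Y : Type*} [NormedAddCommGroup X] [NormedSpace ℝ X] [CompleteSpace X]
    [NormedAddCommGroup Y] [NormedSpace ℝ Y] [CompleteSpace Y] (L : X →L[ℝ] Y) {x x₁ : ℝ → X}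
    (h : IsH1loc x x₁) : IsH1loc (fun t => L (x t)) (fun t => L (x₁ t)) := by
  refine ⟨fun T => L.comp_memLp' (h.memLp T), fun t ht => ?_⟩
  rw [ContinuousLinearMap.intervalIntegral_comp_comm L (h.intervalIntegrable le_rfl ht),
    ← map_add, ← h.eq t ht]

/-- The inverse of `J + h A`. -/
theorem exists_inv {V K : Type} [NormedAddCommGroup V] [InnerProductSpace ℝ V]
    [CompleteSpace V] [NormedAddCommGroup K] [InnerProductSpace ℝ K] (D : Data V K)
    {h : ℝ} (hh : 0 < h) :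
    ∃ T : (V →L[ℝ] ℝ) →L[ℝ] V, ∀ l v, ⟪D.ι (T l), D.ι v⟫ + h * D.a (T l) v = l v := by
  let B : V →L[ℝ] V →L[ℝ] ℝ := J D + h • D.a
  have hB : ∀ v w, B v w = ⟪D.ι v, D.ι w⟫ + h * D.a v w := by
    intro v w
    rfl
  have hcoer : IsCoercive B := by
    refine ⟨h * D.c₀, mul_pos hh D.c₀_pos, fun u => ?_⟩
    rw [hB]
    have h1 := D.a_coer u
    have h2 : (0 : ℝ) ≤ ⟪D.ι u, D.ι u⟫ := real_inner_self_nonneg
    nlinarith
  let E := hcoer.continuousLinearEquivOfBilin
  let S : (V →L[ℝ] ℝ) →ₗ[ℝ] V :=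
    { toFun := fun l => E.symm ((InnerProductSpace.toDual ℝ V).symm l)
      map_add' := fun l l' => by rw [map_add, map_add]
      map_smul' := fun c l => by
        rw [map_smulₛₗ, map_smul]
        rfl }
  refine ⟨S.mkContinuous ‖(E.symm : V →L[ℝ] V)‖ fun l => ?_, fun l v => ?_⟩
  · refine ((E.symm : V →L[ℝ] V).le_opNorm _).trans ?_
    rw [LinearIsometryEquiv.norm_map]
  · rw [← hB]
    have h1 := hcoer.continuousLinearEquivOfBilin_apply (S l) v
    change B (S l) v = l v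
    rw [← h1]
    have h2 : E (S l) = (InnerProductSpace.toDual ℝ V).symm l := E.apply_symm_apply _
    change ⟪E (S l), v⟫ = l v
    rw [h2, InnerProductSpace.toDual_symm_apply]

end CorrX

theorem corr_proof : Stmt_Corr := by
  intro V K _ _ _ _ _ D A h T ρ R hA hh _ hρ hρ0 hρb hRb
  obtain ⟨S, hS⟩ := CorrX.exists_inv D hh
  have key : ∀ (l : V →L[ℝ] ℝ) (m : ℝ), 0 ≤ m → (∀ v, |l v| ≤ m * ‖D.ι v‖) →
      h * D.sig (S l) ^ 2 ≤ m ^ 2 / 4 := by
    intro l m hm hl
    have h1 := hS l (S l)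
    rw [real_inner_self_eq_norm_sq, ← D.sig_sq] at h1
    have h2 := (le_abs_self _).trans (hl (S l))
    nlinarith [sq_nonneg (m / 2 - ‖D.ι (S l)‖)]
  have hsh : 0 < √h := Real.sqrt_pos.2 hh
  have hshs : √h ^ 2 = h := Real.sq_sqrt hh.le
  refine ⟨fun t => S (ρ t), fun t => S (R t), CorrX.isH1loc_clm S hρ, ?_, fun t ht => ?_,
    fun t ht v => ?_⟩
  · simp [hρ0]
  · have h1 := key (ρ t) (A * h) (by positivity) (hρb t ht)
    have h2 : D.sig (S (ρ t)) ^ 2 ≤ (A * √h) ^ 2 := by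
      have h3 : h * D.sig (S (ρ t)) ^ 2 ≤ h * (A * √h) ^ 2 := by
        rw [mul_pow, hshs]
        nlinarith [mul_nonneg (sq_nonneg A) (sq_nonneg h)]
      exact le_of_mul_le_mul_left h3 hh
    exact le_of_sq_le_sq h2 (by positivity)
  · have h1 := key (R t) A hA (hRb t ht)
    have h2 := hS (R t) v
    have h3 : R t v - ⟪D.ι (S (R t)), D.ι v⟫ = h * D.a (S (R t)) v := by linarith
    rw [h3, abs_mul, abs_of_pos hh]
    have h4 := D.a_cs (S (R t)) v
    have h5 : (√h * D.sig (S (R t))) ^ 2 ≤ A ^ 2 := by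
      rw [mul_pow, hshs]
      nlinarith [sq_nonneg A]
    have h6 : √h * D.sig (S (R t)) ≤ A := le_of_sq_le_sq h5 hA
    have h7 := D.sig_nonneg v
    calc h * |D.a (S (R t)) v| ≤ h * (D.sig (S (R t)) * D.sig v) :=
          mul_le_mul_of_nonneg_left h4 hh.le
      _ = √h * (√h * D.sig (S (R t))) * D.sig v := by rw [← mul_assoc √h √h, ← sq, hshs]; ring
      _ ≤ √h * A * D.sig v := by gcongr
      _ = A * √h * D.sig v := by ring

end Pool.Agent.NSV
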