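import Pool.Agent.NSV.Stmts

/-!
# MP_fd8964_an, Theorem V, module DENS: piecewise linear interpolation in time
-/

open MeasureTheory Set Filter Topology
open scoped RealInnerProductSpace ContDiff ENNReal

noncomputable section

namespace Pool.Agent.NSV

open Pool.Agent.NSD Pool.Agent.NSK

namespace DENSX

/-- Hat function with node `i / M`. -/
def hat (M i : ℕ) (t : ℝ) : ℝ := max 0 (1 - |M * t - i|)

/-- Its derivative (for `t ≥ 0`, off the nodes). -/
def hat₁ (M i : ℕ) (t : ℝ) : ℝ :=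
  (if i = ⌈(M : ℝ) * t⌉₊ then (M : ℝ) else 0) - (if i + 1 = ⌈(M : ℝ) * t⌉₊ then (M : ℝ) else 0)

theorem hat_nonneg (M i : ℕ) (t : ℝ) : 0 ≤ hat M i t := le_max_left _ _

theorem hat_le (M i : ℕ) (t : ℝ) : hat M i t ≤ 1 :=
  max_le zero_le_one (by linarith [abs_nonneg ((M : ℝ) * t - i)])

theorem hat_zero {M i : ℕ} (hi : 1 ≤ i) : hat M i 0 = 0 := by
  unfold hat
  have h1 : (1 : ℝ) ≤ i := by exact_mod_cast hi
  rw [mul_zero, zero_sub, abs_neg, abs_of_nonneg (by linarith), max_eq_left (by linarith)]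

theorem abs_hat₁_le (M i : ℕ) (t : ℝ) : |hat₁ M i t| ≤ M := by
  unfold hat₁
  have h0 : (0 : ℝ) ≤ M := Nat.cast_nonneg M
  by_cases h1 : i = ⌈(M : ℝ) * t⌉₊
  · rw [if_pos h1, if_neg (by omega), sub_zero, abs_of_nonneg h0]
  · rw [if_neg h1]
    by_cases h2 : i + 1 = ⌈(M : ℝ) * t⌉₊
    · rw [if_pos h2, zero_sub, abs_neg, abs_of_nonneg h0]
    · rw [if_neg h2, sub_zero, abs_zero]
      exact h0

theorem measurable_hat₁ (M i : ℕ) : Measurable (hat₁ M i) := by
  unfold hat₁
  have hm : Measurable fun t : ℝ => ⌈(M : ℝ) * t⌉₊ := Nat.measurable_ceil.comp (measurable_const_mul _)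
  refine Measurable.sub ?_ ?_
  · refine Measurable.ite ?_ measurable_const measurable_const
    have h1 : {t : ℝ | i = ⌈(M : ℝ) * t⌉₊} = (fun t : ℝ => ⌈(M : ℝ) * t⌉₊) ⁻¹' {i} := by
      ext t; simp [eq_comm]
    rw [h1]
    exact hm (measurableSet_singleton i)
  · refine Measurable.ite ?_ measurable_const measurable_const
    have h1 : {t : ℝ | i + 1 = ⌈(M : ℝ) * t⌉₊} = (fun t : ℝ => ⌈(M : ℝ) * t⌉₊) ⁻¹' {i + 1} := by
      ext t; simp [eq_comm]
    rw [h1]
    exact hm (measurableSet_singleton (i + 1))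

theorem continuous_hat (M i : ℕ) : Continuous (hat M i) := by
  unfold hat
  exact continuous_const.max (continuous_const.sub
    (((continuous_const.mul continuous_id).sub continuous_const).abs))

theorem hasDerivAt_hat {M i : ℕ} {t : ℝ} (ht : 0 < t) (hM : 0 < M)
    (h : t ∉ range (fun k : ℕ => (k : ℝ) / M)) : HasDerivAt (hat M i) (hat₁ M i t) t := by
  have hM' : (0 : ℝ) < M := by exact_mod_cast hM
  set l : ℕ := ⌊(M : ℝ) * t⌋₊ with hl
  have hMt : (0 : ℝ) < M * t := mul_pos hM' ht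
  have h1 : (l : ℝ) ≤ M * t := Nat.floor_le hMt.le
  have h2 : (M : ℝ) * t < l + 1 := Nat.lt_floor_add_one _
  have h3 : (l : ℝ) ≠ M * t := by
    intro he
    exact h ⟨l, by simp only; rw [he]; field_simp⟩
  have h4 : (l : ℝ) < M * t := lt_of_le_of_ne h1 h3
  have h5 : ⌈(M : ℝ) * t⌉₊ = l + 1 := by
    rw [Nat.ceil_eq_iff (by omega)]
    constructor
    · push_cast
      simpa using h4
    · push_cast
      exact h2.le
  have hev : ∀ᶠ s in 𝓝 t, (l : ℝ) < M * s ∧ (M : ℝ) * s < l + 1 := by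
    have hc : Continuous fun s : ℝ => (M : ℝ) * s := continuous_const.mul continuous_id
    exact (hc.continuousAt.eventually (lt_mem_nhds h4)).and (hc.continuousAt.eventually (gt_mem_nhds h2))
  have hd : HasDerivAt (fun s : ℝ => (M : ℝ) * s) M t := by
    simpa using (hasDerivAt_id t).const_mul (M : ℝ)
  rcases lt_trichotomy i l with hil | hil | hil
  · -- i < l
    have hz : hat₁ M i t = 0 := by
      unfold hat₁
      rw [h5, if_neg (by omega), if_neg (by omega), sub_zero]
    rw [hz]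
    refine (hasDerivAt_const t (0 : ℝ)).congr_of_eventuallyEq ?_
    filter_upwards [hev] with s hs
    have hc : (i : ℝ) + 1 ≤ l := by exact_mod_cast hil
    unfold hat
    rw [abs_of_nonneg (by linarith [hs.1]), max_eq_left (by linarith [hs.1])]
  · have hz : hat₁ M i t = -M := by
      unfold hat₁
      rw [h5, if_neg (by omega), if_pos (by omega), zero_sub]
    rw [hz]
    have hd2 : HasDerivAt (fun s : ℝ => 1 + (i : ℝ) - M * s) (-M) t := by
      simpa using hd.const_sub (1 + (i : ℝ))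
    refine hd2.congr_of_eventuallyEq ?_
    filter_upwards [hev] with s hs
    have hc : (i : ℝ) = l := by exact_mod_cast hil
    unfold hat
    rw [hc, abs_of_nonneg (by linarith [hs.1]), max_eq_right (by linarith [hs.2])]
    ring
  · rcases Nat.lt_or_ge (l + 1) i with hil2 | hil2
    · have hz : hat₁ M i t = 0 := by
        unfold hat₁
        rw [h5, if_neg (by omega), if_neg (by omega), sub_zero]
      rw [hz]
      refine (hasDerivAt_const t (0 : ℝ)).congr_of_eventuallyEq ?_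
      filter_upwards [hev] with s hs
      have hc : (l : ℝ) + 1 + 1 ≤ i := by exact_mod_cast hil2
      unfold hat
      rw [abs_of_nonpos (by linarith [hs.2]), max_eq_left (by linarith [hs.2])]
    · have hi : i = l + 1 := by omega
      have hz : hat₁ M i t = M := by
        unfold hat₁
        rw [h5, if_pos hi, if_neg (by omega), sub_zero]
      rw [hz]
      have hd2 : HasDerivAt (fun s : ℝ => (M : ℝ) * s + (1 - (i : ℝ))) M t := by
        simpa using hd.add_const (1 - (i : ℝ))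
      refine hd2.congr_of_eventuallyEq ?_
      filter_upwards [hev] with s hs
      have hc : (i : ℝ) = l + 1 := by exact_mod_cast hi
      unfold hat
      rw [abs_of_nonpos (by linarith [hs.2]), max_eq_right (by linarith [hs.1])]
      ring

theorem intervalIntegrable_hat₁ (M i : ℕ) (a b : ℝ) : IntervalIntegrable (hat₁ M i) volume a b := by
  rw [intervalIntegrable_iff]
  refine Measure.integrableOn_of_bounded (M := (M : ℝ)) (by
    rw [uIoc]; exact measure_Ioc_lt_top.ne) (measurable_hat₁ M i).aestronglyMeasurable ?_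
  exact Eventually.of_forall fun x => abs_hat₁_le M i x

theorem isH1loc_hat {M i : ℕ} (hM : 0 < M) : IsH1loc (hat M i) (hat₁ M i) := by
  refine ⟨fun T => ?_, fun t ht => ?_⟩
  · exact MemLp.of_bound (measurable_hat₁ M i).aestronglyMeasurable (M : ℝ)
      (Eventually.of_forall fun x => abs_hat₁_le M i x)
  · have h1 : ∫ s in (0 : ℝ)..t, hat₁ M i s = hat M i t - hat M i 0 := by
      refine integral_eq_of_hasDerivAt_off_countable_of_le (hat M i) (hat₁ M i) ht
        (s := range (fun k : ℕ => (k : ℝ) / M)) (countable_range _) (continuous_hat M i).continuousOn ?_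
        (intervalIntegrable_hat₁ M i 0 t)
      intro x hx
      exact hasDerivAt_hat hx.1.1 hM hx.2
    rw [h1]; ring

/-- The sum over the hats. -/
theorem sum_hat₁ {X : Type*} [NormedAddCommGroup X] [NormedSpace ℝ X] (M : ℕ) (y : ℕ → X) (t : ℝ) (l : ℕ)
    (hl : l < M) (h : ⌈(M : ℝ) * t⌉₊ = l + 1) :
    ∑ i : Fin (M + 1), hat₁ M i t • y i = (M : ℝ) • (y (l + 1) - y l) := by
  rw [Fin.sum_univ_eq_sum_range (fun i => hat₁ M i t • y i) (M + 1)]
  unfold hat₁
  rw [h]
  have h1 : ∀ i : ℕ, ((if i = l + 1 then (M : ℝ) else 0) - (if i + 1 = l + 1 then (M : ℝ) else 0)) • y i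
      = (if i = l + 1 then (M : ℝ) • y i else 0) - (if i = l then (M : ℝ) • y i else 0) := by
    intro i
    rw [sub_smul]
    by_cases h2 : i = l + 1
    · rw [if_pos h2, if_pos h2, if_neg (by omega), if_neg (by omega), zero_smul]
    · rw [if_neg h2, if_neg h2, zero_smul]
      by_cases h3 : i = l
      · rw [if_pos h3, if_pos (by omega)]
      · rw [if_neg h3, if_neg (by omega), zero_smul]
  rw [Finset.sum_congr rfl fun i _ => h1 i, Finset.sum_sub_distrib, Finset.sum_ite_eq' , Finset.sum_ite_eq',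
    if_pos (Finset.mem_range.2 (by omega)), if_pos (Finset.mem_range.2 (by omega)), smul_sub]

end DENSX

open DENSX in
theorem dens_proof : Stmt_Dens := by
  intro X _ _ _ S hS F F₁ τ δ hF _ _ hδ
  have hm : MemLp F₁ 2 (volume.restrict (Ioc (0 : ℝ) 1)) := hF.memLp 1
  obtain ⟨g, hg, hgm⟩ := hm.exists_boundedContinuous_eLpNorm_sub_le (by norm_num)
    (ε := ENNReal.ofReal (δ / 2)) (by simpa using hδ)
  -- the L2 error
  have hgi : ∫ t in (0 : ℝ)..1, ‖F₁ t - g t‖ ^ 2 ≤ (δ / 2) ^ 2 := by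
    have h1 := (hm.sub hgm).eLpNorm_eq_integral_rpow_norm (by norm_num) (by norm_num)
    rw [h1] at hg
    have h2 := (ENNReal.ofReal_le_ofReal_iff (by linarith)).1 hg
    rw [intervalIntegral.integral_of_le zero_le_one]
    have h3 : (∫ a in Ioc (0 : ℝ) 1, ‖(F₁ - ⇑g) a‖ ^ (2 : ℝ≥0∞).toReal) = ∫ t in Ioc (0 : ℝ) 1, ‖F₁ t - g t‖ ^ 2 := by
      refine integral_congr_ae (Eventually.of_forall fun x => ?_)
      simp
    rw [h3] at h2
    set I := ∫ t in Ioc (0 : ℝ) 1, ‖F₁ t - g t‖ ^ 2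
    have h4 : 0 ≤ I := integral_nonneg fun x => by positivity
    have h5 : I = (I ^ ((2 : ℝ≥0∞).toReal)⁻¹) ^ 2 := by
      rw [← Real.rpow_natCast, ← Real.rpow_mul h4]
      simp
    rw [h5]
    exact pow_le_pow_left₀ (Real.rpow_nonneg h4 _) h2 2
  -- uniform continuity
  obtain ⟨M, hM, hMu⟩ : ∃ M : ℕ, 0 < M ∧ ∀ s ∈ Icc (0 : ℝ) 1, ∀ t ∈ Icc (0 : ℝ) 1, |s - t| ≤ 1 / M →
      ‖g s - g t‖ ≤ δ / 4 := by
    have h1 : UniformContinuousOn g (Icc (0 : ℝ) 1) :=
      isCompact_Icc.uniformContinuousOn_of_continuous g.continuous.continuousOn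
    rw [Metric.uniformContinuousOn_iff] at h1
    obtain ⟨d, hd, h2⟩ := h1 (δ / 4) (by positivity)
    obtain ⟨M, hM⟩ := exists_nat_gt (1 / d)
    have hM0 : (0 : ℝ) < M := lt_trans (by positivity) hM
    refine ⟨M, by exact_mod_cast hM0, fun s hs t ht hst => ?_⟩
    have h3 : (1 : ℝ) / M < d := by
      rw [div_lt_iff₀ hM0]
      rw [div_lt_iff₀ hd] at hM
      linarith
    have h4 := h2 s hs t ht (by rw [Real.dist_eq]; linarith)
    rw [dist_eq_norm] at h4
    exact h4.le
  have hM' : (0 : ℝ) < M := by exact_mod_cast hM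
  set G : ℝ → X := fun t => ∫ s in (0 : ℝ)..t, g s with hG
  have hgint : ∀ a b : ℝ, IntervalIntegrable g volume a b := fun a b => g.continuous.intervalIntegrable a b
  have hch : ∀ i : ℕ, ∃ (n : ℕ) (γ : Fin n → X), (∀ j, γ j ∈ S) ∧ ‖∑ j, γ j - G (i / M)‖ ≤ δ / 8 / M ∧
      (i = 0 → n = 0) := by
    intro i
    by_cases hi : i = 0
    · refine ⟨0, Fin.elim0, fun j => j.elim0, ?_, fun _ => rfl⟩
      rw [hi, hG]
      simp only [Finset.univ_eq_empty, Finset.sum_empty, Nat.cast_zero, zero_div,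
        intervalIntegral.integral_same, sub_zero, norm_zero]
      positivity
    · obtain ⟨n, γ, h1, h2⟩ := hS (G (i / M)) (δ / 8 / M) (by positivity)
      exact ⟨n, γ, h1, h2, fun h => absurd h hi⟩
  choose n γ hγS hγ hn0 using hch
  set y : ℕ → X := fun i => ∑ j, γ i j with hy
  let ι := Σ i : Fin (M + 1), Fin (n i)
  let e : ι ≃ Fin (Fintype.card ι) := Fintype.equivFin ι
  have hpt : ∀ t ∈ Ioc (0 : ℝ) 1,
      ‖∑ j : Fin (Fintype.card ι), hat₁ M ((e.symm j).1 : ℕ) t • γ (e.symm j).1 (e.symm j).2 - g t‖ ≤ δ / 2 := by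
    intro t ht
    have h0 : (0 : ℝ) < M * t := mul_pos hM' ht.1
    obtain ⟨l, hl⟩ : ∃ l, ⌈(M : ℝ) * t⌉₊ = l + 1 := ⟨⌈(M : ℝ) * t⌉₊ - 1, by
      have := Nat.ceil_pos.2 h0; omega⟩
    have h1 := (Nat.ceil_eq_iff (by omega : l + 1 ≠ 0)).1 hl
    have h1a : (l : ℝ) < M * t := by simpa using h1.1
    have h1b : (M : ℝ) * t ≤ l + 1 := by simpa using h1.2
    have hlM : l < M := by
      have : (l : ℝ) < M := lt_of_lt_of_le h1a (by nlinarith [ht.2])
      exact_mod_cast this
    have hlM' : (l : ℝ) + 1 ≤ M := by exact_mod_cast hlM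
    have h2 : ∑ j : Fin (Fintype.card ι), hat₁ M ((e.symm j).1 : ℕ) t • γ (e.symm j).1 (e.symm j).2
        = (M : ℝ) • (y (l + 1) - y l) := by
      rw [← sum_hat₁ M y t l hlM hl]
      rw [Equiv.sum_comp e.symm (fun x : ι => hat₁ M (x.1 : ℕ) t • γ x.1 x.2)]
      rw [Fintype.sum_sigma]
      refine Finset.sum_congr rfl fun i _ => ?_
      rw [hy, Finset.smul_sum]
    rw [h2]
    have ha : (l : ℝ) / M < t := by rw [div_lt_iff₀ hM']; linarith
    have hb : t ≤ ((l : ℝ) + 1) / M := by rw [le_div_iff₀ hM']; linarith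
    have hb1 : ((l : ℝ) + 1) / M ≤ 1 := by rw [div_le_one hM']; exact hlM'
    have ha0 : 0 ≤ (l : ℝ) / M := by positivity
    have hab : ((l : ℝ) + 1) / M - l / M = 1 / M := by ring
    -- decompose
    have e1 : G (((l + 1 : ℕ) : ℝ) / M) - G ((l : ℝ) / M) = ∫ s in ((l : ℝ) / M)..(((l : ℝ) + 1) / M), g s := by
      rw [hG]
      simp only
      push_cast
      exact intervalIntegral.integral_interval_sub_left (hgint _ _) (hgint _ _)
    have e2 : (M : ℝ) • (y (l + 1) - y l) - g t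
        = (M : ℝ) • (y (l + 1) - G (((l + 1 : ℕ) : ℝ) / M)) - (M : ℝ) • (y l - G ((l : ℝ) / M))
          + (M : ℝ) • ∫ s in ((l : ℝ) / M)..(((l : ℝ) + 1) / M), (g s - g t) := by
      rw [intervalIntegral.integral_sub (hgint _ _) intervalIntegrable_const, ← e1,
        intervalIntegral.integral_const, hab]
      have e3 : (M : ℝ) • (1 / (M : ℝ)) • g t = g t := by
        rw [smul_smul, mul_one_div_cancel hM'.ne', one_smul]
      rw [smul_sub (M : ℝ) (G (((l + 1 : ℕ) : ℝ) / M) - G ((l : ℝ) / M)), e3]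
      simp only [smul_sub]
      abel
    rw [e2]
    have b1 : ‖(M : ℝ) • (y (l + 1) - G (((l + 1 : ℕ) : ℝ) / M))‖ ≤ δ / 8 := by
      rw [norm_smul, Real.norm_eq_abs, abs_of_pos hM']
      have := mul_le_mul_of_nonneg_left (hγ (l + 1)) hM'.le
      have e4 : (M : ℝ) * (δ / 8 / M) = δ / 8 := by field_simp
      rw [e4] at this
      exact this
    have b2 : ‖(M : ℝ) • (y l - G ((l : ℝ) / M))‖ ≤ δ / 8 := by
      rw [norm_smul, Real.norm_eq_abs, abs_of_pos hM']
      have := mul_le_mul_of_nonneg_left (hγ l) hM'.le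
      have e4 : (M : ℝ) * (δ / 8 / M) = δ / 8 := by field_simp
      rw [e4] at this
      exact this
    have b3 : ‖(M : ℝ) • ∫ s in ((l : ℝ) / M)..(((l : ℝ) + 1) / M), (g s - g t)‖ ≤ δ / 4 := by
      rw [norm_smul, Real.norm_eq_abs, abs_of_pos hM']
      have h5 : ‖∫ s in ((l : ℝ) / M)..(((l : ℝ) + 1) / M), (g s - g t)‖
          ≤ δ / 4 * |((l : ℝ) + 1) / M - l / M| := by
        refine intervalIntegral.norm_integral_le_of_norm_le_const fun s hs => ?_
        rw [uIoc_of_le (by linarith)] at hs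
        refine hMu s ⟨by linarith [hs.1], by linarith [hs.2]⟩ t ⟨by linarith, ht.2⟩ ?_
        rw [abs_le]
        constructor
        · linarith [hs.1]
        · linarith [hs.2]
      rw [hab, abs_of_pos (by positivity)] at h5
      have := mul_le_mul_of_nonneg_left h5 hM'.le
      have e4 : (M : ℝ) * (δ / 4 * (1 / M)) = δ / 4 := by field_simp
      rw [e4] at this
      exact this
    calc _ ≤ ‖(M : ℝ) • (y (l + 1) - G (((l + 1 : ℕ) : ℝ) / M)) - (M : ℝ) • (y l - G ((l : ℝ) / M))‖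
          + ‖(M : ℝ) • ∫ s in ((l : ℝ) / M)..(((l : ℝ) + 1) / M), (g s - g t)‖ := norm_add_le _ _
      _ ≤ (‖(M : ℝ) • (y (l + 1) - G (((l + 1 : ℕ) : ℝ) / M))‖ + ‖(M : ℝ) • (y l - G ((l : ℝ) / M))‖)
          + ‖(M : ℝ) • ∫ s in ((l : ℝ) / M)..(((l : ℝ) + 1) / M), (g s - g t)‖ := by
            gcongr; exact norm_sub_le _ _
      _ ≤ (δ / 8 + δ / 8) + δ / 4 := by gcongr
      _ = δ / 2 := by ring
  have hM1 : (1 : ℝ) ≤ M := by exact_mod_cast hM
  refine ⟨Fintype.card ι, fun j => γ (e.symm j).1 (e.symm j).2, fun j => hat M ((e.symm j).1 : ℕ),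
    fun j => hat₁ M ((e.symm j).1 : ℕ), M, fun j => hγS _ _, fun j => isH1loc_hat hM,
    fun j t => hat_nonneg _ _ _, fun j t => (hat_le _ _ _).trans hM1, fun j t => abs_hat₁_le _ _ _,
    fun j => ?_, ?_⟩
  · refine hat_zero ?_
    by_contra hlt
    have h0 : ((e.symm j).1 : ℕ) = 0 := by omega
    have h1 := hn0 _ h0
    have h2 : Fin (n ((e.symm j).1 : ℕ)) := (e.symm j).2
    rw [h1] at h2
    exact h2.elim0
  · have hI1 : IntervalIntegrable (fun t => ‖F₁ t - g t‖ ^ 2) volume 0 1 := by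
      rw [intervalIntegrable_iff, uIoc_of_le zero_le_one]
      exact (hm.sub hgm).integrable_norm_pow (by norm_num)
    have hms : AEStronglyMeasurable
        (fun t => ∑ j : Fin (Fintype.card ι), hat₁ M ((e.symm j).1 : ℕ) t • γ (e.symm j).1 (e.symm j).2)
        (volume.restrict (Ioc (0 : ℝ) 1)) := by
      refine Finset.aestronglyMeasurable_fun_sum _ fun j _ => ?_
      exact (measurable_hat₁ M _).aestronglyMeasurable.smul_const _
    calc ∫ t in (0 : ℝ)..1, ‖∑ j : Fin (Fintype.card ι), hat₁ M ((e.symm j).1 : ℕ) t •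
          γ (e.symm j).1 (e.symm j).2 - F₁ t‖ ^ 2
        ≤ ∫ t in (0 : ℝ)..1, (2 * (δ / 2) ^ 2 + 2 * ‖F₁ t - g t‖ ^ 2) := by
          rw [intervalIntegral.integral_of_le zero_le_one, intervalIntegral.integral_of_le zero_le_one]
          refine integral_mono_of_nonneg (Eventually.of_forall fun x => by positivity) ?_ ?_
          · have := (intervalIntegrable_const (c := 2 * (δ / 2) ^ 2) (a := (0 : ℝ)) (b := 1)
              (μ := volume)).add (hI1.const_mul 2)
            rw [intervalIntegrable_iff, uIoc_of_le zero_le_one] at this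
            exact this
          · refine (ae_restrict_iff' measurableSet_Ioc).2 (Eventually.of_forall fun t ht => ?_)
            have h1 := hpt t ht
            set A := ∑ j : Fin (Fintype.card ι), hat₁ M ((e.symm j).1 : ℕ) t • γ (e.symm j).1 (e.symm j).2
            have h2 : ‖A - F₁ t‖ ≤ ‖A - g t‖ + ‖F₁ t - g t‖ := by
              have : A - F₁ t = (A - g t) - (F₁ t - g t) := by abel
              rw [this]
              exact norm_sub_le _ _
            have h3 := norm_nonneg (A - g t)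
            have h4 := norm_nonneg (F₁ t - g t)
            have h5 := norm_nonneg (A - F₁ t)
            show ‖A - F₁ t‖ ^ 2 ≤ 2 * (δ / 2) ^ 2 + 2 * ‖F₁ t - g t‖ ^ 2
            nlinarith [sq_nonneg (‖A - g t‖ - ‖F₁ t - g t‖)]
      _ = 2 * (δ / 2) ^ 2 + 2 * ∫ t in (0 : ℝ)..1, ‖F₁ t - g t‖ ^ 2 := by
          rw [intervalIntegral.integral_add intervalIntegrable_const (hI1.const_mul 2),
            intervalIntegral.integral_const_mul, intervalIntegral.integral_const]
          simp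
      _ ≤ 2 * (δ / 2) ^ 2 + 2 * (δ / 2) ^ 2 := by gcongr
      _ = δ ^ 2 := by ring

end Pool.Agent.NSV
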