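import Pool.Agent.NSV.Stmts

/-!
# MP_fd8964_an, Theorem V: module GLUEF (the glued force is smooth)
-/

open MeasureTheory Set Filter Topology
open scoped RealInnerProductSpace ContDiff ENNReal

noncomputable section

namespace Pool.Agent.NSV

open Pool.Agent.NSD Pool.Agent.NSK

namespace GlueF

variable {F : Type*} [AddCommGroup F] [Module ℝ F] {n : ℕ → ℕ} {φ : (l : ℕ) → Fin (n l) → ℝ → ℝ}
    {p : (l : ℕ) → Fin (n l) → F}

/-- one piece -/
def Gl (n : ℕ → ℕ) (φ : (l : ℕ) → Fin (n l) → ℝ → ℝ) (p : (l : ℕ) → Fin (n l) → F) (l : ℕ) (t : ℝ) : F :=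
  ∑ j, φ l j (t - l) • p l j

theorem zero_of_notMem (hs : ∀ l j, tsupport (φ l j) ⊆ Ioo 0 1) {l : ℕ} {t : ℝ}
    (ht : t ∉ Ioo (l : ℝ) (l + 1)) : Gl n φ p l t = 0 := by
  unfold Gl
  refine Finset.sum_eq_zero fun j _ => ?_
  have h : φ l j (t - l) = 0 := by
    refine image_eq_zero_of_notMem_tsupport fun h => ht ?_
    have := hs l j h
    exact ⟨by linarith [this.1], by linarith [this.2]⟩
  rw [h, zero_smul]

theorem ev_left (hs : ∀ l j, tsupport (φ l j) ⊆ Ioo 0 1) (l : ℕ) :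
    ∀ᶠ t in 𝓝 (l : ℝ), Gl n φ p l t = 0 := by
  have h : ∀ j : Fin (n l), ∀ᶠ t in 𝓝 (l : ℝ), φ l j (t - l) = 0 := by
    intro j
    have h0 : (0 : ℝ) ∉ tsupport (φ l j) := fun h => lt_irrefl _ (hs l j h).1
    have h1 := notMem_tsupport_iff_eventuallyEq.1 h0
    have h2 : Tendsto (fun t : ℝ => t - l) (𝓝 (l : ℝ)) (𝓝 0) := by
      have : ContinuousAt (fun t : ℝ => t - l) (l : ℝ) := by fun_prop
      simpa [ContinuousAt] using this
    exact h2.eventually h1
  filter_upwards [eventually_all.2 h] with t ht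
  unfold Gl
  exact Finset.sum_eq_zero fun j _ => by rw [ht j, zero_smul]

theorem ev_right (hs : ∀ l j, tsupport (φ l j) ⊆ Ioo 0 1) (l : ℕ) :
    ∀ᶠ t in 𝓝 ((l : ℝ) + 1), Gl n φ p l t = 0 := by
  have h : ∀ j : Fin (n l), ∀ᶠ t in 𝓝 ((l : ℝ) + 1), φ l j (t - l) = 0 := by
    intro j
    have h0 : (1 : ℝ) ∉ tsupport (φ l j) := fun h => lt_irrefl _ (hs l j h).2
    have h1 := notMem_tsupport_iff_eventuallyEq.1 h0
    have h2 : Tendsto (fun t : ℝ => t - l) (𝓝 ((l : ℝ) + 1)) (𝓝 1) := by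
      have : ContinuousAt (fun t : ℝ => t - l) ((l : ℝ) + 1) := by fun_prop
      simpa [ContinuousAt] using this
    exact h2.eventually h1
  filter_upwards [eventually_all.2 h] with t ht
  unfold Gl
  exact Finset.sum_eq_zero fun j _ => by rw [ht j, zero_smul]

theorem eq_neg {t : ℝ} (ht : t < 0) : glueF n φ p t = 0 := by
  unfold glueF; rw [if_pos ht]

theorem eq_G (hs : ∀ l j, tsupport (φ l j) ⊆ Ioo 0 1) (l : ℕ) {t : ℝ} (h1 : (l : ℝ) ≤ t)
    (h2 : t ≤ l + 1) : glueF n φ p t = Gl n φ p l t := by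
  have h0 : ¬ t < 0 := not_lt.2 ((Nat.cast_nonneg l).trans h1)
  have hfl : ∀ k : ℕ, (k : ℝ) ≤ t → t < k + 1 → glueF n φ p t = Gl n φ p k t := by
    intro k hk1 hk2
    have hk : ⌊t⌋₊ = k := (Nat.floor_eq_iff ((Nat.cast_nonneg l).trans h1)).2 ⟨hk1, hk2⟩
    unfold glueF Gl
    rw [if_neg h0]
    subst hk
    rfl
  rcases lt_or_eq_of_le h2 with h | h
  · exact hfl l h1 h
  · have e1 := hfl (l + 1) (by rw [h]; push_cast; exact le_rfl) (by rw [h]; push_cast; linarith)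
    rw [e1, zero_of_notMem hs (fun hm => by have := hm.1; push_cast at this; linarith),
      zero_of_notMem hs (fun hm => by have := hm.2; linarith)]

theorem ev_nat (hs : ∀ l j, tsupport (φ l j) ⊆ Ioo 0 1) (l : ℕ) :
    ∀ᶠ t in 𝓝 (l : ℝ), glueF n φ p t = 0 := by
  have hlt : ∀ᶠ t : ℝ in 𝓝 (l : ℝ), t < (l : ℝ) + 1 := eventually_lt_nhds (by linarith)
  cases l with
  | zero =>
    filter_upwards [ev_left (p := p) hs 0, hlt] with t h1 h2
    rcases lt_or_ge t 0 with h | h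
    · exact eq_neg h
    · rw [eq_G hs 0 (by simpa using h) h2.le, h1]
  | succ k =>
    have hgt : ∀ᶠ t in 𝓝 ((k + 1 : ℕ) : ℝ), (k : ℝ) < t := by
      refine eventually_gt_nhds ?_
      push_cast; linarith
    have hr : ∀ᶠ t in 𝓝 ((k + 1 : ℕ) : ℝ), Gl n φ p k t = 0 := by
      have := ev_right (p := p) hs k
      push_cast
      exact this
    filter_upwards [ev_left (p := p) hs (k + 1), hlt, hgt, hr] with t h1 h2 h3 h4
    rcases lt_or_ge t ((k + 1 : ℕ) : ℝ) with h | h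
    · rw [eq_G hs k h3.le (by push_cast at h; exact h.le), h4]
    · rw [eq_G hs (k + 1) h h2.le, h1]

theorem ev_eq (hs : ∀ l j, tsupport (φ l j) ⊆ Ioo 0 1) (l : ℕ) {t : ℝ} (h1 : (l : ℝ) ≤ t)
    (h2 : t ≤ l + 1) : ∀ᶠ s in 𝓝 t, glueF n φ p s = Gl n φ p l s := by
  rcases eq_or_lt_of_le h1 with h | h
  · rw [← h]
    filter_upwards [ev_nat (p := p) hs l, ev_left (p := p) hs l] with s e1 e2
    rw [e1, e2]
  · rcases eq_or_lt_of_le h2 with h' | h'
    · rw [h']
      have h3 : ∀ᶠ s in 𝓝 ((l : ℝ) + 1), glueF n φ p s = 0 := by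
        have := ev_nat (p := p) hs (l + 1)
        push_cast at this
        exact this
      filter_upwards [h3, ev_right (p := p) hs l] with s e1 e2
      rw [e1, e2]
    · filter_upwards [Ioo_mem_nhds h h'] with s hs'
      exact eq_G hs l hs'.1.le hs'.2.le

end GlueF

open GlueF in
theorem glueF_proof : Stmt_GlueF := by
  intro n φ p hφ hs hp
  refine ⟨?_, ?_, ?_⟩
  · rw [contDiff_iff_contDiffAt]
    rintro ⟨t, x⟩
    rcases lt_or_ge t 0 with h | h
    · have h1 : (fun z : ℝ × E => glueF n φ p z.1 z.2) =ᶠ[𝓝 (t, x)] fun _ => 0 := by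
        have h2 : ∀ᶠ z : ℝ × E in 𝓝 (t, x), z.1 < 0 :=
          continuousAt_fst.eventually (eventually_lt_nhds h)
        filter_upwards [h2] with z hz
        rw [eq_neg hz]; rfl
      exact contDiffAt_const.congr_of_eventuallyEq h1
    · have h2 : ((⌊t⌋₊ : ℕ) : ℝ) ≤ t := Nat.floor_le h
      have h3 : t ≤ (⌊t⌋₊ : ℕ) + 1 := (Nat.lt_floor_add_one t).le
      have h1 : (fun z : ℝ × E => glueF n φ p z.1 z.2) =ᶠ[𝓝 (t, x)]
          fun z => ∑ j, φ ⌊t⌋₊ j (z.1 - (⌊t⌋₊ : ℕ)) • p ⌊t⌋₊ j z.2 := by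
        have h4 : ∀ᶠ z : ℝ × E in 𝓝 (t, x), glueF n φ p z.1 = Gl n φ p ⌊t⌋₊ z.1 :=
          (continuousAt_fst : ContinuousAt Prod.fst (t, x)).eventually (ev_eq hs ⌊t⌋₊ h2 h3)
        filter_upwards [h4] with z hz
        rw [hz]
        unfold Gl
        rw [Finset.sum_apply]
        rfl
      refine ContDiffAt.congr_of_eventuallyEq ?_ h1
      refine ContDiff.contDiffAt ?_
      refine ContDiff.sum fun j _ => ?_
      have k1 : ContDiff ℝ ∞ fun z : ℝ × E => φ ⌊t⌋₊ j (z.1 - (⌊t⌋₊ : ℕ)) :=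
        (hφ _ j).comp (contDiff_fst.sub contDiff_const)
      have k2 : ContDiff ℝ ∞ fun z : ℝ × E => p ⌊t⌋₊ j z.2 := (hp _ j).comp contDiff_snd
      exact k1.smul k2
  · have h0 := ev_nat (p := p) hs 0
    rw [Nat.cast_zero, Metric.eventually_nhds_iff] at h0
    obtain ⟨δ, hδ, h⟩ := h0
    refine ⟨δ / 2, by positivity, fun t ht => ?_⟩
    rcases lt_or_ge t 0 with h1 | h1
    · exact eq_neg h1
    · apply h
      rw [Real.dist_eq, sub_zero, abs_of_nonneg h1]
      linarith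
  · intro l t h1 h2
    refine ⟨eq_G hs l h1 h2, fun x => ?_⟩
    have h3 : (fun s => glueF n φ p s x) =ᶠ[𝓝 t] fun s => ∑ j, φ l j (s - l) • p l j x := by
      filter_upwards [ev_eq (p := p) hs l h1 h2] with s hs'
      rw [hs']
      unfold Gl
      rw [Finset.sum_apply]
      rfl
    rw [h3.deriv_eq]
    have h4 : ∀ j : Fin (n l), HasDerivAt (fun s => φ l j (s - l) • p l j x)
        (deriv (φ l j) (t - l) • p l j x) t := by
      intro j
      have h5 : HasDerivAt (φ l j) (deriv (φ l j) (t - l)) (t - l) :=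
        ((hφ l j).differentiable (by simp) (t - l)).hasDerivAt
      have h6 : HasDerivAt (fun s : ℝ => s - l) 1 t := (hasDerivAt_id t).sub_const _
      have h7 := h5.comp t h6
      rw [mul_one] at h7
      exact h7.smul_const _
    exact (HasDerivAt.fun_sum fun j _ => h4 j).deriv

end Pool.Agent.NSV
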