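import Pool.Agent.NSV.Stmts

open MeasureTheory Set Filter Topology
open scoped RealInnerProductSpace ContDiff ENNReal

noncomputable section

namespace Pool.Agent.NSV

namespace LFsumX

theorem tsum_two (x : ℕ → ℝ≥0∞) (q : ℝ) (hq : 1 < q) :
    (∑' l, x l) ^ q ≤ ∑' l, ((2 : ℝ≥0∞) ^ (l + 1)) ^ q * (x l) ^ q := by
  have hq0 : 0 < q := by linarith
  set T : ℝ≥0∞ := ∑' l, ((2 : ℝ≥0∞) ^ (l + 1)) ^ q * (x l) ^ q with hT
  have h1 : ∀ l, (2 : ℝ≥0∞) ^ (l + 1) * x l ≤ T ^ (1 / q) := by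
    intro l
    have h2 : ((2 : ℝ≥0∞) ^ (l + 1) * x l) ^ q ≤ T := by
      rw [ENNReal.mul_rpow_of_nonneg _ _ hq0.le]
      exact ENNReal.le_tsum l
    calc (2 : ℝ≥0∞) ^ (l + 1) * x l = (((2 : ℝ≥0∞) ^ (l + 1) * x l) ^ q) ^ (1 / q) := by
          rw [← ENNReal.rpow_mul, mul_one_div_cancel hq0.ne', ENNReal.rpow_one]
      _ ≤ T ^ (1 / q) := ENNReal.rpow_le_rpow h2 (by positivity)
  have h3 : ∀ l, x l ≤ (2 : ℝ≥0∞)⁻¹ ^ (l + 1) * T ^ (1 / q) := by
    intro l
    have h2 := h1 l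
    have h4 : (2 : ℝ≥0∞)⁻¹ ^ (l + 1) * ((2 : ℝ≥0∞) ^ (l + 1) * x l) = x l := by
      rw [← mul_assoc, ← mul_pow, ENNReal.inv_mul_cancel (by norm_num) (by norm_num), one_pow, one_mul]
    calc x l = (2 : ℝ≥0∞)⁻¹ ^ (l + 1) * ((2 : ℝ≥0∞) ^ (l + 1) * x l) := h4.symm
      _ ≤ _ := by gcongr
  have h5 : ∑' l, x l ≤ T ^ (1 / q) := by
    calc ∑' l, x l ≤ ∑' l, (2 : ℝ≥0∞)⁻¹ ^ (l + 1) * T ^ (1 / q) := ENNReal.tsum_le_tsum h3
      _ = (∑' l, (2 : ℝ≥0∞)⁻¹ ^ (l + 1)) * T ^ (1 / q) := ENNReal.tsum_mul_right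
      _ = T ^ (1 / q) := by
          have : ∑' l : ℕ, (2 : ℝ≥0∞)⁻¹ ^ (l + 1) = 1 := by
            simp_rw [pow_succ]
            rw [ENNReal.tsum_mul_right, ENNReal.tsum_geometric, ENNReal.one_sub_inv_two, inv_inv]
            exact ENNReal.mul_inv_cancel (by norm_num) (by norm_num)
          rw [this, one_mul]
  calc (∑' l, x l) ^ q ≤ (T ^ (1 / q)) ^ q := ENNReal.rpow_le_rpow h5 hq0.le
    _ = T := by rw [← ENNReal.rpow_mul, one_div_mul_cancel hq0.ne', ENNReal.rpow_one]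

theorem meas_integrand (q : ℝ) (F : ℝ → ℝ) :
    Measurable (fun lam : ℝ => (ENNReal.ofReal (lam ^ 2) * volume {t | lam < F t}) ^ q / ENNReal.ofReal lam) := by
  have h1 : Antitone (fun lam : ℝ => volume {t | lam < F t}) := by
    intro a b hab
    apply measure_mono
    intro t ht
    exact lt_of_le_of_lt hab ht
  have h2 : Measurable (fun lam : ℝ => volume {t | lam < F t}) := h1.measurable
  have h3 : Measurable (fun lam : ℝ => ENNReal.ofReal (lam ^ 2)) := by fun_prop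
  have h4 : Measurable (fun lam : ℝ => ENNReal.ofReal lam) := by fun_prop
  exact ((h3.mul h2).pow_const q).div h4

end LFsumX

open LFsumX in
theorem lfsum_proof : Stmt_LFsum := by
  intro q F G ε hq hε hG hF
  have hq0 : 0 < q := by linarith
  have key : ∀ lam ∈ Ioi (0 : ℝ), (ENNReal.ofReal (lam ^ 2) * volume {t | lam < G t}) ^ q / ENNReal.ofReal lam
      ≤ ∑' l : ℕ, ((2 : ℝ≥0∞) ^ (l + 1)) ^ q *
        ((ENNReal.ofReal (lam ^ 2) * volume {t | lam < F l t}) ^ q / ENNReal.ofReal lam) := by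
    intro lam hlam
    have hlam : 0 < lam := hlam
    have h1 : volume {t | lam < G t} ≤ ∑' l : ℕ, volume {t | lam < F l t} := by
      have h2 : {t | lam < G t} ⊆ ⋃ l : ℕ, {t : ℝ | lam < F l (t - l)} := by
        intro t ht
        rcases hG t with h | ⟨l, hl⟩
        · exact absurd (lt_of_lt_of_le (show lam < G t from ht) h) (not_lt.mpr hlam.le)
        · exact mem_iUnion.mpr ⟨l, lt_of_lt_of_le (show lam < G t from ht) hl⟩
      refine (measure_mono h2).trans ((measure_iUnion_le _).trans ?_)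
      apply ENNReal.tsum_le_tsum
      intro l
      have h3 : {t : ℝ | lam < F l (t - l)} = (fun t => t + (-(l : ℝ))) ⁻¹' {t | lam < F l t} := by
        ext t
        simp [sub_eq_add_neg]
      rw [h3, measure_preimage_add_right]
    have h4 : ENNReal.ofReal (lam ^ 2) * volume {t | lam < G t}
        ≤ ∑' l : ℕ, ENNReal.ofReal (lam ^ 2) * volume {t | lam < F l t} := by
      rw [ENNReal.tsum_mul_left]
      gcongr
    calc (ENNReal.ofReal (lam ^ 2) * volume {t | lam < G t}) ^ q / ENNReal.ofReal lam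
        ≤ (∑' l : ℕ, ENNReal.ofReal (lam ^ 2) * volume {t | lam < F l t}) ^ q / ENNReal.ofReal lam := by
          gcongr
      _ ≤ (∑' l : ℕ, ((2 : ℝ≥0∞) ^ (l + 1)) ^ q * (ENNReal.ofReal (lam ^ 2) * volume {t | lam < F l t}) ^ q)
            / ENNReal.ofReal lam := by
          gcongr
          exact tsum_two _ q hq
      _ = _ := by
          rw [div_eq_mul_inv, ← ENNReal.tsum_mul_right]
          congr 1
          ext l
          rw [div_eq_mul_inv, mul_assoc]
  calc LF q G ≤ ∫⁻ lam in Ioi (0 : ℝ), ∑' l : ℕ, ((2 : ℝ≥0∞) ^ (l + 1)) ^ q *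
        ((ENNReal.ofReal (lam ^ 2) * volume {t | lam < F l t}) ^ q / ENNReal.ofReal lam) :=
        setLIntegral_mono' measurableSet_Ioi key
    _ = ∑' l : ℕ, ∫⁻ lam in Ioi (0 : ℝ), ((2 : ℝ≥0∞) ^ (l + 1)) ^ q *
        ((ENNReal.ofReal (lam ^ 2) * volume {t | lam < F l t}) ^ q / ENNReal.ofReal lam) := by
        apply lintegral_tsum
        intro l
        exact ((meas_integrand q (F l)).const_mul _).aemeasurable
    _ = ∑' l : ℕ, ((2 : ℝ≥0∞) ^ (l + 1)) ^ q * LF q (F l) := by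
        congr 1
        ext l
        rw [lintegral_const_mul _ (meas_integrand q (F l))]
        rfl
    _ ≤ ∑' l : ℕ, ((2 : ℝ≥0∞) ^ (l + 1)) ^ q * ENNReal.ofReal (ε / (2 * (2 ^ q * 2) ^ (l + 1))) := by
        apply ENNReal.tsum_le_tsum
        intro l
        gcongr
        exact hF l
    _ = ∑' l : ℕ, ENNReal.ofReal (ε / 2) * (2 : ℝ≥0∞)⁻¹ ^ (l + 1) := by
        congr 1
        ext l
        have h1 : ((2 : ℝ≥0∞) ^ (l + 1)) ^ q = ENNReal.ofReal ((2 ^ q) ^ (l + 1)) := by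
          have h2 : (2 : ℝ≥0∞) ^ (l + 1) = ENNReal.ofReal ((2 : ℝ) ^ (l + 1)) := by
            rw [ENNReal.ofReal_pow (by norm_num)]
            norm_num
          rw [h2, ENNReal.ofReal_rpow_of_nonneg (by positivity) hq0.le]
          congr 1
          rw [← Real.rpow_natCast, ← Real.rpow_natCast, ← Real.rpow_mul (by norm_num),
            ← Real.rpow_mul (by norm_num), mul_comm]
        have h3 : (2 : ℝ≥0∞)⁻¹ ^ (l + 1) = ENNReal.ofReal ((2 : ℝ)⁻¹ ^ (l + 1)) := by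
          rw [ENNReal.ofReal_pow (by norm_num), ENNReal.ofReal_inv_of_pos (by norm_num)]
          norm_num
        rw [h1, h3, ← ENNReal.ofReal_mul (by positivity), ← ENNReal.ofReal_mul (by positivity)]
        congr 1
        have h4 : (0 : ℝ) < 2 ^ q := by positivity
        rw [mul_pow]
        field_simp
        rw [← mul_pow]
        norm_num
    _ = ENNReal.ofReal (ε / 2) := by
        rw [ENNReal.tsum_mul_left]
        have : ∑' l : ℕ, (2 : ℝ≥0∞)⁻¹ ^ (l + 1) = 1 := by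
          simp_rw [pow_succ]
          rw [ENNReal.tsum_mul_right, ENNReal.tsum_geometric, ENNReal.one_sub_inv_two, inv_inv]
          exact ENNReal.mul_inv_cancel (by norm_num) (by norm_num)
        rw [this, mul_one]
    _ ≤ ENNReal.ofReal ε := ENNReal.ofReal_le_ofReal (by linarith)

end Pool.Agent.NSV
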