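import Pool.Agent.NSV.GlueG
import Pool.Agent.NSD.MainAsm

/-!
# MP_fd8964_an, Theorem V: the final statement over `Pool.Agent.NSD.Defs`, from the interface statements
-/

open MeasureTheory Set Filter Topology
open scoped RealInnerProductSpace ContDiff ENNReal

noncomputable section

namespace Pool.Agent.NSV

open Pool.Agent.NSD Pool.Agent.NSK

/-- `Φ` is smooth in `(t,x)`, with values in `𝒱`, and vanishes near `t = 0` (and for `t ≤ 0`). -/
def IsVib (Ω : Set E) (Φ : ℝ → E → E) : Prop :=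
  ContDiff ℝ ∞ (fun z : ℝ × E => Φ z.1 z.2) ∧ (∀ t, IsTest Ω (Φ t)) ∧ ∃ τ : ℝ, 0 < τ ∧ ∀ t, t ≤ τ → Φ t = 0

/-- `∫₀^∞ (λ² |{t : ‖Φ(t)‖_{C^k} > λ}|)^q dλ/λ`. -/
def lorentz (k : ℕ) (q : ℝ) (Φ : ℝ → E → E) : ENNReal :=
  ∫⁻ lam in Ioi (0 : ℝ), (ENNReal.ofReal (lam ^ 2) *
    volume {t : ℝ | ∃ j, j ≤ k ∧ ∃ x, lam < ‖iteratedFDeriv ℝ j (Φ t) x‖}) ^ q / ENNReal.ofReal lam

/-- The length of the set of times at which `Φ` does not vanish. -/
def suppVol (Φ : ℝ → E → E) : ENNReal := volume {t : ℝ | Φ t ≠ 0}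

/-- `∫_Ω ∂ₜΦ(t,x)·v(x) dx`. -/
def pairDt {Ω : Set E} (Φ : ℝ → E → E) (t : ℝ) (v : V Ω) : ℝ :=
  ∫ x in Ω, ⟪deriv (fun s => Φ s x) t, (fld v : E → E) x⟫

/-- `‖u - p - w‖_{L²(Ω)}`. -/
def dist2 {Ω : Set E} (u : V Ω) (p : E → E) (w : L2 Ω) : ℝ :=
  √(∫ x in Ω, ‖(fld u : E → E) x - p x - (w : E → E) x‖ ^ 2)

/-- Theorem V. -/
def Stmt_MainV : Prop := ∀ (Ω : Set E), IsOpen Ω → Bornology.IsBounded Ω → ∀ (η : ℝ), 0 < η →
    ∀ (u₀ : V Ω), MemH2 u₀ → ∀ (f : ℝ → (V Ω →L[ℝ] ℝ)), AdmissibleForce Ω f →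
    ∀ (w : ℝ → L2 Ω), (∀ t, 0 ≤ t → w t ∈ Hspace Ω) → ContinuousOn w (Ici 0) →
    ∀ (δ : ℝ → ℝ), ContinuousOn δ (Ici 0) → (∀ t, 0 ≤ t → 0 < δ t) →
    ∀ (k : ℕ) (q ε : ℝ), 1 < q → 0 < ε →
    ∃ (Φ : ℝ → E → E) (g : ℝ → (V Ω →L[ℝ] ℝ)) (u : ℝ → V Ω), IsVib Ω Φ ∧
      lorentz k q Φ ≤ ENNReal.ofReal ε ∧ suppVol Φ ≤ ENNReal.ofReal ε ∧
      AdmissibleForce Ω g ∧ (∀ t, 0 ≤ t → ∀ v : V Ω, g t v = f t v + pairDt Φ t v) ∧
      IsRegularSolution Ω η u₀ g u ∧ ∀ t, ε ≤ t → dist2 (u t) (Φ t) (w t) ≤ δ t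

namespace MainX

/-! ### Test fields -/

theorem isTest_zero (Ω : Set E) : IsTest Ω (0 : E → E) := by
  refine IsTest.mk contDiff_const HasCompactSupport.zero (by simp) (fun x => ?_)
  have h0 : fderiv ℝ (0 : E → E) x = 0 := by
    rw [show (0 : E → E) = fun _ => (0 : E) from rfl]
    simp
  simp only [divField, h0]
  simp

theorem isTest_smul {Ω : Set E} {p : E → E} (hp : IsTest Ω p) (c : ℝ) : IsTest Ω (c • p) := by
  refine IsTest.mk (contDiff_const.smul hp.smooth) (hp.compact.smul_left (f := fun _ => c)) ?_ (fun x => ?_)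
  · exact (tsupport_smul_subset_right (fun _ => c) p).trans hp.supp
  · have hd : DifferentiableAt ℝ p x := (hp.smooth.differentiable (by simp)) x
    have h0 : fderiv ℝ (c • p) x = c • fderiv ℝ p x := fderiv_const_smul hd c
    have h1 := hp.div x
    simp only [divField, h0] at h1 ⊢
    simp only [smul_apply, PiLp.smul_apply, smul_eq_mul, ← Finset.mul_sum]
    rw [h1, mul_zero]

theorem isTest_add {Ω : Set E} {p q : E → E} (hp : IsTest Ω p) (hq : IsTest Ω q) : IsTest Ω (p + q) := by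
  refine IsTest.mk (hp.smooth.add hq.smooth) (hp.compact.add hq.compact) ?_ (fun x => ?_)
  · exact (tsupport_add p q).trans (union_subset hp.supp hq.supp)
  · have hd : DifferentiableAt ℝ p x := (hp.smooth.differentiable (by simp)) x
    have hd' : DifferentiableAt ℝ q x := (hq.smooth.differentiable (by simp)) x
    have h0 : fderiv ℝ (p + q) x = fderiv ℝ p x + fderiv ℝ q x := fderiv_add hd hd'
    have h1 := hp.div x
    have h2 := hq.div x
    simp only [divField, h0] at h1 h2 ⊢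
    simp only [add_apply, PiLp.add_apply, Finset.sum_add_distrib]
    rw [h1, h2, add_zero]

theorem isTest_sum {Ω : Set E} {n : ℕ} {p : Fin n → E → E} (hp : ∀ j, IsTest Ω (p j)) (c : Fin n → ℝ) :
    IsTest Ω (∑ j, c j • p j) := by
  classical
  have : ∀ s : Finset (Fin n), IsTest Ω (∑ j ∈ s, c j • p j) := by
    intro s
    induction s using Finset.induction_on with
    | empty => simpa using isTest_zero Ω
    | insert i s hi ih =>
      rw [Finset.sum_insert hi]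
      exact isTest_add (isTest_smul (hp i) _) ih
  exact this Finset.univ

/-- Bounds for the derivatives of test fields. -/
theorem exists_bound {Ω : Set E} {p : E → E} (hp : IsTest Ω p) (k : ℕ) :
    ∃ M : ℝ, 0 ≤ M ∧ ∀ j, j ≤ k → ∀ x, ‖iteratedFDeriv ℝ j p x‖ ≤ M := by
  have h1 : ∀ j : ℕ, ∃ M : ℝ, 0 ≤ M ∧ ∀ x, ‖iteratedFDeriv ℝ j p x‖ ≤ M := by
    intro j
    have hc : Continuous (iteratedFDeriv ℝ j p) :=
      hp.smooth.continuous_iteratedFDeriv (m := j) (by exact_mod_cast le_top)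
    obtain ⟨C, hC⟩ := (hp.compact.iteratedFDeriv (𝕜 := ℝ) j).exists_bound_of_continuous hc
    exact ⟨max C 0, le_max_right _ _, fun x => (hC x).trans (le_max_left _ _)⟩
  choose M hM0 hM using h1
  refine ⟨∑ j ∈ Finset.range (k + 1), M j, Finset.sum_nonneg fun j _ => hM0 j, fun j hj x => ?_⟩
  exact (hM j x).trans (Finset.single_le_sum (f := M) (fun i _ => hM0 i)
    (Finset.mem_range.2 (by omega)))

theorem norm_iter_le {n : ℕ} {p : Fin n → E → E} (hp : ∀ j, ContDiff ℝ ∞ (p j)) (c : Fin n → ℝ) {M : Fin n → ℝ}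
    {i : ℕ} {x : E} (hM : ∀ j, ‖iteratedFDeriv ℝ i (p j) x‖ ≤ M j) :
    ‖iteratedFDeriv ℝ i (∑ j, c j • p j) x‖ ≤ ∑ j, M j * |c j| := by
  have hs : ∀ j, ContDiffAt ℝ i (c j • p j) x := fun j =>
    (((hp j).of_le (by exact_mod_cast le_top)).const_smul (c j)).contDiffAt
  have h1 : iteratedFDeriv ℝ i (∑ j, c j • p j) x = ∑ j, iteratedFDeriv ℝ i (c j • p j) x := by
    exact iteratedFDeriv_sum_apply fun j _ => hs j
  rw [h1]
  refine (norm_sum_le _ _).trans (Finset.sum_le_sum fun j _ => ?_)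
  have h2 : iteratedFDeriv ℝ i (c j • p j) x = c j • iteratedFDeriv ℝ i (p j) x :=
    iteratedFDeriv_const_smul_apply (((hp j).of_le (by exact_mod_cast le_top)).contDiffAt)
  rw [h2, norm_smul, Real.norm_eq_abs, mul_comm]
  exact mul_le_mul_of_nonneg_right (hM j) (abs_nonneg _)

/-! ### Representations -/

theorem ae_sum {Ω : Set E} {n : ℕ} {a : Fin n → V Ω} {p : Fin n → E → E} (h : ∀ j, Represents Ω (p j) (a j))
    (c : Fin n → ℝ) : (fld (∑ j, c j • a j) : E → E) =ᵐ[volume.restrict Ω] (∑ j, c j • p j : E → E) := by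
  classical
  have key : ∀ s : Finset (Fin n), (fld (∑ j ∈ s, c j • a j) : E → E) =ᵐ[volume.restrict Ω]
      (∑ j ∈ s, c j • p j : E → E) := by
    intro s
    induction s using Finset.induction_on with
    | empty =>
      simp only [Finset.sum_empty]
      exact Lp.coeFn_zero E 2 (volume.restrict Ω)
    | insert i s hi ih =>
      rw [Finset.sum_insert hi, Finset.sum_insert hi]
      have e1 : fld (c i • a i + ∑ j ∈ s, c j • a j) = c i • fld (a i) + fld (∑ j ∈ s, c j • a j) := rfl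
      rw [e1]
      have h1 := Lp.coeFn_add (c i • fld (a i)) (fld (∑ j ∈ s, c j • a j))
      have h2 := Lp.coeFn_smul (c i) (fld (a i))
      have h3 : (fld (a i) : E → E) =ᵐ[volume.restrict Ω] p i := (h i).1
      filter_upwards [h1, h2, h3, ih] with x e1 e2 e3 e4
      rw [e1, Pi.add_apply, e2, Pi.smul_apply, e3, e4]
      rfl
  exact key Finset.univ

theorem dist2_eq {Ω : Set E} {n : ℕ} {a : Fin n → V Ω} {p : Fin n → E → E}
    (h : ∀ j, Represents Ω (p j) (a j)) (c : Fin n → ℝ) (u : V Ω) (w : L2 Ω) :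
    dist2 u (∑ j, c j • p j) w = ‖fld (u - ∑ j, c j • a j) - w‖ := by
  have e : ∀ X : L2 Ω, ‖X‖ = √(∫ x in Ω, ‖(X : E → E) x‖ ^ 2) := by
    intro X
    have h1 : ‖X‖ ^ 2 = ∫ x in Ω, ‖(X : E → E) x‖ ^ 2 := by
      rw [← real_inner_self_eq_norm_sq, L2.inner_def]
      refine integral_congr_ae (Eventually.of_forall fun x => ?_)
      exact real_inner_self_eq_norm_sq _
    rw [← h1, Real.sqrt_sq (norm_nonneg _)]
  rw [e, dist2]
  congr 1
  refine integral_congr_ae ?_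
  have e1 : fld (u - ∑ j, c j • a j) = fld u - fld (∑ j, c j • a j) := rfl
  rw [e1]
  filter_upwards [Lp.coeFn_sub (fld u - fld (∑ j, c j • a j)) w,
    Lp.coeFn_sub (fld u) (fld (∑ j, c j • a j)), ae_sum h c] with x h1 h2 h3
  rw [h1, Pi.sub_apply, h2, Pi.sub_apply, h3]

theorem inner_eq {Ω : Set E} {a : V Ω} {p : E → E} (h : Represents Ω p a) (v : V Ω) :
    ⟪fld a, fld v⟫ = ∫ x in Ω, ⟪p x, (fld v : E → E) x⟫ := by
  rw [L2.inner_def]
  refine integral_congr_ae ?_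
  filter_upwards [h.1] with x hx
  rw [show ((fld a : E → E) x) = ((a : H1 Ω).fst : E → E) x from rfl, hx]

/-- Representative of an element of `𝒱`. -/
def rep {Ω : Set E} (a : V Ω) : E → E :=
  open Classical in if h : InTest' a then h.choose else 0

theorem rep_test {Ω : Set E} {a : V Ω} (h : InTest' a) : IsTest Ω (rep a) := by
  rw [rep, dif_pos h]; exact h.choose_spec.1

theorem rep_rep {Ω : Set E} {a : V Ω} (h : InTest' a) : Represents Ω (rep a) a := by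
  rw [rep, dif_pos h]; exact h.choose_spec.2

/-- Weight of an element of `𝒱`: a bound for the `C^k` norm. -/
def wt {Ω : Set E} (k : ℕ) (a : V Ω) : ℝ :=
  open Classical in if h : InTest' a then (exists_bound (rep_test h) k).choose else 0

theorem wt_nonneg {Ω : Set E} (k : ℕ) (a : V Ω) : 0 ≤ wt k a := by
  classical
  rw [wt]
  split_ifs with h
  · exact (exists_bound (rep_test h) k).choose_spec.1
  · exact le_rfl

theorem le_wt {Ω : Set E} {k : ℕ} {a : V Ω} (h : InTest' a) {j : ℕ} (hj : j ≤ k) (x : E) :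
    ‖iteratedFDeriv ℝ j (rep a) x‖ ≤ wt k a := by
  rw [wt, dif_pos h]
  exact (exists_bound (rep_test h) k).choose_spec.2 j hj x

theorem tsupport_deriv_sub {φ : ℝ → ℝ} {s : Set ℝ} (h : tsupport φ ⊆ s) : tsupport (deriv φ) ⊆ s :=
  (tsupport_deriv_subset (f := φ)).trans h

theorem exists_pos_le {δ : ℝ → ℝ} (hδ : ContinuousOn δ (Ici 0)) (hpos : ∀ t, 0 ≤ t → 0 < δ t) (l : ℕ) :
    ∃ d : ℝ, 0 < d ∧ ∀ t ∈ Icc (l : ℝ) (l + 1), d ≤ δ t := by
  have hsub : Icc (l : ℝ) (l + 1) ⊆ Ici 0 := fun t ht => (Nat.cast_nonneg l).trans ht.1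
  obtain ⟨t, ht, hmin⟩ := (isCompact_Icc (a := (l : ℝ)) (b := l + 1)).exists_isMinOn
    ⟨l, by simp⟩ (hδ.mono hsub)
  exact ⟨δ t, hpos t (hsub ht), fun s hs => hmin hs⟩

end MainX

open MainX GlueGX

theorem mainV_of (hD : Stmt_Data) (hCpt : Stmt_Compat) (hConcat : Stmt_Concat) (hClass : Stmt_Class)
    (hTarget : Stmt_Target) (hGlue : Stmt_GlueF) (hLF : Stmt_LFsum) : Stmt_MainV := by
  intro Ω hΩ hb η hη u₀ hu₀ f hf w hw hwc δ hδc hδ k q ε hq hε
  obtain ⟨D, hDι, hDa, hDb⟩ := hD Ω hΩ hb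
  obtain ⟨⟨f₁, hf₁, hf₂⟩, h, hh, hfh⟩ := hf
  obtain ⟨κ, hκ, hcomp⟩ := hCpt Ω hΩ hb u₀ hu₀ η
  have hfH : IsH1loc f f₁ := ⟨hf₁, hf₂⟩
  have hcpt : Cpt D η (f 0) u₀ (h - κ) := by
    intro v
    rw [hDι, hDa, hDb, inner_sub_left, ← hfh v, ← hcomp v]
    ring
  obtain ⟨w', hw'c, hw'⟩ := hTarget Ω w (fun t => δ t / 2) hw hwc (hδc.div_const 2)
    (fun t ht => by have := hδ t ht; linarith)
  choose d hd0 hd using fun l : ℕ => exists_pos_le hδc hδ l
  set A : V Ω → Prop := InTest' (Ω := Ω) with hA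
  set εl : ℕ → ℝ := fun l => min (min (ε / (2 * (2 ^ q * 2) ^ (l + 1))) (ε / 2 ^ (l + 1))) (d l / 2) with hεl
  have hεl0 : ∀ l, 0 < εl l := fun l => by
    have h1 : (0 : ℝ) < 2 ^ q := Real.rpow_pos_of_pos two_pos q
    have h2 := hd0 l
    refine lt_min (lt_min ?_ ?_) ?_ <;> positivity
  obtain ⟨n, a, φ, u, u₁, haA, hφs, hφt, hlf, hvol, huH, hu0, heb, heq, hcl⟩ :=
    hConcat (V Ω) (L2 Ω) D A (wt k) η f f₁ u₀ (h - κ) w' q ε εl (hClass Ω hΩ hb D ⟨hDι, hDa, hDb⟩)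
      (wt_nonneg k) hη hfH hcpt hw'c hq hεl0 hε
  set p : (l : ℕ) → Fin (n l) → E → E := fun l j => rep (a l j) with hp
  have hpt : ∀ l j, IsTest Ω (p l j) := fun l j => rep_test (haA l j)
  have hpr : ∀ l j, Represents Ω (p l j) (a l j) := fun l j => rep_rep (haA l j)
  obtain ⟨hG1, hG2, hG3⟩ := hGlue n φ p hφs hφt (fun l j => (hpt l j).smooth)
  set Φ : ℝ → E → E := glueF n φ p with hΦ
  set φ' : (l : ℕ) → Fin (n l) → ℝ → ℝ := fun l j => deriv (φ l j) with hφ'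
  have hφ's : ∀ l j, ContDiff ℝ ∞ (φ' l j) := fun l j =>
    (contDiff_infty_iff_deriv.1 (hφs l j)).2
  have hφ't : ∀ l j, tsupport (φ' l j) ⊆ Ioo 0 1 := fun l j => tsupport_deriv_sub (hφt l j)
  set Ψ : ℝ → (V Ω →L[ℝ] ℝ) := glueF n φ' (fun l j => J D (a l j)) with hΨ
  have hΨs : ContDiff ℝ ∞ Ψ := glueF_contDiff hφ's hφ't
  have hfloor : ∀ t : ℝ, 0 ≤ t → ∃ l : ℕ, (l : ℝ) ≤ t ∧ t ≤ l + 1 := fun t ht =>
    ⟨⌊t⌋₊, Nat.floor_le ht, (Nat.lt_floor_add_one t).le⟩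
  have hΨv : ∀ (l : ℕ) (t : ℝ), (l : ℝ) ≤ t → t ≤ l + 1 → ∀ v : V Ω,
      Ψ t v = ∑ j, deriv (φ l j) (t - l) * ⟪fld (a l j), fld v⟫ := by
    intro l t h1 h2 v
    rw [hΨ, glueF_eq hφ't l h1 h2]
    simp [sum_apply, smul_apply, J_apply, hDι, hφ']
  have hpair : ∀ t, 0 ≤ t → ∀ v : V Ω, Ψ t v = pairDt Φ t v := by
    intro t ht v
    obtain ⟨l, hl1, hl2⟩ := hfloor t ht
    rw [hΨv l t hl1 hl2 v]
    have h3 := (hG3 l t hl1 hl2).2
    simp only [pairDt, h3]
    have h4 : ∀ x, ⟪∑ j, deriv (φ l j) (t - l) • p l j x, (fld v : E → E) x⟫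
        = ∑ j, deriv (φ l j) (t - l) * ⟪p l j x, (fld v : E → E) x⟫ := by
      intro x
      rw [sum_inner]
      exact Finset.sum_congr rfl fun j _ => by rw [real_inner_smul_left]
    simp only [h4]
    rw [integral_finsetSum]
    · refine Finset.sum_congr rfl fun j _ => ?_
      rw [integral_const_mul, inner_eq (hpr l j) v]
    · intro j _
      refine Integrable.const_mul ?_ _
      have h5 : Integrable (fun x => ⟪(fld (a l j) : E → E) x, (fld v : E → E) x⟫) (volume.restrict Ω) :=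
        L2.integrable_inner (𝕜 := ℝ) (fld (a l j)) (fld v)
      refine h5.congr ?_
      filter_upwards [(hpr l j).1] with x hx
      rw [show ((fld (a l j) : E → E) x) = (((a l j : V Ω) : H1 Ω).fst : E → E) x from rfl, hx]
  have hΨ0 : Ψ 0 = 0 := by
    ext v
    rw [hΨv 0 0 (by simp) (by simp) v]
    simp only [Nat.cast_zero, sub_zero, zero_apply]
    refine Finset.sum_eq_zero fun j _ => ?_
    have : deriv (φ 0 j) 0 = 0 := by
      by_contra hne
      exact lt_irrefl _ (hφ't 0 j (subset_tsupport _ hne)).1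
    rw [this, zero_mul]
  have hΨH : IsH1loc Ψ (deriv Ψ) := h1_of_contDiff (hΨs.of_le (by exact_mod_cast le_top))
  have hgH := h1_add hfH hΨH
  refine ⟨Φ, fun t => f t + Ψ t, u, ⟨hG1, ?_, hG2⟩, ?_, ?_, ⟨⟨fun t => f₁ t + deriv Ψ t, hgH.memLp, hgH.eq⟩,
    h, hh, ?_⟩, ?_, ⟨u₁, huH.memLp, ?_, ?_, ?_⟩, ?_⟩
  · -- tests
    intro t
    rcases lt_or_ge t 0 with ht | ht
    · rw [hΦ, glueF_neg ht]; exact isTest_zero Ω
    · obtain ⟨l, hl1, hl2⟩ := hfloor t ht
      rw [(hG3 l t hl1 hl2).1]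
      exact isTest_sum (hpt l) _
  · -- Lorentz
    set G : ℝ → ℝ := fun t => if t < 0 then 0 else ∑ j, wt k (a ⌊t⌋₊ j) * |φ ⌊t⌋₊ j (t - ⌊t⌋₊)| with hG
    have h1 : LF q G ≤ ENNReal.ofReal ε := by
      refine hLF q (fun l s => ∑ j, wt k (a l j) * |φ l j s|) G ε hq hε ?_ ?_
      · intro t
        rcases lt_or_ge t 0 with ht | ht
        · left; simp [hG, ht]
        · right; exact ⟨⌊t⌋₊, by simp [hG, not_lt.2 ht]⟩
      · intro l
        refine (hlf l).trans (ENNReal.ofReal_le_ofReal ?_)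
        exact (min_le_left _ _).trans (min_le_left _ _)
    refine le_trans ?_ h1
    unfold lorentz LF
    refine setLIntegral_mono' measurableSet_Ioi (fun lam hlam => ?_)
    refine ENNReal.div_le_div_right (ENNReal.rpow_le_rpow (mul_le_mul_right (measure_mono ?_) _)
      (by linarith)) _
    rintro t ⟨j, hj, x, hx⟩
    rcases lt_or_ge t 0 with ht | ht
    · exfalso
      rw [hΦ, glueF_neg ht] at hx
      have h0 : iteratedFDeriv ℝ j (0 : E → E) x = 0 := by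
        show iteratedFDeriv ℝ j (fun _ : E => (0 : E)) x = 0
        rw [iteratedFDeriv_zero_fun]; rfl
      rw [h0, norm_zero] at hx
      exact absurd hx (not_lt.2 (le_of_lt hlam))
    · show lam < G t
      refine lt_of_lt_of_le hx ?_
      simp only [hG, not_lt.2 ht, if_false]
      rw [(hG3 ⌊t⌋₊ t (Nat.floor_le ht) (Nat.lt_floor_add_one t).le).1]
      exact norm_iter_le (fun j => (hpt ⌊t⌋₊ j).smooth) _ (fun i => le_wt (haA ⌊t⌋₊ i) hj x)
  · -- volume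
    unfold suppVol
    have h1 : {t : ℝ | Φ t ≠ 0} ⊆ ⋃ l : ℕ, (fun t : ℝ => t - l) ⁻¹' {s | ∃ j, φ l j s ≠ 0} := by
      intro t ht
      rcases lt_or_ge t 0 with h0 | h0
      · exact absurd (by rw [hΦ, glueF_neg h0]) ht
      · obtain ⟨l, hl1, hl2⟩ := hfloor t h0
        refine mem_iUnion.2 ⟨l, ?_⟩
        by_contra hcon
        refine ht ?_
        rw [(hG3 l t hl1 hl2).1]
        refine Finset.sum_eq_zero fun j _ => ?_
        have : φ l j (t - l) = 0 := by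
          by_contra hne
          exact hcon ⟨j, hne⟩
        rw [this, zero_smul]
    refine (measure_mono h1).trans ((measure_iUnion_le _).trans ?_)
    have h2 : ∀ l : ℕ, volume ((fun t : ℝ => t - l) ⁻¹' {s | ∃ j, φ l j s ≠ 0})
        ≤ ENNReal.ofReal (ε / 2 ^ (l + 1)) := by
      intro l
      have e := measure_preimage_add_right (volume : Measure ℝ) (-(l : ℝ)) {s | ∃ j, φ l j s ≠ 0}
      simp only [← sub_eq_add_neg] at e
      rw [e]
      refine (hvol l).trans (ENNReal.ofReal_le_ofReal ?_)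
      exact (min_le_left _ _).trans (min_le_right _ _)
    refine (ENNReal.tsum_le_tsum h2).trans ?_
    have h3 : HasSum (fun l : ℕ => ε / 2 ^ (l + 1)) ε := by
      have := (hasSum_geometric_two' ε)
      refine this.congr_fun ?_
      intro l
      rw [pow_succ]; field_simp
    rw [← ENNReal.ofReal_tsum_of_nonneg (fun l => by positivity) h3.summable, h3.tsum_eq]
  · -- f(0)
    intro v
    show (f 0 + Ψ 0) v = _
    rw [hΨ0, add_zero]
    exact hfh v
  · intro t ht v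
    rw [add_apply, hpair t ht v]
  · intro T
    obtain ⟨C, hC⟩ := heb T
    refine ⟨C, ?_⟩
    filter_upwards [hC] with t ht
    rwa [hDι] at ht
  · intro t ht
    rw [huH.eq t ht, hu0]
  · have h1 : ∀ᵐ t ∂(volume : Measure ℝ), ∀ l : ℕ, t ∈ Ioc (l : ℝ) (l + 1) → ∀ y,
        ⟪D.ι (u₁ t), D.ι y⟫ + η * D.a (u t) y + D.b (u t) (u t) y
          = f t y + ∑ j, deriv (φ l j) (t - l) * ⟪D.ι (a l j), D.ι y⟫ := by
      rw [ae_all_iff]
      intro l
      exact (ae_restrict_iff' measurableSet_Ioc).1 (heq l)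
    rw [ae_restrict_iff' measurableSet_Ioi]
    filter_upwards [h1] with t ht ht0 v
    have hc1 : 1 ≤ ⌈t⌉₊ := Nat.one_le_iff_ne_zero.2 (by
      have := Nat.ceil_pos.2 (mem_Ioi.1 ht0)
      omega)
    have hmem : t ∈ Ioc ((⌈t⌉₊ - 1 : ℕ) : ℝ) ((⌈t⌉₊ - 1 : ℕ) + 1) := by
      have e : ((⌈t⌉₊ - 1 : ℕ) : ℝ) = (⌈t⌉₊ : ℝ) - 1 := by
        rw [Nat.cast_sub hc1]; simp
      rw [e]
      have h2 := Nat.le_ceil t
      have h3 := Nat.ceil_lt_add_one (le_of_lt (mem_Ioi.1 ht0))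
      exact ⟨by linarith, by linarith⟩
    have h4 := ht _ hmem v
    have h5 := hΨv _ t hmem.1.le hmem.2 v
    simp only [hDι, hDa, hDb] at h4
    rw [add_apply, h5]
    linarith
  · -- tracking
    intro t ht
    have ht0 : 0 ≤ t := hε.le.trans ht
    have hl1 : ((⌊t⌋₊ : ℕ) : ℝ) ≤ t := Nat.floor_le ht0
    have hl2 : t ≤ (⌊t⌋₊ : ℕ) + 1 := (Nat.lt_floor_add_one t).le
    set l := ⌊t⌋₊ with hl
    have h1 := hcl l t ⟨hl1, hl2⟩ (Or.inr ht)
    have h2 := hw' t ht0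
    have h3 : εl l ≤ δ t / 2 := by
      have h4 := hd l t ⟨hl1, hl2⟩
      have h5 : εl l ≤ d l / 2 := min_le_right _ _
      linarith
    rw [hDι] at h1
    have hfldsub : ∀ x y : V Ω, fld (x - y) = fld x - fld y := fun x y => rfl
    have hfldadd : ∀ x y : V Ω, fld (x + y) = fld x + fld y := fun x y => rfl
    have h6 : dist2 (u t) (Φ t) (w t) = ‖fld (u t - ∑ j, φ l j (t - l) • a l j) - w t‖ := by
      rw [(hG3 l t hl1 hl2).1]
      exact dist2_eq (hpr l) _ _ _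
    rw [h6]
    have h7 : fld (u t - ∑ j, φ l j (t - l) • a l j) - w t
        = fld (u t - ∑ j, φ l j (t - l) • a l j - w' t) + (fld (w' t) - w t) := by
      rw [hfldsub (u t - ∑ j, φ l j (t - l) • a l j) (w' t)]
      abel
    rw [h7]
    refine (norm_add_le _ _).trans ?_
    linarith

end Pool.Agent.NSV
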