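import Pool.Agent.NSV.Stmts
import Pool.Agent.NSD.H1Criterion

/-!
# NSV, module OPEN: small changes of the force in `H¹(0,1;V')`
-/

open MeasureTheory Set Filter Topology
open scoped RealInnerProductSpace ContDiff ENNReal

noncomputable section

namespace Pool.Agent.NSV

open Pool.Agent.NSD Pool.Agent.NSK

namespace OpenX

section
variable {X : Type*} [NormedAddCommGroup X] [NormedSpace ℝ X]

theorem isH1loc_add {f f₁ g g₁ : ℝ → X} (hf : IsH1loc f f₁) (hg : IsH1loc g g₁) :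
    IsH1loc (fun t => f t + g t) (fun t => f₁ t + g₁ t) := by
  refine ⟨fun T => (hf.memLp T).add (hg.memLp T), fun t ht => ?_⟩
  rw [intervalIntegral.integral_add (hf.intervalIntegrable le_rfl ht)
    (hg.intervalIntegrable le_rfl ht)]
  have e1 := hf.eq t ht
  have e2 := hg.eq t ht
  rw [e1, e2]
  abel

theorem isH1loc_zero : IsH1loc (fun _ : ℝ => (0 : X)) (fun _ => 0) := by
  refine ⟨fun T => MemLp.zero', fun t _ => by simp⟩

theorem intervalIntegrable_norm_sq {x x₁ : ℝ → X} (h : IsH1loc x x₁) {a b : ℝ} (ha : 0 ≤ a)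
    (hab : a ≤ b) : IntervalIntegrable (fun t => ‖x₁ t‖ ^ 2) volume a b := by
  rw [intervalIntegrable_iff_integrableOn_Ioc_of_le hab]
  have h1 : IntegrableOn (fun s => ‖x₁ s‖ ^ 2) (Ioc 0 b) := (h.memLp b).norm.integrable_sq
  exact h1.mono_set (Ioc_subset_Ioc_left ha)

/-- `‖x(t)‖ ≤ √t (∫₀¹ ‖x₁‖²)^{1/2}` if `x 0 = 0`. -/
theorem norm_le_sqrt {x x₁ : ℝ → X} (h : IsH1loc x x₁) (h0 : x 0 = 0) {r : ℝ} (hr : 0 ≤ r)
    (hI : ∫ t in (0 : ℝ)..1, ‖x₁ t‖ ^ 2 ≤ r ^ 2) {t : ℝ} (ht : t ∈ Icc (0 : ℝ) 1) :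
    ‖x t‖ ≤ √t * r := by
  rcases eq_or_lt_of_le ht.1 with e | e
  · rw [← e, h0]; simp
  have h1 : x t = ∫ s in (0 : ℝ)..t, x₁ s := by rw [h.eq t ht.1, h0, zero_add]
  have h2 : ‖x t‖ ≤ ∫ s in (0 : ℝ)..t, ‖x₁ s‖ := by
    rw [h1]; exact intervalIntegral.norm_integral_le_integral_norm ht.1
  have h3 := sq_intervalIntegral_le e (h.intervalIntegrable le_rfl ht.1).norm
    (intervalIntegrable_norm_sq h le_rfl ht.1)
  have h4 : ∫ s in (0 : ℝ)..t, ‖x₁ s‖ ^ 2 ≤ ∫ s in (0 : ℝ)..1, ‖x₁ s‖ ^ 2 :=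
    intervalIntegral.integral_mono_interval le_rfl ht.1 ht.2
      (Eventually.of_forall fun s => by positivity)
      (intervalIntegrable_norm_sq h le_rfl zero_le_one)
  have h5 : ‖x t‖ ^ 2 ≤ (√t * r) ^ 2 := by
    rw [mul_pow, Real.sq_sqrt ht.1]
    have h6 : ‖x t‖ ^ 2 ≤ (∫ s in (0 : ℝ)..t, ‖x₁ s‖) ^ 2 :=
      pow_le_pow_left₀ (norm_nonneg _) h2 2
    have h7 : t * ∫ s in (0 : ℝ)..t, ‖x₁ s‖ ^ 2 ≤ t * r ^ 2 :=
      mul_le_mul_of_nonneg_left (h4.trans hI) ht.1
    rw [sub_zero] at h3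
    linarith
  exact (abs_le_of_sq_le_sq' h5 (by positivity)).2

end

section
variable {V K : Type*} [NormedAddCommGroup V] [InnerProductSpace ℝ V]
    [NormedAddCommGroup K] [InnerProductSpace ℝ K]

theorem memLp_sig {x x₁ : ℝ → V} (h : IsH1loc x x₁) (D : Data V K) (T : ℝ) :
    MemLp (fun t => D.sig (x₁ t)) 2 (volume.restrict (Ioc 0 T)) := by
  have hW := h.memLp T
  refine hW.of_le (D.continuous_sig.comp_aestronglyMeasurable hW.1) ?_
  exact Filter.Eventually.of_forall fun t => by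
    rw [Real.norm_of_nonneg (D.sig_nonneg _)]
    exact D.sig_le_norm _

end

end OpenX

open OpenX in
theorem open_proof (hStab : Stmt_Stab) : Stmt_Open := by
  intro V K _ _ _ _ _ D η f f₁ F F₁ v v₁ h₀ δ hη hδ hf hF hF0 hv hc
  -- the constant `CS`
  obtain ⟨M, hM⟩ := (isCompact_Icc (a := (0 : ℝ)) (b := 1)).exists_bound_of_continuousOn
    ((continuousOn_sig hv.h1 D).mono Icc_subset_Ici_self)
  set I : ℝ := ∫ t in (0 : ℝ)..1, D.sig (v₁ t) ^ 2 with hI
  have hM0 : 0 ≤ M := (norm_nonneg _).trans (hM 0 ⟨le_rfl, zero_le_one⟩)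
  set CS : ℝ := max M I with hCS
  have hCS0 : 0 ≤ CS := hM0.trans (le_max_left _ _)
  obtain ⟨C, hC1, hC⟩ := hStab V K D η 1 CS hη one_pos hCS0
  have hC0 : 0 < C := by linarith
  -- the size `s`
  set s : ℝ := min (1 / (6 * C)) (δ / C) with hs
  have hs0 : 0 < s := lt_min (by positivity) (by positivity)
  have hsC : s * (6 * C) ≤ 1 := by
    have h1 : s ≤ 1 / (6 * C) := min_le_left _ _
    calc s * (6 * C) ≤ 1 / (6 * C) * (6 * C) := mul_le_mul_of_nonneg_right h1 (by positivity)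
      _ = 1 := by field_simp
  have hsδ : C * s ≤ δ := by
    have h1 : s ≤ δ / C := min_le_right _ _
    calc C * s ≤ C * (δ / C) := mul_le_mul_of_nonneg_left h1 hC0.le
      _ = δ := by field_simp
  have hs1 : s ≤ 1 := by nlinarith
  have hc0 : 0 < √D.c₀ := Real.sqrt_pos.2 D.c₀_pos
  set κ : ℝ := min 1 (√D.c₀) with hκ
  have hκ0 : 0 < κ := lt_min one_pos hc0
  refine ⟨s * κ, by positivity, fun G G₁ hG hG0 hGF => ?_⟩
  -- the residual
  have hR : IsH1loc (fun t => F t - G t) (fun t => F₁ t - G₁ t) := isH1loc_sub hF hG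
  have hRI : ∫ t in (0 : ℝ)..1, ‖F₁ t - G₁ t‖ ^ 2 ≤ (s * κ) ^ 2 := by
    refine le_trans (le_of_eq ?_) hGF
    refine intervalIntegral.integral_congr (fun t _ => ?_)
    simp only [norm_sub_rev (F₁ t)]
  have hRn : ∀ t ∈ Icc (0 : ℝ) 1, ‖F t - G t‖ ≤ √t * (s * κ) := fun t ht =>
    norm_le_sqrt hR (by simp [hF0, hG0]) (by positivity) hRI ht
  have hRb : ∀ t ∈ Icc (0 : ℝ) 1, ∀ y, |(F t - G t) y| ≤ s * (√t * D.sig y) := by
    intro t ht y
    have h1 : |(F t - G t) y| ≤ ‖F t - G t‖ * ‖y‖ := by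
      rw [← Real.norm_eq_abs]; exact ContinuousLinearMap.le_opNorm _ _
    have h2 : κ * ‖y‖ ≤ D.sig y :=
      (mul_le_mul_of_nonneg_right (min_le_right _ _) (norm_nonneg _)).trans (D.norm_le_sig y)
    calc |(F t - G t) y| ≤ √t * (s * κ) * ‖y‖ :=
          h1.trans (mul_le_mul_of_nonneg_right (hRn t ht) (norm_nonneg _))
      _ = √t * s * (κ * ‖y‖) := by ring
      _ ≤ √t * s * D.sig y := mul_le_mul_of_nonneg_left h2 (by positivity)
      _ = s * (√t * D.sig y) := by ring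
  have hApp : Approx D η CS 1 s s s 0 (fun t => f t + G t) v v₁ (fun t => F t - G t)
      (fun t => F₁ t - G₁ t) (fun _ => 0) (fun _ => 0) (fun t => D.sig (v₁ t)) := by
    refine ⟨hv.h1, ?_, ?_, ?_, fun t => D.sig_nonneg _, memLp_sig hv.h1 D 1, le_max_right _ _,
      hR, ?_, ?_, isH1loc_zero, rfl, ?_, ?_⟩
    · filter_upwards [hv.eq] with t ht y
      have := ht y
      simp only [add_apply, sub_apply] at this ⊢
      linarith
    · intro t ht
      have := hM t ht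
      rw [Real.norm_of_nonneg (D.sig_nonneg _)] at this
      exact this.trans (le_max_left _ _)
    · exact Eventually.of_forall fun t => by simp
    · refine hRI.trans ?_
      have h1 : s * κ ≤ s := by
        have : κ ≤ 1 := min_le_left _ _
        nlinarith
      exact pow_le_pow_left₀ (by positivity) h1 2
    · intro t ht y
      refine (hRb t ht y).trans ?_
      refine mul_le_mul_of_nonneg_left ?_ hs0.le
      have := norm_nonneg (D.ι y)
      linarith
    · intro t _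
      have : D.sig (0 : V) = 0 := by simp [Data.sig]
      rw [this]; exact hs0.le
    · filter_upwards [ae_restrict_mem measurableSet_Ioc] with t ht y
      have h1 := hRb t ⟨ht.1.le, ht.2⟩ y
      have h2 : √t ≤ 1 := by
        rw [← Real.sqrt_one]; exact Real.sqrt_le_sqrt ht.2
      have h3 := D.sig_nonneg y
      have h4 : s * (√t * D.sig y) ≤ s * D.sig y := by
        refine mul_le_mul_of_nonneg_left ?_ hs0.le
        nlinarith
      simpa using h1.trans h4
  have hcpt : Cpt D η ((fun t => f t + G t) 0) (v 0) h₀ := by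
    intro y
    have := hc y
    simpa [hG0] using this
  obtain ⟨u, w, hu, hu0, hEB, hb⟩ := hC s s s 0 1 (fun t => f t + G t) (fun t => f₁ t + G₁ t)
    v v₁ (fun t => F t - G t) (fun t => F₁ t - G₁ t) (fun _ => 0) (fun _ => 0)
    (fun t => D.sig (v₁ t)) h₀ hs0.le hs1 hs0.le hs0.le le_rfl zero_le_one (by nlinarith)
    (by rw [Real.sqrt_one]; nlinarith) (isH1loc_add hf hG) hApp hcpt
  exact ⟨u, w, hu, hu0, hEB, fun t ht => (hb t ht).1.trans hsδ⟩

end Pool.Agent.NSV
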