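import Pool.Agent.NSV.Stmts

/-! Module OSC: the oscillation lemma. -/

set_option autoImplicit false

open MeasureTheory Set Filter Topology
open scoped RealInnerProductSpace ContDiff ENNReal

namespace Pool.Agent.NSV

open Pool.Agent.NSD Pool.Agent.NSK

namespace OscX

theorem ii_of_cont {f : ℝ → ℝ} (hf : ContinuousOn f (Icc 0 1)) {a b : ℝ} (ha : 0 ≤ a) (hab : a ≤ b)
    (hb : b ≤ 1) : IntervalIntegrable f volume a b :=
  ContinuousOn.intervalIntegrable_of_Icc hab (hf.mono (Icc_subset_Icc ha hb))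

theorem ii_sub {k : ℝ → ℝ} (hk : IntervalIntegrable k volume 0 1) {a b : ℝ} (ha : 0 ≤ a) (hab : a ≤ b)
    (hb : b ≤ 1) : IntervalIntegrable k volume a b := by
  refine hk.mono_set ?_
  rw [uIcc_of_le hab, uIcc_of_le zero_le_one]
  exact Icc_subset_Icc ha hb

theorem int_mono {k : ℝ → ℝ} (hk : IntervalIntegrable k volume 0 1) (k0 : ∀ t, 0 ≤ k t) {a b c d : ℝ}
    (ha : 0 ≤ a) (hac : a ≤ c) (hcd : c ≤ d) (hdb : d ≤ b) (hb : b ≤ 1) :
    ∫ r in c..d, k r ≤ ∫ r in a..b, k r := by
  have h1 : ∫ r in a..b, k r = (∫ r in a..c, k r) + (∫ r in c..d, k r) + ∫ r in d..b, k r := by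
    rw [intervalIntegral.integral_add_adjacent_intervals
      (ii_sub hk ha hac (by linarith)) (ii_sub hk (by linarith) hcd (by linarith)),
      intervalIntegral.integral_add_adjacent_intervals
      (ii_sub hk ha (by linarith) (by linarith)) (ii_sub hk (by linarith) hdb hb)]
  have h2 : 0 ≤ ∫ r in a..c, k r := intervalIntegral.integral_nonneg hac fun x _ => k0 x
  have h3 : 0 ≤ ∫ r in d..b, k r := intervalIntegral.integral_nonneg hdb fun x _ => k0 x
  linarith

end OscX

open OscX in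
theorem osc_proof : Stmt_Osc := by
  intro N g ψ k A B Kk hN hA hB hg gA hcell hψ ψB hk k0 hKk hinc t ht
  have hN0 : (0 : ℝ) < N := by exact_mod_cast hN
  have hgψ : ContinuousOn (fun s => g s * ψ s) (Icc 0 1) := hg.mul hψ
  -- partial sums
  have key : ∀ L : ℕ, L ≤ N →
      |∫ s in (0 : ℝ)..((L : ℝ) / N), g s * ψ s| ≤ A / N * ∫ r in (0 : ℝ)..((L : ℝ) / N), k r := by
    intro L
    induction L with
    | zero => intro _; simp
    | succ L ih =>
      intro hL
      have hL' : (L : ℝ) + 1 ≤ N := by exact_mod_cast hL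
      have h0 : (0 : ℝ) ≤ (L : ℝ) / N := by positivity
      have h1 : (L : ℝ) / N ≤ ((L : ℝ) + 1) / N := by gcongr; linarith
      have h2 : ((L : ℝ) + 1) / N ≤ 1 := by rw [div_le_one hN0]; exact hL'
      have e1 : ∫ s in (0 : ℝ)..(((L + 1 : ℕ) : ℝ) / N), g s * ψ s
          = (∫ s in (0 : ℝ)..((L : ℝ) / N), g s * ψ s)
            + ∫ s in ((L : ℝ) / N)..(((L : ℝ) + 1) / N), g s * ψ s := by
        push_cast
        rw [intervalIntegral.integral_add_adjacent_intervals
          (ii_of_cont hgψ le_rfl h0 (h1.trans h2)) (ii_of_cont hgψ h0 h1 h2)]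
      have e2 : ∫ r in (0 : ℝ)..(((L + 1 : ℕ) : ℝ) / N), k r
          = (∫ r in (0 : ℝ)..((L : ℝ) / N), k r)
            + ∫ r in ((L : ℝ) / N)..(((L : ℝ) + 1) / N), k r := by
        push_cast
        rw [intervalIntegral.integral_add_adjacent_intervals
          (ii_sub hk le_rfl h0 (h1.trans h2)) (ii_sub hk h0 h1 h2)]
      have hc := hcell L (by omega)
      have e3 : ∫ s in ((L : ℝ) / N)..(((L : ℝ) + 1) / N), g s * ψ s
          = ∫ s in ((L : ℝ) / N)..(((L : ℝ) + 1) / N), g s * (ψ s - ψ ((L : ℝ) / N)) := by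
        have : ∀ s, g s * (ψ s - ψ ((L : ℝ) / N)) = g s * ψ s - g s * ψ ((L : ℝ) / N) := by
          intro s; ring
        simp only [this]
        rw [intervalIntegral.integral_sub (ii_of_cont hgψ h0 h1 h2)
          ((ii_of_cont hg h0 h1 h2).mul_const _), intervalIntegral.integral_mul_const, hc]
        ring
      have hKc : 0 ≤ ∫ r in ((L : ℝ) / N)..(((L : ℝ) + 1) / N), k r :=
        intervalIntegral.integral_nonneg h1 fun x _ => k0 x
      have e4 : |∫ s in ((L : ℝ) / N)..(((L : ℝ) + 1) / N), g s * (ψ s - ψ ((L : ℝ) / N))|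
          ≤ A / N * ∫ r in ((L : ℝ) / N)..(((L : ℝ) + 1) / N), k r := by
        have h3 := intervalIntegral.norm_integral_le_of_norm_le_const (a := (L : ℝ) / N)
          (b := ((L : ℝ) + 1) / N) (f := fun s => g s * (ψ s - ψ ((L : ℝ) / N)))
          (C := A * ∫ r in ((L : ℝ) / N)..(((L : ℝ) + 1) / N), k r) (by
            intro x hx
            rw [uIoc_of_le h1] at hx
            rw [Real.norm_eq_abs, abs_mul]
            have hx0 : 0 ≤ x := h0.trans hx.1.le
            have hx1 : x ≤ 1 := hx.2.trans h2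
            refine mul_le_mul (gA x ⟨hx0, hx1⟩) ?_ (abs_nonneg _) hA
            refine (hinc _ _ h0 hx.1.le hx1).trans ?_
            exact int_mono hk k0 h0 le_rfl hx.1.le hx.2 h2)
        rw [Real.norm_eq_abs] at h3
        refine h3.trans (le_of_eq ?_)
        have h4 : ((L : ℝ) + 1) / N - (L : ℝ) / N = 1 / N := by ring
        rw [h4, abs_of_pos (by positivity)]
        ring
      rw [e1, e2, mul_add]
      refine (abs_add_le _ _).trans (add_le_add (ih (by omega)) ?_)
      rw [e3]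
      exact e4
  obtain ⟨ht0, ht1⟩ := ht
  set L := ⌊t * N⌋₊ with hL
  have hL1 : (L : ℝ) ≤ t * N := Nat.floor_le (by positivity)
  have hL2 : t * N < L + 1 := Nat.lt_floor_add_one _
  have hLN : L ≤ N := by
    have : (L : ℝ) ≤ N := hL1.trans (by nlinarith)
    exact_mod_cast this
  have h0 : (0 : ℝ) ≤ (L : ℝ) / N := by positivity
  have h1 : (L : ℝ) / N ≤ t := by rw [div_le_iff₀ hN0]; exact hL1
  have h2 : t - (L : ℝ) / N ≤ 1 / N := by
    have : t ≤ ((L : ℝ) + 1) / N := by rw [le_div_iff₀ hN0]; exact hL2.le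
    have h3 : ((L : ℝ) + 1) / N = (L : ℝ) / N + 1 / N := by ring
    linarith
  have e1 : ∫ s in (0 : ℝ)..t, g s * ψ s = (∫ s in (0 : ℝ)..((L : ℝ) / N), g s * ψ s)
      + ∫ s in ((L : ℝ) / N)..t, g s * ψ s := by
    rw [intervalIntegral.integral_add_adjacent_intervals
      (ii_of_cont hgψ le_rfl h0 (h1.trans ht1)) (ii_of_cont hgψ h0 h1 ht1)]
  have e2 : |∫ s in ((L : ℝ) / N)..t, g s * ψ s| ≤ A * B / N := by
    have h3 := intervalIntegral.norm_integral_le_of_norm_le_const (a := (L : ℝ) / N)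
      (b := t) (f := fun s => g s * ψ s) (C := A * B) (by
        intro x hx
        rw [uIoc_of_le h1] at hx
        rw [Real.norm_eq_abs, abs_mul]
        have hx0 : 0 ≤ x := h0.trans hx.1.le
        have hx1 : x ≤ 1 := hx.2.trans ht1
        exact mul_le_mul (gA x ⟨hx0, hx1⟩) (ψB x ⟨hx0, hx1⟩) (abs_nonneg _) hA)
    rw [Real.norm_eq_abs, abs_of_nonneg (by linarith : 0 ≤ t - (L : ℝ) / N)] at h3
    refine h3.trans ?_
    have h4 : A * B * (t - (L : ℝ) / N) ≤ A * B * (1 / N) :=
      mul_le_mul_of_nonneg_left h2 (by positivity)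
    refine h4.trans (le_of_eq ?_)
    ring
  have e3 : A / N * (∫ r in (0 : ℝ)..((L : ℝ) / N), k r) ≤ A / N * Kk := by
    refine mul_le_mul_of_nonneg_left ?_ (by positivity)
    exact (int_mono hk k0 le_rfl le_rfl h0 (h1.trans ht1) le_rfl).trans hKk
  rw [e1]
  refine (abs_add_le _ _).trans ?_
  have h5 : A * (B + Kk) / N = A / N * Kk + A * B / N := by ring
  rw [h5]
  exact add_le_add ((key L hLN).trans e3) e2

end Pool.Agent.NSV
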