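import Pool.Agent.NSV.Stmts

/-!
# MP_fd8964_an, Theorem V: the path (module PATH)
-/

open MeasureTheory Set Filter Topology
open scoped RealInnerProductSpace ContDiff ENNReal

noncomputable section

namespace Pool.Agent.NSV

open Pool.Agent.NSD Pool.Agent.NSK

namespace PathX

section
variable {X Y Z : Type} [NormedAddCommGroup X] [NormedSpace ℝ X] [CompleteSpace X]
  [NormedAddCommGroup Y] [NormedSpace ℝ Y] [CompleteSpace Y]
  [NormedAddCommGroup Z] [NormedSpace ℝ Z] [CompleteSpace Z]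

omit [CompleteSpace X] in
theorem h_add {f f₁ g g₁ : ℝ → X} (hf : IsH1loc f f₁) (hg : IsH1loc g g₁) :
    IsH1loc (fun t => f t + g t) (fun t => f₁ t + g₁ t) := by
  refine ⟨fun T => (hf.memLp T).add (hg.memLp T), fun t ht => ?_⟩
  rw [intervalIntegral.integral_add (hf.intervalIntegrable le_rfl ht)
    (hg.intervalIntegrable le_rfl ht)]
  have e1 := hf.eq t ht
  have e2 := hg.eq t ht
  rw [e1, e2]
  abel

theorem h_clm (L : X →L[ℝ] Y) {f f₁ : ℝ → X} (hf : IsH1loc f f₁) :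
    IsH1loc (fun t => L (f t)) (fun t => L (f₁ t)) := by
  refine ⟨fun T => L.comp_memLp' (hf.memLp T), fun t ht => ?_⟩
  rw [ContinuousLinearMap.intervalIntegral_comp_comm L (hf.intervalIntegrable le_rfl ht),
    ← map_add, ← hf.eq t ht]

theorem h_C1 {f : ℝ → X} (hf : ContDiff ℝ 1 f) : IsH1loc f (deriv f) := by
  refine isH1loc_of_deriv (fun t _ => ?_) ?_
  · exact ((hf.differentiable (by norm_num)) t).hasDerivAt.hasDerivWithinAt
  · exact (hf.continuous_deriv (by norm_num)).continuousOn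

theorem h_smul (hP : Stmt_Prod) {g : ℝ → ℝ} {f f₁ : ℝ → X} (hg : ContDiff ℝ 1 g)
    (hf : IsH1loc f f₁) :
    IsH1loc (fun t => g t • f t) (fun t => deriv g t • f t + g t • f₁ t) :=
  hP ℝ X X (ContinuousLinearMap.lsmul ℝ ℝ) g (deriv g) f f₁ (h_C1 hg) hf

/-- `H¹_loc` without the derivative. -/
def H (f : ℝ → X) : Prop := ∃ f₁ : ℝ → X, IsH1loc f f₁

omit [CompleteSpace X] in
theorem H.add {f g : ℝ → X} (hf : H f) (hg : H g) : H (fun t => f t + g t) := by
  obtain ⟨f₁, hf⟩ := hf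
  obtain ⟨g₁, hg⟩ := hg
  exact ⟨_, h_add hf hg⟩

omit [CompleteSpace X] in
theorem H.sub {f g : ℝ → X} (hf : H f) (hg : H g) : H (fun t => f t - g t) := by
  obtain ⟨f₁, hf⟩ := hf
  obtain ⟨g₁, hg⟩ := hg
  exact ⟨_, isH1loc_sub hf hg⟩

theorem H.clm (L : X →L[ℝ] Y) {f : ℝ → X} (hf : H f) : H (fun t => L (f t)) := by
  obtain ⟨f₁, hf⟩ := hf
  exact ⟨_, h_clm L hf⟩

theorem H.bil (hP : Stmt_Prod) (B : X →L[ℝ] Y →L[ℝ] Z) {f : ℝ → X} {g : ℝ → Y} (hf : H f)
    (hg : H g) : H (fun t => B (f t) (g t)) := by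
  obtain ⟨f₁, hf⟩ := hf
  obtain ⟨g₁, hg⟩ := hg
  exact ⟨_, hP X Y Z B f f₁ g g₁ hf hg⟩

theorem H.smul (hP : Stmt_Prod) {g : ℝ → ℝ} {f : ℝ → X} (hg : ContDiff ℝ 1 g) (hf : H f) :
    H (fun t => g t • f t) := by
  obtain ⟨f₁, hf⟩ := hf
  exact ⟨_, h_smul hP hg hf⟩

theorem H.const_smul (c : ℝ) {f : ℝ → X} (hf : H f) : H (fun t => c • f t) :=
  H.clm (c • ContinuousLinearMap.id ℝ X) hf

end

/-- A smooth cut-off: `1` for `t ≤ t₀/2`, `0` for `t ≥ t₀`. -/
theorem exists_cut {t₀ : ℝ} (h : 0 < t₀) : ∃ χ : ℝ → ℝ, ContDiff ℝ ∞ χ ∧ (∀ t, 0 ≤ χ t) ∧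
    (∀ t, χ t ≤ 1) ∧ (∀ t, t ≤ t₀ / 2 → χ t = 1) ∧ (∀ t, t₀ ≤ t → χ t = 0) := by
  refine ⟨fun t => 1 - Real.smoothTransition ((2 / t₀) * t - 1), ?_, ?_, ?_, ?_, ?_⟩
  · refine contDiff_const.sub (Real.smoothTransition.contDiff.comp ?_)
    exact (contDiff_const.mul contDiff_id).sub contDiff_const
  · intro t
    have := Real.smoothTransition.le_one ((2 / t₀) * t - 1)
    linarith
  · intro t
    have := Real.smoothTransition.nonneg ((2 / t₀) * t - 1)
    linarith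
  · intro t ht
    have h1 : (2 / t₀) * t - 1 ≤ 0 := by
      have : (2 / t₀) * t ≤ (2 / t₀) * (t₀ / 2) := mul_le_mul_of_nonneg_left ht (by positivity)
      have e : (2 / t₀) * (t₀ / 2) = 1 := by field_simp
      linarith
    have := Real.smoothTransition.zero_of_nonpos h1
    simp only [this, sub_zero]
  · intro t ht
    have h1 : 1 ≤ (2 / t₀) * t - 1 := by
      have : (2 / t₀) * t₀ ≤ (2 / t₀) * t := mul_le_mul_of_nonneg_left ht (by positivity)
      have e : (2 / t₀) * t₀ = 2 := by field_simp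
      linarith
    have := Real.smoothTransition.one_of_one_le h1
    simp only [this, sub_self]

end PathX

open PathX

theorem path_proof (hA : Stmt_Abstract) (hP : Stmt_Prod) : Stmt_Path := by
  intro V K _ _ _ _ _ D η f f₁ x₀ h₀ w τ δ hη hτ hδ hf hc hw
  have hκ : 0 < D.sig x₀ + 1 := by have := D.sig_nonneg x₀; linarith
  obtain ⟨S, S₁, hS, hS0, -, heq, -, -⟩ := hA V K D η 1 (D.sig x₀ + 1) f f₁ x₀ h₀ hη one_pos hκ hf
    (by linarith) hc
  have hSc := hS.continuousOn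
  have hwc : Continuous w := hw.continuous
  -- the time `t₀`
  have hev : ∀ᶠ t in 𝓝[Ici 0] (0 : ℝ), D.sig (S t) < D.sig x₀ + 1 ∧ ‖D.ι (S t - x₀)‖ < δ / 2 ∧
      ‖D.ι (w t - w 0)‖ < δ / 2 := by
    have c1 : ContinuousWithinAt (fun t => D.sig (S t)) (Ici 0) 0 :=
      (D.continuous_sig.comp_continuousOn hSc) 0 (self_mem_Ici)
    have c2 : ContinuousWithinAt (fun t => ‖D.ι (S t - x₀)‖) (Ici 0) 0 :=
      (((D.ι.continuous.comp_continuousOn (hSc.sub continuousOn_const)).norm)) 0 (self_mem_Ici)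
    have c3 : ContinuousWithinAt (fun t => ‖D.ι (w t - w 0)‖) (Ici 0) 0 :=
      (((D.ι.continuous.comp (hwc.sub continuous_const)).norm).continuousOn) 0 (self_mem_Ici)
    refine (c1.eventually_lt_const ?_).and ((c2.eventually_lt_const ?_).and
      (c3.eventually_lt_const ?_))
    · show D.sig (S 0) < _
      rw [hS0]; linarith
    · show ‖D.ι (S 0 - x₀)‖ < _
      rw [hS0, sub_self, map_zero, norm_zero]; linarith
    · show ‖D.ι (w 0 - w 0)‖ < _
      rw [sub_self, map_zero, norm_zero]; linarith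
  obtain ⟨t₁, ht₁, hIco⟩ : ∃ t₁ : ℝ, 0 < t₁ ∧ Ico 0 t₁ ⊆ {t | D.sig (S t) < D.sig x₀ + 1 ∧
      ‖D.ι (S t - x₀)‖ < δ / 2 ∧ ‖D.ι (w t - w 0)‖ < δ / 2} := by
    have := (mem_nhdsGE_iff_exists_Ico_subset (a := (0 : ℝ))).1 hev
    obtain ⟨u, hu, hs⟩ := this
    exact ⟨u, hu, hs⟩
  obtain ⟨t₀, ht₀, ht₀τ, ht₀1⟩ : ∃ t₀ : ℝ, 0 < t₀ ∧ t₀ ≤ τ ∧ t₀ < t₁ :=
    ⟨min τ (t₁ / 2), lt_min hτ (by linarith), min_le_left _ _,
      lt_of_le_of_lt (min_le_right _ _) (by linarith)⟩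
  have hgood : ∀ t, 0 ≤ t → t ≤ t₀ → D.sig (S t) < D.sig x₀ + 1 ∧ ‖D.ι (S t - x₀)‖ < δ / 2 ∧
      ‖D.ι (w t - w 0)‖ < δ / 2 := fun t h1 h2 => hIco ⟨h1, lt_of_le_of_lt h2 ht₀1⟩
  obtain ⟨χ, hχs, hχ0, hχ1, hχone, hχzero⟩ := exists_cut ht₀
  have hχ1' : ContDiff ℝ 1 χ := hχs.of_le (by exact_mod_cast le_top)
  have hχd : ContDiff ℝ 1 (deriv χ) := by
    exact (contDiff_infty_iff_deriv.1 hχs).2.of_le (by exact_mod_cast le_top)
  have hw1 : ContDiff ℝ 1 w := hw.of_le (by norm_num)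
  have hwd : ContDiff ℝ 1 (deriv w) := by
    have h2 : ContDiff ℝ (1 + 1) w := by
      have : (1 : WithTop ℕ∞) + 1 = 2 := by norm_num
      rw [this]; exact hw
    exact (contDiff_succ_iff_deriv.1 h2).2.2
  have hχ' : ContDiff ℝ 1 (fun t => 1 - χ t) := contDiff_const.sub hχ1'
  have hdχ' : ∀ t, deriv (fun t => 1 - χ t) t = - deriv χ t := by
    intro t
    rw [deriv_const_sub]
  -- the path
  have hv : IsH1loc (fun t => χ t • S t + (1 - χ t) • w t)
      (fun t => (deriv χ t • S t + χ t • S₁ t) + (deriv (fun t => 1 - χ t) t • w t +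
        (1 - χ t) • deriv w t)) :=
    h_add (h_smul hP hχ1' hS) (h_smul hP hχ' (h_C1 hw1))
  set v : ℝ → V := fun t => χ t • S t + (1 - χ t) • w t with hvdef
  set v₁ : ℝ → V := fun t => (deriv χ t • S t + χ t • S₁ t) + (deriv (fun t => 1 - χ t) t • w t +
        (1 - χ t) • deriv w t) with hv₁def
  set F : ℝ → (V →L[ℝ] ℝ) := fun t => deriv χ t • J D (S t - w t)
    + χ t • (f t - η • D.a (S t) - D.b (S t) (S t)) + (1 - χ t) • J D (deriv w t)
    + η • D.a (v t) + D.b (v t) (v t) - f t with hFdef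
  have HS : H S := ⟨_, hS⟩
  have Hf : H f := ⟨_, hf⟩
  have Hv : H v := ⟨_, hv⟩
  have Hw : H w := ⟨_, h_C1 hw1⟩
  have Hw' : H (deriv w) := ⟨_, h_C1 hwd⟩
  have HF : H F := by
    refine H.sub (H.add (H.add (H.add (H.add ?_ ?_) ?_) ?_) ?_) Hf
    · exact H.smul hP hχd (H.clm (J D) (HS.sub Hw))
    · exact H.smul hP hχ1' ((Hf.sub (H.const_smul η (H.clm D.a HS))).sub (H.bil hP D.b HS HS))
    · exact H.smul hP hχ' (H.clm (J D) Hw')
    · exact H.const_smul η (H.clm D.a Hv)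
    · exact H.bil hP D.b Hv Hv
  obtain ⟨F₁, hF⟩ := HF
  have hχd0 : ∀ t, t < t₀ / 2 → deriv χ t = 0 := by
    intro t ht
    have : χ =ᶠ[𝓝 t] fun _ => (1 : ℝ) := by
      filter_upwards [Iio_mem_nhds ht] with s hs
      exact hχone s hs.le
    rw [this.deriv_eq]; simp
  have hχd0' : ∀ t, t ≤ t₀ / 2 → deriv χ t = 0 := by
    have hcl : IsClosed {t | deriv χ t = 0} :=
      isClosed_eq hχd.continuous continuous_const
    intro t ht
    have h1 : Iio (t₀ / 2) ⊆ {t | deriv χ t = 0} := fun s hs => hχd0 s hs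
    have h2 : closure (Iio (t₀ / 2)) ⊆ {t | deriv χ t = 0} := closure_minimal h1 hcl
    rw [closure_Iio] at h2
    exact h2 ht
  refine ⟨v, v₁, F, F₁, t₀ / 2, by linarith, ⟨hv, ?_⟩, ?_, hF, ?_, ?_, ?_⟩
  · -- the equation
    have heq' := ae_mono (Measure.restrict_mono (s := Ioc 0 1) (s' := Ioi 0) (fun x hx => hx.1)
      le_rfl) heq
    filter_upwards [heq', ae_restrict_mem measurableSet_Ioc] with t ht htm y
    have key : χ t * ⟪D.ι (S₁ t), D.ι y⟫ = χ t * (f t y - η * D.a (S t) y - D.b (S t) (S t) y) := by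
      rcases le_total t t₀ with h | h
      · have h1 := ht y
        rw [phi_eq_zero (hgood t htm.1.le h).1.le, add_zero] at h1
        congr 1
        linarith
      · rw [hχzero t h]; simp
    have e1 : ⟪D.ι (v₁ t), D.ι y⟫ = deriv χ t * ⟪D.ι (S t), D.ι y⟫ + χ t * ⟪D.ι (S₁ t), D.ι y⟫
        + (- deriv χ t * ⟪D.ι (w t), D.ι y⟫ + (1 - χ t) * ⟪D.ι (deriv w t), D.ι y⟫) := by
      simp only [hv₁def, map_add, map_smul, inner_add_left, real_inner_smul_left, hdχ']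
    have e2 : F t y = deriv χ t * (⟪D.ι (S t), D.ι y⟫ - ⟪D.ι (w t), D.ι y⟫)
        + χ t * (f t y - η * D.a (S t) y - D.b (S t) (S t) y)
        + (1 - χ t) * ⟪D.ι (deriv w t), D.ι y⟫ + η * D.a (v t) y + D.b (v t) (v t) y - f t y := by
      simp only [hFdef, add_apply, sub_apply, smul_apply,
        smul_eq_mul, J_apply, map_sub, inner_sub_left]
    show ⟪D.ι (v₁ t), D.ι y⟫ + η * D.a (v t) y + D.b (v t) (v t) y = (f t + F t) y
    rw [add_apply, e2, e1, key]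
    ring
  · -- initial value
    show χ 0 • S 0 + (1 - χ 0) • w 0 = x₀
    rw [hχone 0 (by linarith), hS0]; simp
  · -- `F` vanishes near `0`
    intro t ht
    have h1 := hχone t ht.2
    have h2 := hχd0' t ht.2
    have h3 : v t = S t := by simp [hvdef, h1]
    show deriv χ t • J D (S t - w t)
      + χ t • (f t - η • D.a (S t) - D.b (S t) (S t)) + (1 - χ t) • J D (deriv w t)
      + η • D.a (v t) + D.b (v t) (v t) - f t = 0
    rw [h1, h2, h3]
    simp only [one_smul, zero_smul, sub_self, zero_add, add_zero]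
    abel
  · intro t ht
    have e : v t - w t = χ t • (S t - w t) := by
      simp only [hvdef, sub_smul, one_smul, smul_sub]; abel
    rw [e, map_smul, norm_smul, Real.norm_of_nonneg (hχ0 t)]
    rcases le_total t t₀ with h | h
    · obtain ⟨-, g2, g3⟩ := hgood t ht.1 h
      have e2 : S t - w t = (S t - x₀) + (x₀ - w 0) - (w t - w 0) := by abel
      have h4 : ‖D.ι (S t - w t)‖ ≤ ‖D.ι (x₀ - w 0)‖ + δ := by
        rw [e2, map_sub, map_add]
        have n1 := norm_sub_le (D.ι (S t - x₀) + D.ι (x₀ - w 0)) (D.ι (w t - w 0))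
        have n2 := norm_add_le (D.ι (S t - x₀)) (D.ι (x₀ - w 0))
        linarith
      refine (mul_le_of_le_one_left (norm_nonneg _) (hχ1 t)).trans h4
    · rw [hχzero t h, zero_mul]
      have := norm_nonneg (D.ι (x₀ - w 0))
      linarith
  · intro t ht
    simp [hvdef, hχzero t (ht₀τ.trans ht.1)]

end Pool.Agent.NSV
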