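import Pool.Agent.NSV.Stmts

/-! Module PROD: product rule for `H¹_loc` functions. -/

set_option autoImplicit false

open MeasureTheory Set Filter Topology
open scoped RealInnerProductSpace ContDiff ENNReal

namespace Pool.Agent.NSV

open Pool.Agent.NSD Pool.Agent.NSK

namespace ProdX

/-- local to global -/
theorem chain {Z : Type*} [NormedAddCommGroup Z] {h : ℝ → Z} {G : ℝ → ℝ} {s t δ c : ℝ} (hδ : 0 < δ)
    (hst : s ≤ t)
    (hloc : ∀ a b, s ≤ a → a ≤ b → b ≤ t → b - a ≤ δ → ‖h b - h a‖ ≤ c * (G b - G a)) :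
    ‖h t - h s‖ ≤ c * (G t - G s) := by
  have key : ∀ n : ℕ, ∀ b, s ≤ b → b ≤ t → b - s ≤ n * δ → ‖h b - h s‖ ≤ c * (G b - G s) := by
    intro n
    induction n with
    | zero =>
      intro b hb _ hbn
      have : b = s := by simp at hbn; linarith
      subst this
      simp
    | succ n ih =>
      intro b hb hbt hbn
      rcases le_total (b - s) δ with h1 | h1
      · exact hloc s b le_rfl hb hbt h1
      · have h2 := ih (b - δ) (by linarith) (by linarith) (by push_cast at hbn; linarith)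
        have h3 := hloc (b - δ) b (by linarith) (by linarith) hbt (by linarith)
        calc ‖h b - h s‖ = ‖(h b - h (b - δ)) + (h (b - δ) - h s)‖ := by
              rw [sub_add_sub_cancel]
          _ ≤ ‖h b - h (b - δ)‖ + ‖h (b - δ) - h s‖ := norm_add_le _ _
          _ ≤ c * (G b - G (b - δ)) + c * (G (b - δ) - G s) := by gcongr
          _ = c * (G b - G s) := by ring
  obtain ⟨n, hn⟩ := exists_nat_ge ((t - s) / δ)
  exact key n t hst le_rfl (by rwa [div_le_iff₀ hδ] at hn)

section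
variable {X Y Z : Type*} [NormedAddCommGroup X] [NormedSpace ℝ X]
    [NormedAddCommGroup Y] [NormedSpace ℝ Y] [NormedAddCommGroup Z] [NormedSpace ℝ Z]

/-- `B (x₁ t) (y t)` is in `L²` for `x₁` in `L²` and `y` continuous. -/
theorem memLp_left (B : X →L[ℝ] Y →L[ℝ] Z) {x₁ : ℝ → X} {y : ℝ → Y} {T : ℝ}
    (hx : MemLp x₁ 2 (volume.restrict (Ioc 0 T))) (hy : ContinuousOn y (Ici 0)) :
    MemLp (fun t => B (x₁ t) (y t)) 2 (volume.restrict (Ioc 0 T)) := by
  obtain ⟨M, hM⟩ := (isCompact_Icc (a := (0 : ℝ)) (b := T)).exists_bound_of_continuousOn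
    (hy.mono Icc_subset_Ici_self)
  have h1 : AEStronglyMeasurable y (volume.restrict (Ioc 0 T)) :=
    ((hy.mono Icc_subset_Ici_self).mono Ioc_subset_Icc_self).aestronglyMeasurable measurableSet_Ioc
  refine MemLp.of_le_mul (c := ‖B‖ * M) hx ?_ ?_
  · exact B.aestronglyMeasurable_comp₂ hx.aestronglyMeasurable h1
  · refine (ae_restrict_iff' measurableSet_Ioc).2 (Eventually.of_forall fun t ht => ?_)
    refine (B.le_opNorm₂ _ _).trans ?_
    have h2 := hM t (Ioc_subset_Icc_self ht)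
    calc ‖B‖ * ‖x₁ t‖ * ‖y t‖ ≤ ‖B‖ * ‖x₁ t‖ * M := by gcongr
      _ = ‖B‖ * M * ‖x₁ t‖ := by ring

end

end ProdX

open ProdX in
theorem prod_proof : Stmt_Prod := by
  intro X Y Z _ _ _ _ _ _ _ _ _ B x x₁ y y₁ hx hy
  have hxc : ContinuousOn x (Ici 0) := hx.continuousOn
  have hyc : ContinuousOn y (Ici 0) := hy.continuousOn
  have m1 : ∀ T : ℝ, MemLp (fun t => B (x₁ t) (y t)) 2 (volume.restrict (Ioc 0 T)) := fun T =>
    memLp_left B (hx.memLp T) hyc
  have m2 : ∀ T : ℝ, MemLp (fun t => B (x t) (y₁ t)) 2 (volume.restrict (Ioc 0 T)) := fun T =>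
    memLp_left B.flip (hy.memLp T) hxc
  have i1 : ∀ a b, 0 ≤ a → 0 ≤ b → IntervalIntegrable (fun t => B (x₁ t) (y t)) volume a b := by
    intro a b ha hb
    have h1 : IntegrableOn (fun t => B (x₁ t) (y t)) (Ioc 0 (max a b)) :=
      (m1 (max a b)).integrable (by norm_num)
    rw [intervalIntegrable_iff]
    refine h1.mono_set ?_
    rw [uIoc]
    exact Ioc_subset_Ioc (le_min ha hb) le_rfl
  have i2 : ∀ a b, 0 ≤ a → 0 ≤ b → IntervalIntegrable (fun t => B (x t) (y₁ t)) volume a b := by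
    intro a b ha hb
    have h1 : IntegrableOn (fun t => B (x t) (y₁ t)) (Ioc 0 (max a b)) :=
      (m2 (max a b)).integrable (by norm_num)
    rw [intervalIntegrable_iff]
    refine h1.mono_set ?_
    rw [uIoc]
    exact Ioc_subset_Ioc (le_min ha hb) le_rfl
  have ix : ∀ a b, 0 ≤ a → 0 ≤ b → IntervalIntegrable x₁ volume a b := fun a b ha hb =>
    hx.intervalIntegrable ha hb
  have iy : ∀ a b, 0 ≤ a → 0 ≤ b → IntervalIntegrable y₁ volume a b := fun a b ha hb =>
    hy.intervalIntegrable ha hb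
  refine ⟨fun T => (m1 T).add (m2 T), fun t ht => ?_⟩
  set F : ℝ → Z := fun q => B (x₁ q) (y q) + B (x q) (y₁ q) with hF
  have iF : ∀ a b, 0 ≤ a → 0 ≤ b → IntervalIntegrable F volume a b := fun a b ha hb =>
    (i1 a b ha hb).add (i2 a b ha hb)
  set h : ℝ → Z := fun r => B (x r) (y r) - ∫ q in (0 : ℝ)..r, F q with hh
  set G : ℝ → ℝ := fun r => ∫ q in (0 : ℝ)..r, (‖x₁ q‖ + ‖y₁ q‖) with hG
  have iN : ∀ a b, 0 ≤ a → 0 ≤ b → IntervalIntegrable (fun q => ‖x₁ q‖ + ‖y₁ q‖) volume a b :=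
    fun a b ha hb => (ix a b ha hb).norm.add (iy a b ha hb).norm
  have hG0 : 0 ≤ G t := intervalIntegral.integral_nonneg ht (fun _ _ => by positivity)
  have hsmall : ∀ ε : ℝ, 0 < ε → ‖h t - h 0‖ ≤ (‖B‖ * ε) * (G t - G 0) := by
    intro ε hε
    have hux := isCompact_Icc.uniformContinuousOn_of_continuous (hxc.mono (Icc_subset_Ici_self : Icc 0 t ⊆ Ici 0))
    have huy := isCompact_Icc.uniformContinuousOn_of_continuous (hyc.mono (Icc_subset_Ici_self : Icc 0 t ⊆ Ici 0))
    rw [Metric.uniformContinuousOn_iff] at hux huy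
    obtain ⟨δ₁, hδ₁, hx1⟩ := hux ε hε
    obtain ⟨δ₂, hδ₂, hy1⟩ := huy ε hε
    refine chain (δ := min δ₁ δ₂ / 2) (by positivity) ht ?_
    intro a b ha hab hb hbδ
    have hb0 : 0 ≤ b := ha.trans hab
    have hm1 : min δ₁ δ₂ ≤ δ₁ := min_le_left _ _
    have hm2 : min δ₁ δ₂ ≤ δ₂ := min_le_right _ _
    have hm0 : 0 < min δ₁ δ₂ := lt_min hδ₁ hδ₂
    have e1 : B (x b) (y b) - B (x a) (y a) = ∫ q in a..b, (B (x₁ q) (y b) + B (x a) (y₁ q)) := by
      have j1 : IntervalIntegrable (fun q => B (x₁ q) (y b)) volume a b := by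
        have := ix a b ha hb0
        rw [intervalIntegrable_iff_integrableOn_Ioc_of_le hab] at this ⊢
        exact (B.flip (y b)).integrable_comp this
      have j2 : IntervalIntegrable (fun q => B (x a) (y₁ q)) volume a b := by
        have := iy a b ha hb0
        rw [intervalIntegrable_iff_integrableOn_Ioc_of_le hab] at this ⊢
        exact (B (x a)).integrable_comp this
      rw [intervalIntegral.integral_add j1 j2]
      have k1 := (B.flip (y b)).intervalIntegral_comp_comm (ix a b ha hb0)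
      have k2 := (B (x a)).intervalIntegral_comp_comm (iy a b ha hb0)
      rw [← hx.sub_eq ha hb0] at k1
      rw [← hy.sub_eq ha hb0] at k2
      simp only [ContinuousLinearMap.flip_apply] at k1
      rw [k1, k2]
      simp only [map_sub, sub_apply]
      abel
    have j3 : IntervalIntegrable (fun q => B (x₁ q) (y b) + B (x a) (y₁ q)) volume a b := by
      have h1 := ix a b ha hb0
      have h2 := iy a b ha hb0
      rw [intervalIntegrable_iff_integrableOn_Ioc_of_le hab] at h1 h2 ⊢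
      exact ((B.flip (y b)).integrable_comp h1).add ((B (x a)).integrable_comp h2)
    have hdiff : h b - h a = ∫ q in a..b, ((B (x₁ q) (y b) + B (x a) (y₁ q)) - F q) := by
      rw [intervalIntegral.integral_sub j3 (iF a b ha hb0), ← e1]
      have h3 : (∫ q in (0 : ℝ)..b, F q) - ∫ q in (0 : ℝ)..a, F q = ∫ q in a..b, F q :=
        intervalIntegral.integral_interval_sub_left (iF 0 b le_rfl hb0) (iF 0 a le_rfl ha)
      simp only [hh]
      rw [← h3]
      abel
    have hGdiff : G b - G a = ∫ q in a..b, (‖x₁ q‖ + ‖y₁ q‖) :=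
      intervalIntegral.integral_interval_sub_left (iN 0 b le_rfl hb0) (iN 0 a le_rfl ha)
    rw [hdiff, hGdiff, ← intervalIntegral.integral_const_mul]
    refine intervalIntegral.norm_integral_le_of_norm_le hab ?_ ((iN a b ha hb0).const_mul (‖B‖ * ε))
    refine Eventually.of_forall (fun q hq => ?_)
    have hq0 : 0 ≤ q := ha.trans hq.1.le
    have h4 : (B (x₁ q) (y b) + B (x a) (y₁ q)) - F q
        = B (x₁ q) (y b - y q) + B (x a - x q) (y₁ q) := by
      simp only [hF, map_sub, sub_apply]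
      abel
    have h5 : ‖y b - y q‖ ≤ ε := by
      have := hy1 b ⟨hb0, hb⟩ q ⟨hq0, hq.2.trans hb⟩ (by
        rw [Real.dist_eq, abs_of_nonneg (by linarith [hq.2])]
        linarith [hq.1])
      rw [dist_eq_norm] at this
      exact this.le
    have h6 : ‖x a - x q‖ ≤ ε := by
      have := hx1 a ⟨ha, hab.trans hb⟩ q ⟨hq0, hq.2.trans hb⟩ (by
        rw [Real.dist_eq, abs_sub_comm, abs_of_nonneg (by linarith [hq.1])]
        linarith [hq.2])
      rw [dist_eq_norm] at this
      exact this.le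
    rw [h4]
    refine (norm_add_le _ _).trans ?_
    refine (add_le_add (B.le_opNorm₂ _ _) (B.le_opNorm₂ _ _)).trans ?_
    calc ‖B‖ * ‖x₁ q‖ * ‖y b - y q‖ + ‖B‖ * ‖x a - x q‖ * ‖y₁ q‖
        ≤ ‖B‖ * ‖x₁ q‖ * ε + ‖B‖ * ε * ‖y₁ q‖ := by gcongr
      _ = ‖B‖ * ε * (‖x₁ q‖ + ‖y₁ q‖) := by ring
  have hGs : G 0 = 0 := intervalIntegral.integral_same
  have hzero : ‖h t - h 0‖ ≤ 0 := by
    refine le_of_forall_pos_le_add (fun ε hε => ?_)
    have h8 := hsmall (ε / (‖B‖ * G t + 1)) (by positivity)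
    rw [hGs, sub_zero] at h8
    refine h8.trans ?_
    rw [zero_add]
    have h9 : ‖B‖ * (ε / (‖B‖ * G t + 1)) * G t = ε * (‖B‖ * G t / (‖B‖ * G t + 1)) := by
      field_simp
    rw [h9]
    have h10 : ‖B‖ * G t / (‖B‖ * G t + 1) ≤ 1 := by
      rw [div_le_one (by positivity)]; linarith
    nlinarith
  have h10 : h t = h 0 := by
    have := norm_le_zero_iff.mp hzero
    exact sub_eq_zero.1 this
  simp only [hh, intervalIntegral.integral_same, sub_zero] at h10
  exact sub_eq_iff_eq_add.1 h10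

end Pool.Agent.NSV
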