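import Pool.Agent.NSV.Stmts

open MeasureTheory Set Filter Topology
open scoped RealInnerProductSpace ContDiff ENNReal

noncomputable section

namespace Pool.Agent.NSV

namespace ProfX

/-- `p` vanishes outside `(0,1)`. -/
def Van (p : ℝ → ℝ) : Prop := ∀ s, (s ≤ 0 ∨ 1 ≤ s) → p s = 0

theorem van_of_supp {p : ℝ → ℝ} (h : tsupport p ⊆ Ioo 0 1) : Van p := by
  intro s hs
  by_contra hne
  have h1 : s ∈ Ioo (0 : ℝ) 1 := h (subset_tsupport _ hne)
  rcases hs with hs | hs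
  · exact absurd h1.1 (not_lt.mpr hs)
  · exact absurd h1.2 (not_lt.mpr hs)

theorem int01 {p : ℝ → ℝ} (h : Van p) : ∫ s in (0 : ℝ)..1, p s = ∫ s, p s := by
  rw [intervalIntegral.integral_of_le zero_le_one]
  apply setIntegral_eq_integral_of_forall_compl_eq_zero
  intro s hs
  apply h
  by_contra hc
  push Not at hc
  exact hs ⟨hc.1, hc.2.le⟩

theorem exists_beta : ∃ (β : ℝ → ℝ) (B : ℝ), ContDiff ℝ ∞ β ∧ tsupport β ⊆ Ioo 0 1 ∧
    ∫ s, β s = 0 ∧ ∫ s, β s ^ 2 = 1 ∧ 0 < B ∧ ∀ s, |β s| ≤ B := by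
  let ρ : ContDiffBump (1 / 2 : ℝ) := ⟨1 / 8, 1 / 4, by norm_num, by norm_num⟩
  have hρ : ContDiff ℝ ∞ ρ := ρ.contDiff
  have hρs : tsupport (ρ : ℝ → ℝ) ⊆ Ioo 0 1 := by
    rw [ρ.tsupport_eq]
    intro s hs
    rw [Metric.mem_closedBall, Real.dist_eq, abs_le] at hs
    have h1 : -(1 / 4 : ℝ) ≤ s - 1 / 2 := hs.1
    have h2 : s - 1 / 2 ≤ (1 / 4 : ℝ) := hs.2
    constructor <;> linarith
  have hd : ContDiff ℝ ∞ (deriv (ρ : ℝ → ℝ)) := by
    rw [contDiff_infty_iff_deriv] at hρ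
    exact hρ.2
  have hds : tsupport (deriv (ρ : ℝ → ℝ)) ⊆ Ioo 0 1 :=
    (tsupport_deriv_subset (f := (ρ : ℝ → ℝ)) (𝕜 := ℝ)).trans hρs
  have hdiff : Differentiable ℝ (ρ : ℝ → ℝ) := hρ.differentiable (by simp)
  have hv : Van (deriv (ρ : ℝ → ℝ)) := van_of_supp hds
  have hint : ∀ a b : ℝ, ∫ s in a..b, deriv (ρ : ℝ → ℝ) s = ρ b - ρ a := by
    intro a b
    apply intervalIntegral.integral_deriv_eq_sub (fun x _ => hdiff x)
    exact hd.continuous.intervalIntegrable _ _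
  have hρv : Van (ρ : ℝ → ℝ) := van_of_supp hρs
  have h0 : ∫ s, deriv (ρ : ℝ → ℝ) s = 0 := by
    rw [← int01 hv, hint, hρv 1 (Or.inr le_rfl), hρv 0 (Or.inl le_rfl), sub_zero]
  have hv2 : Van (fun s => deriv (ρ : ℝ → ℝ) s ^ 2) := by
    intro s hs
    show deriv (ρ : ℝ → ℝ) s ^ 2 = 0
    rw [hv s hs]
    norm_num
  have hpos : 0 < ∫ s, deriv (ρ : ℝ → ℝ) s ^ 2 := by
    rw [← int01 hv2]
    apply intervalIntegral.integral_pos zero_lt_one (hd.continuous.pow 2).continuousOn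
    · intro s _
      exact sq_nonneg _
    · by_contra hc
      push Not at hc
      have h1 : ∫ s in (0 : ℝ)..(1 / 2), deriv (ρ : ℝ → ℝ) s = 0 := by
        have h2 : ∫ s in (0 : ℝ)..(1 / 2), deriv (ρ : ℝ → ℝ) s = ∫ s in (0 : ℝ)..(1 / 2), (0 : ℝ) := by
          apply intervalIntegral.integral_congr
          intro s hs
          rw [uIcc_of_le (by norm_num)] at hs
          have h3 := hc s ⟨hs.1, by linarith [hs.2]⟩
          have h4 : deriv (ρ : ℝ → ℝ) s ^ 2 = 0 := le_antisymm h3 (sq_nonneg _)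
          exact pow_eq_zero_iff (two_ne_zero) |>.mp h4
        rw [h2]
        simp
      rw [hint, hρv 0 (Or.inl le_rfl), sub_zero] at h1
      have h5 : (ρ : ℝ → ℝ) (1 / 2) = 1 := ρ.one_of_mem_closedBall (by
        rw [Metric.mem_closedBall, dist_self]
        exact ρ.rIn_pos.le)
      rw [h5] at h1
      norm_num at h1
  set I : ℝ := ∫ s, deriv (ρ : ℝ → ℝ) s ^ 2 with hI
  have hcs : HasCompactSupport (deriv (ρ : ℝ → ℝ)) :=
    HasCompactSupport.of_support_subset_isCompact (isCompact_Icc (a := (0 : ℝ)) (b := 1))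
      ((subset_tsupport _).trans (hds.trans Ioo_subset_Icc_self))
  obtain ⟨B, hB⟩ := hd.continuous.bounded_above_of_compact_support hcs
  refine ⟨fun s => (√I)⁻¹ * deriv (ρ : ℝ → ℝ) s, (√I)⁻¹ * (|B| + 1), contDiff_const.mul hd, ?_, ?_, ?_, ?_, ?_⟩
  · exact (closure_mono (Function.support_mul_subset_right _ _)).trans hds
  · rw [integral_const_mul, h0, mul_zero]
  · simp_rw [mul_pow]
    rw [integral_const_mul, inv_pow, Real.sq_sqrt hpos.le]
    exact inv_mul_cancel₀ hpos.ne'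
  · exact mul_pos (inv_pos.mpr (Real.sqrt_pos.mpr hpos)) (by positivity)
  · intro s
    rw [abs_mul, abs_of_nonneg (by positivity)]
    apply mul_le_mul_of_nonneg_left _ (by positivity)
    have h1 : |deriv (ρ : ℝ → ℝ) s| ≤ B := hB s
    have h2 : B ≤ |B| := le_abs_self B
    linarith

theorem scaled_int (f : ℝ → ℝ) (a : ℝ) {d : ℝ} (hd : 0 < d) : ∫ s, f ((s - a) / d) = d * ∫ s, f s := by
  have h1 : ∫ s, f ((s - a) / d) = ∫ s, f (s / d) :=
    integral_sub_right_eq_self (fun s => f (s / d)) a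
  rw [h1, Measure.integral_comp_div, abs_of_pos hd, smul_eq_mul]

/-- Geometric sums. -/
theorem geo_sum (M m0 : ℕ) : ∑ m ∈ Finset.range M, (if m0 ≤ m then (1 / 4 : ℝ) ^ m else 0) ≤ 4 / 3 * (1 / 4) ^ m0 := by
  have key : ∀ M : ℕ, (M ≤ m0 → ∑ m ∈ Finset.range M, (if m0 ≤ m then (1 / 4 : ℝ) ^ m else 0) = 0) ∧
      (m0 ≤ M → ∑ m ∈ Finset.range M, (if m0 ≤ m then (1 / 4 : ℝ) ^ m else 0)
        = 4 / 3 * (1 / 4) ^ m0 - 4 / 3 * (1 / 4) ^ M) := by
    intro M
    have h1 : ∀ M : ℕ, M ≤ m0 → ∑ m ∈ Finset.range M, (if m0 ≤ m then (1 / 4 : ℝ) ^ m else 0) = 0 := by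
      intro M hM
      apply Finset.sum_eq_zero
      intro m hm
      rw [if_neg]
      have := Finset.mem_range.mp hm
      omega
    refine ⟨h1 M, ?_⟩
    intro hM
    induction M, hM using Nat.le_induction with
    | base => rw [h1 m0 le_rfl]; ring
    | succ k hk ih =>
      rw [Finset.sum_range_succ, ih, if_pos hk, pow_succ]
      ring
  rcases le_total M m0 with h | h
  · rw [(key M).1 h]
    positivity
  · rw [(key M).2 h]
    have : (0 : ℝ) ≤ 4 / 3 * (1 / 4) ^ M := by positivity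
    linarith

/-- Width of level `m`. -/
def dd (ν : ℝ) (m : ℕ) : ℝ := (1 / 4) ^ m / ν

/-- Amplitude of level `m`. -/
def AA (ν : ℝ) (M : ℕ) (m : ℕ) : ℝ := (√(M * dd ν m))⁻¹

/-- One block. -/
def ee (β : ℝ → ℝ) (ν : ℝ) (M : ℕ) (k m : ℕ) (s : ℝ) : ℝ :=
  AA ν M m * β ((s - (k : ℝ) / ν) / dd ν m)

theorem dd_pos {ν : ℝ} (hν : 0 < ν) (m : ℕ) : 0 < dd ν m := by
  unfold dd
  positivity

theorem dd_le {ν : ℝ} (hν : 0 < ν) (m : ℕ) : dd ν m ≤ 1 / ν := by
  unfold dd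
  gcongr
  exact pow_le_one₀ (by norm_num) (by norm_num)

theorem AA_sq {ν : ℝ} (hν : 0 < ν) {M : ℕ} (hM : 0 < M) (m : ℕ) : AA ν M m ^ 2 = (M * dd ν m)⁻¹ := by
  unfold AA
  have hM' : (0 : ℝ) < M := by exact_mod_cast hM
  have := dd_pos hν m
  rw [inv_pow, Real.sq_sqrt (by positivity)]

theorem AA_pos {ν : ℝ} (hν : 0 < ν) {M : ℕ} (hM : 0 < M) (m : ℕ) : 0 < AA ν M m := by
  unfold AA
  have hM' : (0 : ℝ) < M := by exact_mod_cast hM
  have := dd_pos hν m
  positivity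

theorem ee_ne {β : ℝ → ℝ} (hβ : Van β) {ν : ℝ} (hν : 0 < ν) {M k m : ℕ} {s : ℝ} (h : ee β ν M k m s ≠ 0) :
    (k : ℝ) / ν < s ∧ s < (k : ℝ) / ν + dd ν m := by
  have h1 : β ((s - (k : ℝ) / ν) / dd ν m) ≠ 0 := right_ne_zero_of_mul h
  have hd := dd_pos hν m
  have h2 : ¬ ((s - (k : ℝ) / ν) / dd ν m ≤ 0 ∨ 1 ≤ (s - (k : ℝ) / ν) / dd ν m) := fun hc => h1 (hβ _ hc)
  push Not at h2
  constructor
  · by_contra hc
    push Not at hc
    exact absurd h2.1 (not_lt.mpr (div_nonpos_of_nonpos_of_nonneg (by linarith) hd.le))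
  · have h3 := h2.2
    rw [div_lt_one hd] at h3
    linarith

theorem ee_ne' {β : ℝ → ℝ} (hβ : Van β) {ν : ℝ} (hν : 0 < ν) {M k m : ℕ} {s : ℝ} (h : ee β ν M k m s ≠ 0) :
    (k : ℝ) < ν * s ∧ ν * s < (k : ℝ) + 1 := by
  obtain ⟨h1, h2⟩ := ee_ne hβ hν h
  have h3 := dd_le hν m
  constructor
  · rw [div_lt_iff₀ hν] at h1
    linarith
  · have h4 : s < ((k : ℝ) + 1) / ν := by
      rw [add_div]
      linarith
    rw [lt_div_iff₀ hν] at h4
    linarith

theorem ee_disj {β : ℝ → ℝ} (hβ : Van β) {ν : ℝ} (hν : 0 < ν) {M k m k' m' : ℕ} {s : ℝ}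
    (h : ee β ν M k m s ≠ 0) (h' : ee β ν M k' m' s ≠ 0) : k = k' := by
  obtain ⟨h1, h2⟩ := ee_ne' hβ hν h
  obtain ⟨h3, h4⟩ := ee_ne' hβ hν h'
  have h5 : (k : ℝ) < k' + 1 := by linarith
  have h6 : (k' : ℝ) < k + 1 := by linarith
  have h7 : k < k' + 1 := by exact_mod_cast h5
  have h8 : k' < k + 1 := by exact_mod_cast h6
  omega

theorem kk_inj {M j m j' m' : ℕ} (hm : m < M) (hm' : m' < M) (h : j * M + m = j' * M + m') : j = j' ∧ m = m' := by
  have hM : 0 < M := by omega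
  have h1 : (j * M + m) / M = j := by
    rw [Nat.add_comm, Nat.add_mul_div_right _ _ hM, Nat.div_eq_of_lt hm, zero_add]
  have h2 : (j' * M + m') / M = j' := by
    rw [Nat.add_comm, Nat.add_mul_div_right _ _ hM, Nat.div_eq_of_lt hm', zero_add]
  have h3 : j = j' := by rw [← h1, ← h2, h]
  subst h3
  exact ⟨rfl, by omega⟩

theorem ee_smooth {β : ℝ → ℝ} (hβ : ContDiff ℝ ∞ β) (ν : ℝ) (M k m : ℕ) : ContDiff ℝ ∞ (ee β ν M k m) := by
  unfold ee
  fun_prop

theorem ee_int {β : ℝ → ℝ} {ν : ℝ} (hν : 0 < ν) (M k m : ℕ) (hb : ∫ s, β s = 0) : ∫ s, ee β ν M k m s = 0 := by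
  unfold ee
  rw [integral_const_mul, scaled_int β _ (dd_pos hν m), hb]
  ring

theorem ee_sq {β : ℝ → ℝ} {ν : ℝ} (hν : 0 < ν) {M : ℕ} (hM : 0 < M) (k m : ℕ) (hb : ∫ s, β s ^ 2 = 1) :
    ∫ s, ee β ν M k m s ^ 2 = 1 / M := by
  unfold ee
  simp_rw [mul_pow]
  have hM' : (0 : ℝ) < M := by exact_mod_cast hM
  have hd := dd_pos hν m
  rw [integral_const_mul, scaled_int (fun s => β s ^ 2) _ (dd_pos hν m), hb, AA_sq hν hM]
  field_simp

/-- The profiles. -/
def PP (β : ℝ → ℝ) (ν : ℝ) (M : ℕ) (j : ℕ) (s : ℝ) : ℝ := ∑ m ∈ Finset.range M, ee β ν M (j * M + m) m s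

theorem PP_ne {β : ℝ → ℝ} {ν : ℝ} {M j : ℕ} {s : ℝ} (h : PP β ν M j s ≠ 0) :
    ∃ m, m < M ∧ ee β ν M (j * M + m) m s ≠ 0 := by
  by_contra hc
  push Not at hc
  apply h
  apply Finset.sum_eq_zero
  intro m hm
  exact hc m (Finset.mem_range.mp hm)

theorem PP_eq {β : ℝ → ℝ} (hβ : Van β) {ν : ℝ} (hν : 0 < ν) {M j m : ℕ} {s : ℝ} (hm : m < M)
    (h : ee β ν M (j * M + m) m s ≠ 0) : PP β ν M j s = ee β ν M (j * M + m) m s := by
  apply Finset.sum_eq_single m
  · intro m' hm' hne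
    by_contra hc
    exact hne (kk_inj (Finset.mem_range.mp hm') hm (ee_disj hβ hν hc h)).2
  · intro h1
    exact absurd (Finset.mem_range.mpr hm) h1

theorem ee_cont {β : ℝ → ℝ} (hβ : ContDiff ℝ ∞ β) (ν : ℝ) (M k m : ℕ) : Continuous (ee β ν M k m) :=
  (ee_smooth hβ ν M k m).continuous

theorem ee_supp {β : ℝ → ℝ} (hβ : tsupport β ⊆ Ioo 0 1) {ν : ℝ} (hν : 0 < ν) (M k m : ℕ) {s : ℝ}
    (h : (s - (k : ℝ) / ν) / dd ν m ∈ tsupport β) : (k : ℝ) / ν < s ∧ s < ((k : ℝ) + 1) / ν := by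
  have hd := dd_pos hν m
  have h1 := hβ h
  have h2 : 0 < (s - (k : ℝ) / ν) / dd ν m := h1.1
  have h3 : (s - (k : ℝ) / ν) / dd ν m < 1 := h1.2
  rw [div_lt_one hd] at h3
  have h4 := dd_le hν m
  constructor
  · by_contra hc
    push Not at hc
    exact absurd h2 (not_lt.mpr (div_nonpos_of_nonpos_of_nonneg (by linarith) hd.le))
  · rw [add_div]
    linarith

theorem PP_supp {β : ℝ → ℝ} (hβ : tsupport β ⊆ Ioo 0 1) {n M j : ℕ} (hM : 0 < M) (hj : j < n + 1) {ν : ℝ}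
    (hν : ν = ((n : ℝ) + 1) * M) : tsupport (PP β ν M j) ⊆ Ioo 0 1 := by
  have hM' : (0 : ℝ) < M := by exact_mod_cast hM
  have hν0 : 0 < ν := by rw [hν]; positivity
  have h1 : tsupport (PP β ν M j) ⊆
      ⋃ m ∈ Finset.range M, (fun s : ℝ => (s - ((j * M + m : ℕ) : ℝ) / ν) / dd ν m) ⁻¹' tsupport β := by
    apply closure_minimal
    · intro s hs
      obtain ⟨m, hm, hne⟩ := PP_ne hs
      refine mem_iUnion₂.mpr ⟨m, Finset.mem_range.mpr hm, ?_⟩
      exact subset_tsupport _ (right_ne_zero_of_mul hne)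
    · apply Set.Finite.isClosed_biUnion (Finset.finite_toSet _)
      intro m _
      exact (isClosed_tsupport β).preimage (by fun_prop)
  intro s hs
  obtain ⟨m, hm, h2⟩ := mem_iUnion₂.mp (h1 hs)
  obtain ⟨h3, h4⟩ := ee_supp hβ hν0 M (j * M + m) m h2
  have hm' : m < M := Finset.mem_range.mp hm
  have h5 : j * M + m + 1 ≤ (n + 1) * M := by
    have : (j + 1) * M ≤ (n + 1) * M := Nat.mul_le_mul_right M (by omega)
    nlinarith
  have h6 : (((j * M + m : ℕ) : ℝ) + 1) ≤ ν := by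
    rw [hν]
    exact_mod_cast h5
  constructor
  · exact lt_of_le_of_lt (by positivity) h3
  · refine lt_of_lt_of_le h4 ?_
    rw [div_le_one hν0]
    exact h6

theorem ee_integrable {β : ℝ → ℝ} (hβc : ContDiff ℝ ∞ β) (hβ : tsupport β ⊆ Ioo 0 1) {ν : ℝ} (hν : 0 < ν)
    (M k m : ℕ) : HasCompactSupport (ee β ν M k m) := by
  apply HasCompactSupport.of_support_subset_isCompact (isCompact_Icc (a := (k : ℝ) / ν) (b := ((k : ℝ) + 1) / ν))
  intro s hs
  obtain ⟨h1, h2⟩ := ee_supp hβ hν M k m (subset_tsupport _ (right_ne_zero_of_mul hs))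
  exact ⟨h1.le, h2.le⟩

theorem PP_smooth {β : ℝ → ℝ} (hβ : ContDiff ℝ ∞ β) (ν : ℝ) (M j : ℕ) : ContDiff ℝ ∞ (PP β ν M j) := by
  unfold PP
  apply ContDiff.sum
  intro m _
  exact ee_smooth hβ ν M _ m

theorem PP_mean {β : ℝ → ℝ} (hβc : ContDiff ℝ ∞ β) (hβ : tsupport β ⊆ Ioo 0 1) (hb : ∫ s, β s = 0) {ν : ℝ}
    (hν : 0 < ν) (M j : ℕ) : ∫ s, PP β ν M j s = 0 := by
  unfold PP
  rw [integral_finsetSum]
  · apply Finset.sum_eq_zero
    intro m _
    exact ee_int hν M _ m hb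
  · intro m _
    exact (ee_cont hβc ν M _ m).integrable_of_hasCompactSupport (ee_integrable hβc hβ hν M _ m)

theorem PP_sq_eq {β : ℝ → ℝ} (hβ : Van β) {ν : ℝ} (hν : 0 < ν) {M j : ℕ} (s : ℝ) :
    PP β ν M j s ^ 2 = ∑ m ∈ Finset.range M, ee β ν M (j * M + m) m s ^ 2 := by
  by_cases h : ∃ m, m < M ∧ ee β ν M (j * M + m) m s ≠ 0
  · obtain ⟨m, hm, hne⟩ := h
    rw [PP_eq hβ hν hm hne, Finset.sum_eq_single m]
    · intro m' hm' hne'
      have h0 : ee β ν M (j * M + m') m' s = 0 := by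
        by_contra hc
        exact hne' (kk_inj (Finset.mem_range.mp hm') hm (ee_disj hβ hν hc hne)).2
      rw [h0]
      norm_num
    · intro h1
      exact absurd (Finset.mem_range.mpr hm) h1
  · push Not at h
    have h1 : PP β ν M j s = 0 := by
      apply Finset.sum_eq_zero
      intro m hm
      exact h m (Finset.mem_range.mp hm)
    rw [h1, Finset.sum_eq_zero]
    · norm_num
    · intro m hm
      rw [h m (Finset.mem_range.mp hm)]
      norm_num

theorem PP_sq {β : ℝ → ℝ} (hβc : ContDiff ℝ ∞ β) (hβ : tsupport β ⊆ Ioo 0 1) (hb : ∫ s, β s ^ 2 = 1) {ν : ℝ}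
    (hν : 0 < ν) {M : ℕ} (hM : 0 < M) (j : ℕ) : ∫ s, PP β ν M j s ^ 2 = 1 := by
  have hM' : (0 : ℝ) < M := by exact_mod_cast hM
  simp_rw [PP_sq_eq (van_of_supp hβ) hν]
  rw [integral_finsetSum]
  · simp_rw [ee_sq hν hM _ _ hb]
    rw [Finset.sum_const, Finset.card_range, nsmul_eq_mul]
    field_simp
  · intro m _
    have h1 : HasCompactSupport (fun s => ee β ν M (j * M + m) m s ^ 2) := by
      have h2 := ee_integrable hβc hβ hν M (j * M + m) m
      have h3 : (fun s => ee β ν M (j * M + m) m s ^ 2)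
          = fun s => ee β ν M (j * M + m) m s * ee β ν M (j * M + m) m s := by
        ext s
        ring
      rw [h3]
      exact h2.mul_left
    exact ((ee_cont hβc ν M _ m).pow 2).integrable_of_hasCompactSupport h1

theorem PP_disj {β : ℝ → ℝ} (hβ : Van β) {ν : ℝ} (hν : 0 < ν) {M i j : ℕ} (hij : i ≠ j) (s : ℝ) :
    PP β ν M i s * PP β ν M j s = 0 := by
  by_contra hc
  obtain ⟨m, hm, h1⟩ := PP_ne (left_ne_zero_of_mul hc)
  obtain ⟨m', hm', h2⟩ := PP_ne (right_ne_zero_of_mul hc)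
  exact hij (kk_inj hm hm' (ee_disj hβ hν h1 h2)).1

/-- The superlevel sets. -/
theorem superlevel {β : ℝ → ℝ} (hβ : Van β) {B : ℝ} (hB : ∀ s, |β s| ≤ B) {ν : ℝ} (hν : 0 < ν) {n M : ℕ}
    (hM : 0 < M) {Λ : ℝ} (hΛ : 0 ≤ Λ) {lam : ℝ} (hlam : 0 < lam) {s : ℝ}
    (h : lam < Λ * ∑ j : Fin n, |PP β ν M j s|) :
    ∃ j : Fin n, ∃ m, m < M ∧ lam < Λ * B * AA ν M m ∧
      s ∈ Ioo (((j * M + m : ℕ) : ℝ) / ν) (((j * M + m : ℕ) : ℝ) / ν + dd ν m) := by
  have h1 : ∑ j : Fin n, |PP β ν M j s| ≠ 0 := by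
    intro h0
    rw [h0, mul_zero] at h
    linarith
  obtain ⟨j, _, hj⟩ := Finset.exists_ne_zero_of_sum_ne_zero h1
  have hj' : PP β ν M j s ≠ 0 := by
    intro h0
    rw [h0, abs_zero] at hj
    exact hj rfl
  obtain ⟨m, hm, hne⟩ := PP_ne hj'
  refine ⟨j, m, hm, ?_, ?_⟩
  · have h2 : ∑ j : Fin n, |PP β ν M j s| = |ee β ν M (j * M + m) m s| := by
      rw [Finset.sum_eq_single j, PP_eq hβ hν hm hne]
      · intro i _ hi
        have h3 : PP β ν M i s * PP β ν M j s = 0 :=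
          PP_disj hβ hν (fun hc => hi (Fin.ext hc)) s
        rcases mul_eq_zero.mp h3 with h4 | h4
        · rw [h4, abs_zero]
        · exact absurd h4 hj'
      · intro hc
        exact absurd (Finset.mem_univ j) hc
    rw [h2] at h
    refine lt_of_lt_of_le h ?_
    have hA := AA_pos hν hM m
    unfold ee
    rw [abs_mul, abs_of_pos hA]
    calc Λ * (AA ν M m * |β ((s - ((j * M + m : ℕ) : ℝ) / ν) / dd ν m)|)
        ≤ Λ * (AA ν M m * B) := by
          apply mul_le_mul_of_nonneg_left _ hΛ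
          exact mul_le_mul_of_nonneg_left (hB _) hA.le
      _ = Λ * B * AA ν M m := by ring
  · obtain ⟨h3, h4⟩ := ee_ne hβ hν hne
    exact ⟨h3, h4⟩

/-- Sum of the widths of the active levels. -/
def DD (ν : ℝ) (n M : ℕ) (a : ℕ → ℝ) (lam : ℝ) : ℝ :=
  n * ∑ m ∈ Finset.range M, (if lam < a m then dd ν m else 0)

theorem vol_super {β : ℝ → ℝ} (hβ : Van β) {B : ℝ} (hB : ∀ s, |β s| ≤ B) {ν : ℝ} (hν : 0 < ν) {n M : ℕ}
    (hM : 0 < M) {Λ : ℝ} (hΛ : 0 ≤ Λ) {lam : ℝ} (hlam : 0 < lam) :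
    volume {s | lam < Λ * ∑ j : Fin n, |PP β ν M j s|} ≤
      ENNReal.ofReal (DD ν n M (fun m => Λ * B * AA ν M m) lam) := by
  have h1 : {s | lam < Λ * ∑ j : Fin n, |PP β ν M j s|} ⊆ ⋃ j : Fin n, ⋃ m ∈ Finset.range M,
      (if lam < Λ * B * AA ν M m then
        Ioo (((j * M + m : ℕ) : ℝ) / ν) (((j * M + m : ℕ) : ℝ) / ν + dd ν m) else ∅) := by
    intro s hs
    obtain ⟨j, m, hm, h2, h3⟩ := superlevel hβ hB hν hM hΛ hlam hs
    refine mem_iUnion.mpr ⟨j, mem_iUnion₂.mpr ⟨m, Finset.mem_range.mpr hm, ?_⟩⟩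
    rw [if_pos h2]
    exact h3
  have h2 : ∀ (j : Fin n) (m : ℕ), volume (if lam < Λ * B * AA ν M m then
        Ioo (((j * M + m : ℕ) : ℝ) / ν) (((j * M + m : ℕ) : ℝ) / ν + dd ν m) else ∅)
        = ENNReal.ofReal (if lam < Λ * B * AA ν M m then dd ν m else 0) := by
    intro j m
    split_ifs
    · rw [Real.volume_Ioo]
      congr 1
      ring
    · simp
  have hnn : ∀ m : ℕ, 0 ≤ (if lam < Λ * B * AA ν M m then dd ν m else 0) := by
    intro m
    split_ifs
    · exact (dd_pos hν m).le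
    · exact le_rfl
  calc volume {s | lam < Λ * ∑ j : Fin n, |PP β ν M j s|}
      ≤ ∑ j : Fin n, ∑ m ∈ Finset.range M, volume (if lam < Λ * B * AA ν M m then
        Ioo (((j * M + m : ℕ) : ℝ) / ν) (((j * M + m : ℕ) : ℝ) / ν + dd ν m) else ∅) := by
        refine (measure_mono h1).trans ((measure_iUnion_fintype_le _ _).trans ?_)
        apply Finset.sum_le_sum
        intro j _
        exact measure_biUnion_finset_le _ _
    _ = ∑ j : Fin n, ∑ m ∈ Finset.range M, ENNReal.ofReal (if lam < Λ * B * AA ν M m then dd ν m else 0) := by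
        simp_rw [h2]
    _ = ENNReal.ofReal (DD ν n M (fun m => Λ * B * AA ν M m) lam) := by
        rw [Finset.sum_const, Finset.card_univ, Fintype.card_fin, nsmul_eq_mul, DD,
          ENNReal.ofReal_mul (Nat.cast_nonneg n), ENNReal.ofReal_natCast,
          ENNReal.ofReal_sum_of_nonneg (fun m _ => hnn m)]

/-- Coefficients. -/
def cc (ν q : ℝ) (n : ℕ) (a : ℕ → ℝ) (m : ℕ) : ℝ := (4 / 3 * n * dd ν m) ^ q * a m ^ (2 * q - 1)

theorem DD_le {ν q : ℝ} (hν : 0 < ν) (hq : 1 < q) (n M : ℕ) (a : ℕ → ℝ) (ha : ∀ m, 0 ≤ a m) {lam : ℝ}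
    (hlam : 0 < lam) : (lam ^ 2 * DD ν n M a lam) ^ q / lam
      ≤ ∑ m ∈ Finset.range M, (if lam < a m then cc ν q n a m else 0) := by
  have hcc : ∀ m, 0 ≤ cc ν q n a m := by
    intro m
    unfold cc
    have := dd_pos hν m
    have := ha m
    positivity
  have hnn : ∀ m ∈ Finset.range M, 0 ≤ (if lam < a m then cc ν q n a m else 0) := by
    intro m _
    split_ifs
    · exact hcc m
    · exact le_rfl
  by_cases hex : ∃ m, m < M ∧ lam < a m
  · classical
    set m0 := Nat.find hex with hm0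
    obtain ⟨h1, h2⟩ := Nat.find_spec hex
    have h3 : DD ν n M a lam ≤ 4 / 3 * n * dd ν m0 := by
      have h4 : ∑ m ∈ Finset.range M, (if lam < a m then dd ν m else 0)
          ≤ ∑ m ∈ Finset.range M, (if m0 ≤ m then (1 / 4 : ℝ) ^ m else 0) / ν := by
        apply Finset.sum_le_sum
        intro m hm
        by_cases h5 : lam < a m
        · rw [if_pos h5, if_pos (Nat.find_min' hex ⟨Finset.mem_range.mp hm, h5⟩)]
          exact le_rfl
        · rw [if_neg h5]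
          split_ifs
          · positivity
          · simp
      have h5 := geo_sum M m0
      rw [← Finset.sum_div] at h4
      have h6 : (∑ m ∈ Finset.range M, (if m0 ≤ m then (1 / 4 : ℝ) ^ m else 0)) / ν
          ≤ 4 / 3 * (1 / 4) ^ m0 / ν := by gcongr
      unfold DD
      calc (n : ℝ) * ∑ m ∈ Finset.range M, (if lam < a m then dd ν m else 0)
          ≤ n * (4 / 3 * (1 / 4) ^ m0 / ν) := by
            apply mul_le_mul_of_nonneg_left (h4.trans h6) (Nat.cast_nonneg n)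
        _ = 4 / 3 * n * dd ν m0 := by
            unfold dd
            ring
    have hDD0 : 0 ≤ DD ν n M a lam := by
      unfold DD
      apply mul_nonneg (Nat.cast_nonneg n)
      apply Finset.sum_nonneg
      intro m _
      split_ifs
      · exact (dd_pos hν m).le
      · exact le_rfl
    have hd0 := dd_pos hν m0
    have h7 : (lam ^ 2 * DD ν n M a lam) ^ q / lam ≤ cc ν q n a m0 := by
      calc (lam ^ 2 * DD ν n M a lam) ^ q / lam ≤ (lam ^ 2 * (4 / 3 * n * dd ν m0)) ^ q / lam := by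
            gcongr
        _ = (4 / 3 * n * dd ν m0) ^ q * lam ^ (2 * q - 1) := by
            rw [Real.mul_rpow (by positivity) (by positivity), ← Real.rpow_natCast lam 2,
              ← Real.rpow_mul hlam.le, Real.rpow_sub_one hlam.ne']
            push_cast
            ring
        _ ≤ (4 / 3 * n * dd ν m0) ^ q * a m0 ^ (2 * q - 1) := by
            apply mul_le_mul_of_nonneg_left _ (by positivity)
            exact Real.rpow_le_rpow hlam.le h2.le (by linarith)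
    refine h7.trans ?_
    have h8 := Finset.single_le_sum hnn (Finset.mem_range.mpr h1)
    rw [if_pos h2] at h8
    exact h8
  · push Not at hex
    have h1 : DD ν n M a lam = 0 := by
      unfold DD
      rw [Finset.sum_eq_zero, mul_zero]
      intro m hm
      rw [if_neg (not_lt.mpr (hex m (Finset.mem_range.mp hm)))]
    rw [h1, mul_zero, Real.zero_rpow (by linarith), zero_div]
    exact Finset.sum_nonneg hnn

theorem LF_le {β : ℝ → ℝ} (hβ : Van β) {B : ℝ} (hB0 : 0 ≤ B) (hB : ∀ s, |β s| ≤ B) {ν q : ℝ} (hν : 0 < ν)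
    (hq : 1 < q) {n M : ℕ} (hM : 0 < M) {Λ : ℝ} (hΛ : 0 ≤ Λ) :
    LF q (fun s => Λ * ∑ j : Fin n, |PP β ν M j s|) ≤ ENNReal.ofReal (M * (4 / 3 * n * (Λ * B) ^ 2 / M) ^ q) := by
  set a : ℕ → ℝ := fun m => Λ * B * AA ν M m with ha
  have hM' : (0 : ℝ) < M := by exact_mod_cast hM
  have ha0 : ∀ m, 0 ≤ a m := fun m => by
    have := (AA_pos hν hM m).le
    rw [ha]
    positivity
  have hcc : ∀ m, 0 ≤ cc ν q n a m := by
    intro m
    unfold cc
    have := dd_pos hν m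
    have := ha0 m
    positivity
  have h1 : ∀ lam ∈ Ioi (0 : ℝ),
      (ENNReal.ofReal (lam ^ 2) * volume {s | lam < Λ * ∑ j : Fin n, |PP β ν M j s|}) ^ q / ENNReal.ofReal lam
      ≤ ∑ m ∈ Finset.range M, (Ioo 0 (a m)).indicator (fun _ => ENNReal.ofReal (cc ν q n a m)) lam := by
    intro lam hlam
    have hlam : 0 < lam := hlam
    have h2 := vol_super (n := n) hβ hB hν hM hΛ hlam
    have hDD0 : 0 ≤ DD ν n M a lam := by
      unfold DD
      apply mul_nonneg (Nat.cast_nonneg n)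
      apply Finset.sum_nonneg
      intro m _
      split_ifs
      · exact (dd_pos hν m).le
      · exact le_rfl
    calc (ENNReal.ofReal (lam ^ 2) * volume {s | lam < Λ * ∑ j : Fin n, |PP β ν M j s|}) ^ q / ENNReal.ofReal lam
        ≤ (ENNReal.ofReal (lam ^ 2) * ENNReal.ofReal (DD ν n M a lam)) ^ q / ENNReal.ofReal lam := by
          gcongr
      _ = ENNReal.ofReal ((lam ^ 2 * DD ν n M a lam) ^ q / lam) := by
          rw [← ENNReal.ofReal_mul (by positivity), ENNReal.ofReal_rpow_of_nonneg (by positivity) (by linarith),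
            ENNReal.ofReal_div_of_pos hlam]
      _ ≤ ENNReal.ofReal (∑ m ∈ Finset.range M, (if lam < a m then cc ν q n a m else 0)) :=
          ENNReal.ofReal_le_ofReal (DD_le hν hq n M a ha0 hlam)
      _ = ∑ m ∈ Finset.range M, ENNReal.ofReal (if lam < a m then cc ν q n a m else 0) := by
          apply ENNReal.ofReal_sum_of_nonneg
          intro m _
          split_ifs
          · exact hcc m
          · exact le_rfl
      _ = _ := by
          apply Finset.sum_congr rfl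
          intro m _
          by_cases h3 : lam < a m
          · rw [if_pos h3, indicator_of_mem (show lam ∈ Ioo 0 (a m) from ⟨hlam, h3⟩)]
          · rw [if_neg h3, indicator_of_notMem (fun hc => h3 hc.2)]
            simp
  have h4 : ∀ m, ENNReal.ofReal (cc ν q n a m) * ENNReal.ofReal (a m)
      ≤ ENNReal.ofReal ((4 / 3 * n * (Λ * B) ^ 2 / M) ^ q) := by
    intro m
    rw [← ENNReal.ofReal_mul (hcc m)]
    apply ENNReal.ofReal_le_ofReal
    apply le_of_eq
    have hd := dd_pos hν m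
    have h5 : a m ^ (2 * q - 1) * a m = (a m ^ 2) ^ q := by
      have h6 : a m ^ (2 * q - 1) * a m = a m ^ (2 * q - 1 + 1) :=
        (Real.rpow_add_one' (ha0 m) (by linarith)).symm
      rw [h6, ← Real.rpow_natCast (a m) 2, ← Real.rpow_mul (ha0 m)]
      congr 1
      push_cast
      ring
    have h7 : a m ^ 2 = (Λ * B) ^ 2 * (M * dd ν m)⁻¹ := by
      rw [ha]
      show (Λ * B * AA ν M m) ^ 2 = _
      rw [mul_pow, AA_sq hν hM]
    unfold cc
    rw [mul_assoc, h5, ← Real.mul_rpow (by positivity) (by positivity), h7]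
    congr 1
    field_simp
  calc LF q (fun s => Λ * ∑ j : Fin n, |PP β ν M j s|)
      ≤ ∫⁻ lam in Ioi (0 : ℝ), ∑ m ∈ Finset.range M,
          (Ioo 0 (a m)).indicator (fun _ => ENNReal.ofReal (cc ν q n a m)) lam :=
        setLIntegral_mono' measurableSet_Ioi h1
    _ = ∑ m ∈ Finset.range M, ∫⁻ lam in Ioi (0 : ℝ),
          (Ioo 0 (a m)).indicator (fun _ => ENNReal.ofReal (cc ν q n a m)) lam := by
        apply lintegral_finsetSum
        intro m _
        exact measurable_const.indicator measurableSet_Ioo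
    _ ≤ ∑ m ∈ Finset.range M, ENNReal.ofReal ((4 / 3 * n * (Λ * B) ^ 2 / M) ^ q) := by
        apply Finset.sum_le_sum
        intro m _
        refine le_trans ?_ (h4 m)
        calc ∫⁻ lam in Ioi (0 : ℝ), (Ioo 0 (a m)).indicator (fun _ => ENNReal.ofReal (cc ν q n a m)) lam
            ≤ ∫⁻ lam, (Ioo 0 (a m)).indicator (fun _ => ENNReal.ofReal (cc ν q n a m)) lam :=
              setLIntegral_le_lintegral _ _
          _ = ENNReal.ofReal (cc ν q n a m) * ENNReal.ofReal (a m) := by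
              rw [lintegral_indicator measurableSet_Ioo, setLIntegral_const, Real.volume_Ioo, sub_zero]
    _ = ENNReal.ofReal (M * (4 / 3 * n * (Λ * B) ^ 2 / M) ^ q) := by
        rw [Finset.sum_const, Finset.card_range, nsmul_eq_mul, ENNReal.ofReal_mul hM'.le, ENNReal.ofReal_natCast]

theorem vol_supp {β : ℝ → ℝ} (hβ : Van β) {n M : ℕ} (hM : 0 < M) {ν : ℝ}
    (hν : ν = ((n : ℝ) + 1) * M) : volume {s | ∃ j : Fin n, PP β ν M j s ≠ 0} ≤ ENNReal.ofReal (4 / 3 / M) := by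
  have hM' : (0 : ℝ) < M := by exact_mod_cast hM
  have hν0 : 0 < ν := by rw [hν]; positivity
  have h1 : {s | ∃ j : Fin n, PP β ν M j s ≠ 0} ⊆ ⋃ j : Fin n, ⋃ m ∈ Finset.range M,
        Ioo (((j * M + m : ℕ) : ℝ) / ν) (((j * M + m : ℕ) : ℝ) / ν + dd ν m) := by
    rintro s ⟨j, hj⟩
    obtain ⟨m, hm, hne⟩ := PP_ne hj
    obtain ⟨h3, h4⟩ := ee_ne hβ hν0 hne
    exact mem_iUnion.mpr ⟨j, mem_iUnion₂.mpr ⟨m, Finset.mem_range.mpr hm, ⟨h3, h4⟩⟩⟩
  calc volume {s | ∃ j : Fin n, PP β ν M j s ≠ 0}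
      ≤ ∑ j : Fin n, ∑ m ∈ Finset.range M, volume
        (Ioo (((j * M + m : ℕ) : ℝ) / ν) (((j * M + m : ℕ) : ℝ) / ν + dd ν m)) := by
        refine (measure_mono h1).trans ((measure_iUnion_fintype_le _ _).trans ?_)
        apply Finset.sum_le_sum
        intro j _
        exact measure_biUnion_finset_le _ _
    _ = ∑ j : Fin n, ∑ m ∈ Finset.range M, ENNReal.ofReal (dd ν m) := by
        simp_rw [Real.volume_Ioo]
        simp
    _ = ENNReal.ofReal (n * ∑ m ∈ Finset.range M, dd ν m) := by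
        rw [Finset.sum_const, Finset.card_univ, Fintype.card_fin, nsmul_eq_mul,
          ENNReal.ofReal_mul (Nat.cast_nonneg n), ENNReal.ofReal_natCast,
          ENNReal.ofReal_sum_of_nonneg (fun m _ => (dd_pos hν0 m).le)]
    _ ≤ ENNReal.ofReal (4 / 3 / M) := by
        apply ENNReal.ofReal_le_ofReal
        have h2 := geo_sum M 0
        simp only [Nat.zero_le, if_true, pow_zero, mul_one] at h2
        unfold dd
        rw [← Finset.sum_div]
        calc (n : ℝ) * ((∑ m ∈ Finset.range M, (1 / 4 : ℝ) ^ m) / ν) ≤ n * ((4 / 3) / ν) := by gcongr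
          _ ≤ (n + 1) * ((4 / 3) / ν) := by gcongr; linarith
          _ = 4 / 3 / M := by
            rw [hν]
            field_simp

end ProfX

open ProfX in
theorem prof_proof : Stmt_Prof := by
  intro n q Λ ε hq hΛ hε
  obtain ⟨β, B, hβc, hβs, hβ0, hβ1, hB0, hB⟩ := exists_beta
  have hv := van_of_supp hβs
  have hM : ∃ M : ℕ, 0 < M ∧ M * (4 / 3 * n * (Λ * B) ^ 2 / M) ^ q ≤ ε ∧ 4 / 3 / (M : ℝ) ≤ ε := by
    set κ : ℝ := 4 / 3 * n * (Λ * B) ^ 2 with hκ
    have hκ0 : 0 ≤ κ := by positivity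
    have h1 : Tendsto (fun M : ℕ => κ ^ q * (M : ℝ) ^ (-(q - 1))) atTop (𝓝 (κ ^ q * 0)) :=
      ((tendsto_rpow_neg_atTop (by linarith)).comp tendsto_natCast_atTop_atTop).const_mul _
    have h2 : Tendsto (fun M : ℕ => 4 / 3 / (M : ℝ)) atTop (𝓝 0) :=
      tendsto_const_div_atTop_nhds_zero_nat _
    rw [mul_zero] at h1
    have h3 := h1.eventually (ge_mem_nhds hε)
    have h4 := h2.eventually (ge_mem_nhds hε)
    obtain ⟨M, hM1, hM2, hM3⟩ := (h3.and (h4.and (eventually_gt_atTop 0))).exists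
    refine ⟨M, hM3, ?_, hM2⟩
    have hM' : (0 : ℝ) < M := by exact_mod_cast hM3
    refine le_trans (le_of_eq ?_) hM1
    rw [Real.div_rpow hκ0 hM'.le, neg_sub, Real.rpow_sub hM', Real.rpow_one]
    ring
  obtain ⟨M, hM0, hM1, hM2⟩ := hM
  have hM' : (0 : ℝ) < M := by exact_mod_cast hM0
  set ν : ℝ := ((n : ℝ) + 1) * M with hν
  have hν0 : 0 < ν := by positivity
  refine ⟨fun j => PP β ν M j, ⟨?_, ?_, ?_, ?_, ?_⟩, ?_, ?_⟩
  · exact fun j => PP_smooth hβc ν M j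
  · exact fun j => PP_supp hβs hM0 (by omega) hν
  · exact fun i j hij s => PP_disj hv hν0 (fun hc => hij (Fin.ext hc)) s
  · intro j
    rw [int01 (van_of_supp (PP_supp hβs hM0 (by omega) hν))]
    exact PP_mean hβc hβs hβ0 hν0 M j
  · intro j
    have h1 : Van (fun s => PP β ν M j s ^ 2) := by
      intro s hs
      show PP β ν M j s ^ 2 = 0
      rw [van_of_supp (PP_supp hβs hM0 (n := n) (j := j) (by omega) hν) s hs]
      norm_num
    rw [int01 h1]
    exact PP_sq hβc hβs hβ1 hν0 hM0 j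
  · exact (LF_le hv hB0.le hB hν0 hq hM0 hΛ).trans (ENNReal.ofReal_le_ofReal hM1)
  · exact (vol_supp hv hM0 hν).trans (ENNReal.ofReal_le_ofReal hM2)

end Pool.Agent.NSV
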