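import Pool.Agent.NSV.Stmts

/-! Module RIESZ: Riesz representation of functionals bounded by the norm of the image. -/

set_option autoImplicit false

open MeasureTheory Set Filter Topology
open scoped RealInnerProductSpace ContDiff ENNReal

namespace Pool.Agent.NSV

open Pool.Agent.NSD Pool.Agent.NSK

theorem riesz_proof : Stmt_Riesz := by
  intro V K _ _ _ _ _ _ ι G C hG
  have hker : LinearMap.ker (ι : V →ₗ[ℝ] K) ≤ LinearMap.ker (G : V →ₗ[ℝ] ℝ) := by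
    intro v hv
    rw [LinearMap.mem_ker] at hv ⊢
    have h1 := hG v
    have h2 : ι v = 0 := hv
    rw [h2, norm_zero, mul_zero] at h1
    exact abs_nonpos_iff.1 h1
  let g₀ : LinearMap.range (ι : V →ₗ[ℝ] K) →ₗ[ℝ] ℝ :=
    ((LinearMap.ker (ι : V →ₗ[ℝ] K)).liftQ (G : V →ₗ[ℝ] ℝ) hker) ∘ₗ
      ((ι : V →ₗ[ℝ] K).quotKerEquivRange.symm : _ →ₗ[ℝ] _)
  have hg₀ : ∀ v : V, g₀ ⟨ι v, LinearMap.mem_range_self (ι : V →ₗ[ℝ] K) v⟩ = G v := by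
    intro v
    have h1 : (ι : V →ₗ[ℝ] K).quotKerEquivRange.symm
        ⟨ι v, LinearMap.mem_range_self (ι : V →ₗ[ℝ] K) v⟩
        = (LinearMap.ker (ι : V →ₗ[ℝ] K)).mkQ v :=
      LinearMap.quotKerEquivRange_symm_apply_image (ι : V →ₗ[ℝ] K) v _
    show ((LinearMap.ker (ι : V →ₗ[ℝ] K)).liftQ (G : V →ₗ[ℝ] ℝ) hker)
      ((ι : V →ₗ[ℝ] K).quotKerEquivRange.symm
        ⟨ι v, LinearMap.mem_range_self (ι : V →ₗ[ℝ] K) v⟩) = G v
    rw [h1]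
    exact Submodule.liftQ_apply _ _ _
  have hb : ∀ w, ‖g₀ w‖ ≤ C * ‖w‖ := by
    rintro ⟨w, v, rfl⟩
    have h1 := hG v
    have h2 := hg₀ v
    have h3 : g₀ ⟨(ι : V →ₗ[ℝ] K) v, ⟨v, rfl⟩⟩ = G v := h2
    rw [h3, Real.norm_eq_abs]
    exact h1
  obtain ⟨g, hg, -⟩ := exists_extension_norm_eq (LinearMap.range (ι : V →ₗ[ℝ] K))
    (g₀.mkContinuous C hb)
  refine ⟨(InnerProductSpace.toDual ℝ K).symm g, fun v => ?_⟩
  rw [InnerProductSpace.toDual_symm_apply]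
  have h1 := hg ⟨ι v, LinearMap.mem_range_self (ι : V →ₗ[ℝ] K) v⟩
  have h2 : (g₀.mkContinuous C hb) ⟨ι v, LinearMap.mem_range_self (ι : V →ₗ[ℝ] K) v⟩ = G v := hg₀ v
  rw [h2] at h1
  exact h1.symm

end Pool.Agent.NSV
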