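import Pool.Agent.NSV.Stmts
import Pool.Agent.NSK.E2

/-!
# MP_fd8964_an, Theorem V: module S1 (energy estimates for `z = u - Q`)
-/

open MeasureTheory Set Filter Topology
open scoped RealInnerProductSpace ContDiff ENNReal

noncomputable section

namespace Pool.Agent.NSV

open Pool.Agent.NSD Pool.Agent.NSK

namespace S1X

section
variable {V K : Type} [NormedAddCommGroup V] [InnerProductSpace ℝ V]
    [NormedAddCommGroup K] [InnerProductSpace ℝ K]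

/-- Equation (E) for `z = u - Q` at one time. -/
theorem eqE {D : Data V K} {η : ℝ} {Q Q₁ u w : V} {f R : V →L[ℝ] ℝ}
    (hQ : ∀ v, ⟪D.ι Q₁, D.ι v⟫ + η * D.a Q v + D.b Q Q v = f v + R v)
    (hu : ∀ v, ⟪D.ι w, D.ι v⟫ + η * D.a u v + D.b u u v = f v) :
    ∀ v, ⟪D.ι (w - Q₁), D.ι v⟫ + η * D.a (u - Q) v + D.b (u - Q) (Q + (u - Q)) v
      + D.b Q (u - Q) v = - R v := by
  intro v
  have h1 := hQ v
  have h2 := hu v
  simp only [map_add, map_sub, add_apply, sub_apply, inner_sub_left] at h1 h2 ⊢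
  linarith

/-- Energy and Gronwall. -/
theorem energyGronwall (hE : Stmt_EnergyId) (hG : Stmt_GronwallInt) [CompleteSpace V] (D : Data V K)
    {x x₁ : ℝ → V} (hx : IsH1loc x x₁) (hx0 : x 0 = 0) {T L r η : ℝ} (hL : 0 ≤ L) (hr : 0 ≤ r)
    (hη : 0 ≤ η)
    (h : ∀ᵐ s, s ∈ Ioc 0 T → 2 * ⟪D.ι (x₁ s), D.ι (x s)⟫ ≤ L * ‖D.ι (x s)‖ ^ 2 + r - η * D.sig (x s) ^ 2) :
    ∀ t ∈ Icc 0 T, ‖D.ι (x t)‖ ^ 2 + ∫ s in (0 : ℝ)..t, η * D.sig (x s) ^ 2 ≤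
      r * t * Real.exp (L * t) := by
  have hxc := hx.continuousOn
  have hsc : ContinuousOn (fun t => D.sig (x t)) (Ici 0) :=
    D.continuous_sig.comp_continuousOn hxc
  have hyc : ContinuousOn (fun t => ‖D.ι (x t)‖ ^ 2) (Ici 0) :=
    (D.ι.continuous.comp_continuousOn hxc).norm.pow 2
  have hgc : ContinuousOn (fun s => η * D.sig (x s) ^ 2) (Icc 0 T) :=
    continuousOn_const.mul ((hsc.mono Icc_subset_Ici_self).pow 2)
  have key := hG T (fun t => ‖D.ι (x t)‖ ^ 2) (fun _ => L) (fun _ => r)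
    (fun s => η * D.sig (x s) ^ 2) (hyc.mono Icc_subset_Ici_self) continuousOn_const
    continuousOn_const hgc (fun _ _ => hL) (fun _ _ => hr) (fun _ _ => by positivity) (by positivity) ?_
  · intro t ht
    have h1 := key t ht
    simp only [hx0, map_zero, norm_zero, intervalIntegral.integral_const, sub_zero, smul_eq_mul] at h1
    have e : r * t * Real.exp (L * t) = (0 ^ 2 + t * r) * Real.exp (t * L) := by
      rw [mul_comm L t]; ring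
    rw [e]
    exact h1
  · intro t ht
    obtain ⟨hI, hid⟩ := hE V K D.ι _ _ hx 0 t le_rfl ht.1
    show ‖D.ι (x t)‖ ^ 2 ≤ ‖D.ι (x 0)‖ ^ 2 + _
    rw [hid]
    refine add_le_add le_rfl ?_
    rw [← intervalIntegral.integral_const_mul]
    refine intervalIntegral.integral_mono_ae_restrict ht.1 (hI.const_mul 2) ?_ ?_
    · refine ContinuousOn.intervalIntegrable_of_Icc ht.1 ?_
      refine ContinuousOn.mono ?_ (Icc_subset_Icc_right ht.2)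
      exact ((continuousOn_const.mul (hyc.mono Icc_subset_Ici_self)).add continuousOn_const).sub hgc
    · have h1 : ∀ᵐ s ∂(volume.restrict (Icc 0 t)), s ∈ Ioc 0 T →
          2 * ⟪D.ι (x₁ s), D.ι (x s)⟫ ≤ L * ‖D.ι (x s)‖ ^ 2 + r - η * D.sig (x s) ^ 2 :=
        ae_restrict_of_ae h
      have h3 : ∀ᵐ s ∂(volume.restrict (Icc 0 t)), s ≠ 0 :=
        ae_restrict_of_ae (Measure.ae_ne volume 0)
      filter_upwards [h1, h3, ae_restrict_mem measurableSet_Icc] with s hs hs0 hsm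
      have hspos : 0 < s := lt_of_le_of_ne hsm.1 (Ne.symm hs0)
      exact hs ⟨hspos, hsm.2.trans ht.2⟩

/-- Pointwise inequality for `x = z + y`. -/
theorem pw1 (D : Data V K) {η μ Cb CS e : ℝ} (hη : 0 < η) (hμ : μ = η / 5) (hCb0 : 0 ≤ Cb)
    (hCb : ∀ x y z, |D.b x y z| ≤ Cb * D.sig x * D.sig y * D.sig z) (hCS : 0 ≤ CS)
    (he0 : 0 ≤ e) (he1 : e ≤ 1) {x x₁ y y₁ z z₁ Q : V} {R : V →L[ℝ] ℝ}
    (hE : ∀ v, ⟪D.ι z₁, D.ι v⟫ + η * D.a z v + D.b z (Q + z) v + D.b Q z v = - R v)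
    (hx : x = z + y) (hx₁ : x₁ = z₁ + y₁) (hsQ : D.sig Q ≤ CS) (hsy : D.sig y ≤ e)
    (hR : ∀ v, |R v - ⟪D.ι y₁, D.ι v⟫| ≤ e * D.sig v) :
    2 * ⟪D.ι x₁, D.ι x⟫ ≤ (2 * D.CY / μ ^ 3 * (CS ^ 4 + 1)) * ‖D.ι x‖ ^ 2
      + (η + 2 * Cb * CS + Cb + 1) ^ 2 / μ * e ^ 2 - η * D.sig x ^ 2 := by
  have hμ0 : 0 < μ := by rw [hμ]; positivity
  have hCY := D.CY_nonneg
  have hz : z = x - y := by rw [hx]; abel
  have hz₁ : z₁ = x₁ - y₁ := by rw [hx₁]; abel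
  have h1 := hE x
  set σ := D.sig x with hσ
  have hσ0 : 0 ≤ σ := D.sig_nonneg x
  have hσ2 : D.a x x = σ ^ 2 := (D.sig_sq x).symm
  have hsy0 := D.sig_nonneg y
  have hsQ0 := D.sig_nonneg Q
  set Y := ‖D.ι x‖ with hY
  have hY0 : 0 ≤ Y := norm_nonneg _
  -- expansion
  have hb1 : D.b z (Q + z) x + D.b Q z x = D.b x Q x - D.b y Q x - D.b x y x + D.b y y x - D.b Q y x := by
    have k1 : D.b (x - y) x x = 0 := D.b_skew _ _
    have k2 : D.b Q x x = 0 := D.b_skew _ _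
    rw [hz]
    simp only [map_add, map_sub, add_apply, sub_apply] at k1 ⊢
    linarith
  have hid : ⟪D.ι x₁, D.ι x⟫ = - η * σ ^ 2 + η * D.a y x - (D.b x Q x - D.b y Q x - D.b x y x
      + D.b y y x - D.b Q y x) - (R x - ⟪D.ι y₁, D.ι x⟫) := by
    rw [← hσ2]
    have h2 : ⟪D.ι z₁, D.ι x⟫ = ⟪D.ι x₁, D.ι x⟫ - ⟪D.ι y₁, D.ι x⟫ := by
      rw [hz₁, map_sub, inner_sub_left]
    have h3 : D.a z x = D.a x x - D.a y x := by
      rw [hz, map_sub, sub_apply]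
    rw [h2, h3] at h1
    linarith
  have t1 : |D.a y x| ≤ e * σ := (D.a_cs y x).trans (by gcongr)
  have t2 : 2 * |D.b x Q x| ≤ 2 * (μ * σ ^ 2) + 2 * D.CY / μ ^ 3 * CS ^ 4 * Y ^ 2 := by
    have h := D.b_young μ hμ0 Q x
    rw [hσ2, ← D.sig_sq Q] at h
    have h4 : D.CY / μ ^ 3 * (D.sig Q ^ 2) ^ 2 * Y ^ 2 ≤ D.CY / μ ^ 3 * (CS ^ 2) ^ 2 * Y ^ 2 := by gcongr
    calc 2 * |D.b x Q x| ≤ 2 * (μ * σ ^ 2 + D.CY / μ ^ 3 * (CS ^ 2) ^ 2 * Y ^ 2) := by linarith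
      _ = _ := by ring
  have t3 : |D.b y Q x| ≤ Cb * CS * e * σ := by
    calc |D.b y Q x| ≤ Cb * D.sig y * D.sig Q * σ := hCb y Q x
      _ ≤ Cb * e * CS * σ := by gcongr
      _ = _ := by ring
  have t4 : 2 * |D.b x y x| ≤ 2 * (μ * σ ^ 2) + 2 * D.CY / μ ^ 3 * Y ^ 2 := by
    have h := D.b_young μ hμ0 y x
    rw [hσ2, ← D.sig_sq y] at h
    have h4 : D.CY / μ ^ 3 * (D.sig y ^ 2) ^ 2 * Y ^ 2 ≤ D.CY / μ ^ 3 * ((1 : ℝ) ^ 2) ^ 2 * Y ^ 2 := by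
      have : D.sig y ≤ 1 := hsy.trans he1
      gcongr
    calc 2 * |D.b x y x| ≤ 2 * (μ * σ ^ 2 + D.CY / μ ^ 3 * ((1 : ℝ) ^ 2) ^ 2 * Y ^ 2) := by linarith
      _ = _ := by ring
  have t5 : |D.b y y x| ≤ Cb * e * σ := by
    calc |D.b y y x| ≤ Cb * D.sig y * D.sig y * σ := hCb y y x
      _ ≤ Cb * e * 1 * σ := by
        have : D.sig y ≤ 1 := hsy.trans he1
        gcongr
      _ = _ := by ring
  have t6 : |D.b Q y x| ≤ Cb * CS * e * σ := by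
    calc |D.b Q y x| ≤ Cb * D.sig Q * D.sig y * σ := hCb Q y x
      _ ≤ Cb * CS * e * σ := by gcongr
  have t7 : |R x - ⟪D.ι y₁, D.ι x⟫| ≤ e * σ := hR x
  have t8 := E2.amgm hμ0 ((η + 2 * Cb * CS + Cb + 1) * e) σ
  have a1 := (abs_le.1 (le_refl |D.a y x|)).2
  have a1' : η * D.a y x ≤ η * (e * σ) := mul_le_mul_of_nonneg_left (a1.trans t1) hη.le
  have a2 := abs_le.1 (le_refl |D.b x Q x|)
  have a3 := abs_le.1 (le_refl |D.b y Q x|)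
  have a4 := abs_le.1 (le_refl |D.b x y x|)
  have a5 := abs_le.1 (le_refl |D.b y y x|)
  have a6 := abs_le.1 (le_refl |D.b Q y x|)
  have a7 := abs_le.1 (le_refl |R x - ⟪D.ι y₁, D.ι x⟫|)
  have hc : 5 * (μ * σ ^ 2) = η * σ ^ 2 := by rw [hμ]; ring
  have e1 : (2 * D.CY / μ ^ 3 * (CS ^ 4 + 1)) * Y ^ 2 = 2 * D.CY / μ ^ 3 * CS ^ 4 * Y ^ 2
      + 2 * D.CY / μ ^ 3 * Y ^ 2 := by ring
  have e2 : ((η + 2 * Cb * CS + Cb + 1) * e) ^ 2 / μ = (η + 2 * Cb * CS + Cb + 1) ^ 2 / μ * e ^ 2 := by ring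
  have e3 : 2 * ((η + 2 * Cb * CS + Cb + 1) * e * σ) = 2 * (η * (e * σ)) + 2 * (2 * (Cb * CS * e * σ))
      + 2 * (Cb * e * σ) + 2 * (e * σ) := by ring
  rw [e2] at t8
  rw [e1, hid]
  linarith [a2.1, a3.1, a3.2, a4.1, a4.2, a5.1, a6.1, a6.2, a7.1]

/-- Pointwise inequality for `z`. -/
theorem pw2 (D : Data V K) {η μ CS r1 s t : ℝ} (hη : 0 < η) (hμ : μ = η / 5) (hCS : 0 ≤ CS)
    (hr1 : 0 ≤ r1) (hs : 0 ≤ s) (ht : 0 < t) (hst : s ≤ t) {z z₁ Q : V} {R : V →L[ℝ] ℝ}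
    (hE : ∀ v, ⟪D.ι z₁, D.ι v⟫ + η * D.a z v + D.b z (Q + z) v + D.b Q z v = - R v)
    (hsQ : D.sig Q ≤ CS) (hR : ∀ v, |R v| ≤ r1 * (‖D.ι v‖ + √s * D.sig v)) :
    2 * ⟪D.ι z₁, D.ι z⟫ ≤ (2 * D.CY / μ ^ 3 * (CS ^ 4 + 1) + 1 / t) * ‖D.ι z‖ ^ 2
      + r1 ^ 2 * t * (1 + 1 / μ) - 0 * D.sig z ^ 2 := by
  have hμ0 : 0 < μ := by rw [hμ]; positivity
  have hCY := D.CY_nonneg
  have h1 := hE z
  set σ := D.sig z with hσ
  have hσ0 : 0 ≤ σ := D.sig_nonneg z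
  have hσ2 : D.a z z = σ ^ 2 := (D.sig_sq z).symm
  have hsQ0 := D.sig_nonneg Q
  set Y := ‖D.ι z‖ with hY
  have hY0 : 0 ≤ Y := norm_nonneg _
  have hb1 : D.b z (Q + z) z + D.b Q z z = D.b z Q z := by
    have k1 : D.b z z z = 0 := D.b_skew _ _
    have k2 : D.b Q z z = 0 := D.b_skew _ _
    simp only [map_add, add_apply]
    linarith
  have t2 : 2 * |D.b z Q z| ≤ 2 * (μ * σ ^ 2) + 2 * D.CY / μ ^ 3 * CS ^ 4 * Y ^ 2 := by
    have h := D.b_young μ hμ0 Q z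
    rw [hσ2, ← D.sig_sq Q] at h
    have h4 : D.CY / μ ^ 3 * (D.sig Q ^ 2) ^ 2 * Y ^ 2 ≤ D.CY / μ ^ 3 * (CS ^ 2) ^ 2 * Y ^ 2 := by gcongr
    calc 2 * |D.b z Q z| ≤ 2 * (μ * σ ^ 2 + D.CY / μ ^ 3 * (CS ^ 2) ^ 2 * Y ^ 2) := by linarith
      _ = _ := by ring
  have t3 : 2 * |R z| ≤ 2 * (r1 * Y) + 2 * (r1 * √s * σ) := by
    have := hR z
    calc 2 * |R z| ≤ 2 * (r1 * (Y + √s * σ)) := by linarith
      _ = _ := by ring
  have t4 : 2 * (r1 * Y) ≤ 1 / t * Y ^ 2 + r1 ^ 2 * t := by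
    have h2 : 0 ≤ (Y - r1 * t) ^ 2 / t := by positivity
    have h3 : (Y - r1 * t) ^ 2 / t = 1 / t * Y ^ 2 + r1 ^ 2 * t - 2 * (r1 * Y) := by
      field_simp
      ring
    linarith
  have t5 := E2.amgm hμ0 (r1 * √s) σ
  have t6 : (r1 * √s) ^ 2 / μ ≤ r1 ^ 2 * t / μ := by
    rw [mul_pow, Real.sq_sqrt hs]
    gcongr
  have a2 := abs_le.1 (le_refl |D.b z Q z|)
  have a3 := abs_le.1 (le_refl |R z|)
  have hc : 5 * (μ * σ ^ 2) = η * σ ^ 2 := by rw [hμ]; ring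
  have hp : 0 ≤ μ * σ ^ 2 := by positivity
  have hp2 : 0 ≤ 2 * D.CY / μ ^ 3 * Y ^ 2 := by positivity
  have e1 : (2 * D.CY / μ ^ 3 * (CS ^ 4 + 1) + 1 / t) * Y ^ 2 = 2 * D.CY / μ ^ 3 * CS ^ 4 * Y ^ 2
      + 2 * D.CY / μ ^ 3 * Y ^ 2 + 1 / t * Y ^ 2 := by ring
  have e2 : r1 ^ 2 * t * (1 + 1 / μ) = r1 ^ 2 * t + r1 ^ 2 * t / μ := by ring
  rw [hσ2] at h1
  rw [e1, e2]
  linarith [a2.1, a3.1, a3.2]

theorem sq_cancel {a b : ℝ} (hb : 0 ≤ b) (h : a ^ 2 ≤ b ^ 2) : a ≤ b :=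
  (abs_le_of_sq_le_sq' h hb).2

end

end S1X

/-- **S1.** -/
theorem s1_proof (hE : Stmt_EnergyId) (hG : Stmt_GronwallInt) : Stmt_S1 := by
  intro V K _ _ _ _ _ D η T CS hη hT hCS
  obtain ⟨Cb, hCb0, hCb⟩ := E2.b_bound D
  obtain ⟨μ, hμ⟩ : ∃ μ, μ = η / 5 := ⟨_, rfl⟩
  have hμ0 : 0 < μ := by rw [hμ]; positivity
  have hCY := D.CY_nonneg
  have hc0 := D.c₀_pos
  have hsc : 0 < √D.c₀ := Real.sqrt_pos.2 D.c₀_pos
  obtain ⟨L, hL⟩ : ∃ L : ℝ, L = 2 * D.CY / μ ^ 3 * (CS ^ 4 + 1) := ⟨_, rfl⟩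
  have hL0 : 0 ≤ L := by rw [hL]; positivity
  obtain ⟨A, hA⟩ : ∃ A : ℝ, A = (η + 2 * Cb * CS + Cb + 1) ^ 2 / μ * T * Real.exp (L * T) := ⟨_, rfl⟩
  have hA0 : 0 ≤ A := by rw [hA]; positivity
  obtain ⟨B, hB⟩ : ∃ B : ℝ, B = (1 + 1 / μ) * Real.exp (L * T + 1) := ⟨_, rfl⟩
  have hB0 : 0 ≤ B := by rw [hB]; positivity
  refine ⟨1 + A + ‖D.ι‖ / √D.c₀ + 2 * A / η + 2 * T + B, ?_, ?_⟩
  · have : 0 ≤ ‖D.ι‖ / √D.c₀ := by positivity
    have : 0 ≤ 2 * A / η := by positivity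
    linarith
  intro e r1 r n0 τ f Q Q₁ u w R R₁ y y₁ m he0 he1 hr1 hτ0 hτT hA1 hu h0
  have hι0 : 0 ≤ ‖D.ι‖ / √D.c₀ := by positivity
  have hAη : 0 ≤ 2 * A / η := by positivity
  -- the function `z`
  obtain ⟨z, hzdef⟩ : ∃ z : ℝ → V, z = fun s => u s - Q s := ⟨_, rfl⟩
  obtain ⟨z1, hz1def⟩ : ∃ z1 : ℝ → V, z1 = fun s => w s - Q₁ s := ⟨_, rfl⟩
  have hz : IsH1loc z z1 := by
    rw [hzdef, hz1def]
    exact E2.H1.sub hu.h1 hA1.hQ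
  have hzs : ∀ s, u s - Q s = z s := fun s => by rw [hzdef]
  have hz1s : ∀ s, w s - Q₁ s = z1 s := fun s => by rw [hz1def]
  simp only [hzs]
  have hz00 : z 0 = 0 := by rw [← hzs, h0]; abel
  have hzc : ContinuousOn z (Ici 0) := hz.continuousOn
  have hae : ∀ᵐ s, s ∈ Ioc 0 τ → ∀ v, ⟪D.ι (z1 s), D.ι v⟫ + η * D.a (z s) v
      + D.b (z s) (Q s + z s) v + D.b (Q s) (z s) v = - R s v := by
    have h1 := (ae_restrict_iff' measurableSet_Ioc).1 hA1.eq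
    have h2 := (ae_restrict_iff' measurableSet_Ioc).1 hu.eq
    filter_upwards [h1, h2] with s hs1 hs2 hs v
    have h3 := S1X.eqE (hs1 ⟨hs.1, hs.2.trans hτT⟩) (hs2 hs) v
    rw [hzs, hz1s] at h3
    exact h3
  -- the function `x = z + y`
  obtain ⟨x, hxdef⟩ : ∃ x : ℝ → V, x = fun s => z s + y s := ⟨_, rfl⟩
  obtain ⟨x1, hx1def⟩ : ∃ x1 : ℝ → V, x1 = fun s => z1 s + y₁ s := ⟨_, rfl⟩
  have hx : IsH1loc x x1 := by
    have hy := hA1.hy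
    rw [hxdef, hx1def]
    refine ⟨fun T => (hz.memLp T).add (hy.memLp T), fun t ht => ?_⟩
    rw [intervalIntegral.integral_add (hz.intervalIntegrable le_rfl ht) (hy.intervalIntegrable le_rfl ht)]
    rw [hz.eq t ht, hy.eq t ht]
    abel
  have hx00 : x 0 = 0 := by rw [hxdef]; simp only [hz00, hA1.y0, add_zero]
  have hxae : ∀ᵐ s, s ∈ Ioc 0 τ → 2 * ⟪D.ι (x1 s), D.ι (x s)⟫ ≤ L * ‖D.ι (x s)‖ ^ 2
      + (η + 2 * Cb * CS + Cb + 1) ^ 2 / μ * e ^ 2 - η * D.sig (x s) ^ 2 := by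
    have h1 := (ae_restrict_iff' measurableSet_Ioc).1 hA1.E
    filter_upwards [hae, h1] with s hs1 hs2 hs
    have hsT : s ∈ Ioc 0 T := ⟨hs.1, hs.2.trans hτT⟩
    have hsT' : s ∈ Icc 0 T := ⟨hs.1.le, hs.2.trans hτT⟩
    rw [hL]
    exact S1X.pw1 D hη hμ hCb0 hCb hCS he0 he1 (hs1 hs) (by rw [hxdef]) (by rw [hx1def])
      (hA1.sQ s hsT') (hA1.sy s hsT') (hs2 hsT)
  have hK0 : 0 ≤ (η + 2 * Cb * CS + Cb + 1) ^ 2 / μ * e ^ 2 := by positivity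
  have hxg := S1X.energyGronwall hE hG D hx hx00 hL0 hK0 hη.le hxae
  have hxA : ∀ t ∈ Icc 0 τ, ‖D.ι (x t)‖ ^ 2 + ∫ s in (0 : ℝ)..t, η * D.sig (x s) ^ 2 ≤ A * e ^ 2 := by
    intro t ht
    refine (hxg t ht).trans ?_
    have h1 : t ≤ T := ht.2.trans hτT
    have h2 := ht.1
    calc (η + 2 * Cb * CS + Cb + 1) ^ 2 / μ * e ^ 2 * t * Real.exp (L * t) ≤
        (η + 2 * Cb * CS + Cb + 1) ^ 2 / μ * e ^ 2 * T * Real.exp (L * T) := by gcongr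
      _ = _ := by rw [hA]; ring
  have hxsc : ContinuousOn (fun t => D.sig (x t)) (Ici 0) :=
    D.continuous_sig.comp_continuousOn hx.continuousOn
  have hysc : ContinuousOn (fun t => D.sig (y t)) (Ici 0) :=
    D.continuous_sig.comp_continuousOn hA1.hy.continuousOn
  have hzsc : ContinuousOn (fun t => D.sig (z t)) (Ici 0) :=
    D.continuous_sig.comp_continuousOn hzc
  refine ⟨?_, ?_, ?_⟩
  · intro t ht
    have h1 := hxA t ht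
    have h2 : 0 ≤ ∫ s in (0 : ℝ)..t, η * D.sig (x s) ^ 2 :=
      intervalIntegral.integral_nonneg ht.1 fun s _ => by positivity
    have h3 : ‖D.ι (x t)‖ ^ 2 ≤ ((1 + A) * e) ^ 2 := by
      calc ‖D.ι (x t)‖ ^ 2 ≤ A * e ^ 2 := by linarith
        _ ≤ (1 + A) ^ 2 * e ^ 2 := by
          have : A ≤ (1 + A) ^ 2 := by nlinarith
          gcongr
        _ = _ := by ring
    have h4 := S1X.sq_cancel (by positivity) h3
    have h5 : ‖D.ι (y t)‖ ≤ ‖D.ι‖ / √D.c₀ * e := by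
      have h6 := D.norm_le_sig (y t)
      have h7 := hA1.sy t ⟨ht.1, ht.2.trans hτT⟩
      have h8 : ‖y t‖ ≤ e / √D.c₀ := by
        rw [le_div_iff₀ hsc]; linarith
      calc ‖D.ι (y t)‖ ≤ ‖D.ι‖ * ‖y t‖ := D.ι.le_opNorm _
        _ ≤ ‖D.ι‖ * (e / √D.c₀) := by gcongr
        _ = _ := by ring
    have h6 : z t = x t - y t := by rw [hxdef]; simp only; abel
    have h7 : ‖D.ι (z t)‖ ≤ ‖D.ι (x t)‖ + ‖D.ι (y t)‖ := by
      rw [h6, map_sub]; exact norm_sub_le _ _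
    have h8 : 0 ≤ (2 * A / η + 2 * T + B) * e := by positivity
    calc ‖D.ι (z t)‖ ≤ (1 + A) * e + ‖D.ι‖ / √D.c₀ * e := by linarith
      _ ≤ _ := by linarith
  · have h1 := hxA τ ⟨hτ0, le_rfl⟩
    rw [intervalIntegral.integral_const_mul] at h1
    have h2 : ∫ s in (0 : ℝ)..τ, D.sig (x s) ^ 2 ≤ A / η * e ^ 2 := by
      have h3 : η * ∫ s in (0 : ℝ)..τ, D.sig (x s) ^ 2 ≤ A * e ^ 2 := by
        have := sq_nonneg ‖D.ι (x τ)‖
        linarith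
      rw [div_mul_eq_mul_div, le_div_iff₀ hη]
      linarith
    have h3 : ∫ s in (0 : ℝ)..τ, D.sig (z s) ^ 2 ≤
        ∫ s in (0 : ℝ)..τ, (2 * D.sig (x s) ^ 2 + 2 * e ^ 2) := by
      refine intervalIntegral.integral_mono_on hτ0 ?_ ?_ fun s hs => ?_
      · exact ((hzsc.mono Icc_subset_Ici_self).pow 2).intervalIntegrable_of_Icc hτ0
      · exact ((continuousOn_const.mul ((hxsc.mono Icc_subset_Ici_self).pow 2)).add
          continuousOn_const).intervalIntegrable_of_Icc hτ0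
      · have h6 : z s = x s + -(y s) := by rw [hxdef]; simp only; abel
        have h7 := D.sig_add_le (x s) (-(y s))
        rw [← h6, D.sig_neg] at h7
        have h8 := hA1.sy s ⟨hs.1, hs.2.trans hτT⟩
        have h9 := D.sig_nonneg (z s)
        have h10 := D.sig_nonneg (x s)
        have h11 := D.sig_nonneg (y s)
        nlinarith [sq_nonneg (D.sig (x s) - e)]
    have h4 : ∫ s in (0 : ℝ)..τ, (2 * D.sig (x s) ^ 2 + 2 * e ^ 2) =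
        2 * (∫ s in (0 : ℝ)..τ, D.sig (x s) ^ 2) + τ * (2 * e ^ 2) := by
      rw [intervalIntegral.integral_add, intervalIntegral.integral_const_mul,
        intervalIntegral.integral_const, smul_eq_mul, sub_zero]
      · exact (continuousOn_const.mul ((hxsc.mono Icc_subset_Ici_self).pow 2)).intervalIntegrable_of_Icc hτ0
      · exact intervalIntegrable_const
    rw [h4] at h3
    have h5 : τ * (2 * e ^ 2) ≤ 2 * T * e ^ 2 := by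
      have : τ * (2 * e ^ 2) ≤ T * (2 * e ^ 2) := by gcongr
      linarith
    have h6 : 0 ≤ (1 + A + ‖D.ι‖ / √D.c₀ + B) * e ^ 2 := by positivity
    calc ∫ s in (0 : ℝ)..τ, D.sig (z s) ^ 2 ≤ 2 * (A / η * e ^ 2) + 2 * T * e ^ 2 := by linarith
      _ = (2 * A / η + 2 * T) * e ^ 2 := by ring
      _ ≤ _ := by linarith
  · intro t ht
    rcases eq_or_lt_of_le ht.1 with h00 | h00
    · rw [← h00, hz00]; simp
    have htT : t ≤ T := ht.2.trans hτT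
    have hzae : ∀ᵐ s, s ∈ Ioc 0 t → 2 * ⟪D.ι (z1 s), D.ι (z s)⟫ ≤
        (L + 1 / t) * ‖D.ι (z s)‖ ^ 2 + r1 ^ 2 * t * (1 + 1 / μ) - 0 * D.sig (z s) ^ 2 := by
      filter_upwards [hae] with s hs1 hs
      have hsT' : s ∈ Icc 0 T := ⟨hs.1.le, hs.2.trans htT⟩
      rw [hL]
      exact S1X.pw2 D hη hμ hCS hr1 hs.1.le h00 hs.2 (hs1 ⟨hs.1, hs.2.trans ht.2⟩)
        (hA1.sQ s hsT') (hA1.Rb s hsT')
    have h1 := S1X.energyGronwall hE hG D hz hz00 (by positivity) (by positivity) le_rfl hzae t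
      ⟨h00.le, le_rfl⟩
    simp only [zero_mul, intervalIntegral.integral_zero, add_zero] at h1
    have h2 : (L + 1 / t) * t = L * t + 1 := by field_simp
    rw [h2] at h1
    have h3 : ‖D.ι (z t)‖ ^ 2 ≤ ((1 + B) * r1 * t) ^ 2 := by
      calc ‖D.ι (z t)‖ ^ 2 ≤ r1 ^ 2 * t * (1 + 1 / μ) * t * Real.exp (L * t + 1) := h1
        _ ≤ r1 ^ 2 * t * (1 + 1 / μ) * t * Real.exp (L * T + 1) := by gcongr
        _ = B * (r1 ^ 2 * t ^ 2) := by rw [hB]; ring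
        _ ≤ (1 + B) ^ 2 * (r1 ^ 2 * t ^ 2) := by
          have : B ≤ (1 + B) ^ 2 := by nlinarith
          gcongr
        _ = _ := by ring
    have h4 := S1X.sq_cancel (by positivity) h3
    have h5 : 0 ≤ (A + ‖D.ι‖ / √D.c₀ + 2 * A / η + 2 * T) * r1 * t := by positivity
    linarith

end Pool.Agent.NSV
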