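import Pool.Agent.NSV.Stmts
import Pool.Agent.NSK.E2

/-!
# MP_fd8964_an, Theorem V: module S2 (time differences of `z = u - Q`)
-/

open MeasureTheory Set Filter Topology
open scoped RealInnerProductSpace ContDiff ENNReal

noncomputable section

namespace Pool.Agent.NSV

open Pool.Agent.NSD Pool.Agent.NSK

namespace S2X

section
variable {V K : Type} [NormedAddCommGroup V] [InnerProductSpace ℝ V]
    [NormedAddCommGroup K] [InnerProductSpace ℝ K]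

/-- Equation (E) for `z = u - Q` at one time. -/
theorem eqE {D : Data V K} {η : ℝ} {Q Q₁ u w : V} {f R : V →L[ℝ] ℝ}
    (hQ : ∀ v, ⟪D.ι Q₁, D.ι v⟫ + η * D.a Q v + D.b Q Q v = f v + R v)
    (hu : ∀ v, ⟪D.ι w, D.ι v⟫ + η * D.a u v + D.b u u v = f v) :
    ∀ v, ⟪D.ι (w - Q₁), D.ι v⟫ + η * D.a (u - Q) v + D.b (u - Q) (Q + (u - Q)) v
      + D.b Q (u - Q) v = - R v := by
  intro v
  have h1 := hQ v
  have h2 := hu v
  simp only [map_add, map_sub, add_apply, sub_apply, inner_sub_left] at h1 h2 ⊢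
  linarith

/-- The difference identity. -/
theorem ident (D : Data V K) {η : ℝ} {Qa Qb za zb ζa ζb : V} {Ra Rb : V →L[ℝ] ℝ}
    (ea : ∀ v, ⟪D.ι ζa, D.ι v⟫ + η * D.a za v + D.b za (Qa + za) v + D.b Qa za v = - Ra v)
    (eb : ∀ v, ⟪D.ι ζb, D.ι v⟫ + η * D.a zb v + D.b zb (Qb + zb) v + D.b Qb zb v = - Rb v)
    {Z : V} (hZ : Z = zb - za) :
    ⟪D.ι (ζb - ζa), D.ι Z⟫ + η * D.a Z Z + (D.b Z Qb Z + D.b Z zb Z + D.b za (Qb - Qa) Z
      + D.b (Qb - Qa) za Z) = - (Rb - Ra) Z := by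
  have h1 := ea Z
  have h2 := eb Z
  have k1 : D.b za Z Z = 0 := D.b_skew za Z
  have k2 : D.b Qb Z Z = 0 := D.b_skew Qb Z
  have e1 : D.b Z = D.b zb - D.b za := by rw [hZ, map_sub]
  have e2 : ∀ x : V, D.b x Z Z = D.b x zb Z - D.b x za Z := fun x => by
    conv_lhs => rw [show (D.b x Z) = D.b x zb - D.b x za by rw [hZ, map_sub]]
    rfl
  have e3 : D.a Z Z = D.a zb Z - D.a za Z := by
    conv_lhs => rw [show (D.a Z) = D.a zb - D.a za by rw [hZ, map_sub]]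
    rfl
  rw [e2] at k1 k2
  rw [e3, e1, map_sub, inner_sub_left]
  simp only [map_add, map_sub, add_apply, sub_apply] at h1 h2 k1 k2 ⊢
  linarith

/-- Pointwise differential inequality. -/
theorem pointwise (D : Data V K) {η μ Cb CS : ℝ} (hη : 0 < η) (hμ : μ = η / 5)
    (hCb : ∀ x y z, |D.b x y z| ≤ Cb * D.sig x * D.sig y * D.sig z)
    {Qa Qb za zb ζa ζb : V} {Ra Rb : V →L[ℝ] ℝ}
    (ea : ∀ v, ⟪D.ι ζa, D.ι v⟫ + η * D.a za v + D.b za (Qa + za) v + D.b Qa za v = - Ra v)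
    (eb : ∀ v, ⟪D.ι ζb, D.ι v⟫ + η * D.a zb v + D.b zb (Qb + zb) v + D.b Qb zb v = - Rb v)
    (hsQ : D.sig Qb ≤ CS) :
    2 * ⟪D.ι (ζb - ζa), D.ι (zb - za)⟫ ≤
      2 * D.CY / μ ^ 3 * (CS ^ 4 + D.sig zb ^ 4) * ‖D.ι (zb - za)‖ ^ 2
      + (4 * Cb ^ 2 / μ * (D.sig za ^ 2 * D.sig (Qb - Qa) ^ 2) + 1 / (D.c₀ * μ) * ‖Rb - Ra‖ ^ 2) := by
  obtain ⟨Z, hZ⟩ : ∃ Z, Z = zb - za := ⟨_, rfl⟩
  have id := ident D ea eb hZ
  rw [← hZ]
  have hμ0 : 0 < μ := by rw [hμ]; positivity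
  have hCY := D.CY_nonneg
  have hc0 := D.c₀_pos
  have hsc : 0 < √D.c₀ := Real.sqrt_pos.2 D.c₀_pos
  set σ := D.sig Z with hσ
  have hσ0 : 0 ≤ σ := D.sig_nonneg Z
  have hσ2 : D.a Z Z = σ ^ 2 := (D.sig_sq Z).symm
  set Y := ‖D.ι Z‖ with hY
  have hY0 : 0 ≤ Y := norm_nonneg _
  have hsQ0 := D.sig_nonneg Qb
  have t1 : 2 * |D.b Z Qb Z| ≤ 2 * (μ * σ ^ 2) + 2 * D.CY / μ ^ 3 * CS ^ 4 * Y ^ 2 := by
    have h := D.b_young μ hμ0 Qb Z
    rw [hσ2, ← D.sig_sq Qb] at h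
    have h4 : D.CY / μ ^ 3 * (D.sig Qb ^ 2) ^ 2 * Y ^ 2 ≤ D.CY / μ ^ 3 * (CS ^ 2) ^ 2 * Y ^ 2 := by gcongr
    calc 2 * |D.b Z Qb Z| ≤ 2 * (μ * σ ^ 2 + D.CY / μ ^ 3 * (CS ^ 2) ^ 2 * Y ^ 2) := by linarith
      _ = _ := by ring
  have t2 : 2 * |D.b Z zb Z| ≤ 2 * (μ * σ ^ 2) + 2 * D.CY / μ ^ 3 * D.sig zb ^ 4 * Y ^ 2 := by
    have h := D.b_young μ hμ0 zb Z
    rw [hσ2, ← D.sig_sq zb] at h
    calc 2 * |D.b Z zb Z| ≤ 2 * (μ * σ ^ 2 + D.CY / μ ^ 3 * (D.sig zb ^ 2) ^ 2 * ‖D.ι Z‖ ^ 2) := by linarith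
      _ = _ := by ring
  have t3 : |D.b za (Qb - Qa) Z| ≤ Cb * D.sig za * D.sig (Qb - Qa) * σ := hCb _ _ _
  have t4 : |D.b (Qb - Qa) za Z| ≤ Cb * D.sig za * D.sig (Qb - Qa) * σ := by
    calc _ ≤ Cb * D.sig (Qb - Qa) * D.sig za * σ := hCb _ _ _
      _ = _ := by ring
  have t5 := E2.amgm hμ0 (2 * Cb * D.sig za * D.sig (Qb - Qa)) σ
  have t6 : |(Rb - Ra) Z| ≤ ‖Rb - Ra‖ / √D.c₀ * σ := by
    have h1 : |(Rb - Ra) Z| ≤ ‖Rb - Ra‖ * ‖Z‖ := (Rb - Ra).le_opNorm Z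
    have h2 : ‖Z‖ ≤ σ / √D.c₀ := by
      rw [le_div_iff₀ hsc]; linarith [D.norm_le_sig Z]
    calc |(Rb - Ra) Z| ≤ ‖Rb - Ra‖ * ‖Z‖ := h1
      _ ≤ ‖Rb - Ra‖ * (σ / √D.c₀) := by gcongr
      _ = _ := by ring
  have t7 := E2.amgm hμ0 (‖Rb - Ra‖ / √D.c₀) σ
  have e5 : (2 * Cb * D.sig za * D.sig (Qb - Qa)) ^ 2 / μ =
      4 * Cb ^ 2 / μ * (D.sig za ^ 2 * D.sig (Qb - Qa) ^ 2) := by ring
  have e7 : (‖Rb - Ra‖ / √D.c₀) ^ 2 / μ = 1 / (D.c₀ * μ) * ‖Rb - Ra‖ ^ 2 := by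
    rw [div_pow, Real.sq_sqrt hc0.le]
    field_simp
  rw [e5] at t5
  rw [e7] at t7
  have a1 := abs_le.1 (le_refl |D.b Z Qb Z|)
  have a2 := abs_le.1 (le_refl |D.b Z zb Z|)
  have a3 := abs_le.1 (le_refl |D.b za (Qb - Qa) Z|)
  have a4 := abs_le.1 (le_refl |D.b (Qb - Qa) za Z|)
  have a6 := abs_le.1 (le_refl |(Rb - Ra) Z|)
  rw [hσ2] at id
  have hc : 5 * (μ * σ ^ 2) = η * σ ^ 2 := by rw [hμ]; ring
  have hp : 0 ≤ μ * σ ^ 2 := by positivity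
  have e1 : 2 * D.CY / μ ^ 3 * (CS ^ 4 + D.sig zb ^ 4) * Y ^ 2 = 2 * D.CY / μ ^ 3 * CS ^ 4 * Y ^ 2
      + 2 * D.CY / μ ^ 3 * D.sig zb ^ 4 * Y ^ 2 := by ring
  have e8 : 2 * (2 * Cb * D.sig za * D.sig (Qb - Qa) * σ) = 4 * (Cb * D.sig za * D.sig (Qb - Qa) * σ) := by
    ring
  rw [e8] at t5
  rw [e1]
  linarith [a1.1, a2.1, a3.1, a4.1, a6.1, a6.2]

theorem sq_cancel {a b : ℝ} (hb : 0 ≤ b) (h : a ^ 2 ≤ b ^ 2) : a ≤ b :=
  (abs_le_of_sq_le_sq' h hb).2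

/-- `s ↦ ∫ₛ^{s+h} g` is continuous on `[0,T]`. -/
theorem cont_incr {g : ℝ → ℝ} {T h : ℝ} (hT : 0 ≤ T) (hh : 0 ≤ h)
    (hg : IntervalIntegrable g volume 0 (T + h)) :
    ContinuousOn (fun t => ∫ r in t..(t + h), g r) (Icc 0 T) := by
  have hTh : 0 ≤ T + h := by linarith
  have hprim : ContinuousOn (fun t => ∫ r in (0 : ℝ)..t, g r) (Icc 0 (T + h)) := by
    have := intervalIntegral.continuousOn_primitive_interval' (a := (0 : ℝ)) (b₁ := 0)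
      (b₂ := T + h) hg (by simp)
    rwa [uIcc_of_le hTh] at this
  have h2 : ContinuousOn (fun t => (∫ r in (0 : ℝ)..(t + h), g r) - ∫ r in (0 : ℝ)..t, g r) (Icc 0 T) := by
    refine ContinuousOn.sub ?_ (hprim.mono (Icc_subset_Icc_right (by linarith)))
    refine hprim.comp (f := fun t : ℝ => t + h) (by fun_prop) (fun t ht => ?_)
    exact ⟨by linarith [ht.1], by linarith [ht.2]⟩
  refine h2.congr (fun t ht => ?_)
  have hI : ∀ b, 0 ≤ b → b ≤ T + h → IntervalIntegrable g volume 0 b := by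
    intro b hb hb'
    refine hg.mono_set ?_
    rw [uIcc_of_le hTh, uIcc_of_le hb]
    exact Icc_subset_Icc_right hb'
  exact (intervalIntegral.integral_interval_sub_left
    (hI (t + h) (by linarith [ht.1]) (by linarith [ht.2]))
    (hI t ht.1 (by linarith [ht.2]))).symm

end

end S2X

set_option maxHeartbeats 4000000 in
/-- **S2.** -/
theorem s2_proof (hE : Stmt_EnergyId) (hG : Stmt_GronwallInt) (hS1 : Stmt_S1) : Stmt_S2 := by
  intro V K _ _ _ _ _ D η T₀ CS hη hT₀ hCS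
  obtain ⟨Cb, hCb0, hCb⟩ := E2.b_bound D
  obtain ⟨C₁, hC₁1, hC₁⟩ := hS1 V K D η T₀ CS hη hT₀ hCS
  have hC₁0 : 0 ≤ C₁ := by linarith
  obtain ⟨μ, hμ⟩ : ∃ μ, μ = η / 5 := ⟨_, rfl⟩
  have hμ0 : 0 < μ := by rw [hμ]; positivity
  have hCY := D.CY_nonneg
  have hc0 := D.c₀_pos
  obtain ⟨LL, hLL⟩ : ∃ LL : ℝ, LL = 2 * D.CY / μ ^ 3 * (CS ^ 4 * T₀ + C₁) := ⟨_, rfl⟩
  obtain ⟨KK, hKK⟩ : ∃ KK : ℝ, KK = C₁ ^ 2 + 8 * Cb ^ 2 / μ * CS + 8 * Cb ^ 2 / μ * C₁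
      + 1 / (D.c₀ * μ) := ⟨_, rfl⟩
  have hKK0 : 0 ≤ KK := by rw [hKK]; positivity
  obtain ⟨C, hC⟩ : ∃ C : ℝ, C = 1 + KK * Real.exp LL := ⟨_, rfl⟩
  have hexp0 : 0 ≤ KK * Real.exp LL := by positivity
  refine ⟨C, by rw [hC]; linarith, ?_⟩
  intro e r1 r n0 X τ f Q Q₁ u w R R₁ y y₁ m he0 he1 hr1 hr0 hn0 hX0 hXe hτ0 hτT hA hu h0 hXs t h ht hh0 hthτ
  have hC0 : 0 ≤ C := by rw [hC]; linarith
  rcases hh0.eq_or_lt with hh | hh
  · rw [← hh]; simp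
  -- the function `z`
  obtain ⟨z, hzdef⟩ : ∃ z : ℝ → V, z = fun s => u s - Q s := ⟨_, rfl⟩
  obtain ⟨z1, hz1def⟩ : ∃ z1 : ℝ → V, z1 = fun s => w s - Q₁ s := ⟨_, rfl⟩
  have hz : IsH1loc z z1 := by
    rw [hzdef, hz1def]
    exact E2.H1.sub hu.h1 hA.hQ
  have hzs : ∀ s, u s - Q s = z s := fun s => by rw [hzdef]
  have hz1s : ∀ s, w s - Q₁ s = z1 s := fun s => by rw [hz1def]
  obtain ⟨hzb, hzi, hzt⟩ := hC₁ e r1 r n0 τ f Q Q₁ u w R R₁ y y₁ m he0 he1 hr1 hτ0 hτT hA hu h0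
  simp only [hzs] at hzb hzi hzt hXs ⊢
  obtain ⟨Z, hZdef⟩ : ∃ Z : ℝ → V, Z = fun s => z (s + h) - z s := ⟨_, rfl⟩
  obtain ⟨Z1, hZ1def⟩ : ∃ Z1 : ℝ → V, Z1 = fun s => z1 (s + h) - z1 s := ⟨_, rfl⟩
  have hZ : IsH1loc Z Z1 := by
    rw [hZdef, hZ1def]
    exact E2.H1.sub (E2.H1.shift hz hh.le) hz
  have hT0 : 0 ≤ τ - h := by linarith
  obtain ⟨T, hT⟩ : ∃ T, T = τ - h := ⟨_, rfl⟩
  rw [← hT] at hT0
  have htT : t ≤ T := by linarith
  have hzc : ContinuousOn z (Ici 0) := hz.continuousOn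
  have hQc : ContinuousOn Q (Ici 0) := hA.hQ.continuousOn
  have hRc : ContinuousOn R (Ici 0) := hA.hR.continuousOn
  have hZc : ContinuousOn Z (Ici 0) := hZ.continuousOn
  have hshift : ∀ g : ℝ → V, ContinuousOn g (Ici 0) → ContinuousOn (fun s => g (s + h)) (Icc 0 T) := by
    intro g hg
    refine hg.comp (by fun_prop) ?_
    intro s hs
    have := hs.1
    show (0 : ℝ) ≤ s + h
    linarith
  have hshiftR : ContinuousOn (fun s => R (s + h)) (Icc 0 T) := by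
    refine hRc.comp (by fun_prop) ?_
    intro s hs
    have := hs.1
    show (0 : ℝ) ≤ s + h
    linarith
  -- the equation
  have hae : ∀ᵐ s, s ∈ Ioc 0 τ → ∀ v, ⟪D.ι (z1 s), D.ι v⟫ + η * D.a (z s) v
      + D.b (z s) (Q s + z s) v + D.b (Q s) (z s) v = - R s v := by
    have h1 := (ae_restrict_iff' measurableSet_Ioc).1 hA.eq
    have h2 := (ae_restrict_iff' measurableSet_Ioc).1 hu.eq
    filter_upwards [h1, h2] with s hs1 hs2 hs v
    have h3 := S2X.eqE (hs1 ⟨hs.1, hs.2.trans hτT⟩) (hs2 hs) v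
    rw [hzs, hz1s] at h3
    exact h3
  have haeh : ∀ᵐ s, s + h ∈ Ioc 0 τ → ∀ v, ⟪D.ι (z1 (s + h)), D.ι v⟫ + η * D.a (z (s + h)) v
      + D.b (z (s + h)) (Q (s + h) + z (s + h)) v + D.b (Q (s + h)) (z (s + h)) v = - R (s + h) v :=
    (measurePreserving_add_right (volume : Measure ℝ) h).quasiMeasurePreserving.ae hae
  -- Gronwall data
  obtain ⟨yy, hyy⟩ : ∃ yy : ℝ → ℝ, yy = fun s => ‖D.ι (Z s)‖ ^ 2 := ⟨_, rfl⟩
  obtain ⟨L, hLdef⟩ : ∃ L : ℝ → ℝ, L = fun s => 2 * D.CY / μ ^ 3 * (CS ^ 4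
      + D.sig (z (s + h)) ^ 4) := ⟨_, rfl⟩
  obtain ⟨rr, hrr⟩ : ∃ rr : ℝ → ℝ, rr = fun s => 4 * Cb ^ 2 / μ * (D.sig (z s) ^ 2 *
      D.sig (Q (s + h) - Q s) ^ 2) + 1 / (D.c₀ * μ) * ‖R (s + h) - R s‖ ^ 2 := ⟨_, rfl⟩
  have hyc : ContinuousOn yy (Icc 0 T) := by
    rw [hyy]
    exact ((D.ι.continuous.comp_continuousOn (hZc.mono Icc_subset_Ici_self)).norm).pow 2
  have hsz : ContinuousOn (fun s => D.sig (z (s + h)) ^ 4) (Icc 0 T) :=
    (D.continuous_sig.comp_continuousOn (hshift z hzc)).pow 4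
  have hsz2 : ContinuousOn (fun s => D.sig (z (s + h)) ^ 2) (Icc 0 T) :=
    (D.continuous_sig.comp_continuousOn (hshift z hzc)).pow 2
  have hsz0 : ContinuousOn (fun s => D.sig (z s) ^ 2) (Icc 0 T) :=
    (D.continuous_sig.comp_continuousOn (hzc.mono Icc_subset_Ici_self)).pow 2
  have hLc : ContinuousOn L (Icc 0 T) := by
    rw [hLdef]
    exact continuousOn_const.mul (continuousOn_const.add hsz)
  have hQd : ContinuousOn (fun s => D.sig (Q (s + h) - Q s) ^ 2) (Icc 0 T) :=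
    (D.continuous_sig.comp_continuousOn ((hshift Q hQc).sub (hQc.mono Icc_subset_Ici_self))).pow 2
  have hRd : ContinuousOn (fun s => ‖R (s + h) - R s‖ ^ 2) (Icc 0 T) :=
    ((hshiftR.sub (hRc.mono Icc_subset_Ici_self)).norm).pow 2
  have hzQ : ContinuousOn (fun s => D.sig (z s) ^ 2 * D.sig (Q (s + h) - Q s) ^ 2) (Icc 0 T) :=
    hsz0.mul hQd
  have hrc : ContinuousOn rr (Icc 0 T) := by
    rw [hrr]
    exact (continuousOn_const.mul hzQ).add (continuousOn_const.mul hRd)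
  have hL0 : ∀ s ∈ Icc 0 T, 0 ≤ L s := fun s _ => by
    have := D.sig_nonneg (z (s + h))
    rw [hLdef]
    positivity
  have hr00 : ∀ s ∈ Icc 0 T, 0 ≤ rr s := fun s _ => by
    rw [hrr]
    positivity
  -- the pointwise inequality
  have hpt : ∀ᵐ s, s ∈ Ioc 0 T → 2 * ⟪D.ι (Z1 s), D.ι (Z s)⟫ ≤ L s * yy s + rr s := by
    filter_upwards [hae, haeh] with s hs1 hs2 hs
    have hs0 : 0 < s := hs.1
    have hsT : s ≤ T := hs.2
    have hsτ : s ≤ τ := by linarith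
    have hshτ : s + h ≤ τ := by linarith
    have e1 := hs1 ⟨hs0, hsτ⟩
    have e2 := hs2 ⟨by linarith, hshτ⟩
    have key := S2X.pointwise D (CS := CS) hη hμ hCb e1 e2
      (hA.sQ (s + h) ⟨by linarith, hshτ.trans hτT⟩)
    have hZs : Z s = z (s + h) - z s := by rw [hZdef]
    have hZ1s : Z1 s = z1 (s + h) - z1 s := by rw [hZ1def]
    rw [hZs, hZ1s]
    refine key.trans ?_
    have hys : yy s = ‖D.ι (z (s + h) - z s)‖ ^ 2 := by rw [hyy]; simp only [hZs]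
    rw [hys, hLdef, hrr]
  have hineq : ∀ s ∈ Icc 0 T, yy s ≤ yy 0 + ∫ a in (0 : ℝ)..s, (L a * yy a + rr a - 0) := by
    intro s hs
    obtain ⟨hI, hid⟩ := hE V K D.ι _ _ hZ 0 s le_rfl hs.1
    have e1 : yy s = yy 0 + 2 * ∫ a in (0 : ℝ)..s, ⟪D.ι (Z1 a), D.ι (Z a)⟫ := by
      rw [hyy]; exact hid
    rw [e1]
    refine add_le_add le_rfl ?_
    rw [← intervalIntegral.integral_const_mul]
    refine intervalIntegral.integral_mono_ae_restrict hs.1 (hI.const_mul 2) ?_ ?_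
    · refine ContinuousOn.intervalIntegrable_of_Icc hs.1 ?_
      refine ContinuousOn.mono ?_ (Icc_subset_Icc_right hs.2)
      exact ((hLc.mul hyc).add hrc).sub continuousOn_const
    · have h1 : ∀ᵐ a ∂(volume.restrict (Icc 0 s)), a ∈ Ioc 0 T →
          2 * ⟪D.ι (Z1 a), D.ι (Z a)⟫ ≤ L a * yy a + rr a := ae_restrict_of_ae hpt
      have h3 : ∀ᵐ a ∂(volume.restrict (Icc 0 s)), a ≠ 0 :=
        ae_restrict_of_ae (Measure.ae_ne volume 0)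
      filter_upwards [h1, h3, ae_restrict_mem measurableSet_Icc] with a ha ha0 ham
      have hspos : 0 < a := lt_of_le_of_ne ham.1 (Ne.symm ha0)
      rw [sub_zero]
      exact ha ⟨hspos, ham.2.trans hs.2⟩
  have hyy00 : 0 ≤ yy 0 := by rw [hyy]; positivity
  have fin := hG T yy L rr (fun _ => 0) hyc hLc hrc continuousOn_const hL0 hr00 (fun _ _ => le_rfl) hyy00
    hineq t ⟨ht, htT⟩
  simp only [intervalIntegral.integral_zero, add_zero] at fin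
  -- bounds
  have hy0 : yy 0 ≤ C₁ ^ 2 * r1 ^ 2 * h ^ 2 := by
    have hz00 : z 0 = 0 := by
      rw [← hzs, h0]; abel
    have e1 : yy 0 = ‖D.ι (z h)‖ ^ 2 := by
      rw [hyy, hZdef]
      simp only [zero_add, hz00, sub_zero]
    rw [e1]
    have := hzt h ⟨hh.le, by linarith⟩
    calc ‖D.ι (z h)‖ ^ 2 ≤ (C₁ * r1 * h) ^ 2 := by gcongr
      _ = _ := by ring
  have hsubt : Icc 0 t ⊆ Icc 0 T := Icc_subset_Icc_right htT
  have ii : ∀ g : ℝ → ℝ, ContinuousOn g (Icc 0 T) → IntervalIntegrable g volume 0 t := fun g hg =>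
    ContinuousOn.intervalIntegrable_of_Icc ht (hg.mono hsubt)
  have hIL : ∫ s in (0 : ℝ)..t, L s ≤ LL := by
    have hz4 : ∫ s in (0 : ℝ)..t, D.sig (z (s + h)) ^ 4 ≤ C₁ := by
      have h1 : ∫ s in (0 : ℝ)..t, D.sig (z (s + h)) ^ 4 ≤ ∫ s in (0 : ℝ)..t, X * D.sig (z (s + h)) ^ 2 := by
        refine intervalIntegral.integral_mono_on ht (ii _ hsz) ((ii _ hsz2).const_mul X) fun s hs => ?_
        have := hXs (s + h) ⟨by linarith [hs.1], by linarith [hs.2]⟩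
        calc D.sig (z (s + h)) ^ 4 = D.sig (z (s + h)) ^ 2 * D.sig (z (s + h)) ^ 2 := by ring
          _ ≤ X * D.sig (z (s + h)) ^ 2 := by gcongr
      rw [intervalIntegral.integral_const_mul] at h1
      have h2 : ∫ s in (0 : ℝ)..t, D.sig (z (s + h)) ^ 2 ≤ ∫ s in (0 : ℝ)..τ, D.sig (z s) ^ 2 := by
        refine E2.int_shift_le (g := fun s => D.sig (z s) ^ 2) ?_ (fun s => by positivity) ht hh.le hthτ
        exact ((D.continuous_sig.comp_continuousOn (hzc.mono Icc_subset_Ici_self)).pow 2)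
      calc _ ≤ X * ∫ s in (0 : ℝ)..t, D.sig (z (s + h)) ^ 2 := h1
        _ ≤ X * (C₁ * e ^ 2) := by gcongr; exact h2.trans hzi
        _ = C₁ * (X * e ^ 2) := by ring
        _ ≤ C₁ * 1 := by gcongr
        _ = C₁ := by ring
    have hsum : ∫ s in (0 : ℝ)..t, L s = 2 * D.CY / μ ^ 3 * (t * CS ^ 4
        + ∫ s in (0 : ℝ)..t, D.sig (z (s + h)) ^ 4) := by
      rw [hLdef]
      rw [intervalIntegral.integral_const_mul,
        intervalIntegral.integral_add intervalIntegrable_const (ii _ hsz),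
        intervalIntegral.integral_const, smul_eq_mul, sub_zero]
    rw [hsum, hLL]
    have h5 : t * CS ^ 4 ≤ CS ^ 4 * T₀ := by
      have : t ≤ T₀ := by linarith
      rw [mul_comm]
      gcongr
    gcongr
  have hIr : ∫ s in (0 : ℝ)..t, rr s ≤ 4 * Cb ^ 2 / μ * (2 * h ^ 2 * X * CS
      + 2 * h ^ 2 * n0 ^ 2 * (C₁ * e ^ 2)) + 1 / (D.c₀ * μ) * (h ^ 2 * r ^ 2) := by
    have hsum : ∫ s in (0 : ℝ)..t, rr s = 4 * Cb ^ 2 / μ * (∫ s in (0 : ℝ)..t, D.sig (z s) ^ 2 *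
        D.sig (Q (s + h) - Q s) ^ 2) + 1 / (D.c₀ * μ) * ∫ s in (0 : ℝ)..t, ‖R (s + h) - R s‖ ^ 2 := by
      rw [hrr]
      rw [intervalIntegral.integral_add ((ii _ hzQ).const_mul _) ((ii _ hRd).const_mul _),
        intervalIntegral.integral_const_mul, intervalIntegral.integral_const_mul]
    have hR2 : ∫ s in (0 : ℝ)..t, ‖R (s + h) - R s‖ ^ 2 ≤ h ^ 2 * r ^ 2 := by
      refine (E2.incr_le hA.hR ht hh).trans ?_
      have i1 : IntegrableOn (fun s => ‖R₁ s‖ ^ 2) (Ioc 0 T₀) := (hA.hR.memLp T₀).norm.integrable_sq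
      have i3 : ∫ s in (0 : ℝ)..(t + h), ‖R₁ s‖ ^ 2 ≤ ∫ s in (0 : ℝ)..T₀, ‖R₁ s‖ ^ 2 := by
        refine intervalIntegral.integral_mono_interval le_rfl (by linarith) (hthτ.trans hτT)
          (Eventually.of_forall fun s => by positivity) ?_
        rw [intervalIntegrable_iff_integrableOn_Ioc_of_le hT₀.le]
        exact i1
      have := hA.RI
      gcongr
      linarith
    -- the increments of `Q`
    have hmi : IntegrableOn (fun s => m s ^ 2) (Ioc 0 T₀) := hA.mL.integrable_sq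
    have hmI : ∀ b, 0 ≤ b → b ≤ T₀ → IntervalIntegrable (fun s => m s ^ 2) volume 0 b := by
      intro b hb hb'
      rw [intervalIntegrable_iff_integrableOn_Ioc_of_le hb]
      exact hmi.mono_set (Ioc_subset_Ioc_right hb')
    have hthT : t + h ≤ T₀ := hthτ.trans hτT
    have hinc : ∀ s ∈ Icc 0 t, D.sig (Q (s + h) - Q s) ^ 2 ≤
        2 * h * (∫ a in s..(s + h), m a ^ 2) + 2 * h ^ 2 * n0 ^ 2 := by
      intro s hs
      have hsh : s ≤ s + h := by linarith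
      have h1 := sig_incr_sq_le D hA.hQ hs.1 hsh
      rw [add_sub_cancel_left] at h1
      have hmS : IntervalIntegrable (fun s => m s ^ 2) volume s (s + h) := by
        refine (hmI (s + h) (by linarith [hs.1]) (by linarith [hs.2])).mono_set ?_
        rw [uIcc_of_le hsh, uIcc_of_le (by linarith [hs.1] : (0 : ℝ) ≤ s + h)]
        exact Icc_subset_Icc_left hs.1
      have h2 : ∫ a in s..(s + h), D.sig (Q₁ a) ^ 2 ≤ ∫ a in s..(s + h), (2 * m a ^ 2 + 2 * n0 ^ 2) := by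
        refine intervalIntegral.integral_mono_ae_restrict hsh
          (intervalIntegrable_sig_sq hA.hQ D hs.1 hsh)
          ((hmS.const_mul 2).add intervalIntegrable_const) ?_
        have h3 := (ae_restrict_iff' measurableSet_Ioc).1 hA.sQ₁
        have h4 : ∀ᵐ a ∂(volume.restrict (Icc s (s + h))), a ∈ Ioc 0 T₀ → D.sig (Q₁ a) ≤ m a + n0 :=
          ae_restrict_of_ae h3
        have h5 : ∀ᵐ a ∂(volume.restrict (Icc s (s + h))), a ≠ 0 :=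
          ae_restrict_of_ae (Measure.ae_ne volume 0)
        filter_upwards [h4, h5, ae_restrict_mem measurableSet_Icc] with a ha ha0 ham
        have hapos : 0 < a := lt_of_le_of_ne (hs.1.trans ham.1) (Ne.symm ha0)
        have h6 := ha ⟨hapos, ham.2.trans (by linarith [hs.2])⟩
        have h7 := D.sig_nonneg (Q₁ a)
        have h8 := hA.m0 a
        show D.sig (Q₁ a) ^ 2 ≤ 2 * m a ^ 2 + 2 * n0 ^ 2
        calc D.sig (Q₁ a) ^ 2 ≤ (m a + n0) ^ 2 := by gcongr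
          _ ≤ 2 * m a ^ 2 + 2 * n0 ^ 2 := by nlinarith [sq_nonneg (m a - n0)]
      rw [intervalIntegral.integral_add (hmS.const_mul 2) intervalIntegrable_const,
        intervalIntegral.integral_const_mul, intervalIntegral.integral_const, smul_eq_mul,
        add_sub_cancel_left] at h2
      calc D.sig (Q (s + h) - Q s) ^ 2 ≤ h * ∫ a in s..(s + h), D.sig (Q₁ a) ^ 2 := h1
        _ ≤ h * (2 * (∫ a in s..(s + h), m a ^ 2) + h * (2 * n0 ^ 2)) := by gcongr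
        _ = _ := by ring
    have hmc : ContinuousOn (fun s => ∫ a in s..(s + h), m a ^ 2) (Icc 0 t) :=
      S2X.cont_incr ht hh.le (hmI (t + h) (by linarith) hthT)
    have hzQ2 : ∫ s in (0 : ℝ)..t, D.sig (z s) ^ 2 * D.sig (Q (s + h) - Q s) ^ 2 ≤
        2 * h ^ 2 * X * CS + 2 * h ^ 2 * n0 ^ 2 * (C₁ * e ^ 2) := by
      have h1 : ∫ s in (0 : ℝ)..t, D.sig (z s) ^ 2 * D.sig (Q (s + h) - Q s) ^ 2 ≤
          ∫ s in (0 : ℝ)..t, (2 * h * X * (∫ a in s..(s + h), m a ^ 2)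
            + 2 * h ^ 2 * n0 ^ 2 * D.sig (z s) ^ 2) := by
        refine intervalIntegral.integral_mono_on ht (ii _ hzQ) ?_ fun s hs => ?_
        · exact ((continuousOn_const.mul hmc).add
            (continuousOn_const.mul (hsz0.mono hsubt))).intervalIntegrable_of_Icc ht
        · have h2 := hinc s hs
          have h3 := hXs s ⟨hs.1, by linarith [hs.2]⟩
          have h4 : 0 ≤ ∫ a in s..(s + h), m a ^ 2 :=
            intervalIntegral.integral_nonneg (by linarith) fun a _ => sq_nonneg _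
          calc D.sig (z s) ^ 2 * D.sig (Q (s + h) - Q s) ^ 2 ≤ D.sig (z s) ^ 2 *
              (2 * h * (∫ a in s..(s + h), m a ^ 2) + 2 * h ^ 2 * n0 ^ 2) := by gcongr
            _ = 2 * h * D.sig (z s) ^ 2 * (∫ a in s..(s + h), m a ^ 2)
              + 2 * h ^ 2 * n0 ^ 2 * D.sig (z s) ^ 2 := by ring
            _ ≤ 2 * h * X * (∫ a in s..(s + h), m a ^ 2)
              + 2 * h ^ 2 * n0 ^ 2 * D.sig (z s) ^ 2 := by gcongr
      have hmci : IntervalIntegrable (fun s => ∫ a in s..(s + h), m a ^ 2) volume 0 t :=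
        hmc.intervalIntegrable_of_Icc ht
      rw [intervalIntegral.integral_add (hmci.const_mul _) ((ii _ hsz0).const_mul _),
        intervalIntegral.integral_const_mul, intervalIntegral.integral_const_mul] at h1
      have h5 : ∫ s in (0 : ℝ)..t, (∫ a in s..(s + h), m a ^ 2) ≤ h * CS := by
        refine (int_incr_le ht hh.le (hmI (t + h) (by linarith) hthT) fun a => sq_nonneg _).trans ?_
        have i3 : ∫ s in (0 : ℝ)..(t + h), m s ^ 2 ≤ ∫ s in (0 : ℝ)..T₀, m s ^ 2 := by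
          refine intervalIntegral.integral_mono_interval le_rfl (by linarith) hthT
            (Eventually.of_forall fun s => sq_nonneg _) (hmI T₀ hT₀.le le_rfl)
        have := hA.mI
        gcongr
        linarith
      have h6 : ∫ s in (0 : ℝ)..t, D.sig (z s) ^ 2 ≤ C₁ * e ^ 2 := by
        refine le_trans ?_ hzi
        refine intervalIntegral.integral_mono_interval le_rfl ht (by linarith)
          (Eventually.of_forall fun s => sq_nonneg _) ?_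
        exact ((D.continuous_sig.comp_continuousOn (hzc.mono Icc_subset_Ici_self)).pow
          2).intervalIntegrable_of_Icc hτ0
      calc _ ≤ _ := h1
        _ ≤ 2 * h * X * (h * CS) + 2 * h ^ 2 * n0 ^ 2 * (C₁ * e ^ 2) := by gcongr
        _ = _ := by ring
    rw [hsum]
    gcongr
  -- conclusion
  have hyt : ‖D.ι (z (t + h) - z t)‖ ^ 2 = yy t := by rw [hyy, hZdef]
  have hexp : Real.exp (∫ s in (0 : ℝ)..t, L s) ≤ Real.exp LL := Real.exp_le_exp.2 hIL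
  have hsX : √X ^ 2 = X := Real.sq_sqrt hX0
  have hsX0 : 0 ≤ √X := Real.sqrt_nonneg X
  obtain ⟨G, hGdef⟩ : ∃ G : ℝ, G = r1 + r + √X + n0 * e := ⟨_, rfl⟩
  have hne : 0 ≤ n0 * e := by positivity
  have hG0 : 0 ≤ G := by rw [hGdef]; positivity
  have g1 : r1 ^ 2 ≤ G ^ 2 := by
    have : r1 ≤ G := by rw [hGdef]; linarith
    gcongr
  have g2 : r ^ 2 ≤ G ^ 2 := by
    have : r ≤ G := by rw [hGdef]; linarith
    gcongr
  have g3 : X ≤ G ^ 2 := by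
    rw [← hsX]
    have : √X ≤ G := by rw [hGdef]; linarith
    gcongr
  have g4 : (n0 * e) ^ 2 ≤ G ^ 2 := by
    have : n0 * e ≤ G := by rw [hGdef]; linarith
    gcongr
  have hs1 : yy 0 + ∫ s in (0 : ℝ)..t, rr s ≤ KK * (G ^ 2 * h ^ 2) := by
    have j0 : yy 0 + ∫ s in (0 : ℝ)..t, rr s ≤ C₁ ^ 2 * r1 ^ 2 * h ^ 2 + (4 * Cb ^ 2 / μ *
      (2 * h ^ 2 * X * CS + 2 * h ^ 2 * n0 ^ 2 * (C₁ * e ^ 2)) + 1 / (D.c₀ * μ) * (h ^ 2 * r ^ 2)) :=
      add_le_add hy0 hIr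
    have j1 : C₁ ^ 2 * r1 ^ 2 * h ^ 2 ≤ C₁ ^ 2 * G ^ 2 * h ^ 2 := by gcongr
    have j2 : 8 * Cb ^ 2 / μ * CS * (X * h ^ 2) ≤ 8 * Cb ^ 2 / μ * CS * (G ^ 2 * h ^ 2) := by gcongr
    have j3 : 8 * Cb ^ 2 / μ * C₁ * ((n0 * e) ^ 2 * h ^ 2) ≤ 8 * Cb ^ 2 / μ * C₁ * (G ^ 2 * h ^ 2) := by
      gcongr
    have j4 : 1 / (D.c₀ * μ) * (h ^ 2 * r ^ 2) ≤ 1 / (D.c₀ * μ) * (h ^ 2 * G ^ 2) := by gcongr
    have j5 : 4 * Cb ^ 2 / μ * (2 * h ^ 2 * X * CS + 2 * h ^ 2 * n0 ^ 2 * (C₁ * e ^ 2)) =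
        8 * Cb ^ 2 / μ * CS * (X * h ^ 2) + 8 * Cb ^ 2 / μ * C₁ * ((n0 * e) ^ 2 * h ^ 2) := by ring
    have j6 : KK * (G ^ 2 * h ^ 2) = C₁ ^ 2 * G ^ 2 * h ^ 2 + 8 * Cb ^ 2 / μ * CS * (G ^ 2 * h ^ 2)
        + 8 * Cb ^ 2 / μ * C₁ * (G ^ 2 * h ^ 2) + 1 / (D.c₀ * μ) * (h ^ 2 * G ^ 2) := by
      rw [hKK]; ring
    rw [j6]
    linarith
  have hfin : ‖D.ι (z (t + h) - z t)‖ ^ 2 ≤ (C * G * h) ^ 2 := by
    rw [hyt]
    have hCC : KK * Real.exp LL ≤ C ^ 2 := by rw [hC]; nlinarith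
    calc yy t ≤ (yy 0 + ∫ s in (0 : ℝ)..t, rr s) * Real.exp (∫ s in (0 : ℝ)..t, L s) := fin
      _ ≤ (KK * (G ^ 2 * h ^ 2)) * Real.exp LL := by gcongr
      _ = KK * Real.exp LL * (G ^ 2 * h ^ 2) := by ring
      _ ≤ C ^ 2 * (G ^ 2 * h ^ 2) := by gcongr
      _ = _ := by ring
  rw [← hGdef]
  exact S2X.sq_cancel (by positivity) hfin

end Pool.Agent.NSV
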