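import Pool.Agent.NSV.Stmts
import Pool.Agent.NSK.Deriv

/-!
# MP_fd8964_an, Theorem V: pointwise bound for `σ(z)` (module S3)
-/

open MeasureTheory Set Filter Topology
open scoped RealInnerProductSpace ContDiff ENNReal

noncomputable section

namespace Pool.Agent.NSV

open Pool.Agent.NSD Pool.Agent.NSK

namespace S3X

/-- Bound for the derivative from a bound for small increments. -/
theorem norm_le_of_hasDerivAt {V K : Type*} [NormedAddCommGroup V] [InnerProductSpace ℝ V]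
    [NormedAddCommGroup K] [InnerProductSpace ℝ K] {ι : V →L[ℝ] K} {x : ℝ → V} {w : V}
    {t B a : ℝ} (h : HasDerivAt x w t) (ha : 0 < a)
    (hB : ∀ h : ℝ, 0 ≤ h → h ≤ a → ‖ι (x (t + h) - x t)‖ ≤ B * h) : ‖ι w‖ ≤ B := by
  have h1 : HasDerivAt (fun s => ι (x s)) (ι w) t := ι.hasFDerivAt.comp_hasDerivAt t h
  have h2 := h1.hasDerivWithinAt (s := Ioi t)
  rw [hasDerivWithinAt_iff_tendsto_slope' (by simp)] at h2
  refine le_of_tendsto h2.norm ?_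
  have : Ioc t (t + a) ∈ 𝓝[>] t := Ioc_mem_nhdsGT (by linarith)
  filter_upwards [this] with s hs
  have hs0 : 0 < s - t := by linarith [hs.1]
  rw [slope_def_module, norm_smul, norm_inv, Real.norm_of_nonneg hs0.le]
  have h3 := hB (s - t) hs0.le (by linarith [hs.2])
  rw [add_sub_cancel, map_sub] at h3
  rw [inv_mul_le_iff₀ hs0]
  linarith

/-- The final inequality. -/
theorem final_ineq {η s Z C₁ C₂ K2 T t e r1 r n0 Y β : ℝ} (hη : 0 < η) (hC₁ : 1 ≤ C₁) (hC₂ : 1 ≤ C₂)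
    (hK2 : 0 ≤ K2) (ht : 0 ≤ t) (htT : t ≤ T) (he : 0 ≤ e) (he1 : e ≤ 1) (hr1 : 0 ≤ r1)
    (hr : 0 ≤ r) (hn : 0 ≤ n0) (hY : 0 ≤ Y) (hZ0 : 0 ≤ Z) (hZ : Z ≤ C₁ * e)
    (hβ : β = C₂ * (r1 + r + Y + n0 * e))
    (h : η * s ^ 2 ≤ β * Z + (η / 4 * s ^ 2 + K2 * Z ^ 2) + r1 * (Z + √t * s)) :
    s ^ 2 ≤ ((2 / η) * (C₁ * C₂ + K2 * C₁ ^ 2 + C₁ + T / η) + 1)
      * (e * (r1 + r + Y + n0 * e + 1) + r1 ^ 2) := by
  have hT : 0 ≤ T := ht.trans htT
  have hβ0 : 0 ≤ β := by rw [hβ]; positivity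
  have hsq : √t ^ 2 = t := Real.sq_sqrt ht
  have y1 : r1 * (√t * s) ≤ η / 4 * s ^ 2 + r1 ^ 2 * t / η := by
    have : 0 ≤ (η * s - 2 * (r1 * √t)) ^ 2 / (4 * η) := by positivity
    have e1 : (η * s - 2 * (r1 * √t)) ^ 2 / (4 * η)
        = η / 4 * s ^ 2 + r1 ^ 2 * (√t ^ 2) / η - r1 * (√t * s) := by
      field_simp
      ring
    rw [hsq] at e1
    linarith
  have y2 : r1 ^ 2 * t / η ≤ (T / η) * r1 ^ 2 := by
    rw [div_mul_eq_mul_div]
    refine div_le_div_of_nonneg_right ?_ hη.le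
    nlinarith [sq_nonneg r1]
  have y3 : β * Z ≤ C₁ * C₂ * (e * (r1 + r + Y + n0 * e)) := by
    calc β * Z ≤ β * (C₁ * e) := mul_le_mul_of_nonneg_left hZ hβ0
      _ = _ := by rw [hβ]; ring
  have y4 : K2 * Z ^ 2 ≤ K2 * C₁ ^ 2 * e := by
    have h1 : Z ^ 2 ≤ (C₁ * e) ^ 2 := pow_le_pow_left₀ hZ0 hZ 2
    have h2 : (C₁ * e) ^ 2 ≤ C₁ ^ 2 * e := by
      rw [mul_pow]
      refine mul_le_mul_of_nonneg_left ?_ (sq_nonneg _)
      nlinarith
    calc K2 * Z ^ 2 ≤ K2 * (C₁ ^ 2 * e) := mul_le_mul_of_nonneg_left (h1.trans h2) hK2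
      _ = _ := by ring
  have y5 : r1 * Z ≤ C₁ * (e * r1) := by
    calc r1 * Z ≤ r1 * (C₁ * e) := mul_le_mul_of_nonneg_left hZ hr1
      _ = _ := by ring
  set G : ℝ := e * (r1 + r + Y + n0 * e + 1) + r1 ^ 2 with hG
  have hn0e : 0 ≤ n0 * e := mul_nonneg hn he
  have g0 : 0 ≤ G := by positivity
  have g1 : e * (r1 + r + Y + n0 * e) ≤ G := by rw [hG]; nlinarith [sq_nonneg r1]
  have g2 : e ≤ G := by
    rw [hG]
    have : 0 ≤ e * (r1 + r + Y + n0 * e) := by positivity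
    nlinarith [sq_nonneg r1]
  have g3 : e * r1 ≤ G := by
    rw [hG]
    have : 0 ≤ e * (r + Y + n0 * e) := by positivity
    nlinarith [sq_nonneg r1]
  have g4 : r1 ^ 2 ≤ G := by
    rw [hG]
    have : 0 ≤ e * (r1 + r + Y + n0 * e + 1) := by positivity
    linarith
  have hCC : 0 ≤ C₁ * C₂ := by positivity
  have hKC : 0 ≤ K2 * C₁ ^ 2 := by positivity
  have hC0 : 0 ≤ C₁ := by linarith
  have hTη : 0 ≤ T / η := by positivity
  have m1 := mul_le_mul_of_nonneg_left g1 hCC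
  have m2 := mul_le_mul_of_nonneg_left g2 hKC
  have m3 := mul_le_mul_of_nonneg_left g3 hC0
  have m4 := mul_le_mul_of_nonneg_left g4 hTη
  have e2 : r1 * (Z + √t * s) = r1 * Z + r1 * (√t * s) := by ring
  have e3 : (C₁ * C₂ + K2 * C₁ ^ 2 + C₁ + T / η) * G =
      C₁ * C₂ * G + K2 * C₁ ^ 2 * G + C₁ * G + T / η * G := by ring
  have main : (η / 2) * s ^ 2 ≤ (C₁ * C₂ + K2 * C₁ ^ 2 + C₁ + T / η) * G := by
    rw [e3]
    rw [e2] at h
    linarith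
  calc s ^ 2 = (2 / η) * ((η / 2) * s ^ 2) := by field_simp
    _ ≤ (2 / η) * ((C₁ * C₂ + K2 * C₁ ^ 2 + C₁ + T / η) * G) :=
        mul_le_mul_of_nonneg_left main (by positivity)
    _ ≤ ((2 / η) * (C₁ * C₂ + K2 * C₁ ^ 2 + C₁ + T / η) + 1) * G := by
        have e4 : ((2 / η) * (C₁ * C₂ + K2 * C₁ ^ 2 + C₁ + T / η) + 1) * G =
          2 / η * ((C₁ * C₂ + K2 * C₁ ^ 2 + C₁ + T / η) * G) + G := by ring
        linarith

end S3X

theorem s3_proof (hS1 : Stmt_S1) (hS2 : Stmt_S2) : Stmt_S3 := by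
  intro V K _ _ _ _ _ D η T CS hη hT hCS
  obtain ⟨C₁, hC₁, H1⟩ := hS1 V K D η T CS hη hT hCS
  obtain ⟨C₂, hC₂, H2⟩ := hS2 V K D η T CS hη hT hCS
  set K2 : ℝ := D.CY / (η / 4) ^ 3 * CS ^ 4 with hK2
  have hK2n : 0 ≤ K2 := by
    have := D.CY_nonneg
    positivity
  refine ⟨(2 / η) * (C₁ * C₂ + K2 * C₁ ^ 2 + C₁ + T / η) + 1, ?_, ?_⟩
  · have : 0 ≤ (2 / η) * (C₁ * C₂ + K2 * C₁ ^ 2 + C₁ + T / η) := by positivity
    linarith
  intro e r1 r n0 X τ f Q Q₁ u w R R₁ y y₁ m he he1 hr1 hr hn0 hX hXe hτ hτT hA hu hu0 hXb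
  obtain ⟨hz1, -, -⟩ := H1 e r1 r n0 τ f Q Q₁ u w R R₁ y y₁ m he he1 hr1 hτ hτT hA hu hu0
  have hz2 := H2 e r1 r n0 X τ f Q Q₁ u w R R₁ y y₁ m he he1 hr1 hr hn0 hX hXe hτ hτT hA hu hu0 hXb
  set β : ℝ := C₂ * (r1 + r + √X + n0 * e) with hβ
  set B : ℝ := ((2 / η) * (C₁ * C₂ + K2 * C₁ ^ 2 + C₁ + T / η) + 1)
      * (e * (r1 + r + √X + n0 * e + 1) + r1 ^ 2) with hB
  have hB0 : 0 ≤ B := by positivity
  rcases eq_or_lt_of_le hτ with h0 | hτ0
  · intro t ht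
    have ht0 : t = 0 := le_antisymm (by rw [h0]; exact ht.2) ht.1
    have : u t - Q t = 0 := by rw [ht0, hu0, sub_self]
    rw [this]
    have h1 : D.sig 0 = 0 := by simp [Data.sig]
    rw [h1]
    simpa using hB0
  have hz : IsH1loc (fun t => u t - Q t) (fun t => w t - Q₁ t) := isH1loc_sub hu.h1 hA.hQ
  have hcz : ContinuousOn (fun t => u t - Q t) (Ici 0) := hz.continuousOn
  have hcg : ContinuousOn (fun t => D.sig (u t - Q t) ^ 2) (Icc 0 τ) :=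
    ((D.continuous_sig.comp_continuousOn hcz).mono Icc_subset_Ici_self).pow 2
  -- the inequality almost everywhere
  have hae : ∀ᵐ t ∂(volume.restrict (Ioo 0 τ)), D.sig (u t - Q t) ^ 2 ≤ B := by
    have a1 := ae_restrict_of_ae_restrict_of_subset (s := Ioo 0 τ) (t := Ioi 0)
      (fun x hx => hx.1) (ae_hasDerivAt hz)
    have a2 := ae_restrict_of_ae_restrict_of_subset (s := Ioo 0 τ) (t := Ioc 0 τ)
      Ioo_subset_Ioc_self hu.eq
    have a3 := ae_restrict_of_ae_restrict_of_subset (s := Ioo 0 τ) (t := Ioc 0 T)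
      (fun x hx => ⟨hx.1, hx.2.le.trans hτT⟩) hA.eq
    filter_upwards [a1, a2, a3, ae_restrict_mem measurableSet_Ioo] with t d1 d2 d3 ht
    have htτ : t ∈ Icc 0 τ := ⟨ht.1.le, ht.2.le⟩
    have htT : t ∈ Icc 0 T := ⟨ht.1.le, ht.2.le.trans hτT⟩
    have hβb : ‖D.ι (w t - Q₁ t)‖ ≤ β := by
      refine S3X.norm_le_of_hasDerivAt (a := τ - t) d1 (by linarith [ht.2]) (fun h hh0 hh => ?_)
      exact hz2 t h ht.1.le hh0 (by linarith)
    set z := u t - Q t with hzdef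
    have hueq : u t = z + Q t := by rw [hzdef]; abel
    have e1 := d2 z
    have e2 := d3 z
    have key : η * D.sig z ^ 2 = - ⟪D.ι (w t - Q₁ t), D.ι z⟫ - D.b z (Q t) z - R t z := by
      rw [D.sig_sq]
      rw [hueq] at e1
      simp only [map_add, add_apply, map_sub, inner_sub_left, D.b_skew] at e1 e2 ⊢
      linarith
    have b1 : |⟪D.ι (w t - Q₁ t), D.ι z⟫| ≤ β * ‖D.ι z‖ :=
      (abs_real_inner_le_norm _ _).trans (mul_le_mul_of_nonneg_right hβb (norm_nonneg _))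
    have b2 : |D.b z (Q t) z| ≤ η / 4 * D.sig z ^ 2 + K2 * ‖D.ι z‖ ^ 2 := by
      have h1 := D.b_young (η / 4) (by positivity) (Q t) z
      have h2 : D.a (Q t) (Q t) ^ 2 ≤ CS ^ 4 := by
        rw [← D.sig_sq]
        have := hA.sQ t htT
        have h3 := D.sig_nonneg (Q t)
        calc (D.sig (Q t) ^ 2) ^ 2 = D.sig (Q t) ^ 4 := by ring
          _ ≤ CS ^ 4 := pow_le_pow_left₀ h3 this 4
      rw [D.sig_sq]
      refine h1.trans ?_
      have h4 : D.CY / (η / 4) ^ 3 * D.a (Q t) (Q t) ^ 2 * ‖D.ι z‖ ^ 2 ≤ K2 * ‖D.ι z‖ ^ 2 := by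
        rw [hK2]
        have := D.CY_nonneg
        gcongr
      linarith
    have b3 := hA.Rb t htT z
    have c1 := (abs_le.1 b1).1
    have c2 := (abs_le.1 b2).1
    have c3 := (abs_le.1 b3).1
    exact S3X.final_ineq hη hC₁ hC₂ hK2n ht.1.le htT.2 he he1 hr1 hr hn0 (Real.sqrt_nonneg X)
      (norm_nonneg (D.ι z)) (hz1 t htτ) hβ (by linarith)
  -- all times
  have hae' : (fun t => max (D.sig (u t - Q t) ^ 2) B) =ᵐ[volume.restrict (Icc 0 τ)] fun _ => B := by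
    rw [← restrict_Ioo_eq_restrict_Icc]
    filter_upwards [hae] with t ht
    exact max_eq_right ht
  have hEq := Measure.eqOn_Icc_of_ae_eq volume hτ0.ne hae' (hcg.sup continuousOn_const)
    continuousOn_const
  intro t ht
  have := hEq ht
  simp only at this
  exact max_eq_right_iff.1 this

end Pool.Agent.NSV
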