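import Pool.Agent.NSV.Stmts
import Pool.Agent.NSK.Boot

/-!
# MP_fd8964_an, Theorem V: module STAB (an approximate solution is close to an exact one)
-/

open MeasureTheory Set Filter Topology
open scoped RealInnerProductSpace

noncomputable section

namespace Pool.Agent.NSV

open Pool.Agent.NSD Pool.Agent.NSK

theorem stab_proof (hA : Stmt_Abstract) (hS1 : Stmt_S1) (hS3 : Stmt_S3) : Stmt_Stab := by
  intro V K _ _ _ _ _ D η T CS hη hT hCS
  obtain ⟨C₁, hC₁, H1⟩ := hS1 V K D η T CS hη hT hCS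
  obtain ⟨C₃, hC₃, H3⟩ := hS3 V K D η T CS hη hT hCS
  refine ⟨C₁ + C₃, by linarith, ?_⟩
  intro e r1 r n0 X f f₁ Q Q₁ R R₁ y y₁ m h₀ he he1 hr1 hr hn0 hX hXe hlt hf hap hcomp
  have hsX := Real.sqrt_nonneg X
  have hne : 0 ≤ n0 * e := by positivity
  obtain ⟨q, hq⟩ : ∃ q : ℝ, q = e * (r1 + r + √X + n0 * e + 1) + r1 ^ 2 := ⟨_, rfl⟩
  have hq0 : 0 ≤ q := by rw [hq]; positivity
  rw [← hq] at hlt
  have hlt3 : C₃ * q < X := by
    have : 0 ≤ C₁ * q := by positivity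
    linarith
  obtain ⟨κ, hκd⟩ : ∃ κ : ℝ, κ = CS + √X + 1 := ⟨_, rfl⟩
  have hκ : 0 < κ := by rw [hκd]; positivity
  have hu₀ : D.sig (Q 0) ≤ κ := by
    have := hap.sQ 0 ⟨le_rfl, hT.le⟩
    rw [hκd]; linarith
  obtain ⟨u, w, huw, hu0, hiw, heq, -, -⟩ := hA V K D η 1 κ f f₁ (Q 0) h₀ hη one_pos hκ hf hu₀ hcomp
  have hcz : ContinuousOn (fun t => u t - Q t) (Ici 0) := huw.continuousOn.sub hap.hQ.continuousOn
  have hcσ : ContinuousOn (fun t => D.sig (u t - Q t)) (Ici 0) := D.continuous_sig.comp_continuousOn hcz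
  have hsol : ∀ τ, 0 ≤ τ → τ ≤ T → (∀ t ∈ Icc 0 τ, D.sig (u t - Q t) ^ 2 ≤ X) →
      SolOn D η f τ u w := by
    intro τ hτ0 hτT hz
    have hle : ∀ t ∈ Icc 0 τ, D.sig (u t) ≤ κ := by
      intro t ht
      have e1 : u t = (u t - Q t) + Q t := by abel
      have e2 := D.sig_add_le (u t - Q t) (Q t)
      have e4 := hap.sQ t ⟨ht.1, ht.2.trans hτT⟩
      have e6 : D.sig (u t - Q t) ≤ √X := Real.le_sqrt_of_sq_le (hz t ht)
      rw [← e1] at e2
      rw [hκd]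
      linarith
    refine ⟨huw, ?_⟩
    have heq' := ae_mono (Measure.restrict_mono (s := Ioc 0 τ) (s' := Ioi 0) (fun x hx => hx.1) le_rfl) heq
    have hmem : ∀ᵐ t ∂(volume.restrict (Ioc 0 τ)), t ∈ Ioc 0 τ := ae_restrict_mem measurableSet_Ioc
    filter_upwards [heq', hmem] with t ht htm v
    have := ht v
    rwa [phi_eq_zero (hle t ⟨htm.1.le, htm.2⟩), add_zero] at this
  have hboot : ∀ t ∈ Icc 0 T, D.sig (u t - Q t) ^ 2 ≤ C₃ * q := by
    refine bootstrap (b := X) ((hcσ.mono Icc_subset_Ici_self).pow 2) ?_ hlt3 ?_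
    · have : u 0 - Q 0 = 0 := by rw [hu0]; abel
      rw [this]
      have : D.sig 0 = 0 := by simp [Data.sig]
      rw [this, zero_pow two_ne_zero]
      positivity
    · intro τ hτ0 hτT hz t ht
      have hsolτ := hsol τ hτ0 hτT hz
      have := H3 e r1 r n0 X τ f Q Q₁ u w R R₁ y y₁ m he he1 hr1 hr hn0 hX hXe hτ0 hτT hap hsolτ hu0
        hz t ht
      rw [← hq] at this
      exact this
  have hzX : ∀ t ∈ Icc 0 T, D.sig (u t - Q t) ^ 2 ≤ X := fun t ht => (hboot t ht).trans hlt3.le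
  have hsolT := hsol T hT.le le_rfl hzX
  obtain ⟨E1, -, -⟩ := H1 e r1 r n0 T f Q Q₁ u w R R₁ y y₁ m he he1 hr1 hT.le le_rfl hap hsolT hu0
  refine ⟨u, w, hsolT, hu0, hiw, fun t ht => ⟨?_, hzX t ht⟩⟩
  have h1 := E1 t ht
  have h2 : 0 ≤ C₃ * e := by positivity
  have h3 : (C₁ + C₃) * e = C₁ * e + C₃ * e := by ring
  rw [h3]
  linarith

end Pool.Agent.NSV
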