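import Pool.Agent.NSV.Stmts
import Pool.Agent.NSK.Star
import Pool.Agent.NSK.Lap

/-!
# MP_fd8964_an, Theorem V, module TFtest: bounds for test fields
-/

set_option autoImplicit false

open MeasureTheory Set Filter Topology
open scoped RealInnerProductSpace ContDiff

noncomputable section

namespace Pool.Agent.NSV

open Pool.Agent.NSD Pool.Agent.NSK

namespace TFtestX

/-- Cauchy-Schwarz for the fields. -/
lemma int_fld_mul_le {Ω : Set E} (x y : V Ω) :
    Integrable (fun t => ‖(fld x : E → E) t‖ * ‖(fld y : E → E) t‖) (volume.restrict Ω) ∧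
    ∫ t in Ω, ‖(fld x : E → E) t‖ * ‖(fld y : E → E) t‖ ≤ ‖fld x‖ * ‖fld y‖ := by
  have h1 : MemLp (fun t => ‖(fld x : E → E) t‖) 2 (volume.restrict Ω) := (Lp.memLp (fld x)).norm
  have h2 : MemLp (fun t => ‖(fld y : E → E) t‖) 2 (volume.restrict Ω) := (Lp.memLp (fld y)).norm
  have hn1 : ‖h1.toLp _‖ = ‖fld x‖ := by
    rw [Lp.norm_toLp, Lp.norm_def, eLpNorm_norm]
  have hn2 : ‖h2.toLp _‖ = ‖fld y‖ := by
    rw [Lp.norm_toLp, Lp.norm_def, eLpNorm_norm]
  have hi := L2.integrable_inner (𝕜 := ℝ) (h2.toLp _) (h1.toLp _)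
  have hae : (fun t => ⟪(h2.toLp _ : E → ℝ) t, (h1.toLp _ : E → ℝ) t⟫) =ᵐ[volume.restrict Ω]
      fun t => ‖(fld x : E → E) t‖ * ‖(fld y : E → E) t‖ := by
    filter_upwards [h1.coeFn_toLp, h2.coeFn_toLp] with t ht1 ht2
    rw [ht1, ht2]
    rfl
  refine ⟨hi.congr hae, ?_⟩
  have hval : ⟪h2.toLp _, h1.toLp _⟫ =
      ∫ t in Ω, ‖(fld x : E → E) t‖ * ‖(fld y : E → E) t‖ := by
    rw [L2.inner_def]
    exact integral_congr_ae hae
  rw [← hval]
  refine (real_inner_le_norm _ _).trans ?_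
  rw [hn1, hn2, mul_comm]

lemma abs_int_le {Ω : Set E} (x y : V Ω) {m : ℝ} {F : E → ℝ}
    (h : ∀ᵐ t ∂(volume.restrict Ω),
      |F t| ≤ m * (‖(fld x : E → E) t‖ * ‖(fld y : E → E) t‖)) (hm : 0 ≤ m) :
    |∫ t in Ω, F t| ≤ m * ‖fld x‖ * ‖fld y‖ := by
  obtain ⟨hi, hle⟩ := int_fld_mul_le x y
  have h1 : ‖∫ t in Ω, F t‖ ≤ ∫ t in Ω, m * (‖(fld x : E → E) t‖ * ‖(fld y : E → E) t‖) :=
    norm_integral_le_of_norm_le (hi.const_mul m) h
  rw [Real.norm_eq_abs, integral_const_mul] at h1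
  refine h1.trans ?_
  rw [mul_assoc]
  exact mul_le_mul_of_nonneg_left hle hm

lemma smooth_D {p : E → E} (hp : ContDiff ℝ ∞ p) (i : Fin 3) :
    ContDiff ℝ ∞ (fun x => fderiv ℝ p x (e i)) :=
  (hp.fderiv_right (m := ∞) (by simp)).clm_apply contDiff_const

lemma cont_gradField {p : E → E} (hp : ContDiff ℝ ∞ p) : Continuous (gradField p) := by
  unfold gradField
  refine (PiLp.continuous_toLp 2 _).comp (continuous_pi fun i => ?_)
  exact (smooth_D hp i).continuous

lemma supp_gradField {Ω : Set E} {p : E → E} (hp : IsTest Ω p) : HasCompactSupport (gradField p) :=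
  (hp.compact.fderiv ℝ).comp_left
    (g := fun L : E →L[ℝ] E => (WithLp.toLp 2 (fun i : Fin 3 => L (e i)) : G)) (by
      ext i j
      simp)

lemma exists_bd {F : Type*} [NormedAddCommGroup F] {g : E → F} (hg : Continuous g)
    (hc : HasCompactSupport g) : ∃ C : ℝ, 0 ≤ C ∧ ∀ x, ‖g x‖ ≤ C := by
  obtain ⟨C, hC⟩ := hg.bounded_above_of_compact_support hc
  exact ⟨C, (norm_nonneg _).trans (hC 0), hC⟩

lemma cont_lap {p : E → E} (hp : ContDiff ℝ ∞ p) : Continuous (lap p) := by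
  unfold lap
  refine continuous_finsetSum _ fun i _ => ?_
  exact (smooth_D (smooth_D hp i) i).continuous

lemma supp_lap {Ω : Set E} {p : E → E} (hp : IsTest Ω p) : HasCompactSupport (lap p) := by
  have h : ∀ i : Fin 3, HasCompactSupport (dd (e i) (dd (e i) p)) := by
    intro i
    have h1 : HasCompactSupport (dd (e i) p) :=
      (hp.compact.fderiv ℝ).comp_left (g := fun L : E →L[ℝ] E => L (e i)) rfl
    exact (h1.fderiv ℝ).comp_left (g := fun L : E →L[ℝ] E => L (e i)) rfl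
  have h2 : lap p = fun x => dd (e 0) (dd (e 0) p) x + dd (e 1) (dd (e 1) p) x +
      dd (e 2) (dd (e 2) p) x := by
    funext x
    simp [lap, Fin.sum_univ_three]
  rw [h2]
  exact ((h 0).add (h 1)).add (h 2)

end TFtestX

open TFtestX in
theorem tftest_proof : Stmt_TFtest := by
  intro Ω hΩ hb D hD p pV hp hpV
  have hD0 := hD
  obtain ⟨hD1, hD2, hD3⟩ := hD
  obtain ⟨m, hm0, hm⟩ := exists_bd hp.smooth.continuous hp.compact
  obtain ⟨g, hg0, hg⟩ := exists_bd (cont_gradField hp.smooth) (supp_gradField hp)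
  have hL : MemLp (lap p) 2 (volume.restrict Ω) :=
    ((cont_lap hp.smooth).memLp_of_hasCompactSupport (supp_lap hp)).restrict Ω
  set l : ℝ := ‖hL.toLp (lap p)‖ with hl
  have hl0 : 0 ≤ l := norm_nonneg _
  have hstar := star_proof Ω hΩ hb D hD0 p pV m hp hpV hm
  have hsig : ∀ x, 0 ≤ D.sig x := fun x => Real.sqrt_nonneg _
  refine ⟨m + g + l, ?_, ?_, ?_⟩
  · intro x y
    have h1 : |D.b x pV y| ≤ g * ‖D.ι x‖ * ‖D.ι y‖ := by
      rw [hD3, hD1, hD1]
      refine abs_int_le x y ?_ hg0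
      filter_upwards [hpV.2] with t ht
      have ht' : (grd pV : E → G) t = gradField p t := ht
      refine (StarLib.abs_inner_prodG_le _ _ _).trans ?_
      rw [ht']
      calc ‖(fld x : E → E) t‖ * ‖gradField p t‖ * ‖(fld y : E → E) t‖
          ≤ ‖(fld x : E → E) t‖ * g * ‖(fld y : E → E) t‖ := by
            gcongr
            exact hg t
        _ = g * (‖(fld x : E → E) t‖ * ‖(fld y : E → E) t‖) := by ring
    refine h1.trans ?_
    gcongr
    linarith
  · intro x y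
    refine ((hstar y x).2).trans ?_
    calc m * ‖D.ι y‖ * D.sig x = m * D.sig x * ‖D.ι y‖ := by ring
      _ ≤ (m + g + l) * D.sig x * ‖D.ι y‖ := by
        have := hsig x
        gcongr
        linarith
  · intro y
    have h1 : |D.a pV y| ≤ l * ‖D.ι y‖ := by
      rw [hD2, hD1, lap_proof Ω hΩ hb p pV hp hpV y, abs_neg]
      have h2 : ∫ x in Ω, ⟪lap p x, (fld y : E → E) x⟫ = ⟪hL.toLp (lap p), fld y⟫ := by
        rw [L2.inner_def]
        refine integral_congr_ae ?_
        filter_upwards [hL.coeFn_toLp] with x hx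
        rw [hx]
      rw [h2]
      exact abs_real_inner_le_norm _ _
    refine h1.trans ?_
    gcongr
    linarith

end Pool.Agent.NSV
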