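import Pool.Agent.NSV.Stmts
import Pool.Agent.NSD.Rep
import Pool.Agent.NSD.Trilin

/-!
# MP_fd8964_an, Theorem V, module Target: smooth targets in `V`
-/

set_option autoImplicit false

open MeasureTheory Set Filter Topology
open scoped RealInnerProductSpace ContDiff Manifold

noncomputable section

namespace Pool.Agent.NSV

open Pool.Agent.NSD Pool.Agent.NSK

namespace TargetX

/-- Elements of `Hspace Ω` are approximated by fields of elements of `V Ω`. -/
lemma exists_fld_near {Ω : Set E} {h : L2 Ω} (hh : h ∈ Hspace Ω) {ε : ℝ} (hε : 0 < ε) :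
    ∃ v : V Ω, ‖fld v - h‖ < ε := by
  have hsub : (Submodule.span ℝ {p : L2 Ω | ∃ v, IsTest Ω v ∧ (p : E → E) =ᵐ[volume.restrict Ω] v})
      ≤ LinearMap.range (fldL Ω : V Ω →ₗ[ℝ] L2 Ω) := by
    refine Submodule.span_le.2 ?_
    rintro p ⟨v, hv, hpv⟩
    obtain ⟨q, hq⟩ := Rep_proof Ω v hv
    refine ⟨q, ?_⟩
    refine Lp.ext ?_
    filter_upwards [hpv, hq.1] with x hx hx'
    exact hx'.trans hx.symm
  have hcl : h ∈ closure ((LinearMap.range (fldL Ω : V Ω →ₗ[ℝ] L2 Ω) : Submodule ℝ (L2 Ω)) : Set (L2 Ω)) :=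
    closure_mono hsub hh
  obtain ⟨b, ⟨v, rfl⟩, hb⟩ := Metric.mem_closure_iff.1 hcl ε hε
  refine ⟨v, ?_⟩
  rw [dist_comm, dist_eq_norm] at hb
  exact hb

end TargetX

open TargetX in
theorem target_proof : Stmt_Target := by
  intro Ω w δ hwH hw hδ hδ0
  let t : ℝ → Set (V Ω) := fun s => {y | 0 ≤ s → ‖fldL Ω y - w s‖ < δ s}
  have ht : ∀ s, Convex ℝ (t s) := by
    intro s
    by_cases hs : 0 ≤ s
    · have h1 : t s = (fldL Ω : V Ω →ₗ[ℝ] L2 Ω) ⁻¹' Metric.ball (w s) (δ s) := by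
        ext y
        simp only [t, mem_ofPred_eq, hs, true_imp_iff, mem_preimage, Metric.mem_ball, dist_eq_norm]
        rfl
      rw [h1]
      exact (convex_ball _ _).linear_preimage _
    · have h1 : t s = univ := by
        ext y
        simp [t, hs]
      rw [h1]
      exact convex_univ
  have hloc : ∀ x : ℝ, ∃ c : V Ω, ∀ᶠ y in 𝓝 x, c ∈ t y := by
    intro x
    rcases lt_or_ge x 0 with hx | hx
    · refine ⟨0, ?_⟩
      filter_upwards [Iio_mem_nhds hx] with y hy h0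
      exact absurd h0 (not_le.2 hy)
    · obtain ⟨v, hv⟩ := exists_fld_near (hwH x hx) (hδ0 x hx)
      refine ⟨v, ?_⟩
      have hcont : ContinuousOn (fun y => δ y - ‖fldL Ω v - w y‖) (Ici 0) :=
        hδ.sub ((continuousOn_const.sub hw).norm)
      have hpos : 0 < δ x - ‖fldL Ω v - w x‖ := sub_pos.2 hv
      have h1 : ∀ᶠ y in 𝓝[Ici 0] x, 0 < δ y - ‖fldL Ω v - w y‖ :=
        (hcont x hx).eventually (lt_mem_nhds hpos)
      have h2 := eventually_nhdsWithin_iff.1 h1
      filter_upwards [h2] with y hy h0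
      exact sub_pos.1 (hy h0)
  obtain ⟨g, hg⟩ := exists_contMDiffMap_forall_mem_convex_of_local_const (n := (2 : ℕ∞)) 𝓘(ℝ, ℝ) ht hloc
  refine ⟨g, ?_, fun s hs => (hg s hs).le⟩
  exact g.contMDiff.contDiff

end Pool.Agent.NSV
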