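import Pool.Agent.NSV.Avg
import Pool.Agent.NSV.Cells
import Pool.Agent.NSV.Concat
import Pool.Agent.NSV.Cone
import Pool.Agent.NSV.Corr
import Pool.Agent.NSV.Dens
import Pool.Agent.NSV.GlueF
import Pool.Agent.NSV.LFsum
import Pool.Agent.NSV.Main
import Pool.Agent.NSV.Open
import Pool.Agent.NSV.Osc
import Pool.Agent.NSV.Path
import Pool.Agent.NSV.Prod
import Pool.Agent.NSV.Prof
import Pool.Agent.NSV.Riesz
import Pool.Agent.NSV.S1
import Pool.Agent.NSV.S2
import Pool.Agent.NSV.S3
import Pool.Agent.NSV.Stab
import Pool.Agent.NSV.Step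
import Pool.Agent.NSV.TFtest
import Pool.Agent.NSV.Target
import Pool.Agent.NSK.Data
import Pool.Agent.NSK.EnergyId
import Pool.Agent.NSK.GronwallInt
import Pool.Agent.NSD.MainProof

/-!
# MP_fd8964_an, Theorem V: everything put together
-/

namespace Pool.Agent.NSV

open Pool.Agent.NSD Pool.Agent.NSK

theorem abstract_all : Stmt_Abstract :=
  abstract_proof voigtExists_proof energy_proof deriv_proof
    (limit_proof deriv_proof diff_proof energy_proof lam_proof) weakLimit_proof glue_proof

theorem compat_all : Stmt_Compat := compat_proof Approx_proof (h2Bound_of Approx_proof L6_proof)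

theorem s1_all : Stmt_S1 := s1_proof energyId_proof gronwallInt_proof

theorem s2_all : Stmt_S2 := s2_proof energyId_proof gronwallInt_proof s1_all

theorem stab_all : Stmt_Stab := stab_proof abstract_all s1_all (s3_proof s1_all s2_all)

theorem step_all : Stmt_Step :=
  step_proof (path_proof abstract_all prod_proof) dens_proof (open_proof stab_all) prof_proof
    (avg_proof stab_all corr_proof osc_proof cells_proof prod_proof) riesz_proof

theorem class_all : Stmt_Class := by
  intro Ω hΩ hb D hD
  refine ⟨fun a ha => ?_, fun l ε hε => cone_proof Ω hΩ hb D hD l ε hε⟩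
  obtain ⟨p, hp, hr⟩ := ha
  exact tftest_proof Ω hΩ hb D hD p a hp hr

theorem mainV_all : Stmt_MainV :=
  mainV_of data_proof compat_all (concat_proof step_all) class_all target_proof glueF_proof lfsum_proof

end Pool.Agent.NSV
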