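import Pool.Agent.NSV.Open

/-!
# NSV, module AVG: averaging of short bursts
-/

open MeasureTheory Set Filter Topology
open scoped RealInnerProductSpace ContDiff ENNReal

noncomputable section

namespace Pool.Agent.NSV

open Pool.Agent.NSD Pool.Agent.NSK

namespace AvgX

open OpenX

/-! ### `H¹_loc` functions -/

section
variable {X Y : Type*} [NormedAddCommGroup X] [NormedSpace ℝ X] [CompleteSpace X]
  [NormedAddCommGroup Y] [NormedSpace ℝ Y] [CompleteSpace Y]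

theorem isH1loc_clm (T : X →L[ℝ] Y) {x x₁ : ℝ → X} (h : IsH1loc x x₁) :
    IsH1loc (fun t => T (x t)) (fun t => T (x₁ t)) := by
  refine ⟨fun S => T.comp_memLp' (h.memLp S), fun t ht => ?_⟩
  have h1 := T.intervalIntegral_comp_comm (h.intervalIntegrable le_rfl ht)
  show T (x t) = T (x 0) + ∫ s in (0 : ℝ)..t, T (x₁ s)
  rw [h1, ← map_add, ← h.eq t ht]

omit [CompleteSpace X] in
theorem isH1loc_const_add (c : X) {x x₁ : ℝ → X} (h : IsH1loc x x₁) :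
    IsH1loc (fun t => c + x t) x₁ := by
  refine ⟨h.memLp, fun t ht => ?_⟩
  have := h.eq t ht
  show c + x t = c + x 0 + ∫ s in (0 : ℝ)..t, x₁ s
  rw [this]; abel

omit [CompleteSpace X] in
theorem isH1loc_sum {ι : Type*} (s : Finset ι) {x x₁ : ι → ℝ → X}
    (h : ∀ i, IsH1loc (x i) (x₁ i)) :
    IsH1loc (fun t => ∑ i ∈ s, x i t) (fun t => ∑ i ∈ s, x₁ i t) := by
  classical
  induction s using Finset.induction_on with
  | empty => simpa using (isH1loc_zero (X := X))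
  | insert i s hi ih =>
    have := isH1loc_add (h i) ih
    simpa only [Finset.sum_insert hi] using this

theorem isH1loc_smooth {φ : ℝ → ℝ} (h : ContDiff ℝ ∞ φ) : IsH1loc φ (deriv φ) :=
  isH1loc_of_deriv (fun t _ => (h.differentiable (by simp) t).hasDerivAt.hasDerivWithinAt)
    (h.continuous_deriv (by simp)).continuousOn

theorem isH1loc_sq {φ : ℝ → ℝ} (h : ContDiff ℝ ∞ φ) :
    IsH1loc (fun t => φ t ^ 2) (fun t => 2 * φ t * deriv φ t) := by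
  refine isH1loc_of_deriv (fun t _ => ?_) ?_
  · have h1 := ((h.differentiable (by simp) t).hasDerivAt).pow 2
    have e : (2 : ℕ) * φ t ^ (2 - 1) * deriv φ t = 2 * φ t * deriv φ t := by simp
    rw [e] at h1
    exact h1.hasDerivWithinAt
  · exact ((continuous_const.mul h.continuous).mul (h.continuous_deriv (by simp))).continuousOn

/-- a continuous function is the derivative of its primitive -/
theorem isH1loc_prim {R : ℝ → X} (hR : ContinuousOn R (Ici 0)) :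
    IsH1loc (fun t => ∫ s in (0 : ℝ)..t, R s) R := by
  refine ⟨fun T => ?_, fun t _ => by simp⟩
  obtain ⟨M, hM⟩ := (isCompact_Icc (a := (0 : ℝ)) (b := T)).exists_bound_of_continuousOn
    (hR.mono Icc_subset_Ici_self)
  refine MemLp.of_bound (((hR.mono Icc_subset_Ici_self).mono
    Ioc_subset_Icc_self).aestronglyMeasurable measurableSet_Ioc) M ?_
  exact (ae_restrict_iff' measurableSet_Ioc).2
    (Eventually.of_forall fun x hx => hM x (Ioc_subset_Icc_self hx))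

end

section
variable {V K : Type} [NormedAddCommGroup V] [InnerProductSpace ℝ V]
    [NormedAddCommGroup K] [InnerProductSpace ℝ K]

theorem TF.mono {D : Data V K} {a : V} {M M' : ℝ} (h : TF D a M) (hM : M ≤ M') : TF D a M' := by
  refine ⟨fun x y => (h.b1 x y).trans ?_, fun x y => (h.b2 x y).trans ?_,
    fun y => (h.a1 y).trans ?_⟩
  · gcongr
  · have := D.sig_nonneg x
    gcongr
  · gcongr

/-- the functional `ψ` -/
def psi (D : Data V K) (η : ℝ) (a v : V) : V →L[ℝ] ℝ := η • D.a a + (D.b v a + D.b a v)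

theorem psi_apply (D : Data V K) (η : ℝ) (a v y : V) :
    psi D η a v y = η * D.a a y + (D.b v a y + D.b a v y) := rfl

theorem psi_bound {D : Data V K} {η M m : ℝ} {a v : V} (hη : 0 ≤ η) (hM : 0 ≤ M)
    (h : TF D a M) (h1 : ‖D.ι v‖ ≤ m) (h2 : D.sig v ≤ m) (y : V) :
    |psi D η a v y| ≤ (η * M + 2 * (M * m)) * ‖D.ι y‖ := by
  rw [psi_apply]
  have e1 : |η * D.a a y| ≤ η * (M * ‖D.ι y‖) := by
    rw [abs_mul, abs_of_nonneg hη]; exact mul_le_mul_of_nonneg_left (h.a1 y) hη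
  have e2 : |D.b v a y| ≤ M * m * ‖D.ι y‖ := (h.b1 v y).trans (by gcongr)
  have e3 : |D.b a v y| ≤ M * m * ‖D.ι y‖ := (h.b2 v y).trans (by gcongr)
  calc |η * D.a a y + (D.b v a y + D.b a v y)|
      ≤ |η * D.a a y| + (|D.b v a y| + |D.b a v y|) :=
        (abs_add_le _ _).trans (add_le_add le_rfl (abs_add_le _ _))
    _ ≤ _ := by nlinarith

/-- the derivative of `ψ` -/
def psi1 (D : Data V K) (a w : V) : V →L[ℝ] ℝ := D.b w a + D.b a w

theorem psi1_bound {D : Data V K} {M : ℝ} {a : V} (h : TF D a M) (w y : V) :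
    |psi1 D a w y| ≤ M * (‖D.ι w‖ + D.sig w) * ‖D.ι y‖ := by
  show |D.b w a y + D.b a w y| ≤ _
  have e2 := h.b1 w y
  have e3 := h.b2 w y
  have := abs_add_le (D.b w a y) (D.b a w y)
  nlinarith

theorem psi_h1 [CompleteSpace V] (D : Data V K) (η : ℝ) (a : V) {v v₁ : ℝ → V}
    (hv : IsH1loc v v₁) : IsH1loc (fun t => psi D η a (v t)) (fun t => psi1 D a (v₁ t)) := by
  have h1 : IsH1loc (fun t => D.b (v t) a) (fun t => D.b (v₁ t) a) :=
    isH1loc_clm (D.b.flip a) hv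
  have h2 : IsH1loc (fun t => D.b a (v t)) (fun t => D.b a (v₁ t)) := isH1loc_clm (D.b a) hv
  exact isH1loc_const_add _ (isH1loc_add h1 h2)

/-- `B(Φ,Φ) = ∑ φⱼ² B(aⱼ,aⱼ)` -/
theorem b_Phi {n : ℕ} (D : Data V K) (a : Fin n → V) (p : Fin n → ℝ)
    (hp : ∀ i j, i ≠ j → p i * p j = 0) (y : V) :
    D.b (∑ i, p i • a i) (∑ i, p i • a i) y = ∑ i, p i ^ 2 * D.b (a i) (a i) y := by
  have h0 : D.b (∑ i, p i • a i) = ∑ i, p i • D.b (a i) := by
    rw [map_sum]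
    exact Finset.sum_congr rfl fun i _ => map_smul _ _ _
  have h1 : D.b (∑ i, p i • a i) (∑ i, p i • a i) y =
      ∑ i, ∑ j, p i * p j * D.b (a i) (a j) y := by
    rw [h0, ContinuousLinearMap.sum_apply, ContinuousLinearMap.sum_apply]
    refine Finset.sum_congr rfl fun i _ => ?_
    rw [ContinuousLinearMap.smul_apply, ContinuousLinearMap.smul_apply, map_sum,
      ContinuousLinearMap.sum_apply, smul_eq_mul, Finset.mul_sum]
    refine Finset.sum_congr rfl fun j _ => ?_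
    rw [map_smul, ContinuousLinearMap.smul_apply, smul_eq_mul]
    ring
  rw [h1]
  refine Finset.sum_congr rfl fun i _ => ?_
  rw [Finset.sum_eq_single i]
  · ring
  · intro j _ hj
    rw [hp i j (Ne.symm hj), zero_mul]
  · intro h; exact absurd (Finset.mem_univ i) h

/-! ### Integrability of `k₀ = ‖ι v₁‖ + σ(v₁)` -/

/-- the function `k₀` -/
def k0 (D : Data V K) (v₁ : ℝ → V) (t : ℝ) : ℝ := ‖D.ι (v₁ t)‖ + D.sig (v₁ t)

theorem k0_nonneg (D : Data V K) (v₁ : ℝ → V) (t : ℝ) : 0 ≤ k0 D v₁ t :=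
  add_nonneg (norm_nonneg _) (D.sig_nonneg _)

theorem k0_memLp {v v₁ : ℝ → V} (D : Data V K) (hv : IsH1loc v v₁) (T : ℝ) :
    MemLp (k0 D v₁) 2 (volume.restrict (Ioc 0 T)) :=
  ((D.ι.comp_memLp' (hv.memLp T)).norm).add (memLp_sig hv D T)

theorem k0_int {v v₁ : ℝ → V} (D : Data V K) (hv : IsH1loc v v₁) {a b : ℝ} (ha : 0 ≤ a)
    (hab : a ≤ b) : IntervalIntegrable (k0 D v₁) volume a b := by
  rw [intervalIntegrable_iff_integrableOn_Ioc_of_le hab]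
  have h1 : IntegrableOn (k0 D v₁) (Ioc 0 b) := (k0_memLp D hv b).integrable one_le_two
  exact h1.mono_set (Ioc_subset_Ioc_left ha)

theorem k0_int_sq {v v₁ : ℝ → V} (D : Data V K) (hv : IsH1loc v v₁) {a b : ℝ} (ha : 0 ≤ a)
    (hab : a ≤ b) : IntervalIntegrable (fun t => k0 D v₁ t ^ 2) volume a b := by
  rw [intervalIntegrable_iff_integrableOn_Ioc_of_le hab]
  have h1 : IntegrableOn (fun t => k0 D v₁ t ^ 2) (Ioc 0 b) := (k0_memLp D hv b).integrable_sq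
  exact h1.mono_set (Ioc_subset_Ioc_left ha)

/-- Oscillation lemma for `φ ψ(y)`. -/
theorem osc_psi [CompleteSpace V] (hOsc : Stmt_Osc) {D : Data V K} {η M m A : ℝ} {a : V}
    {v v₁ : ℝ → V} (hη : 0 ≤ η) (hM : 0 ≤ M) (hm : 0 ≤ m) (hA : 0 ≤ A) (hTF : TF D a M)
    (hv : IsH1loc v v₁) (h1 : ∀ t ∈ Icc (0 : ℝ) 1, ‖D.ι (v t)‖ ≤ m)
    (h2 : ∀ t ∈ Icc (0 : ℝ) 1, D.sig (v t) ≤ m) {N : ℕ} (hN : 0 < N) {g : ℝ → ℝ}
    (hg : ContinuousOn g (Icc 0 1)) (hgA : ∀ t ∈ Icc (0 : ℝ) 1, |g t| ≤ A)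
    (hg0 : ∀ l : ℕ, l < N → ∫ s in ((l : ℝ) / N)..(((l : ℝ) + 1) / N), g s = 0) (y : V) :
    ∀ t ∈ Icc (0 : ℝ) 1, |∫ s in (0 : ℝ)..t, g s * psi D η a (v s) y| ≤
      A * ((η * M + 2 * (M * m)) * ‖D.ι y‖ + M * (∫ t in (0 : ℝ)..1, k0 D v₁ t) * ‖D.ι y‖) / N := by
  have hpsi := psi_h1 D η a hv
  have hev : IsH1loc (fun t => psi D η a (v t) y) (fun t => psi1 D a (v₁ t) y) :=
    isH1loc_clm (ContinuousLinearMap.apply ℝ ℝ y) hpsi
  have hkI : ∀ s t : ℝ, 0 ≤ s → s ≤ t →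
      IntervalIntegrable (fun r => M * k0 D v₁ r * ‖D.ι y‖) volume s t := fun s t hs hst =>
    ((k0_int D hv hs hst).const_mul M).mul_const _
  refine hOsc N g (fun t => psi D η a (v t) y) (fun r => M * k0 D v₁ r * ‖D.ι y‖) A
    ((η * M + 2 * (M * m)) * ‖D.ι y‖) (M * (∫ t in (0 : ℝ)..1, k0 D v₁ t) * ‖D.ι y‖) hN hA
    (by positivity) hg hgA hg0 (hev.continuousOn.mono Icc_subset_Ici_self)
    (fun t ht => psi_bound hη hM hTF (h1 t ht) (h2 t ht) y) (hkI 0 1 le_rfl zero_le_one)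
    (fun t => by have := k0_nonneg D v₁ t; positivity) ?_ ?_
  · rw [intervalIntegral.integral_mul_const, intervalIntegral.integral_const_mul]
  · intro s t hs hst _
    have e := hev.sub_eq hs (hs.trans hst)
    show |psi D η a (v t) y - psi D η a (v s) y| ≤ _
    rw [e, ← Real.norm_eq_abs]
    refine intervalIntegral.norm_integral_le_of_norm_le hst ?_ (hkI s t hs hst)
    exact Eventually.of_forall fun r _ => by
      rw [Real.norm_eq_abs]; exact psi1_bound hTF (v₁ r) y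

/-- Oscillation lemma with a constant. -/
theorem osc_const (hOsc : Stmt_Osc) {A β B : ℝ} (hA : 0 ≤ A) (hβ : |β| ≤ B) {N : ℕ} (hN : 0 < N)
    {g : ℝ → ℝ} (hg : ContinuousOn g (Icc 0 1)) (hgA : ∀ t ∈ Icc (0 : ℝ) 1, |g t| ≤ A)
    (hg0 : ∀ l : ℕ, l < N → ∫ s in ((l : ℝ) / N)..(((l : ℝ) + 1) / N), g s = 0) :
    ∀ t ∈ Icc (0 : ℝ) 1, |∫ s in (0 : ℝ)..t, g s * β| ≤ A * B / N := by
  intro t ht
  have := hOsc N g (fun _ => β) (fun _ => 0) A B 0 hN hA ((abs_nonneg β).trans hβ) hg hgA hg0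
    continuousOn_const (fun _ _ => hβ) (by simp) (fun _ => le_rfl) (by simp)
    (fun s t _ _ _ => by simp) t ht
  simpa using this

/-- norm of a functional bounded by `C ‖ι y‖` -/
theorem norm_le_of_bound {D : Data V K} {l : V →L[ℝ] ℝ} {C : ℝ} (hC : 0 ≤ C)
    (h : ∀ y, |l y| ≤ C * ‖D.ι y‖) : ‖l‖ ≤ C * ‖D.ι‖ := by
  refine ContinuousLinearMap.opNorm_le_bound _ (by positivity) fun y => ?_
  rw [Real.norm_eq_abs]
  calc |l y| ≤ C * ‖D.ι y‖ := h y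
    _ ≤ C * (‖D.ι‖ * ‖y‖) := mul_le_mul_of_nonneg_left (D.ι.le_opNorm y) hC
    _ = C * ‖D.ι‖ * ‖y‖ := by ring

theorem sum_le_card {n : ℕ} {f : Fin n → ℝ} {C : ℝ} (h : ∀ j, f j ≤ C) : ∑ j, f j ≤ n * C := by
  have := Finset.sum_le_card_nsmul Finset.univ f C (fun j _ => h j)
  simpa using this

theorem abs_sum_le {n : ℕ} {f : Fin n → ℝ} {C : ℝ} (h : ∀ j, |f j| ≤ C) :
    |∑ j, f j| ≤ n * C :=
  (Finset.abs_sum_le_sum_abs _ _).trans (sum_le_card h)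

theorem norm_sum_le' {X : Type*} [NormedAddCommGroup X] {n : ℕ} {f : Fin n → X} {C : ℝ}
    (h : ∀ j, ‖f j‖ ≤ C) : ‖∑ j, f j‖ ≤ n * C :=
  (norm_sum_le _ _).trans (sum_le_card h)

theorem sig_sum_le {n : ℕ} (D : Data V K) {f : Fin n → V} {C : ℝ}
    (h : ∀ j, D.sig (f j) ≤ C) : D.sig (∑ j, f j) ≤ n * C := by
  have key : ∀ s : Finset (Fin n), D.sig (∑ j ∈ s, f j) ≤ ∑ j ∈ s, D.sig (f j) := by
    classical
    intro s
    induction s using Finset.induction_on with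
    | empty => simp [Data.sig]
    | insert i s hi ih =>
      rw [Finset.sum_insert hi, Finset.sum_insert hi]
      exact (D.sig_add_le _ _).trans (by linarith)
  exact (key _).trans (sum_le_card h)

/-- the numerical inequality -/
theorem num_big {A' k e C : ℝ} (hA'1 : 1 ≤ A') (hk1 : 1 ≤ k) (he0 : 0 ≤ e) (he1 : e ≤ 1)
    (hC0 : 0 < C) (hek : e * k ^ 4 = A') (hkC : 6 * C * A' ^ 3 < k) :
    C * (e * (A' + A' * k ^ 8 + k ^ 3 + A' * k ^ 8 * e + 1) + A' ^ 2) < k ^ 6 := by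
  have hk4 : 1 ≤ k ^ 4 := one_le_pow₀ hk1
  have hA'0 : 0 ≤ A' := by linarith
  have hA3 : 1 ≤ A' ^ 3 := one_le_pow₀ hA'1
  have hA2 : A' ^ 2 ≤ A' ^ 3 := pow_le_pow_right₀ hA'1 (by norm_num)
  have hA13 : A' ≤ A' ^ 3 := by
    calc A' = A' ^ 1 := (pow_one _).symm
      _ ≤ A' ^ 3 := pow_le_pow_right₀ hA'1 (by norm_num)
  have hX : A' ^ 3 ≤ A' ^ 3 * k ^ 4 := le_mul_of_one_le_right (by positivity) hk4
  have t1 : e * A' ≤ A' ^ 3 * k ^ 4 := by
    have : e * A' ≤ 1 * A' := mul_le_mul_of_nonneg_right he1 hA'0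
    linarith
  have t2 : e * (A' * k ^ 8) ≤ A' ^ 3 * k ^ 4 := by
    have e1 : e * (A' * k ^ 8) = A' ^ 2 * k ^ 4 := by
      calc e * (A' * k ^ 8) = (e * k ^ 4) * A' * k ^ 4 := by ring
        _ = A' ^ 2 * k ^ 4 := by rw [hek]; ring
    rw [e1]
    exact mul_le_mul_of_nonneg_right hA2 (by positivity)
  have t3 : e * k ^ 3 ≤ A' ^ 3 * k ^ 4 := by
    have h1 : k ^ 3 ≤ k ^ 4 := pow_le_pow_right₀ hk1 (by norm_num)
    have h2 : e * k ^ 3 ≤ A' := by
      rw [← hek]; exact mul_le_mul_of_nonneg_left h1 he0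
    linarith
  have t4 : e * (A' * k ^ 8 * e) ≤ A' ^ 3 * k ^ 4 := by
    have e1 : e * (A' * k ^ 8 * e) = A' ^ 3 := by
      calc e * (A' * k ^ 8 * e) = (e * k ^ 4) ^ 2 * A' := by ring
        _ = A' ^ 3 := by rw [hek]; ring
    rw [e1]; exact hX
  have t5 : e * 1 ≤ A' ^ 3 * k ^ 4 := by linarith
  have t6 : A' ^ 2 ≤ A' ^ 3 * k ^ 4 := by linarith
  have t7 : e * (A' + A' * k ^ 8 + k ^ 3 + A' * k ^ 8 * e + 1) + A' ^ 2 ≤
      6 * (A' ^ 3 * k ^ 4) := by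
    have e1 : e * (A' + A' * k ^ 8 + k ^ 3 + A' * k ^ 8 * e + 1) =
        e * A' + e * (A' * k ^ 8) + e * k ^ 3 + e * (A' * k ^ 8 * e) + e * 1 := by ring
    rw [e1]; linarith
  have t8 := mul_le_mul_of_nonneg_left t7 hC0.le
  have t9 : C * (6 * (A' ^ 3 * k ^ 4)) < k * k ^ 4 := by
    have : C * (6 * (A' ^ 3 * k ^ 4)) = 6 * C * A' ^ 3 * k ^ 4 := by ring
    rw [this]
    exact mul_lt_mul_of_pos_right hkC (by positivity)
  have t10 : k * k ^ 4 ≤ k ^ 6 := by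
    calc k * k ^ 4 = k ^ 5 := by ring
      _ ≤ k ^ 6 := pow_le_pow_right₀ hk1 (by norm_num)
  linarith

/-- the numerical inequality for the derivative of the residual -/
theorem num_RI {A' N E1 E2 I0 : ℝ} (hE1 : 0 ≤ E1) (hE2 : 0 ≤ E2) (hI : 0 ≤ I0) (hN : 1 ≤ N)
    (h2 : 2 * E1 + 2 * E2 * (I0 + 1) ≤ A') :
    2 * (N * E1) ^ 2 + 2 * E2 ^ 2 * I0 ≤ (A' * N) ^ 2 := by
  have h3 : (2 * E1 + 2 * E2 * (I0 + 1)) ^ 2 ≤ A' ^ 2 := pow_le_pow_left₀ (by positivity) h2 2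
  have h4 : 4 * E1 ^ 2 + 4 * E2 ^ 2 * (I0 + 1) ^ 2 ≤ (2 * E1 + 2 * E2 * (I0 + 1)) ^ 2 := by
    have h : 0 ≤ E1 * (E2 * (I0 + 1)) := by positivity
    have e : (2 * E1 + 2 * E2 * (I0 + 1)) ^ 2 = 4 * E1 ^ 2 + 4 * E2 ^ 2 * (I0 + 1) ^ 2 +
      8 * (E1 * (E2 * (I0 + 1))) := by ring
    rw [e]; linarith
  have h5 : E2 ^ 2 * I0 ≤ E2 ^ 2 * (I0 + 1) ^ 2 := by
    refine mul_le_mul_of_nonneg_left ?_ (sq_nonneg _)
    have e : (I0 + 1) ^ 2 = I0 ^ 2 + 2 * I0 + 1 := by ring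
    have := sq_nonneg I0
    rw [e]; linarith
  have h6 : 2 * E1 ^ 2 + 2 * E2 ^ 2 * I0 ≤ A' ^ 2 := by
    have := sq_nonneg E1
    have : 0 ≤ E2 ^ 2 * I0 := by positivity
    linarith
  have h7 : 1 ≤ N ^ 2 := one_le_pow₀ hN
  have h8 : 2 * E2 ^ 2 * I0 ≤ 2 * E2 ^ 2 * I0 * N ^ 2 :=
    le_mul_of_one_le_right (by positivity) h7
  calc 2 * (N * E1) ^ 2 + 2 * E2 ^ 2 * I0
      ≤ 2 * (N * E1) ^ 2 + 2 * E2 ^ 2 * I0 * N ^ 2 := by linarith
    _ = (2 * E1 ^ 2 + 2 * E2 ^ 2 * I0) * N ^ 2 := by ring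
    _ ≤ A' ^ 2 * N ^ 2 := mul_le_mul_of_nonneg_right h6 (by positivity)
    _ = (A' * N) ^ 2 := by ring

theorem num_pt {x a b : ℝ} (hx : 0 ≤ x) (h : x ≤ a + b) : x ^ 2 ≤ 2 * a ^ 2 + 2 * b ^ 2 := by
  have h3 : x ^ 2 ≤ (a + b) ^ 2 := pow_le_pow_left₀ hx h 2
  have := sq_nonneg (a - b)
  nlinarith

/-! ### The residual -/

/-- the residual -/
def RR {n : ℕ} (D : Data V K) (η : ℝ) (a : Fin n → V) (φ c : Fin n → ℝ → ℝ) (v : ℝ → V)
    (t : ℝ) : V →L[ℝ] ℝ :=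
  ∑ j, (φ j t • psi D η (a j) (v t) + (φ j t ^ 2 - c j t) • D.b (a j) (a j))

/-- its derivative -/
def RR1 {n : ℕ} (D : Data V K) (η : ℝ) (a : Fin n → V) (φ c₁ : Fin n → ℝ → ℝ) (v v₁ : ℝ → V)
    (t : ℝ) : V →L[ℝ] ℝ :=
  ∑ j, ((deriv (φ j) t • psi D η (a j) (v t) + φ j t • psi1 D (a j) (v₁ t)) +
    (2 * φ j t * deriv (φ j) t - c₁ j t) • D.b (a j) (a j))

theorem RR_h1 [CompleteSpace V] (hProd : Stmt_Prod) {n : ℕ} (D : Data V K) (η : ℝ)
    (a : Fin n → V) {φ c c₁ : Fin n → ℝ → ℝ} {v v₁ : ℝ → V} (hv : IsH1loc v v₁)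
    (hφ : ∀ j, ContDiff ℝ ∞ (φ j)) (hc : ∀ j, IsH1loc (c j) (c₁ j)) :
    IsH1loc (RR D η a φ c v) (RR1 D η a φ c₁ v v₁) := by
  refine isH1loc_sum Finset.univ fun j => isH1loc_add ?_ ?_
  · exact hProd ℝ (V →L[ℝ] ℝ) (V →L[ℝ] ℝ) (ContinuousLinearMap.lsmul ℝ ℝ) (φ j) (deriv (φ j))
      (fun t => psi D η (a j) (v t)) (fun t => psi1 D (a j) (v₁ t)) (isH1loc_smooth (hφ j))
      (psi_h1 D η (a j) hv)
  · exact isH1loc_clm (ContinuousLinearMap.toSpanSingleton ℝ (D.b (a j) (a j)))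
      (isH1loc_sub (isH1loc_sq (hφ j)) (hc j))

theorem eq_at {n : ℕ} (D : Data V K) (η : ℝ) (a : Fin n → V) (p p1 q : Fin n → ℝ) (v w : V)
    (f : V →L[ℝ] ℝ) (hp : ∀ i j, i ≠ j → p i * p j = 0)
    (h : ∀ y, ⟪D.ι w, D.ι y⟫ + η * D.a v y + D.b v v y =
      (f - ∑ j, q j • D.b (a j) (a j)) y) (y : V) :
    ⟪D.ι (w + ∑ j, p1 j • a j), D.ι y⟫ + η * D.a (v + ∑ j, p j • a j) y +
      D.b (v + ∑ j, p j • a j) (v + ∑ j, p j • a j) y =
    (f + ∑ j, p1 j • J D (a j)) y +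
      (∑ j, (p j • psi D η (a j) v + (p j ^ 2 - q j) • D.b (a j) (a j))) y := by
  have e1 : ⟪D.ι (w + ∑ j, p1 j • a j), D.ι y⟫ =
      ⟪D.ι w, D.ι y⟫ + ∑ j, p1 j * ⟪D.ι (a j), D.ι y⟫ := by
    rw [map_add, inner_add_left, map_sum, sum_inner]
    congr 1
    refine Finset.sum_congr rfl fun j _ => ?_
    rw [map_smul, real_inner_smul_left]
  have e2 : D.a (v + ∑ j, p j • a j) y = D.a v y + ∑ j, p j * D.a (a j) y := by
    rw [map_add, ContinuousLinearMap.add_apply, map_sum, ContinuousLinearMap.sum_apply]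
    congr 1
    refine Finset.sum_congr rfl fun j _ => ?_
    rw [map_smul, ContinuousLinearMap.smul_apply, smul_eq_mul]
  have e3 : D.b v (∑ j, p j • a j) y = ∑ j, p j * D.b v (a j) y := by
    rw [map_sum, ContinuousLinearMap.sum_apply]
    refine Finset.sum_congr rfl fun j _ => ?_
    rw [map_smul, ContinuousLinearMap.smul_apply, smul_eq_mul]
  have e4 : D.b (∑ j, p j • a j) v y = ∑ j, p j * D.b (a j) v y := by
    rw [map_sum, ContinuousLinearMap.sum_apply, ContinuousLinearMap.sum_apply]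
    refine Finset.sum_congr rfl fun j _ => ?_
    rw [map_smul, ContinuousLinearMap.smul_apply, ContinuousLinearMap.smul_apply, smul_eq_mul]
  have e5 : D.b (v + ∑ j, p j • a j) (v + ∑ j, p j • a j) y =
      D.b v v y + ∑ j, p j * D.b v (a j) y + ∑ j, p j * D.b (a j) v y +
        ∑ j, p j ^ 2 * D.b (a j) (a j) y := by
    rw [← e3, ← e4, ← b_Phi D a p hp y]
    simp only [map_add, add_apply]
    ring
  have e6 : (f + ∑ j, p1 j • J D (a j)) y = f y + ∑ j, p1 j * ⟪D.ι (a j), D.ι y⟫ := by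
    rw [ContinuousLinearMap.add_apply, ContinuousLinearMap.sum_apply]
    congr 1
  have e7 : (∑ j, (p j • psi D η (a j) v + (p j ^ 2 - q j) • D.b (a j) (a j))) y =
      ∑ j, (p j * (η * D.a (a j) y + (D.b v (a j) y + D.b (a j) v y)) +
        (p j ^ 2 - q j) * D.b (a j) (a j) y) := by
    rw [ContinuousLinearMap.sum_apply]
    refine Finset.sum_congr rfl fun j _ => ?_
    rw [ContinuousLinearMap.add_apply, ContinuousLinearMap.smul_apply,
      ContinuousLinearMap.smul_apply, psi_apply, smul_eq_mul, smul_eq_mul]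
  have e8 : (f - ∑ j, q j • D.b (a j) (a j)) y = f y - ∑ j, q j * D.b (a j) (a j) y := by
    rw [ContinuousLinearMap.sub_apply, ContinuousLinearMap.sum_apply]
    congr 1
  have e9 : ∑ j, (p j * (η * D.a (a j) y + (D.b v (a j) y + D.b (a j) v y)) +
        (p j ^ 2 - q j) * D.b (a j) (a j) y) =
      η * ∑ j, p j * D.a (a j) y + ∑ j, p j * D.b v (a j) y + ∑ j, p j * D.b (a j) v y +
        ∑ j, p j ^ 2 * D.b (a j) (a j) y - ∑ j, q j * D.b (a j) (a j) y := by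
    rw [Finset.mul_sum, ← Finset.sum_add_distrib, ← Finset.sum_add_distrib,
      ← Finset.sum_add_distrib, ← Finset.sum_sub_distrib]
    refine Finset.sum_congr rfl fun j _ => ?_
    ring
  have hh := h y
  rw [e8] at hh
  rw [e1, e2, e5, e6, e7, e9]
  linarith

/-! ### Bounds of the residual -/

/-- all hypotheses used for the bounds -/
structure Hyp {n : ℕ} (D : Data V K) (η M m A L : ℝ) (N : ℕ) (a : Fin n → V)
    (φ c c₁ : Fin n → ℝ → ℝ) (v v₁ : ℝ → V) : Prop where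
  hη : 0 ≤ η
  hM : 0 ≤ M
  hm : 0 ≤ m
  hA : 0 ≤ A
  hN : 0 < N
  tf : ∀ j, TF D (a j) M
  hv : IsH1loc v v₁
  vi : ∀ t ∈ Icc (0 : ℝ) 1, ‖D.ι (v t)‖ ≤ m
  vs : ∀ t ∈ Icc (0 : ℝ) 1, D.sig (v t) ≤ m
  ai : ∀ j, ‖D.ι (a j)‖ ≤ m
  si : ∀ j, D.sig (a j) ≤ m
  sm : ∀ j, ContDiff ℝ ∞ (φ j)
  hc : ∀ j, IsH1loc (c j) (c₁ j)
  cb : ∀ j t, |c j t| ≤ L
  c1b : ∀ j t, |c₁ j t| ≤ L
  bd : ∀ j t, |φ j t| ≤ A
  bd1 : ∀ j t, |deriv (φ j) t| ≤ A * N
  mean : ∀ j, ∀ l : ℕ, l < N → ∫ s in ((l : ℝ) / N)..(((l : ℝ) + 1) / N), φ j s = 0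
  sq : ∀ j, ∀ l : ℕ, l < N → ∫ s in ((l : ℝ) / N)..(((l : ℝ) + 1) / N), (φ j s ^ 2 - c j s) = 0

section
variable {n : ℕ} {D : Data V K} {η M m A L : ℝ} {N : ℕ} {a : Fin n → V}
    {φ c c₁ : Fin n → ℝ → ℝ} {v v₁ : ℝ → V}

theorem RR_apply (t : ℝ) (y : V) : RR D η a φ c v t y =
    ∑ j, (φ j t * psi D η (a j) (v t) y + (φ j t ^ 2 - c j t) * D.b (a j) (a j) y) := by
  unfold RR
  rw [ContinuousLinearMap.sum_apply]
  refine Finset.sum_congr rfl fun j _ => ?_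
  rw [ContinuousLinearMap.add_apply, ContinuousLinearMap.smul_apply,
    ContinuousLinearMap.smul_apply, smul_eq_mul, smul_eq_mul]

theorem Hyp.sqb (h : Hyp D η M m A L N a φ c c₁ v v₁) (j : Fin n) (t : ℝ) :
    |φ j t ^ 2 - c j t| ≤ A ^ 2 + L := by
  have h1 := h.bd j t
  have h2 := h.cb j t
  have h3 : |φ j t ^ 2| ≤ A ^ 2 := by
    rw [abs_pow]; exact pow_le_pow_left₀ (abs_nonneg _) h1 2
  exact (abs_sub _ _).trans (add_le_add h3 h2)

theorem Hyp.L0 (h : Hyp D η M m A L N a φ c c₁ v v₁) (j : Fin n) : 0 ≤ L :=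
  (abs_nonneg _).trans (h.cb j 0)

theorem Hyp.beta (h : Hyp D η M m A L N a φ c c₁ v v₁) (j : Fin n) (y : V) :
    |D.b (a j) (a j) y| ≤ M * m * ‖D.ι y‖ := by
  have h1 := (h.tf j).b1 (a j) y
  have h2 := h.ai j
  have h3 := h.hM
  exact h1.trans (by gcongr)

theorem Hyp.psi_b (h : Hyp D η M m A L N a φ c c₁ v v₁) (j : Fin n) {t : ℝ}
    (ht : t ∈ Icc (0 : ℝ) 1) (y : V) :
    |psi D η (a j) (v t) y| ≤ (η * M + 2 * (M * m)) * ‖D.ι y‖ :=
  psi_bound h.hη h.hM (h.tf j) (h.vi t ht) (h.vs t ht) y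

theorem Hyp.RR_bound (h : Hyp D η M m A L N a φ c c₁ v v₁) {t : ℝ} (ht : t ∈ Icc (0 : ℝ) 1)
    (y : V) : |RR D η a φ c v t y| ≤
      n * ((A * (η * M + 2 * (M * m)) + (A ^ 2 + L) * (M * m)) * ‖D.ι y‖) := by
  rw [RR_apply]
  refine abs_sum_le fun j => ?_
  have h1 : |φ j t * psi D η (a j) (v t) y| ≤ A * ((η * M + 2 * (M * m)) * ‖D.ι y‖) := by
    rw [abs_mul]
    exact mul_le_mul (h.bd j t) (h.psi_b j ht y) (abs_nonneg _) h.hA
  have h2 : |(φ j t ^ 2 - c j t) * D.b (a j) (a j) y| ≤ (A ^ 2 + L) * (M * m * ‖D.ι y‖) := by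
    rw [abs_mul]
    exact mul_le_mul (h.sqb j t) (h.beta j y) (abs_nonneg _) (by have := h.L0 j; positivity)
  have := abs_add_le (φ j t * psi D η (a j) (v t) y) ((φ j t ^ 2 - c j t) * D.b (a j) (a j) y)
  linarith

theorem Hyp.RR1_bound (h : Hyp D η M m A L N a φ c c₁ v v₁) {t : ℝ} (ht : t ∈ Icc (0 : ℝ) 1) :
    ‖RR1 D η a φ c₁ v v₁ t‖ ≤
      n * ((A * N * ((η * M + 2 * (M * m)) * ‖D.ι‖) + A * (M * k0 D v₁ t * ‖D.ι‖)) +
        (2 * A * (A * N) + L) * (M * m * ‖D.ι‖)) := by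
  unfold RR1
  have hM := h.hM
  have hm := h.hm
  have hA := h.hA
  have hη := h.hη
  have hk := k0_nonneg D v₁ t
  refine norm_sum_le' fun j => ?_
  have hL := h.L0 j
  have e1 : ‖psi D η (a j) (v t)‖ ≤ (η * M + 2 * (M * m)) * ‖D.ι‖ :=
    norm_le_of_bound (by positivity) (h.psi_b j ht)
  have e2 : ‖psi1 D (a j) (v₁ t)‖ ≤ M * k0 D v₁ t * ‖D.ι‖ :=
    norm_le_of_bound (by positivity) (fun y => psi1_bound (h.tf j) (v₁ t) y)
  have e3 : ‖D.b (a j) (a j)‖ ≤ M * m * ‖D.ι‖ :=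
    norm_le_of_bound (by positivity) (h.beta j)
  have f1 : ‖deriv (φ j) t • psi D η (a j) (v t)‖ ≤
      A * N * ((η * M + 2 * (M * m)) * ‖D.ι‖) := by
    rw [norm_smul, Real.norm_eq_abs]
    exact mul_le_mul (h.bd1 j t) e1 (norm_nonneg _) (by positivity)
  have f2 : ‖φ j t • psi1 D (a j) (v₁ t)‖ ≤ A * (M * k0 D v₁ t * ‖D.ι‖) := by
    rw [norm_smul, Real.norm_eq_abs]
    exact mul_le_mul (h.bd j t) e2 (norm_nonneg _) hA
  have f3 : ‖(2 * φ j t * deriv (φ j) t - c₁ j t) • D.b (a j) (a j)‖ ≤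
      (2 * A * (A * N) + L) * (M * m * ‖D.ι‖) := by
    rw [norm_smul, Real.norm_eq_abs]
    have g1 : |2 * φ j t * deriv (φ j) t| ≤ 2 * A * (A * N) := by
      rw [abs_mul, abs_mul, abs_two]
      exact mul_le_mul (mul_le_mul_of_nonneg_left (h.bd j t) (by norm_num)) (h.bd1 j t)
        (abs_nonneg _) (by positivity)
    have g2 : |2 * φ j t * deriv (φ j) t - c₁ j t| ≤ 2 * A * (A * N) + L :=
      (abs_sub _ _).trans (add_le_add g1 (h.c1b j t))
    exact mul_le_mul g2 e3 (norm_nonneg _) (by positivity)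
  exact (norm_add_le _ _).trans (add_le_add ((norm_add_le _ _).trans (add_le_add f1 f2)) f3)

theorem Hyp.rho_bound [CompleteSpace V] (hOsc : Stmt_Osc) (hProd : Stmt_Prod)
    (h : Hyp D η M m A L N a φ c c₁ v v₁)
    {t : ℝ} (ht : t ∈ Icc (0 : ℝ) 1) (y : V) :
    |(∫ s in (0 : ℝ)..t, RR D η a φ c v s) y| ≤
      n * ((A * (η * M + 2 * (M * m) + M * ∫ t in (0 : ℝ)..1, k0 D v₁ t) +
        (A ^ 2 + L) * (M * m)) * ‖D.ι y‖ / N) := by
  have hcont := (RR_h1 hProd D η a h.hv h.sm h.hc).continuousOn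
  have hint : IntervalIntegrable (RR D η a φ c v) volume 0 t :=
    (hcont.mono Icc_subset_Ici_self).intervalIntegrable_of_Icc ht.1
  rw [ContinuousLinearMap.intervalIntegral_apply hint]
  have hpsic : ∀ j, ContinuousOn (fun s => psi D η (a j) (v s) y) (Ici 0) := fun j =>
    (isH1loc_clm (ContinuousLinearMap.apply ℝ ℝ y) (psi_h1 D η (a j) h.hv)).continuousOn
  have hφc : ∀ j, Continuous (φ j) := fun j => (h.sm j).continuous
  have hcc : ∀ j, ContinuousOn (c j) (Ici 0) := fun j => (h.hc j).continuousOn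
  have i1 : ∀ j, IntervalIntegrable (fun s => φ j s * psi D η (a j) (v s) y) volume 0 t :=
    fun j => (((hφc j).continuousOn.mul (hpsic j)).mono
      Icc_subset_Ici_self).intervalIntegrable_of_Icc ht.1
  have i2 : ∀ j, IntervalIntegrable (fun s => (φ j s ^ 2 - c j s) * D.b (a j) (a j) y)
      volume 0 t := fun j =>
    (((((hφc j).pow 2).continuousOn.sub (hcc j)).mul continuousOn_const).mono
      Icc_subset_Ici_self).intervalIntegrable_of_Icc ht.1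
  have e1 : ∫ s in (0 : ℝ)..t, RR D η a φ c v s y =
      ∑ j, ((∫ s in (0 : ℝ)..t, φ j s * psi D η (a j) (v s) y) +
        ∫ s in (0 : ℝ)..t, (φ j s ^ 2 - c j s) * D.b (a j) (a j) y) := by
    simp_rw [RR_apply]
    rw [intervalIntegral.integral_finset_sum (fun j _ => (i1 j).add (i2 j))]
    exact Finset.sum_congr rfl fun j _ => intervalIntegral.integral_add (i1 j) (i2 j)
  rw [e1]
  refine abs_sum_le fun j => ?_
  have hsub : Icc (0 : ℝ) 1 ⊆ Ici 0 := Icc_subset_Ici_self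
  have b1 := osc_psi hOsc h.hη h.hM h.hm h.hA (h.tf j) h.hv h.vi h.vs h.hN
    (hφc j).continuousOn (fun s _ => h.bd j s) (h.mean j) y t ht
  have b2 := osc_const hOsc (A := A ^ 2 + L) (β := D.b (a j) (a j) y) (B := M * m * ‖D.ι y‖)
    (by have := h.L0 j; positivity) (h.beta j y) h.hN
    ((((hφc j).pow 2).continuousOn.sub (hcc j)).mono hsub) (fun s _ => h.sqb j s) (h.sq j) t ht
  have b3 := abs_add_le (∫ s in (0 : ℝ)..t, φ j s * psi D η (a j) (v s) y)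
    (∫ s in (0 : ℝ)..t, (φ j s ^ 2 - c j s) * D.b (a j) (a j) y)
  have e2 : A * ((η * M + 2 * (M * m)) * ‖D.ι y‖ + M * (∫ t in (0 : ℝ)..1, k0 D v₁ t) * ‖D.ι y‖)
      / N + (A ^ 2 + L) * (M * m * ‖D.ι y‖) / N =
      (A * (η * M + 2 * (M * m) + M * ∫ t in (0 : ℝ)..1, k0 D v₁ t) +
        (A ^ 2 + L) * (M * m)) * ‖D.ι y‖ / N := by ring
  exact b3.trans ((add_le_add b1 b2).trans (le_of_eq e2))

end

end

end AvgX

open AvgX OpenX in
theorem avg_proof (hStab : Stmt_Stab) (hCorr : Stmt_Corr) (hOsc : Stmt_Osc)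
    (hCells : Stmt_Cells) (hProd : Stmt_Prod) : Stmt_Avg := by
  intro V K _ _ _ _ _ D η f f₁ v v₁ h₀ δ n a M0 c c₁ P L hη hδ hf hv hcpt hTF0 hc hc0 hcL hc1 hP
  -- `M ≥ 0`
  set M : ℝ := max M0 0 with hMdef
  have hM : 0 ≤ M := le_max_right _ _
  have hTF : ∀ j, TF D (a j) M := fun j => TF.mono (hTF0 j) (le_max_left _ _)
  obtain ⟨A, hA, hcells⟩ := hCells n P c L hP
    (fun j => (hc j).continuousOn.mono Icc_subset_Ici_self) hc0 hcL
  -- the bound `m`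
  obtain ⟨m1, hm1⟩ := (isCompact_Icc (a := (0 : ℝ)) (b := 1)).exists_bound_of_continuousOn
    ((continuousOn_sig hv.h1 D).mono Icc_subset_Ici_self)
  have hιc : ContinuousOn (fun t => ‖D.ι (v t)‖) (Ici 0) :=
    (D.ι.continuous.comp_continuousOn hv.h1.continuousOn).norm
  obtain ⟨m2, hm2⟩ := (isCompact_Icc (a := (0 : ℝ)) (b := 1)).exists_bound_of_continuousOn
    (hιc.mono Icc_subset_Ici_self)
  have hm10 : 0 ≤ m1 := (norm_nonneg _).trans (hm1 0 ⟨le_rfl, zero_le_one⟩)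
  have hm20 : 0 ≤ m2 := (norm_nonneg _).trans (hm2 0 ⟨le_rfl, zero_le_one⟩)
  set m : ℝ := m1 + m2 + ∑ j, (‖D.ι (a j)‖ + D.sig (a j)) with hmdef
  have hsum0 : ∀ j, 0 ≤ ‖D.ι (a j)‖ + D.sig (a j) := fun j =>
    add_nonneg (norm_nonneg _) (D.sig_nonneg _)
  have hsum : 0 ≤ ∑ j, (‖D.ι (a j)‖ + D.sig (a j)) := Finset.sum_nonneg fun j _ => hsum0 j
  have hsj : ∀ j, ‖D.ι (a j)‖ + D.sig (a j) ≤ ∑ j, (‖D.ι (a j)‖ + D.sig (a j)) := fun j =>
    Finset.single_le_sum (fun j _ => hsum0 j) (Finset.mem_univ j)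
  have hm : 0 ≤ m := by positivity
  have hvs : ∀ t ∈ Icc (0 : ℝ) 1, D.sig (v t) ≤ m := by
    intro t ht
    have := hm1 t ht
    rw [Real.norm_of_nonneg (D.sig_nonneg _)] at this
    linarith
  have hvi : ∀ t ∈ Icc (0 : ℝ) 1, ‖D.ι (v t)‖ ≤ m := by
    intro t ht
    have := hm2 t ht
    rw [norm_norm] at this
    linarith
  have hai : ∀ j, ‖D.ι (a j)‖ ≤ m := by
    intro j
    have h1 := hsj j
    have h2 := D.sig_nonneg (a j)
    linarith
  have hsi : ∀ j, D.sig (a j) ≤ m := by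
    intro j
    have h1 := hsj j
    have h2 := norm_nonneg (D.ι (a j))
    linarith
  -- the integrals
  obtain ⟨K0, hK0⟩ : ∃ K0, K0 = ∫ t in (0 : ℝ)..1, k0 D v₁ t := ⟨_, rfl⟩
  obtain ⟨I0, hI0⟩ : ∃ I0, I0 = ∫ t in (0 : ℝ)..1, k0 D v₁ t ^ 2 := ⟨_, rfl⟩
  have hK00 : 0 ≤ K0 := by
    rw [hK0]; exact intervalIntegral.integral_nonneg zero_le_one fun t _ => k0_nonneg D v₁ t
  have hI00 : 0 ≤ I0 := by
    rw [hI0]; exact intervalIntegral.integral_nonneg zero_le_one fun t _ => sq_nonneg _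
  -- the constants
  obtain ⟨B0, hB0⟩ : ∃ B0, B0 = η * M + 2 * (M * m) := ⟨_, rfl⟩
  have hB00 : 0 ≤ B0 := by rw [hB0]; positivity
  obtain ⟨E0, hE0⟩ : ∃ E0, E0 = (n : ℝ) * (A * (B0 + M * K0) + (A ^ 2 + |L|) * (M * m)) :=
    ⟨_, rfl⟩
  obtain ⟨E1, hE1⟩ : ∃ E1, E1 = (n : ℝ) * (A * (B0 * ‖D.ι‖) +
    (2 * A ^ 2 + |L|) * (M * m * ‖D.ι‖)) := ⟨_, rfl⟩
  obtain ⟨E2, hE2⟩ : ∃ E2, E2 = (n : ℝ) * (A * (M * ‖D.ι‖)) := ⟨_, rfl⟩
  have hE00 : 0 ≤ E0 := by rw [hE0]; positivity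
  have hE10 : 0 ≤ E1 := by rw [hE1]; positivity
  have hE20 : 0 ≤ E2 := by rw [hE2]; positivity
  obtain ⟨A', hA'⟩ : ∃ A', A' = 1 + E0 + 2 * E1 + 2 * E2 * (I0 + 1) + n * (A * m) := ⟨_, rfl⟩
  have hnAm : 0 ≤ (n : ℝ) * (A * m) := by positivity
  have hE2I : 0 ≤ 2 * E2 * (I0 + 1) := by positivity
  have hA'1 : 1 ≤ A' := by rw [hA']; linarith
  have hA'0 : 0 ≤ A' := by linarith
  set Is : ℝ := ∫ t in (0 : ℝ)..1, D.sig (v₁ t) ^ 2 with hIs
  set CS : ℝ := max (m + n * (A * m)) Is with hCS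
  have hCS0 : 0 ≤ CS := (by positivity : (0 : ℝ) ≤ m + n * (A * m)).trans (le_max_left _ _)
  obtain ⟨C, hC1, hC⟩ := hStab V K D η 1 CS hη one_pos hCS0
  have hC0 : 0 < C := by linarith
  -- the number `k`
  obtain ⟨k, hk⟩ := exists_nat_ge (A' + (6 * C * A' ^ 3 + 1) + C * A' / δ)
  have hkδ : 0 ≤ C * A' / δ := by positivity
  have hk3 : 0 ≤ 6 * C * A' ^ 3 := by positivity
  have hk1 : (1 : ℝ) ≤ k := by linarith
  have hkA : A' ≤ k := by linarith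
  have hkC : 6 * C * A' ^ 3 < k := by linarith
  have hkd : C * A' / δ ≤ k := by linarith
  have hk0 : (0 : ℝ) < k := by linarith
  have hkn : 0 < k := by exact_mod_cast hk0
  obtain ⟨N, hN⟩ : ∃ N : ℕ, N = k ^ 8 := ⟨_, rfl⟩
  have hNpos : 0 < N := by rw [hN]; positivity
  have hNr : (N : ℝ) = (k : ℝ) ^ 8 := by rw [hN]; push_cast; ring
  have hN1 : (1 : ℝ) ≤ N := by exact_mod_cast hNpos
  obtain ⟨φ, hφ⟩ := hcells N hNpos
  have hcabs : ∀ j t, |c j t| ≤ |L| := by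
    intro j t
    rw [abs_of_nonneg (hc0 j t)]
    exact (hcL j t).trans (le_abs_self L)
  have H : Hyp D η M m A |L| N a φ c c₁ v v₁ :=
    { hη := hη.le, hM := hM, hm := hm, hA := hA, hN := hNpos, tf := hTF, hv := hv.h1, vi := hvi,
      vs := hvs, ai := hai, si := hsi, sm := hφ.burst.smooth, hc := hc, cb := hcabs,
      c1b := fun j t => (hc1 j t).trans (le_abs_self L), bd := hφ.bd, bd1 := hφ.bd1,
      mean := hφ.mean, sq := hφ.sq }
  -- the residual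
  have hR := RR_h1 hProd D η a hv.h1 H.sm hc
  have hRb : ∀ t ∈ Icc (0 : ℝ) 1, ∀ y, |RR D η a φ c v t y| ≤ A' * ‖D.ι y‖ := by
    intro t ht y
    refine (H.RR_bound ht y).trans ?_
    rw [← mul_assoc]
    refine mul_le_mul_of_nonneg_right ?_ (norm_nonneg _)
    rw [← hB0]
    have h1 : (n : ℝ) * (A * B0 + (A ^ 2 + |L|) * (M * m)) ≤ E0 := by
      rw [hE0]
      refine mul_le_mul_of_nonneg_left ?_ (by positivity)
      have h5 : 0 ≤ A * (M * K0) := by positivity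
      have h6 : A * (B0 + M * K0) = A * B0 + A * (M * K0) := by ring
      rw [h6]; linarith
    rw [hA']; linarith
  have hρ : IsH1loc (fun t => ∫ s in (0 : ℝ)..t, RR D η a φ c v s) (RR D η a φ c v) :=
    isH1loc_prim hR.continuousOn
  have hh0 : (0 : ℝ) < 1 / N := by positivity
  have hh1 : (1 : ℝ) / N ≤ 1 := by
    rw [div_le_one (by linarith)]; exact hN1
  have hρb : ∀ t ∈ Icc (0 : ℝ) 1, ∀ y, |(∫ s in (0 : ℝ)..t, RR D η a φ c v s) y| ≤
      A' * (1 / N) * ‖D.ι y‖ := by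
    intro t ht y
    refine (H.rho_bound hOsc hProd ht y).trans ?_
    rw [← hB0, ← hK0]
    have e : (n : ℝ) * ((A * (B0 + M * K0) + (A ^ 2 + |L|) * (M * m)) * ‖D.ι y‖ / N) =
        E0 * (1 / N) * ‖D.ι y‖ := by rw [hE0]; ring
    rw [e]
    have h1 : E0 ≤ A' := by rw [hA']; linarith
    gcongr
  obtain ⟨y, y₁, hy, hy0, hys, hyE⟩ := hCorr V K D A' (1 / N) 1 _ _ hA'0 hh0 hh1 hρ (by simp)
    hρb hRb
  have hsq : √(1 / (N : ℝ)) = 1 / (k : ℝ) ^ 4 := by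
    rw [hNr]
    have : (1 : ℝ) / (k : ℝ) ^ 8 = (1 / (k : ℝ) ^ 4) ^ 2 := by field_simp
    rw [this, Real.sqrt_sq (by positivity)]
  rw [hsq] at hys hyE
  -- the approximate solution
  obtain ⟨e, he⟩ : ∃ e, e = A' * (1 / (k : ℝ) ^ 4) := ⟨_, rfl⟩
  rw [← he] at hys hyE
  have he0 : 0 ≤ e := by rw [he]; positivity
  have hQ : IsH1loc (fun t => v t + ∑ j, φ j t • a j)
      (fun t => v₁ t + ∑ j, deriv (φ j) t • a j) :=
    isH1loc_add hv.h1 (isH1loc_sum Finset.univ fun j =>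
      isH1loc_clm (ContinuousLinearMap.toSpanSingleton ℝ (a j)) (isH1loc_smooth (H.sm j)))
  have hg : IsH1loc (fun t => f t + ∑ j, deriv (φ j) t • J D (a j))
      (fun t => f₁ t + ∑ j, deriv (deriv (φ j)) t • J D (a j)) :=
    isH1loc_add hf (isH1loc_sum Finset.univ fun j =>
      isH1loc_clm (ContinuousLinearMap.toSpanSingleton ℝ (J D (a j)))
        (isH1loc_smooth ((contDiff_infty_iff_deriv.1 (H.sm j)).2)))
  have hApp : Approx D η CS 1 e A' (A' * N) (A' * N)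
      (fun t => f t + ∑ j, deriv (φ j) t • J D (a j)) (fun t => v t + ∑ j, φ j t • a j)
      (fun t => v₁ t + ∑ j, deriv (φ j) t • a j) (RR D η a φ c v) (RR1 D η a φ c₁ v v₁) y y₁
      (fun t => D.sig (v₁ t)) := by
    refine ⟨hQ, ?_, ?_, ?_, fun t => D.sig_nonneg _, memLp_sig hv.h1 D 1, le_max_right _ _,
      hR, ?_, ?_, hy, hy0, hys, ?_⟩
    · filter_upwards [hv.eq] with t ht y
      exact eq_at D η a (fun j => φ j t) (fun j => deriv (φ j) t) (fun j => c j t) (v t) (v₁ t)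
        (f t) (fun i j hij => hφ.disj i j hij t) ht y
    · intro t ht
      refine (D.sig_add_le _ _).trans ?_
      have h1 : D.sig (∑ j, φ j t • a j) ≤ n * (A * m) := by
        refine sig_sum_le D fun j => ?_
        rw [D.sig_smul]
        exact mul_le_mul (H.bd j t) (hsi j) (D.sig_nonneg _) hA
      exact (add_le_add (hvs t ht) h1).trans (le_max_left _ _)
    · refine Eventually.of_forall fun t => ?_
      refine (D.sig_add_le _ _).trans (add_le_add le_rfl ?_)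
      have h1 : D.sig (∑ j, deriv (φ j) t • a j) ≤ n * (A * N * m) := by
        refine sig_sum_le D fun j => ?_
        rw [D.sig_smul]
        exact mul_le_mul (H.bd1 j t) (hsi j) (D.sig_nonneg _) (by positivity)
      have h2 : (n : ℝ) * (A * N * m) = n * (A * m) * N := by ring
      have h3 : (n : ℝ) * (A * m) ≤ A' := by rw [hA']; linarith
      rw [h2] at h1
      exact h1.trans (mul_le_mul_of_nonneg_right h3 (by positivity))
    · -- the integral of `‖R₁‖²`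
      have hb : ∀ t ∈ Icc (0 : ℝ) 1, ‖RR1 D η a φ c₁ v v₁ t‖ ^ 2 ≤
          2 * (N * E1) ^ 2 + 2 * E2 ^ 2 * k0 D v₁ t ^ 2 := by
        intro t ht
        have h1 := H.RR1_bound ht
        rw [← hB0] at h1
        have hk := k0_nonneg D v₁ t
        have h2 : (n : ℝ) * ((A * N * (B0 * ‖D.ι‖) + A * (M * k0 D v₁ t * ‖D.ι‖)) +
            (2 * A * (A * N) + |L|) * (M * m * ‖D.ι‖)) ≤ N * E1 + E2 * k0 D v₁ t := by
          have e1 : N * E1 + E2 * k0 D v₁ t - (n : ℝ) * ((A * N * (B0 * ‖D.ι‖) +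
              A * (M * k0 D v₁ t * ‖D.ι‖)) + (2 * A * (A * N) + |L|) * (M * m * ‖D.ι‖)) =
              n * (|L| * (M * m * ‖D.ι‖)) * (N - 1) := by
            rw [hE1, hE2]; ring
          have e2 : 0 ≤ (n : ℝ) * (|L| * (M * m * ‖D.ι‖)) * (N - 1) :=
            mul_nonneg (by positivity) (by linarith)
          linarith
        have h3 := num_pt (norm_nonneg _) (h1.trans h2)
        have h4 : 2 * (E2 * k0 D v₁ t) ^ 2 = 2 * E2 ^ 2 * k0 D v₁ t ^ 2 := by ring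
        rw [h4] at h3
        exact h3
      have h1 : ∫ t in (0 : ℝ)..1, ‖RR1 D η a φ c₁ v v₁ t‖ ^ 2 ≤
          ∫ t in (0 : ℝ)..1, (2 * (N * E1) ^ 2 + 2 * E2 ^ 2 * k0 D v₁ t ^ 2) :=
        intervalIntegral.integral_mono_on zero_le_one
          (intervalIntegrable_norm_sq hR le_rfl zero_le_one)
          (intervalIntegrable_const.add ((k0_int_sq D hv.h1 le_rfl zero_le_one).const_mul _)) hb
      rw [intervalIntegral.integral_add intervalIntegrable_const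
        ((k0_int_sq D hv.h1 le_rfl zero_le_one).const_mul _),
        intervalIntegral.integral_const, intervalIntegral.integral_const_mul, ← hI0, sub_zero,
        one_smul] at h1
      refine h1.trans (num_RI hE10 hE20 hI00 hN1 ?_)
      rw [hA']; linarith
    · intro t ht y
      refine (hRb t ht y).trans (mul_le_mul_of_nonneg_left ?_ hA'0)
      have h1 := D.sig_nonneg y
      have h2 : 0 ≤ √t * D.sig y := by positivity
      linarith
    · filter_upwards [ae_restrict_mem measurableSet_Ioc] with t ht y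
      exact hyE t ⟨ht.1.le, ht.2⟩ y
  -- values at `0`
  have hφ0 : ∀ j, φ j 0 = 0 ∧ deriv (φ j) 0 = 0 := by
    intro j
    have h1 : (0 : ℝ) ∉ tsupport (φ j) := fun h => by
      have := hφ.burst.supp j h
      exact lt_irrefl _ this.1
    refine ⟨image_eq_zero_of_notMem_tsupport h1, ?_⟩
    have h2 : (0 : ℝ) ∉ tsupport (deriv (φ j)) := fun h => h1 (tsupport_deriv_subset h)
    exact image_eq_zero_of_notMem_tsupport h2
  have hcpt' : Cpt D η ((fun t => f t + ∑ j, deriv (φ j) t • J D (a j)) 0)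
      ((fun t => v t + ∑ j, φ j t • a j) 0) h₀ := by
    have e1 : (fun t => f t + ∑ j, deriv (φ j) t • J D (a j)) 0 = f 0 := by
      simp [(hφ0 _).2]
    have e2 : (fun t => v t + ∑ j, φ j t • a j) 0 = v 0 := by
      simp [(hφ0 _).1]
    rw [e1, e2]
    exact hcpt
  -- the numerical inequalities
  have hk4 : (1 : ℝ) ≤ (k : ℝ) ^ 4 := one_le_pow₀ hk1
  have hek : e * (k : ℝ) ^ 4 = A' := by rw [he]; field_simp
  have hkk4 : (k : ℝ) ≤ (k : ℝ) ^ 4 := by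
    calc (k : ℝ) = (k : ℝ) ^ 1 := (pow_one _).symm
      _ ≤ (k : ℝ) ^ 4 := pow_le_pow_right₀ hk1 (by norm_num)
  have he1 : e ≤ 1 := by
    have : e * (k : ℝ) ^ 4 ≤ 1 * (k : ℝ) ^ 4 := by rw [hek]; linarith
    exact le_of_mul_le_mul_right this (by positivity)
  have hXe : (k : ℝ) ^ 6 * e ^ 2 ≤ 1 := by
    have h1 : (k : ℝ) ^ 6 * e ^ 2 * (k : ℝ) ^ 2 = A' ^ 2 := by
      rw [← hek]; ring
    have h2 : A' ^ 2 ≤ 1 * (k : ℝ) ^ 2 := by
      rw [one_mul]; exact pow_le_pow_left₀ hA'0 hkA 2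
    rw [← h1] at h2
    exact le_of_mul_le_mul_right h2 (by positivity)
  have hsX : √((k : ℝ) ^ 6) = (k : ℝ) ^ 3 := by
    have : (k : ℝ) ^ 6 = ((k : ℝ) ^ 3) ^ 2 := by ring
    rw [this, Real.sqrt_sq (by positivity)]
  have hbig : C * (e * (A' + A' * N + √((k : ℝ) ^ 6) + A' * N * e + 1) + A' ^ 2) <
      (k : ℝ) ^ 6 := by
    rw [hsX, hNr]
    exact num_big hA'1 hk1 he0 he1 hC0 hek hkC
  obtain ⟨u, w, hu, hu0, hEB, hb⟩ := hC e A' (A' * N) (A' * N) ((k : ℝ) ^ 6) _ _ _ _ _ _ _ _ _ h₀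
    he0 he1 hA'0 (by positivity) (by positivity) (by positivity) hXe hbig hg hApp hcpt'
  refine ⟨φ, u, w, hφ.burst, hu, ?_, hEB, fun t ht => ?_⟩
  · rw [hu0]; simp [(hφ0 _).1]
  · have h1 := (hb t ht).1
    have h2 : u t - v t - ∑ j, φ j t • a j = u t - (v t + ∑ j, φ j t • a j) := by abel
    rw [h2]
    refine h1.trans ?_
    have h3 : C * e * (k : ℝ) ^ 4 ≤ δ * (k : ℝ) ^ 4 := by
      rw [mul_assoc, hek]
      rw [div_le_iff₀ hδ] at hkd
      have h4 : (k : ℝ) * δ ≤ (k : ℝ) ^ 4 * δ := mul_le_mul_of_nonneg_right hkk4 hδ.le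
      rw [mul_comm δ]
      exact hkd.trans h4
    exact le_of_mul_le_mul_right h3 (by positivity)

end Pool.Agent.NSV
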