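import Pool.Agent.NSV.Stmts

/-!
# MP_fd8964_an, Theorem V: small lemmas on `IsH1loc`, `LF`, `TF`
-/

open MeasureTheory Set Filter Topology
open scoped RealInnerProductSpace ContDiff ENNReal

noncomputable section

namespace Pool.Agent.NSV

open Pool.Agent.NSD Pool.Agent.NSK

section
variable {X Y : Type*} [NormedAddCommGroup X] [NormedSpace ℝ X] [NormedAddCommGroup Y] [NormedSpace ℝ Y]

theorem h1_add {f f₁ g g₁ : ℝ → X} (hf : IsH1loc f f₁) (hg : IsH1loc g g₁) :
    IsH1loc (fun t => f t + g t) (fun t => f₁ t + g₁ t) := by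
  refine ⟨fun T => (hf.memLp T).add (hg.memLp T), fun t ht => ?_⟩
  rw [intervalIntegral.integral_add (hf.intervalIntegrable le_rfl ht)
    (hg.intervalIntegrable le_rfl ht)]
  have e1 := hf.eq t ht
  have e2 := hg.eq t ht
  rw [e1, e2]
  abel

theorem h1_zero : IsH1loc (fun _ : ℝ => (0 : X)) (fun _ => 0) := by
  refine ⟨fun T => ?_, fun t _ => by simp⟩
  exact MemLp.zero'

theorem h1_const (x : X) : IsH1loc (fun _ : ℝ => x) (fun _ => 0) := by
  refine ⟨fun T => ?_, fun t _ => by simp⟩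
  exact MemLp.zero'

theorem h1_neg {f f₁ : ℝ → X} (hf : IsH1loc f f₁) : IsH1loc (fun t => - f t) (fun t => - f₁ t) := by
  refine ⟨fun T => (hf.memLp T).neg, fun t ht => ?_⟩
  have e1 := hf.eq t ht
  rw [intervalIntegral.integral_neg, e1]
  abel

theorem h1_clm [CompleteSpace X] [CompleteSpace Y] (L : X →L[ℝ] Y) {f f₁ : ℝ → X} (hf : IsH1loc f f₁) :
    IsH1loc (fun t => L (f t)) (fun t => L (f₁ t)) := by
  refine ⟨fun T => L.comp_memLp' (hf.memLp T), fun t ht => ?_⟩
  have e1 := hf.eq t ht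
  rw [ContinuousLinearMap.intervalIntegral_comp_comm L (hf.intervalIntegrable le_rfl ht), e1, map_add]

theorem h1_sum {I : Type*} (s : Finset I) {f f₁ : I → ℝ → X} (hf : ∀ i ∈ s, IsH1loc (f i) (f₁ i)) :
    IsH1loc (fun t => ∑ i ∈ s, f i t) (fun t => ∑ i ∈ s, f₁ i t) := by
  classical
  induction s using Finset.induction_on with
  | empty => simpa using h1_zero (X := X)
  | insert i s hi ih =>
    simp only [Finset.sum_insert hi]
    exact h1_add (hf i (Finset.mem_insert_self _ _)) (ih fun j hj => hf j (Finset.mem_insert_of_mem hj))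

theorem h1_smul_const [CompleteSpace X] {c c₁ : ℝ → ℝ} (hc : IsH1loc c c₁) (x : X) :
    IsH1loc (fun t => c t • x) (fun t => c₁ t • x) := by
  have := h1_clm (ContinuousLinearMap.toSpanSingleton ℝ x) hc
  simpa [ContinuousLinearMap.toSpanSingleton_apply] using this

theorem h1_congr {f f' f₁ : ℝ → X} (hf : IsH1loc f f₁) (h : ∀ t, 0 ≤ t → f' t = f t) : IsH1loc f' f₁ :=
  ⟨hf.memLp, fun t ht => by rw [h t ht, h 0 le_rfl]; exact hf.eq t ht⟩

theorem h1_of_contDiff [CompleteSpace X] {f : ℝ → X} (hf : ContDiff ℝ 1 f) : IsH1loc f (deriv f) := by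
  refine isH1loc_of_deriv (fun t _ => ?_) (hf.continuous_deriv le_rfl).continuousOn
  exact ((hf.differentiable one_ne_zero).differentiableAt.hasDerivAt).hasDerivWithinAt

end

theorem LF_mono {q : ℝ} (hq : 0 ≤ q) {F G : ℝ → ℝ}
    (h : ∀ lam : ℝ, 0 < lam → volume {t | lam < F t} ≤ volume {t | lam < G t}) : LF q F ≤ LF q G := by
  unfold LF
  refine setLIntegral_mono' measurableSet_Ioi (fun lam hlam => ?_)
  exact ENNReal.div_le_div_right (ENNReal.rpow_le_rpow (mul_le_mul_right (h lam hlam) _) hq) _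

section
variable {V K : Type*} [NormedAddCommGroup V] [InnerProductSpace ℝ V]
    [NormedAddCommGroup K] [InnerProductSpace ℝ K]

theorem TF.mono {D : Data V K} {a : V} {M M' : ℝ} (h : TF D a M) (hM : M ≤ M') : TF D a M' := by
  refine ⟨fun x y => (h.b1 x y).trans ?_, fun x y => (h.b2 x y).trans ?_, fun y => (h.a1 y).trans ?_⟩
  · gcongr
  · have := D.sig_nonneg x
    gcongr
  · gcongr

end

end Pool.Agent.NSV
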