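import Pool.Agent.NSV.Basic

/-!
# MP_fd8964_an, Theorem V: glued functions with values in a normed space
-/

open MeasureTheory Set Filter Topology
open scoped RealInnerProductSpace ContDiff ENNReal

noncomputable section

namespace Pool.Agent.NSV

open Pool.Agent.NSD Pool.Agent.NSK

namespace GlueGX

section
variable {F : Type*} [AddCommGroup F] [Module ℝ F] {n : ℕ → ℕ} {φ : (l : ℕ) → Fin (n l) → ℝ → ℝ}
  {p : (l : ℕ) → Fin (n l) → F}

theorem zero_of_le (hs : ∀ l j, tsupport (φ l j) ⊆ Ioo 0 1) (l : ℕ) (j : Fin (n l)) {t : ℝ} (ht : t ≤ 0) :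
    φ l j t = 0 := by
  by_contra hne
  have := (hs l j (subset_tsupport _ hne)).1
  linarith

theorem zero_of_ge (hs : ∀ l j, tsupport (φ l j) ⊆ Ioo 0 1) (l : ℕ) (j : Fin (n l)) {t : ℝ} (ht : 1 ≤ t) :
    φ l j t = 0 := by
  by_contra hne
  have := (hs l j (subset_tsupport _ hne)).2
  linarith

theorem glueF_neg {t : ℝ} (ht : t < 0) : glueF n φ p t = 0 := by simp [glueF, ht]

theorem glueF_eq (hs : ∀ l j, tsupport (φ l j) ⊆ Ioo 0 1) (l : ℕ) {t : ℝ} (h1 : (l : ℝ) ≤ t)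
    (h2 : t ≤ l + 1) : glueF n φ p t = ∑ j, φ l j (t - l) • p l j := by
  have ht0 : ¬ t < 0 := not_lt.2 ((Nat.cast_nonneg l).trans h1)
  simp only [glueF, ht0, if_false]
  rcases eq_or_lt_of_le h2 with h3 | h3
  · have h4 : ⌊t⌋₊ = l + 1 := by
      rw [h3]
      exact_mod_cast Nat.floor_natCast (R := ℝ) (l + 1)
    rw [h4, h3]
    have e1 : ∀ j, φ (l + 1) j ((l : ℝ) + 1 - ((l + 1 : ℕ) : ℝ)) = 0 := fun j =>
      zero_of_le hs _ j (by push_cast; linarith)
    have e2 : ∀ j, φ l j ((l : ℝ) + 1 - (l : ℝ)) = 0 := fun j =>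
      zero_of_ge hs _ j (by linarith)
    rw [Finset.sum_eq_zero fun j _ => by rw [e1 j, zero_smul],
      Finset.sum_eq_zero fun j _ => by rw [e2 j, zero_smul]]
  · have h4 : ⌊t⌋₊ = l := by
      rw [Nat.floor_eq_iff ((Nat.cast_nonneg l).trans h1)]
      exact ⟨h1, h3⟩
    rw [h4]

/-- Near `t₀ < 1`. -/
theorem glueF_left (hs : ∀ l j, tsupport (φ l j) ⊆ Ioo 0 1) {t : ℝ} (h2 : t < 1) :
    glueF n φ p t = ∑ j, φ 0 j t • p 0 j := by
  rcases lt_or_ge t 0 with h | h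
  · rw [glueF_neg h]
    have e1 : ∀ j, φ 0 j t = 0 := fun j => zero_of_le hs _ j h.le
    simp [e1]
  · have := glueF_eq (p := p) hs 0 (t := t) (by simpa using h) (by simpa using h2.le)
    simpa using this

/-- Near an integer `l + 1`. -/
theorem glueF_mid (hs : ∀ l j, tsupport (φ l j) ⊆ Ioo 0 1) (l : ℕ) {t : ℝ} (h1 : (l : ℝ) < t)
    (h2 : t < l + 2) : glueF n φ p t =
      ∑ j, φ l j (t - l) • p l j + ∑ j, φ (l + 1) j (t - (l + 1)) • p (l + 1) j := by
  rcases le_total t (l + 1) with h | h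
  · rw [glueF_eq hs l h1.le h]
    have e1 : ∀ j, φ (l + 1) j (t - ((l : ℝ) + 1)) = 0 := fun j => zero_of_le hs _ j (by linarith)
    simp [e1]
  · have := glueF_eq (p := p) hs (l + 1) (t := t) (by push_cast; linarith) (by push_cast; linarith)
    rw [this]
    have e1 : ∀ j, φ l j (t - (l : ℝ)) = 0 := fun j => zero_of_ge hs _ j (by linarith)
    simp [e1]

end

theorem glueF_contDiff {F : Type*} [NormedAddCommGroup F] [NormedSpace ℝ F] {n : ℕ → ℕ}
    {φ : (l : ℕ) → Fin (n l) → ℝ → ℝ} {p : (l : ℕ) → Fin (n l) → F}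
    (hφ : ∀ l j, ContDiff ℝ ∞ (φ l j)) (hs : ∀ l j, tsupport (φ l j) ⊆ Ioo 0 1) :
    ContDiff ℝ ∞ (glueF n φ p) := by
  rw [contDiff_iff_contDiffAt]
  intro t
  rcases lt_or_ge t 1 with h | h
  · have h1 : ContDiffAt ℝ ∞ (fun t => ∑ j, φ 0 j t • p 0 j) t := by
      refine ContDiff.contDiffAt ?_
      exact ContDiff.sum fun j _ => (hφ 0 j).smul contDiff_const
    refine h1.congr_of_eventuallyEq ?_
    filter_upwards [Iio_mem_nhds h] with s hs'
    exact glueF_left hs hs'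
  · obtain ⟨l, hl⟩ : ∃ l : ℕ, (l : ℝ) < t ∧ t < l + 2 := by
      refine ⟨⌊t⌋₊ - 1, ?_⟩
      have h1 : 1 ≤ ⌊t⌋₊ := Nat.le_floor (by simpa using h)
      rw [Nat.cast_sub h1]
      have h2 := Nat.floor_le (by linarith : 0 ≤ t)
      have h3 := Nat.lt_floor_add_one t
      constructor <;> push_cast <;> linarith
    have h1 : ContDiffAt ℝ ∞ (fun t => ∑ j, φ l j (t - l) • p l j
        + ∑ j, φ (l + 1) j (t - (l + 1)) • p (l + 1) j) t := by
      refine ContDiff.contDiffAt ?_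
      refine ContDiff.add ?_ ?_
      · exact ContDiff.sum fun j _ => ((hφ l j).comp (contDiff_id.sub contDiff_const)).smul contDiff_const
      · exact ContDiff.sum fun j _ =>
          ((hφ (l + 1) j).comp (contDiff_id.sub contDiff_const)).smul contDiff_const
    refine h1.congr_of_eventuallyEq ?_
    filter_upwards [Ioo_mem_nhds hl.1 hl.2] with s hs'
    exact glueF_mid hs l hs'.1 hs'.2

end GlueGX

end Pool.Agent.NSV
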