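import Pool.Agent.NSD.Sealed

/-!
# MP_fd8964_an: definitions used in the statement on vibrating forces, over `Pool.Agent.NSD.Sealed`
-/

open MeasureTheory Set Filter Topology
open scoped RealInnerProductSpace ContDiff

noncomputable section

namespace Pool.Agent.NSVS

open Pool.Agent.NSDS

/-- `Φ(t,x)` is smooth in `(t,x)`, `Φ(t) ∈ 𝒱` for every `t`, and `Φ(t) = 0` for `t ≤ τ`, for some `τ > 0`. -/
def IsVib (Ω : Set R3) (Φ : ℝ → R3 → R3) : Prop :=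
  ContDiff ℝ ∞ (fun z : ℝ × R3 => Φ z.1 z.2) ∧ (∀ t, IsTest Ω (Φ t)) ∧ ∃ τ : ℝ, 0 < τ ∧ ∀ t, t ≤ τ → Φ t = 0

/-- `∫₀^∞ (λ² |{t : ‖Φ(t)‖_{C^k} > λ}|)^q dλ/λ`, the `2q`-th power of the quasinorm of `Φ` in the Lorentz space
`L^{2,2q}` in time, with values in `C^k`. -/
def lorentz (k : ℕ) (q : ℝ) (Φ : ℝ → R3 → R3) : ENNReal :=
  ∫⁻ lam in Ioi (0 : ℝ), (ENNReal.ofReal (lam ^ 2) *
    volume {t : ℝ | ∃ j, j ≤ k ∧ ∃ x, lam < ‖iteratedFDeriv ℝ j (Φ t) x‖}) ^ q / ENNReal.ofReal lam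

/-- The measure of the set of times at which `Φ` is not zero. -/
def suppVol (Φ : ℝ → R3 → R3) : ENNReal := volume {t : ℝ | Φ t ≠ 0}

/-- `∫_Ω ∂ₜΦ(t,x)·v(x) dx`. -/
def pairDt {Ω : Set R3} (Φ : ℝ → R3 → R3) (t : ℝ) (v : V Ω) : ℝ :=
  ∫ x in Ω, ⟪deriv (fun s => Φ s x) t, fn (fld v) x⟫

/-- `‖u - p - w‖_{L²(Ω)}`. -/
def dist2 {Ω : Set R3} (u : V Ω) (p : R3 → R3) (w : L2E Ω) : ℝ :=
  √(∫ x in Ω, ‖fn (fld u) x - p x - fn w x‖ ^ 2)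

end Pool.Agent.NSVS
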