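import Pool.Agent.NSV.Basic

/-!
# MP_fd8964_an, Theorem V: module STEP (one step on `[0,1]`)
-/

open MeasureTheory Set Filter Topology
open scoped RealInnerProductSpace ContDiff ENNReal

noncomputable section

namespace Pool.Agent.NSV

open Pool.Agent.NSD Pool.Agent.NSK




/-- Compatibility at the final time. -/
theorem StepX.cpt_end (hRiesz : Stmt_Riesz) {V K : Type} [NormedAddCommGroup V] [InnerProductSpace ℝ V]
    [CompleteSpace V] [NormedAddCommGroup K] [InnerProductSpace ℝ K] [CompleteSpace K] (D : Data V K) {η : ℝ}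
    {f f₁ : ℝ → (V →L[ℝ] ℝ)} (hf : IsH1loc f f₁) {n : ℕ} {a : Fin n → V} {φ : Fin n → ℝ → ℝ}
    {u u₁ : ℝ → V} (hsupp : ∀ j, tsupport (φ j) ⊆ Ioo 0 1)
    (hsol : SolOn D η (fun t => f t + ∑ j, deriv (φ j) t • J D (a j)) 1 u u₁) (heb : EB D u₁) :
    ∃ h₁ : K, Cpt D η (f 1) (u 1) h₁ := by
  obtain ⟨C, hC⟩ := heb 1
  have hev : ∀ᶠ t in 𝓝 (1 : ℝ), ∀ j, deriv (φ j) t = 0 := by
    rw [eventually_all]
    intro j
    have h1 : (1 : ℝ) ∉ tsupport (φ j) := fun h => by have := (hsupp j h).2; exact lt_irrefl _ this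
    have h2 : (tsupport (φ j))ᶜ ∈ 𝓝 (1 : ℝ) := (isClosed_tsupport _).isOpen_compl.mem_nhds h1
    filter_upwards [h2] with t ht
    by_contra hne
    exact ht (support_deriv_subset hne)
  rw [Metric.eventually_nhds_iff] at hev
  obtain ⟨δ, hδ, hev⟩ := hev
  set G : V →L[ℝ] ℝ := f 1 - η • D.a (u 1) - D.b (u 1) (u 1) with hG
  have key : ∀ y, |G y| ≤ C * ‖D.ι y‖ := by
    intro y
    have hfc := hf.continuousOn
    have huc := hsol.h1.continuousOn
    set g : ℝ → ℝ := fun t => f t y - η * D.a (u t) y - D.b (u t) (u t) y with hg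
    have hgc : ContinuousOn g (Ici 0) := by
      refine ContinuousOn.sub (ContinuousOn.sub ?_ ?_) ?_
      · exact hfc.clm_apply continuousOn_const
      · exact continuousOn_const.mul
          ((D.a.continuous.comp_continuousOn huc).clm_apply continuousOn_const)
      · exact (((D.b.continuous.comp_continuousOn huc).clm_apply huc).clm_apply continuousOn_const)
    -- restrict to a neighbourhood of 1 by reparametrisation
    by_contra hcon
    push Not at hcon
    have hG1 : G y = g 1 := rfl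
    rw [hG1] at hcon
    have hc : ContinuousWithinAt (fun t => |g t|) (Ici 0) 1 := (hgc 1 (mem_Ici.2 zero_le_one)).abs
    have hev2 : ∀ᶠ t in 𝓝[Ici 0] (1 : ℝ), C * ‖D.ι y‖ < |g t| := hc.eventually (lt_mem_nhds hcon)
    rw [eventually_nhdsWithin_iff, Metric.eventually_nhds_iff] at hev2
    obtain ⟨δ', hδ', hev2⟩ := hev2
    set s : ℝ := max 0 (max (1 - δ) (1 - δ')) with hs
    have hs1 : s < 1 := max_lt one_pos (max_lt (by linarith) (by linarith))
    have hs0 : 0 ≤ s := le_max_left _ _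
    have hsub : Ioo s 1 ⊆ Ioc (0 : ℝ) 1 := fun t ht => ⟨lt_of_le_of_lt hs0 ht.1, ht.2.le⟩
    have h2 : ∀ᵐ t ∂(volume.restrict (Ioo s 1)), False := by
      filter_upwards [ae_mono (Measure.restrict_mono hsub le_rfl) hsol.eq,
        ae_mono (Measure.restrict_mono hsub le_rfl) hC, ae_restrict_mem measurableSet_Ioo]
        with t ht1 ht2 htm
      have h4 : 1 - δ ≤ s := (le_max_left _ _).trans (le_max_right _ _)
      have h4' : 1 - δ' ≤ s := (le_max_right _ _).trans (le_max_right _ _)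
      have h5 : dist t 1 < δ := by
        rw [Real.dist_eq, abs_lt]
        constructor <;> linarith [htm.1, htm.2]
      have h5' : dist t 1 < δ' := by
        rw [Real.dist_eq, abs_lt]
        constructor <;> linarith [htm.1, htm.2]
      have h6 := hev2 h5' (hs0.trans htm.1.le)
      have h7 := hev h5
      have h8 := ht1 y
      simp only [h7, zero_smul, Finset.sum_const_zero, add_zero] at h8
      have h9 : g t = ⟪D.ι (u₁ t), D.ι y⟫ := by
        simp only [hg]
        linarith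
      rw [h9] at h6
      have h10 := abs_real_inner_le_norm (D.ι (u₁ t)) (D.ι y)
      have h11 : ‖D.ι (u₁ t)‖ * ‖D.ι y‖ ≤ C * ‖D.ι y‖ := by gcongr
      linarith
    have h3 : (volume.restrict (Ioo s 1)) univ = 0 := by
      have := ae_iff.1 h2
      simpa using this
    rw [Measure.restrict_apply MeasurableSet.univ, univ_inter, Real.volume_Ioo,
      ENNReal.ofReal_eq_zero] at h3
    linarith
  obtain ⟨h₁, hh⟩ := hRiesz V K D.ι G C key
  refine ⟨h₁, fun v => ?_⟩
  rw [← hh v]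
  rfl

theorem step_proof (hPath : Stmt_Path) (hDens : Stmt_Dens) (hOpen : Stmt_Open) (hProf : Stmt_Prof)
    (hAvg : Stmt_Avg) (hRiesz : Stmt_Riesz) : Stmt_Step := by
  intro V K _ _ _ _ _ _ D A wt η f f₁ x₀ h₀ w q ε τ hA hwt hη hf hcpt hw hq hε hτ
  obtain ⟨v, v₁, F, F₁, τ', hτ', hv, hv0, hF, hF0, hcl, hcl'⟩ :=
    hPath V K D η f f₁ x₀ h₀ w τ (ε / 3) hη hτ (by positivity) hf hcpt hw
  have hF00 : F 0 = 0 := hF0 0 ⟨le_rfl, hτ'.le⟩
  obtain ⟨δ₀, hδ₀, hO⟩ := hOpen V K D η f f₁ F F₁ v v₁ h₀ (ε / 3) hη (by positivity) hf hF hF00 hv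
    (by rw [hv0]; exact hcpt)
  obtain ⟨n, g, c, c₁, L, hg, hc, hc0, hcL, hc₁L, hc00, hdens⟩ := hDens (V →L[ℝ] ℝ)
    {g | ∃ a, A a ∧ g = D.b a a}
    (by
      intro x e he
      obtain ⟨n, a, ha, hle⟩ := hA.dense x e he
      exact ⟨n, fun j => D.b (a j) (a j), fun j => ⟨a j, ha j, rfl⟩, hle⟩)
    (fun t => - F t) (fun t => - F₁ t) τ' δ₀ (h1_neg hF) hτ'
    (by intro t ht; rw [hF0 t ht, neg_zero]) hδ₀
  choose a haA hga using hg
  have hG : IsH1loc (fun t => - ∑ j, c j t • D.b (a j) (a j))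
      (fun t => - ∑ j, c₁ j t • D.b (a j) (a j)) :=
    h1_neg (h1_sum Finset.univ fun j _ => h1_smul_const (hc j) _)
  obtain ⟨v', v₁', hv', hv'0, heb', hcl2⟩ := hO _ _ hG
    (by simp [hc00])
    (by
      refine le_trans (le_of_eq ?_) hdens
      refine intervalIntegral.integral_congr (fun t _ => ?_)
      have : ∀ j, g j = D.b (a j) (a j) := hga
      simp only [this]
      rw [← norm_neg]
      congr 2
      abel)
  -- the profiles
  set Λ : ℝ := √L * ∑ j, wt (a j) with hΛ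
  have hΛ0 : 0 ≤ Λ := mul_nonneg (Real.sqrt_nonneg _) (Finset.sum_nonneg fun j _ => hwt _)
  obtain ⟨P, hP, hPlf, hPvol⟩ := hProf n q Λ ε hq hΛ0 hε
  choose M hM using fun j => hA.tf (a j) (haA j)
  have hM' : ∀ j, TF D (a j) (∑ i, |M i|) := fun j =>
    (hM j).mono ((le_abs_self _).trans (Finset.single_le_sum (f := fun i => |M i|)
      (fun i _ => abs_nonneg _) (Finset.mem_univ j)))
  obtain ⟨φ, u, u₁, hb, hu, hu0, heb, hcl3⟩ := hAvg V K D η f f₁ v' v₁' h₀ (ε / 3) n a (∑ i, |M i|) c c₁ P L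
    hη (by positivity) hf
    (by
      refine ⟨hv'.h1, ?_⟩
      filter_upwards [hv'.eq] with t ht y
      rw [ht y, sub_eq_add_neg])
    (by rw [hv'0, hv0]; exact hcpt) hM' hc hc0 hcL hc₁L hP
  obtain ⟨h₁, hh₁⟩ := StepX.cpt_end hRiesz D hf hb.supp hu heb
  refine ⟨n, a, φ, u, u₁, h₁, ⟨haA, hb.smooth, hb.supp, ?_, hb.vol.trans hPvol, hu, ?_, heb, ?_, ?_, hh₁⟩⟩
  · refine le_trans (LF_mono (by linarith) (fun lam hlam => ?_)) hPlf
    refine (hb.meas (fun j => wt (a j)) (fun j => hwt _) lam hlam.le).trans ?_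
    refine measure_mono (fun s hs => ?_)
    simp only [mem_setOf_eq] at hs ⊢
    refine lt_of_lt_of_le hs ?_
    rw [hΛ, mul_assoc]
    refine mul_le_mul_of_nonneg_left ?_ (Real.sqrt_nonneg _)
    rw [Finset.mul_sum]
    refine Finset.sum_le_sum fun j _ => ?_
    refine mul_le_mul_of_nonneg_right ?_ (abs_nonneg _)
    exact Finset.single_le_sum (f := fun i => wt (a i)) (fun i _ => hwt _) (Finset.mem_univ j)
  · rw [hu0, hv'0, hv0]
  · intro t ht
    have e1 := hcl3 t ht
    have e2 := hcl2 t ht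
    have e3 := hcl t ht
    have e : u t - ∑ j, φ j t • a j - w t =
        (u t - v' t - ∑ j, φ j t • a j) + (v' t - v t) + (v t - w t) := by abel
    rw [e, map_add, map_add]
    refine (norm_add₃_le).trans ?_
    linarith
  · intro t ht
    have ht' : t ∈ Icc (0 : ℝ) 1 := ⟨hτ.le.trans ht.1, ht.2⟩
    have e1 := hcl3 t ht'
    have e2 := hcl2 t ht'
    have e3 := hcl' t ht
    have e : u t - ∑ j, φ j t • a j - w t =
        (u t - v' t - ∑ j, φ j t • a j) + (v' t - v t) := by rw [e3]; abel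
    rw [e, map_add]
    refine (norm_add_le _ _).trans ?_
    linarith

end Pool.Agent.NSV
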