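import Pool.Agent.NSK.Lib
import Pool.Agent.NSK.Conc

/-!
# MP_fd8964_an, Theorem V (vibrating forces): definitions and interface statements

See /team-store/MP_fd8964_VIBR.md.  Abstract part: `D : Data V K` (`Pool.Agent.NSD.Abstract`), `SolOn` from
`Pool.Agent.NSK.Abs`.
-/

open MeasureTheory Set Filter Topology
open scoped RealInnerProductSpace ContDiff ENNReal

noncomputable section

namespace Pool.Agent.NSV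

open Pool.Agent.NSD Pool.Agent.NSK

section
variable {V K : Type*} [NormedAddCommGroup V] [InnerProductSpace ℝ V]
    [NormedAddCommGroup K] [InnerProductSpace ℝ K]

/-- The functional `⟪ι v, ι ·⟫`. -/
def J (D : Data V K) : V →L[ℝ] (V →L[ℝ] ℝ) :=
  ((ContinuousLinearMap.compL ℝ V K ℝ).flip D.ι).comp ((innerSL ℝ).comp D.ι)

theorem J_apply (D : Data V K) (v y : V) : J D v y = ⟪D.ι v, D.ι y⟫ := rfl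

/-- `Q` is an approximate solution on `(0,T)`, with residual `R`, of the Navier-Stokes problem with force `f`.
`y` is a primitive in time of `R`, up to the error `R - J y₁`. -/
structure Approx (D : Data V K) (η CS T e r1 r n0 : ℝ) (f : ℝ → (V →L[ℝ] ℝ)) (Q Q₁ : ℝ → V)
    (R R₁ : ℝ → (V →L[ℝ] ℝ)) (y y₁ : ℝ → V) (m : ℝ → ℝ) : Prop where
  hQ : IsH1loc Q Q₁
  eq : ∀ᵐ t ∂(volume.restrict (Ioc 0 T)), ∀ v,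
    ⟪D.ι (Q₁ t), D.ι v⟫ + η * D.a (Q t) v + D.b (Q t) (Q t) v = f t v + R t v
  sQ : ∀ t ∈ Icc 0 T, D.sig (Q t) ≤ CS
  sQ₁ : ∀ᵐ t ∂(volume.restrict (Ioc 0 T)), D.sig (Q₁ t) ≤ m t + n0
  m0 : ∀ t, 0 ≤ m t
  mL : MemLp m 2 (volume.restrict (Ioc 0 T))
  mI : ∫ t in (0 : ℝ)..T, m t ^ 2 ≤ CS
  hR : IsH1loc R R₁
  RI : ∫ t in (0 : ℝ)..T, ‖R₁ t‖ ^ 2 ≤ r ^ 2
  Rb : ∀ t ∈ Icc 0 T, ∀ v, |R t v| ≤ r1 * (‖D.ι v‖ + √t * D.sig v)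
  hy : IsH1loc y y₁
  y0 : y 0 = 0
  sy : ∀ t ∈ Icc 0 T, D.sig (y t) ≤ e
  E : ∀ᵐ t ∂(volume.restrict (Ioc 0 T)), ∀ v, |R t v - ⟪D.ι (y₁ t), D.ι v⟫| ≤ e * D.sig v

/-- Bounds of a test field `a ∈ V`. -/
structure TF (D : Data V K) (a : V) (M : ℝ) : Prop where
  b1 : ∀ x y, |D.b x a y| ≤ M * ‖D.ι x‖ * ‖D.ι y‖
  b2 : ∀ x y, |D.b a x y| ≤ M * D.sig x * ‖D.ι y‖
  a1 : ∀ y, |D.a a y| ≤ M * ‖D.ι y‖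

/-- Compatibility: `f₀ - η A x - B(x,x) = ⟪h₀, ι ·⟫`. -/
def Cpt (D : Data V K) (η : ℝ) (f₀ : V →L[ℝ] ℝ) (x : V) (h₀ : K) : Prop :=
  ∀ v, f₀ v - η * D.a x v - D.b x x v = ⟪h₀, D.ι v⟫

/-- `‖ι (w t)‖` is essentially bounded on every `(0,T)`. -/
def EB (D : Data V K) (w : ℝ → V) : Prop :=
  ∀ T : ℝ, ∃ C : ℝ, ∀ᵐ t ∂(volume.restrict (Ioc 0 T)), ‖D.ι (w t)‖ ≤ C

end

/-- Profiles `P j`, `j < n`. -/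
structure IsProf {n : ℕ} (P : Fin n → ℝ → ℝ) : Prop where
  smooth : ∀ j, ContDiff ℝ ∞ (P j)
  supp : ∀ j, tsupport (P j) ⊆ Ioo 0 1
  disj : ∀ i j, i ≠ j → ∀ s, P i s * P j s = 0
  mean : ∀ j, ∫ s in (0 : ℝ)..1, P j s = 0
  sq : ∀ j, ∫ s in (0 : ℝ)..1, P j s ^ 2 = 1

/-- The Lorentz functional `∫₀^∞ (λ² |{F > λ}|)^q dλ/λ`: the quasinorm of `L^{2,2q}` to the power `2q`. -/
def LF (q : ℝ) (F : ℝ → ℝ) : ℝ≥0∞ :=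
  ∫⁻ lam in Ioi (0 : ℝ), (ENNReal.ofReal (lam ^ 2) * volume {t | lam < F t}) ^ q / ENNReal.ofReal lam

/-- Bursts modelled on the profiles `P`, for coefficients bounded by `L`: consequences used later. -/
structure IsBurst {n : ℕ} (L : ℝ) (P φ : Fin n → ℝ → ℝ) : Prop where
  smooth : ∀ j, ContDiff ℝ ∞ (φ j)
  supp : ∀ j, tsupport (φ j) ⊆ Ioo 0 1
  meas : ∀ (m : Fin n → ℝ), (∀ j, 0 ≤ m j) → ∀ lam : ℝ, 0 ≤ lam →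
    volume {t | lam < ∑ j, m j * |φ j t|} ≤ volume {s | lam < √L * ∑ j, m j * |P j s|}
  vol : volume {t | ∃ j, φ j t ≠ 0} ≤ volume {s | ∃ j, P j s ≠ 0}

/-- Bursts with `N` cells: all quantitative properties. -/
structure IsCells {n : ℕ} (L A : ℝ) (N : ℕ) (P c φ : Fin n → ℝ → ℝ) : Prop where
  burst : IsBurst L P φ
  disj : ∀ i j, i ≠ j → ∀ s, φ i s * φ j s = 0
  bd : ∀ j t, |φ j t| ≤ A
  bd1 : ∀ j t, |deriv (φ j) t| ≤ A * N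
  mean : ∀ j, ∀ l : ℕ, l < N → ∫ s in ((l : ℝ) / N)..(((l : ℝ) + 1) / N), φ j s = 0
  sq : ∀ j, ∀ l : ℕ, l < N → ∫ s in ((l : ℝ) / N)..(((l : ℝ) + 1) / N), (φ j s ^ 2 - c j s) = 0

/-! ## A. Stability (bootstrap).  `z = u - Q`. -/

/-- A0. Product rule. -/
def Stmt_Prod : Prop := ∀ (X Y Z : Type) [NormedAddCommGroup X] [NormedSpace ℝ X] [CompleteSpace X]
    [NormedAddCommGroup Y] [NormedSpace ℝ Y] [CompleteSpace Y] [NormedAddCommGroup Z] [NormedSpace ℝ Z]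
    [CompleteSpace Z] (B : X →L[ℝ] Y →L[ℝ] Z) (x x₁ : ℝ → X) (y y₁ : ℝ → Y), IsH1loc x x₁ → IsH1loc y y₁ →
    IsH1loc (fun t => B (x t) (y t)) (fun t => B (x₁ t) (y t) + B (x t) (y₁ t))

/-- S1. Energy estimates for `z`. -/
def Stmt_S1 : Prop := ∀ (V K : Type) [NormedAddCommGroup V] [InnerProductSpace ℝ V] [CompleteSpace V]
    [NormedAddCommGroup K] [InnerProductSpace ℝ K] (D : Data V K) (η T CS : ℝ), 0 < η → 0 < T → 0 ≤ CS →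
    ∃ C : ℝ, 1 ≤ C ∧ ∀ (e r1 r n0 τ : ℝ) (f : ℝ → (V →L[ℝ] ℝ)) (Q Q₁ u w : ℝ → V)
      (R R₁ : ℝ → (V →L[ℝ] ℝ)) (y y₁ : ℝ → V) (m : ℝ → ℝ),
      0 ≤ e → e ≤ 1 → 0 ≤ r1 → 0 ≤ τ → τ ≤ T →
      Approx D η CS T e r1 r n0 f Q Q₁ R R₁ y y₁ m → SolOn D η f τ u w → u 0 = Q 0 →
      (∀ t ∈ Icc 0 τ, ‖D.ι (u t - Q t)‖ ≤ C * e) ∧
      (∫ s in (0 : ℝ)..τ, D.sig (u s - Q s) ^ 2 ≤ C * e ^ 2) ∧
      (∀ t ∈ Icc 0 τ, ‖D.ι (u t - Q t)‖ ≤ C * r1 * t)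

/-- S2. Time differences of `z`. -/
def Stmt_S2 : Prop := ∀ (V K : Type) [NormedAddCommGroup V] [InnerProductSpace ℝ V] [CompleteSpace V]
    [NormedAddCommGroup K] [InnerProductSpace ℝ K] (D : Data V K) (η T CS : ℝ), 0 < η → 0 < T → 0 ≤ CS →
    ∃ C : ℝ, 1 ≤ C ∧ ∀ (e r1 r n0 X τ : ℝ) (f : ℝ → (V →L[ℝ] ℝ)) (Q Q₁ u w : ℝ → V)
      (R R₁ : ℝ → (V →L[ℝ] ℝ)) (y y₁ : ℝ → V) (m : ℝ → ℝ),
      0 ≤ e → e ≤ 1 → 0 ≤ r1 → 0 ≤ r → 0 ≤ n0 → 0 ≤ X → X * e ^ 2 ≤ 1 → 0 ≤ τ → τ ≤ T →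
      Approx D η CS T e r1 r n0 f Q Q₁ R R₁ y y₁ m → SolOn D η f τ u w → u 0 = Q 0 →
      (∀ t ∈ Icc 0 τ, D.sig (u t - Q t) ^ 2 ≤ X) →
      ∀ t h : ℝ, 0 ≤ t → 0 ≤ h → t + h ≤ τ →
        ‖D.ι ((u (t + h) - Q (t + h)) - (u t - Q t))‖ ≤ C * (r1 + r + √X + n0 * e) * h

/-- S3. Pointwise bound for `σ(z)`. -/
def Stmt_S3 : Prop := ∀ (V K : Type) [NormedAddCommGroup V] [InnerProductSpace ℝ V] [CompleteSpace V]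
    [NormedAddCommGroup K] [InnerProductSpace ℝ K] (D : Data V K) (η T CS : ℝ), 0 < η → 0 < T → 0 ≤ CS →
    ∃ C : ℝ, 1 ≤ C ∧ ∀ (e r1 r n0 X τ : ℝ) (f : ℝ → (V →L[ℝ] ℝ)) (Q Q₁ u w : ℝ → V)
      (R R₁ : ℝ → (V →L[ℝ] ℝ)) (y y₁ : ℝ → V) (m : ℝ → ℝ),
      0 ≤ e → e ≤ 1 → 0 ≤ r1 → 0 ≤ r → 0 ≤ n0 → 0 ≤ X → X * e ^ 2 ≤ 1 → 0 ≤ τ → τ ≤ T →
      Approx D η CS T e r1 r n0 f Q Q₁ R R₁ y y₁ m → SolOn D η f τ u w → u 0 = Q 0 →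
      (∀ t ∈ Icc 0 τ, D.sig (u t - Q t) ^ 2 ≤ X) →
      ∀ t ∈ Icc 0 τ, D.sig (u t - Q t) ^ 2 ≤ C * (e * (r1 + r + √X + n0 * e + 1) + r1 ^ 2)

/-- S4. Stability theorem: an approximate solution is close to an exact one. -/
def Stmt_Stab : Prop := ∀ (V K : Type) [NormedAddCommGroup V] [InnerProductSpace ℝ V] [CompleteSpace V]
    [NormedAddCommGroup K] [InnerProductSpace ℝ K] (D : Data V K) (η T CS : ℝ), 0 < η → 0 < T → 0 ≤ CS →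
    ∃ C : ℝ, 1 ≤ C ∧ ∀ (e r1 r n0 X : ℝ) (f f₁ : ℝ → (V →L[ℝ] ℝ)) (Q Q₁ : ℝ → V)
      (R R₁ : ℝ → (V →L[ℝ] ℝ)) (y y₁ : ℝ → V) (m : ℝ → ℝ) (h₀ : K),
      0 ≤ e → e ≤ 1 → 0 ≤ r1 → 0 ≤ r → 0 ≤ n0 → 0 ≤ X → X * e ^ 2 ≤ 1 →
      C * (e * (r1 + r + √X + n0 * e + 1) + r1 ^ 2) < X →
      IsH1loc f f₁ → Approx D η CS T e r1 r n0 f Q Q₁ R R₁ y y₁ m → Cpt D η (f 0) (Q 0) h₀ →
      ∃ u w : ℝ → V, SolOn D η f T u w ∧ u 0 = Q 0 ∧ EB D w ∧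
        ∀ t ∈ Icc 0 T, ‖D.ι (u t - Q t)‖ ≤ C * e ∧ D.sig (u t - Q t) ^ 2 ≤ X

/-! ## B. Tools -/

/-- B1. The corrector: `⟪ι y, ι ·⟫ + h a(y, ·) = ρ`. -/
def Stmt_Corr : Prop := ∀ (V K : Type) [NormedAddCommGroup V] [InnerProductSpace ℝ V] [CompleteSpace V]
    [NormedAddCommGroup K] [InnerProductSpace ℝ K] (D : Data V K) (A h T : ℝ) (ρ R : ℝ → (V →L[ℝ] ℝ)),
    0 ≤ A → 0 < h → h ≤ 1 → IsH1loc ρ R → ρ 0 = 0 →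
    (∀ t ∈ Icc 0 T, ∀ v, |ρ t v| ≤ A * h * ‖D.ι v‖) → (∀ t ∈ Icc 0 T, ∀ v, |R t v| ≤ A * ‖D.ι v‖) →
    ∃ y y₁ : ℝ → V, IsH1loc y y₁ ∧ y 0 = 0 ∧ (∀ t ∈ Icc 0 T, D.sig (y t) ≤ A * √h) ∧
      ∀ t ∈ Icc 0 T, ∀ v, |R t v - ⟪D.ι (y₁ t), D.ι v⟫| ≤ A * √h * D.sig v

/-- B2. Oscillation lemma. -/
def Stmt_Osc : Prop := ∀ (N : ℕ) (g ψ k : ℝ → ℝ) (A B Kk : ℝ), 0 < N → 0 ≤ A → 0 ≤ B →
    ContinuousOn g (Icc 0 1) → (∀ t ∈ Icc (0 : ℝ) 1, |g t| ≤ A) →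
    (∀ l : ℕ, l < N → ∫ s in ((l : ℝ) / N)..(((l : ℝ) + 1) / N), g s = 0) →
    ContinuousOn ψ (Icc 0 1) → (∀ t ∈ Icc (0 : ℝ) 1, |ψ t| ≤ B) →
    IntervalIntegrable k volume 0 1 → (∀ t, 0 ≤ k t) → (∫ t in (0 : ℝ)..1, k t) ≤ Kk →
    (∀ s t : ℝ, 0 ≤ s → s ≤ t → t ≤ 1 → |ψ t - ψ s| ≤ ∫ r in s..t, k r) →
    ∀ t ∈ Icc (0 : ℝ) 1, |∫ s in (0 : ℝ)..t, g s * ψ s| ≤ A * (B + Kk) / N

/-- B3. Bursts with `N` cells. -/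
def Stmt_Cells : Prop := ∀ (n : ℕ) (P c : Fin n → ℝ → ℝ) (L : ℝ), IsProf P →
    (∀ j, ContinuousOn (c j) (Icc 0 1)) → (∀ j t, 0 ≤ c j t) → (∀ j t, c j t ≤ L) →
    ∃ A : ℝ, 0 ≤ A ∧ ∀ N : ℕ, 0 < N → ∃ φ : Fin n → ℝ → ℝ, IsCells L A N P c φ

/-- B4. Profiles with small Lorentz functional. -/
def Stmt_Prof : Prop := ∀ (n : ℕ) (q Λ ε : ℝ), 1 < q → 0 ≤ Λ → 0 < ε → ∃ P : Fin n → ℝ → ℝ, IsProf P ∧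
    LF q (fun s => Λ * ∑ j, |P j s|) ≤ ENNReal.ofReal ε ∧ volume {s | ∃ j, P j s ≠ 0} ≤ ENNReal.ofReal ε

/-- B5. Riesz representation of functionals bounded by `‖ι v‖`. -/
def Stmt_Riesz : Prop := ∀ (V K : Type) [NormedAddCommGroup V] [InnerProductSpace ℝ V] [CompleteSpace V]
    [NormedAddCommGroup K] [InnerProductSpace ℝ K] [CompleteSpace K] (ι : V →L[ℝ] K) (G : V →L[ℝ] ℝ) (C : ℝ),
    (∀ v, |G v| ≤ C * ‖ι v‖) → ∃ h : K, ∀ v, G v = ⟪h, ι v⟫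

/-- B6. Time-dependent cone density. -/
def Stmt_Dens : Prop := ∀ (X : Type) [NormedAddCommGroup X] [NormedSpace ℝ X] [CompleteSpace X] (S : Set X),
    (∀ (x : X) (ε : ℝ), 0 < ε → ∃ (n : ℕ) (g : Fin n → X), (∀ j, g j ∈ S) ∧ ‖∑ j, g j - x‖ ≤ ε) →
    ∀ (F F₁ : ℝ → X) (τ δ : ℝ), IsH1loc F F₁ → 0 < τ → (∀ t ∈ Icc 0 τ, F t = 0) → 0 < δ →
    ∃ (n : ℕ) (g : Fin n → X) (c c₁ : Fin n → ℝ → ℝ) (L : ℝ), (∀ j, g j ∈ S) ∧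
      (∀ j, IsH1loc (c j) (c₁ j)) ∧ (∀ j t, 0 ≤ c j t) ∧ (∀ j t, c j t ≤ L) ∧ (∀ j t, |c₁ j t| ≤ L) ∧
      (∀ j, c j 0 = 0) ∧ ∫ t in (0 : ℝ)..1, ‖∑ j, c₁ j t • g j - F₁ t‖ ^ 2 ≤ δ ^ 2

/-! ## C. The three steps and the concatenation -/

/-- C1. The path: from `x₀` to the target `w`, with a residual force `F` that vanishes near `t = 0`. -/
def Stmt_Path : Prop := ∀ (V K : Type) [NormedAddCommGroup V] [InnerProductSpace ℝ V] [CompleteSpace V]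
    [NormedAddCommGroup K] [InnerProductSpace ℝ K] (D : Data V K) (η : ℝ) (f f₁ : ℝ → (V →L[ℝ] ℝ)) (x₀ : V)
    (h₀ : K) (w : ℝ → V) (τ δ : ℝ), 0 < η → 0 < τ → 0 < δ → IsH1loc f f₁ → Cpt D η (f 0) x₀ h₀ →
    ContDiff ℝ 2 w →
    ∃ (v v₁ : ℝ → V) (F F₁ : ℝ → (V →L[ℝ] ℝ)) (τ' : ℝ), 0 < τ' ∧ SolOn D η (fun t => f t + F t) 1 v v₁ ∧
      v 0 = x₀ ∧ IsH1loc F F₁ ∧ (∀ t ∈ Icc 0 τ', F t = 0) ∧
      (∀ t ∈ Icc (0 : ℝ) 1, ‖D.ι (v t - w t)‖ ≤ ‖D.ι (x₀ - w 0)‖ + δ) ∧ ∀ t ∈ Icc τ 1, v t = w t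

/-- C2. Openness: small changes of the force in `H¹(0,1;V')`. -/
def Stmt_Open : Prop := ∀ (V K : Type) [NormedAddCommGroup V] [InnerProductSpace ℝ V] [CompleteSpace V]
    [NormedAddCommGroup K] [InnerProductSpace ℝ K] (D : Data V K) (η : ℝ) (f f₁ F F₁ : ℝ → (V →L[ℝ] ℝ))
    (v v₁ : ℝ → V) (h₀ : K) (δ : ℝ), 0 < η → 0 < δ → IsH1loc f f₁ → IsH1loc F F₁ → F 0 = 0 →
    SolOn D η (fun t => f t + F t) 1 v v₁ → Cpt D η (f 0) (v 0) h₀ →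
    ∃ δ₀ : ℝ, 0 < δ₀ ∧ ∀ G G₁ : ℝ → (V →L[ℝ] ℝ), IsH1loc G G₁ → G 0 = 0 →
      ∫ t in (0 : ℝ)..1, ‖G₁ t - F₁ t‖ ^ 2 ≤ δ₀ ^ 2 →
      ∃ u u₁ : ℝ → V, SolOn D η (fun t => f t + G t) 1 u u₁ ∧ u 0 = v 0 ∧ EB D u₁ ∧
        ∀ t ∈ Icc (0 : ℝ) 1, ‖D.ι (u t - v t)‖ ≤ δ

/-- C3. Averaging. -/
def Stmt_Avg : Prop := ∀ (V K : Type) [NormedAddCommGroup V] [InnerProductSpace ℝ V] [CompleteSpace V]
    [NormedAddCommGroup K] [InnerProductSpace ℝ K] (D : Data V K) (η : ℝ) (f f₁ : ℝ → (V →L[ℝ] ℝ))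
    (v v₁ : ℝ → V) (h₀ : K) (δ : ℝ) (n : ℕ) (a : Fin n → V) (M : ℝ) (c c₁ P : Fin n → ℝ → ℝ) (L : ℝ),
    0 < η → 0 < δ → IsH1loc f f₁ →
    SolOn D η (fun t => f t - ∑ j, c j t • D.b (a j) (a j)) 1 v v₁ → Cpt D η (f 0) (v 0) h₀ →
    (∀ j, TF D (a j) M) → (∀ j, IsH1loc (c j) (c₁ j)) → (∀ j t, 0 ≤ c j t) → (∀ j t, c j t ≤ L) →
    (∀ j t, |c₁ j t| ≤ L) → IsProf P →
    ∃ (φ : Fin n → ℝ → ℝ) (u u₁ : ℝ → V), IsBurst L P φ ∧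
      SolOn D η (fun t => f t + ∑ j, deriv (φ j) t • J D (a j)) 1 u u₁ ∧ u 0 = v 0 ∧ EB D u₁ ∧
      ∀ t ∈ Icc (0 : ℝ) 1, ‖D.ι (u t - v t - ∑ j, φ j t • a j)‖ ≤ δ

/-- Output of one step on `[0,1]`. -/
structure IsStep {V K : Type} [NormedAddCommGroup V] [InnerProductSpace ℝ V]
    [NormedAddCommGroup K] [InnerProductSpace ℝ K] (D : Data V K) (A : V → Prop) (wt : V → ℝ) (η : ℝ)
    (f : ℝ → (V →L[ℝ] ℝ)) (x₀ : V) (w : ℝ → V) (q ε τ : ℝ) (n : ℕ) (a : Fin n → V) (φ : Fin n → ℝ → ℝ)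
    (u u₁ : ℝ → V) (h₁ : K) : Prop where
  A : ∀ j, A (a j)
  smooth : ∀ j, ContDiff ℝ ∞ (φ j)
  supp : ∀ j, tsupport (φ j) ⊆ Ioo 0 1
  lf : LF q (fun t => ∑ j, wt (a j) * |φ j t|) ≤ ENNReal.ofReal ε
  vol : volume {t | ∃ j, φ j t ≠ 0} ≤ ENNReal.ofReal ε
  sol : SolOn D η (fun t => f t + ∑ j, deriv (φ j) t • J D (a j)) 1 u u₁
  init : u 0 = x₀
  eb : EB D u₁
  close : ∀ t ∈ Icc (0 : ℝ) 1, ‖D.ι (u t - ∑ j, φ j t • a j - w t)‖ ≤ ‖D.ι (x₀ - w 0)‖ + ε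
  close' : ∀ t ∈ Icc τ 1, ‖D.ι (u t - ∑ j, φ j t • a j - w t)‖ ≤ ε
  cpt : Cpt D η (f 1) (u 1) h₁

/-- The class `A` of test fields: bounds and density of the cone of the `B(a,a)`. -/
structure IsClass {V K : Type} [NormedAddCommGroup V] [InnerProductSpace ℝ V]
    [NormedAddCommGroup K] [InnerProductSpace ℝ K] (D : Data V K) (A : V → Prop) : Prop where
  tf : ∀ a, A a → ∃ M, TF D a M
  dense : ∀ (l : V →L[ℝ] ℝ) (ε : ℝ), 0 < ε → ∃ (n : ℕ) (a : Fin n → V), (∀ j, A (a j)) ∧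
    ‖∑ j, D.b (a j) (a j) - l‖ ≤ ε

/-- C4. One step. -/
def Stmt_Step : Prop := ∀ (V K : Type) [NormedAddCommGroup V] [InnerProductSpace ℝ V] [CompleteSpace V]
    [NormedAddCommGroup K] [InnerProductSpace ℝ K] [CompleteSpace K] (D : Data V K) (A : V → Prop) (wt : V → ℝ)
    (η : ℝ) (f f₁ : ℝ → (V →L[ℝ] ℝ)) (x₀ : V) (h₀ : K) (w : ℝ → V) (q ε τ : ℝ),
    IsClass D A → (∀ a, 0 ≤ wt a) → 0 < η → IsH1loc f f₁ → Cpt D η (f 0) x₀ h₀ → ContDiff ℝ 2 w →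
    1 < q → 0 < ε → 0 < τ →
    ∃ (n : ℕ) (a : Fin n → V) (φ : Fin n → ℝ → ℝ) (u u₁ : ℝ → V) (h₁ : K),
      IsStep D A wt η f x₀ w q ε τ n a φ u u₁ h₁

/-- C5. Concatenation. -/
def Stmt_Concat : Prop := ∀ (V K : Type) [NormedAddCommGroup V] [InnerProductSpace ℝ V] [CompleteSpace V]
    [NormedAddCommGroup K] [InnerProductSpace ℝ K] [CompleteSpace K] (D : Data V K) (A : V → Prop) (wt : V → ℝ)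
    (η : ℝ) (f f₁ : ℝ → (V →L[ℝ] ℝ)) (u₀ : V) (h₀ : K) (w : ℝ → V) (q τ : ℝ) (ε : ℕ → ℝ),
    IsClass D A → (∀ a, 0 ≤ wt a) → 0 < η → IsH1loc f f₁ → Cpt D η (f 0) u₀ h₀ → ContDiff ℝ 2 w →
    1 < q → (∀ l, 0 < ε l) → 0 < τ →
    ∃ (n : ℕ → ℕ) (a : (l : ℕ) → Fin (n l) → V) (φ : (l : ℕ) → Fin (n l) → ℝ → ℝ) (u u₁ : ℝ → V),
      (∀ l j, A (a l j)) ∧ (∀ l j, ContDiff ℝ ∞ (φ l j)) ∧ (∀ l j, tsupport (φ l j) ⊆ Ioo 0 1) ∧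
      (∀ l, LF q (fun t => ∑ j, wt (a l j) * |φ l j t|) ≤ ENNReal.ofReal (ε l)) ∧
      (∀ l, volume {t | ∃ j, φ l j t ≠ 0} ≤ ENNReal.ofReal (ε l)) ∧
      IsH1loc u u₁ ∧ u 0 = u₀ ∧ EB D u₁ ∧
      (∀ l : ℕ, ∀ᵐ t ∂(volume.restrict (Ioc (l : ℝ) (l + 1))), ∀ y, ⟪D.ι (u₁ t), D.ι y⟫
        + η * D.a (u t) y + D.b (u t) (u t) y
          = f t y + ∑ j, deriv (φ l j) (t - l) * ⟪D.ι (a l j), D.ι y⟫) ∧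
      ∀ l : ℕ, ∀ t ∈ Icc (l : ℝ) (l + 1), 0 < l ∨ τ ≤ t →
        ‖D.ι (u t - ∑ j, φ l j (t - l) • a l j - w t)‖ ≤ ε l

/-! ## D. Concrete part -/

/-- `a ∈ V` is represented by a test field. -/
def InTest' {Ω : Set E} (a : V Ω) : Prop := ∃ p : E → E, IsTest Ω p ∧ Represents Ω p a

/-- D1a. Bounds for test fields. -/
def Stmt_TFtest : Prop := ∀ (Ω : Set E), IsOpen Ω → Bornology.IsBounded Ω → ∀ D : Data (V Ω) (L2 Ω), IsNSData Ω D →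
    ∀ (p : E → E) (pV : V Ω), IsTest Ω p → Represents Ω p pV → ∃ M, TF D pV M

/-- D1b. The cone generated by the `B(a,a)`, `a` a test field, is dense in `V'`. -/
def Stmt_ConeDense : Prop := ∀ (Ω : Set E), IsOpen Ω → Bornology.IsBounded Ω → ∀ D : Data (V Ω) (L2 Ω),
    IsNSData Ω D → ∀ (l : V Ω →L[ℝ] ℝ) (ε : ℝ), 0 < ε → ∃ (n : ℕ) (a : Fin n → V Ω), (∀ j, InTest' (a j)) ∧
      ‖∑ j, D.b (a j) (a j) - l‖ ≤ ε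

/-- D1. Test fields form a class. -/
def Stmt_Class : Prop := ∀ (Ω : Set E), IsOpen Ω → Bornology.IsBounded Ω → ∀ D : Data (V Ω) (L2 Ω), IsNSData Ω D →
    IsClass D (InTest' (Ω := Ω))

/-- D2. Smooth targets in `V`. -/
def Stmt_Target : Prop := ∀ (Ω : Set E) (w : ℝ → L2 Ω) (δ : ℝ → ℝ), (∀ t, 0 ≤ t → w t ∈ Hspace Ω) →
    ContinuousOn w (Ici 0) → ContinuousOn δ (Ici 0) → (∀ t, 0 ≤ t → 0 < δ t) →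
    ∃ w' : ℝ → V Ω, ContDiff ℝ 2 w' ∧ ∀ t, 0 ≤ t → ‖fld (w' t) - w t‖ ≤ δ t

/-- D3. The field `Φ(t,x) = ∑ⱼ φ_{l,j}(t-l) p_{l,j}(x)`, `l ≤ t < l+1`. -/
def glueF {F : Type*} [AddCommGroup F] [Module ℝ F] (n : ℕ → ℕ) (φ : (l : ℕ) → Fin (n l) → ℝ → ℝ)
    (p : (l : ℕ) → Fin (n l) → F) (t : ℝ) : F :=
  if t < 0 then 0 else ∑ j, φ ⌊t⌋₊ j (t - ⌊t⌋₊) • p ⌊t⌋₊ j

/-- D3. Smoothness of the glued field, jointly in `(t,x)`. -/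
def Stmt_GlueF : Prop := ∀ (n : ℕ → ℕ) (φ : (l : ℕ) → Fin (n l) → ℝ → ℝ) (p : (l : ℕ) → Fin (n l) → E → E),
    (∀ l j, ContDiff ℝ ∞ (φ l j)) → (∀ l j, tsupport (φ l j) ⊆ Ioo 0 1) → (∀ l j, ContDiff ℝ ∞ (p l j)) →
    ContDiff ℝ ∞ (fun z : ℝ × E => glueF n φ p z.1 z.2) ∧ (∃ τ : ℝ, 0 < τ ∧ ∀ t, t ≤ τ → glueF n φ p t = 0) ∧
    ∀ (l : ℕ) (t : ℝ), (l : ℝ) ≤ t → t ≤ l + 1 →
      glueF n φ p t = ∑ j, φ l j (t - l) • p l j ∧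
      ∀ x, deriv (fun s => glueF n φ p s x) t = ∑ j, deriv (φ l j) (t - l) • p l j x

/-- D4. Lorentz functional and support of a glued function. -/
def Stmt_LFsum : Prop := ∀ (q : ℝ) (F : ℕ → ℝ → ℝ) (G : ℝ → ℝ) (ε : ℝ), 1 < q → 0 < ε →
    (∀ t, G t ≤ 0 ∨ ∃ l : ℕ, G t ≤ F l (t - l)) →
    (∀ l : ℕ, LF q (F l) ≤ ENNReal.ofReal (ε / (2 * (2 ^ q * 2) ^ (l + 1)))) → LF q G ≤ ENNReal.ofReal ε

end Pool.Agent.NSV
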