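import Pool.Agent.NSV.Main
import Pool.Agent.NSV.SealedV

/-!
# MP_fd8964_an: transfer of Theorem V from `Pool.Agent.NSD.Defs` to `Pool.Agent.NSD.Sealed`
-/

open MeasureTheory Set Filter Topology
open scoped RealInnerProductSpace ContDiff

noncomputable section

namespace Pool.Agent.NSVT

open Pool.Agent

section
variable (VV LE LG : Type) [NormedAddCommGroup VV] [InnerProductSpace ℝ VV] [NormedAddCommGroup LE]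
  [InnerProductSpace ℝ LE] [NormedAddCommGroup LG] [InnerProductSpace ℝ LG]

def Adm (fl : VV → LE) (Hs : Submodule ℝ LE) (f : ℝ → (VV →L[ℝ] ℝ)) : Prop :=
  (∃ f₁ : ℝ → (VV →L[ℝ] ℝ), (∀ T : ℝ, MemLp f₁ 2 (volume.restrict (Ioc 0 T))) ∧
    ∀ t : ℝ, 0 ≤ t → f t = f 0 + ∫ s in (0 : ℝ)..t, f₁ s) ∧
  ∃ h ∈ Hs, ∀ v : VV, f 0 v = ⟪h, fl v⟫

def Reg (fl : VV → LE) (gr : VV → LG) (tri : VV → VV → VV → ℝ) (η : ℝ) (u₀ : VV) (f : ℝ → (VV →L[ℝ] ℝ))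
    (u : ℝ → VV) : Prop :=
  ∃ w : ℝ → VV,
    (∀ T : ℝ, MemLp w 2 (volume.restrict (Ioc 0 T))) ∧
    (∀ T : ℝ, ∃ C : ℝ, ∀ᵐ t ∂(volume.restrict (Ioc 0 T)), ‖fl (w t)‖ ≤ C) ∧
    (∀ t : ℝ, 0 ≤ t → u t = u₀ + ∫ s in (0 : ℝ)..t, w s) ∧
    ∀ᵐ t ∂(volume.restrict (Ioi (0 : ℝ))), ∀ v : VV,
      ⟪fl (w t), fl v⟫ + tri (u t) (u t) v + η * ⟪gr (u t), gr v⟫ = f t v

/-- The theorem for a fixed domain, in terms of abstract spaces. -/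
def AbsV (fl : VV → LE) (gr : VV → LG) (tri : VV → VV → VV → ℝ) (Hs : Submodule ℝ LE) (Good : VV → Prop)
    (FF : Type) (vib : FF → Prop) (lor : ℕ → ℝ → FF → ENNReal) (sv : FF → ENNReal) (pd : FF → ℝ → VV → ℝ)
    (ds : VV → FF → ℝ → LE → ℝ) : Prop :=
  ∀ (η : ℝ), 0 < η → ∀ (u₀ : VV), Good u₀ → ∀ (f : ℝ → (VV →L[ℝ] ℝ)), Adm VV LE fl Hs f →
    ∀ (w : ℝ → LE), (∀ t, 0 ≤ t → w t ∈ Hs) → ContinuousOn w (Ici 0) →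
    ∀ (δ : ℝ → ℝ), ContinuousOn δ (Ici 0) → (∀ t, 0 ≤ t → 0 < δ t) →
    ∀ (k : ℕ) (q ε : ℝ), 1 < q → 0 < ε →
    ∃ (Φ : FF) (g : ℝ → (VV →L[ℝ] ℝ)) (u : ℝ → VV), vib Φ ∧
      lor k q Φ ≤ ENNReal.ofReal ε ∧ sv Φ ≤ ENNReal.ofReal ε ∧
      Adm VV LE fl Hs g ∧ (∀ t, 0 ≤ t → ∀ v : VV, g t v = f t v + pd Φ t v) ∧
      Reg VV LE LG fl gr tri η u₀ g u ∧ ∀ t, ε ≤ t → ds (u t) Φ t (w t) ≤ δ t

end

theorem absV_unsealed (h : NSV.Stmt_MainV) (Ω : Set NSD.E) (hΩ : IsOpen Ω) (hb : Bornology.IsBounded Ω) :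
    AbsV (NSD.V Ω) (NSD.L2 Ω) (NSD.L2G Ω) NSD.fld NSD.grd NSD.trilin (NSD.Hspace Ω) NSD.MemH2
      (ℝ → NSD.E → NSD.E) (NSV.IsVib Ω) NSV.lorentz NSV.suppVol NSV.pairDt (fun u Φ t w => NSV.dist2 u (Φ t) w) :=
  fun η hη u₀ hu₀ f hf w hw hwc δ hδc hδ k q ε hq hε => h Ω hΩ hb η hη u₀ hu₀ f hf w hw hwc δ hδc hδ k q ε hq hε

theorem key (Ω : Set NSD.E) :
    AbsV (NSD.V Ω) (NSD.L2 Ω) (NSD.L2G Ω) NSD.fld NSD.grd NSD.trilin (NSD.Hspace Ω) NSD.MemH2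
      (ℝ → NSD.E → NSD.E) (NSV.IsVib Ω) NSV.lorentz NSV.suppVol NSV.pairDt (fun u Φ t w => NSV.dist2 u (Φ t) w) →
    AbsV (NSDS.V Ω) (NSDS.L2E Ω) (NSDS.L2G Ω) NSDS.fld NSDS.grd NSDS.trilin (NSDS.H Ω) NSDS.MemH2
      (ℝ → NSDS.R3 → NSDS.R3) (NSVS.IsVib Ω) NSVS.lorentz NSVS.suppVol NSVS.pairDt
      (fun u Φ t w => NSVS.dist2 u (Φ t) w) := by
  delta NSVS.IsVib NSVS.lorentz NSVS.suppVol NSVS.pairDt NSVS.dist2 NSV.IsVib NSV.lorentz NSV.suppVol NSV.pairDt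
    NSV.dist2 NSDS.MemH2 NSDS.trilin NSDS.fld NSDS.grd NSDS.H NSDS.vI NSDS.vN NSDS.V NSDS.Vsub NSDS.pgrd
    NSDS.pfld NSDS.pairI NSDS.pairN NSDS.Pair NSDS.gfn NSDS.l2gI NSDS.l2gN NSDS.L2G NSDS.fn NSDS.l2I
    NSDS.l2N NSDS.L2E NSDS.IsTest NSDS.divField NSDS.gradField NSDS.row NSDS.g3I NSDS.g3N NSDS.G3
    NSDS.bas NSDS.coord NSDS.r3M NSDS.r3I NSDS.r3N NSDS.R3 NSD.MemH2 NSD.trilin NSD.fld NSD.grd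
    NSD.Hspace NSD.V NSD.Represents NSD.IsTest NSD.divField NSD.gradField NSD.e NSD.L2 NSD.L2G NSD.H1
    NSD.G NSD.E
  exact fun h => h

theorem absV_sealed (h : NSV.Stmt_MainV) (Ω : Set NSDS.R3) (hΩ : IsOpen Ω) (hb : Bornology.IsBounded Ω) :
    AbsV (NSDS.V Ω) (NSDS.L2E Ω) (NSDS.L2G Ω) NSDS.fld NSDS.grd NSDS.trilin (NSDS.H Ω) NSDS.MemH2
      (ℝ → NSDS.R3 → NSDS.R3) (NSVS.IsVib Ω) NSVS.lorentz NSVS.suppVol NSVS.pairDt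
      (fun u Φ t w => NSVS.dist2 u (Φ t) w) :=
  key Ω (absV_unsealed h Ω hΩ hb)

end Pool.Agent.NSVT
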